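import Pool.Agent.Y810.SP.Base

set_option autoImplicit false

open Set Topology Filter
open scoped ContDiff Manifold

namespace Pool.Agent.Y810.SP

theorem le2 {n : WithTop ℕ∞} {f : E → ℝ} {z : E} (h : ContDiffAt ℝ ∞ f z) (hn : n ≤ ∞) :
    ContDiffAt ℝ n f z := h.of_le hn

theorem two_le : (2 : WithTop ℕ∞) ≤ ∞ := by norm_cast

theorem pot_add (L : LevBasics) (C : Coord) {F U : Fin 4 → E → ℝ} (hF : IsPot F) (hU : IsFun U) :
    IsPot (fun j z => F j z + U j z) where
  smooth := fun j z hz => (hF.smooth j z hz).add (hU.smooth j z hz)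
  per := by
    intro z l hz hl v
    rw [← hF.per z l hz hl v]
    apply L.congr
    filter_upwards [(C.open_V 0).mem_nhds hz] with t ht
    rw [hU.per t l ht hl]
    ring
  compat := by
    intro j z hz h0 v
    rw [← hF.compat j z hz h0 v]
    apply L.congr
    filter_upwards [(C.open_V j).mem_nhds hz,
      (C.tr_an j z).continuousAt.preimage_mem_nhds ((C.open_V 0).mem_nhds h0)] with t ht ht0
    rw [hU.compat j t ht ht0]
    ring

section

variable {X : Type} [TopologicalSpace X] [ChartedSpace E X] {κ : Fin 4 → E → X}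

theorem dl_eq (L : LevBasics) {u : X → ℝ} {f : ℂ → X} {j : Fin 4} {γ : ℂ → E}
    {g : E → ℝ} (hγ : AnalyticAt ℂ γ 0) (hf : ∀ᶠ ζ in 𝓝 0, f ζ = κ j (γ ζ))
    (hg : ContDiffAt ℝ ∞ g (γ 0)) (hu : ∀ᶠ t in 𝓝 (γ 0), u (κ j t) = g t) :
    dl u f = lev g (γ 0) (deriv γ 0) := by
  rw [← L.disc g γ hγ (hg.of_le two_le)]
  unfold dl
  refine (InnerProductSpace.laplacian_congr_nhds ?_).eq_of_nhds
  filter_upwards [hf, hγ.continuousAt.eventually hu] with ζ h1 h2
  rw [h1, h2]

theorem fun_smooth (S : IsSurf κ) (C : Coord) {u : X → ℝ} {F : Fin 4 → E → ℝ} (hF : Sm F)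
    (hu : ∀ j, ∀ z ∈ V j, u (κ j z) = F j z) : ContMDiff 𝓘(ℝ, E) 𝓘(ℝ, ℝ) ∞ u := by
  intro p
  obtain ⟨j, z, hz, rfl⟩ := S.cover p
  rw [S.smooth u j z hz]
  refine (hF j z hz).congr_of_eventuallyEq ?_
  filter_upwards [(C.open_V j).mem_nhds hz] with t ht
  exact hu j t ht

end

theorem lam_open (C : Coord) : IsOpen {y : ℂ | y ∉ Lam} := by
  have h : IsOpen ((fun y : ℂ => ((0 : ℂ), y)) ⁻¹' (V 0)) := (C.open_V 0).preimage (by fun_prop)
  convert h using 1
  ext y
  simp [V, Lam2, Lam.zero_mem]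

theorem notLam_V0 {z : E} (h : z.2 ∉ Lam) : z ∈ V 0 := by
  simp only [V, if_true]
  exact fun hh => h hh.2

theorem stMain (L : LevBasics) (C : Coord) (hS : StSurf) (hU : StFun) (hF : StForm) (hP : StPot)
    (hK : StKahler) (hT : StTransfer) (hK1 : StK1) (hNef : StNef) (hBig : StBig) (hNot : StNot)
    (hH : StH) : StMain := by
  obtain ⟨X, tX, cX, κ, S⟩ := hS
  obtain ⟨H, A, e, h⟩ := hH
  obtain ⟨Ω, hΩ⟩ := hF X κ S (Om H A e) (hP H A e h).2
  obtain ⟨θ, hθ⟩ := hF X κ S (Th H A e) (hP H A e h).1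
  refine ⟨X, tX, cX, S.man, S.t2, S.compact, S.conn, Ω, θ, ?_, ?_, ?_, ?_⟩
  · intro f hf hd
    obtain ⟨j, z, hz, hκ⟩ := S.cover (f 0)
    obtain ⟨γ, h1, h2, h3, h4⟩ := S.disc2 f hf j z hz hκ
    rw [hΩ f j γ h1 (h2 ▸ hz) h3]
    exact hK H A e h j _ (h2 ▸ hz) _ (fun h5 => hd (h4 h5))
  · intro ε hε
    have he := h.e_pos
    obtain ⟨U, U1, U2⟩ := hNef H A e h (16 * e * ε) (by positivity)
    obtain ⟨u, hu⟩ := hU X κ S U U1
    refine ⟨u, fun_smooth S C U1.smooth hu, ?_⟩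
    intro f hf
    obtain ⟨j, z, hz, hκ⟩ := S.cover (f 0)
    obtain ⟨γ, h1, h2, h3, h4⟩ := S.disc2 f hf j z hz hκ
    have hz' : γ 0 ∈ V j := h2 ▸ hz
    rw [hΩ f j γ h1 hz' h3, hθ f j γ h1 hz' h3,
      dl_eq L h1 h3 (U1.smooth j _ hz') (by
        filter_upwards [(C.open_V j).mem_nhds hz'] with t ht
        exact hu j t ht)]
    rw [← L.add _ _ _ _ (((hP H A e h).1.smooth j _ hz').of_le two_le)
      ((U1.smooth j _ hz').of_le two_le)]
    refine hT (fun j z => Th H A e j z + U j z) (Om H A e) (-ε) (pot_add L C (hP H A e h).1 U1)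
      (hP H A e h).2 ?_ j _ hz' _
    intro z hz v
    have a1 := U2 z hz v
    have a2 := hK1 H A e h z hz v
    have a3 : ε * (16 * e * nm v) ≤ ε * lev (Om H A e 0) z v := mul_le_mul_of_nonneg_left a2 hε.le
    linarith
  · obtain ⟨δ, ψ, d0, p1, p2, p3, p4⟩ := hBig H A e h
    classical
    set B : Set X := κ 0 '' {z | z.2 ∉ Lam} with hB
    let Ψ : X → ℝ := fun p => if hh : ∃ z : E, z.2 ∉ Lam ∧ κ 0 z = p then ψ hh.choose else 0
    have hΨ0 : ∀ z : E, z.2 ∉ Lam → Ψ (κ 0 z) = ψ z := by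
      intro z hz
      have hh : ∃ z' : E, z'.2 ∉ Lam ∧ κ 0 z' = κ 0 z := ⟨z, hz, rfl⟩
      have e1 : Ψ (κ 0 z) = ψ hh.choose := dif_pos hh
      rw [e1]
      obtain ⟨c1, c2⟩ := hh.choose_spec
      have c3 := (S.eq0 _ _ (notLam_V0 hz) (notLam_V0 c1)).mp c2.symm
      have := p2 z (hh.choose - z) hz c3
      rw [add_sub_cancel] at this
      exact this
    have hBm : ∀ j, ∀ z ∈ V j, (κ j z ∈ B ↔ (tr j z).2 ∉ Lam) := by
      intro j z hz
      constructor
      · rintro ⟨z', hz', h1⟩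
        have h0 : tr j z ∈ V 0 := by
          by_contra hc
          exact S.ne j z hz hc z' (notLam_V0 hz') h1.symm
        rw [S.eqj j z hz h0] at h1
        have h2 := (S.eq0 _ _ (notLam_V0 hz') h0).mp h1
        intro h3
        apply hz'
        have h4 : z'.2 = (tr j z).2 - (tr j z - z').2 := by simp
        rw [h4]
        exact Lam.sub_mem h3 h2.2
      · intro h1
        exact ⟨tr j z, h1, (S.eqj j z hz (notLam_V0 h1)).symm⟩
    have hΨ : ∀ j, ∀ z ∈ V j, (tr j z).2 ∉ Lam → Ψ (κ j z) = ψ (tr j z) := by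
      intro j z hz h1
      rw [S.eqj j z hz (notLam_V0 h1), hΨ0 _ h1]
    have hLo : IsOpen {z : E | z.2 ∉ Lam} := (lam_open C).preimage continuous_snd
    refine ⟨Bᶜ, δ, Ψ, ?_, ?_, d0, ?_, ?_, ?_⟩
    · rw [isClosed_compl_iff, isOpen_iff_mem_nhds]
      rintro _ ⟨z, hz, rfl⟩
      rw [← S.nhds 0 z (notLam_V0 hz), mem_map]
      filter_upwards [hLo.mem_nhds hz] with t ht
      exact ⟨t, ht, rfl⟩
    · rw [compl_compl]
      intro p
      obtain ⟨j, z, hz, rfl⟩ := S.cover p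
      have hc : ContinuousAt (κ j) z := (S.nhds j z hz).le
      have h1 := C.dense j z hz
      refine closure_mono ?_ (hc.continuousWithinAt.mem_closure_image h1)
      rintro _ ⟨t, ⟨ht, ht2⟩, rfl⟩
      exact (hBm j t ht).mpr ht2.2.1
    · intro p hp
      rw [mem_compl_iff, not_not] at hp
      obtain ⟨z, hz, rfl⟩ := hp
      rw [S.smooth Ψ 0 z (notLam_V0 hz)]
      refine (p1 z hz).congr_of_eventuallyEq ?_
      filter_upwards [hLo.mem_nhds hz] with t ht
      exact hΨ0 t ht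
    · intro p hp
      obtain ⟨j, z, hz, rfl⟩ := S.cover p
      have hz2 : (tr j z).2 ∈ Lam := by
        by_contra hc
        exact hp ((hBm j z hz).mpr hc)
      rw [compl_compl]
      have e1 : 𝓝[B] (κ j z) = map (κ j) (𝓝[κ j ⁻¹' B] z) := by
        rw [nhdsWithin, nhdsWithin, ← S.nhds j z hz, ← comap_principal, Filter.push_pull]
      rw [e1, tendsto_map'_iff]
      have h1 := p4 j z hz hz2
      have h2 : 𝓝[κ j ⁻¹' B] z ≤ 𝓝[{t | (tr j t).2 ∉ Lam}] z := by
        refine nhdsWithin_le_iff.mpr ?_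
        rw [mem_nhdsWithin_iff_exists_mem_nhds_inter]
        exact ⟨V j, (C.open_V j).mem_nhds hz, fun t ht => (hBm j t ht.1).mp ht.2⟩
      refine (h1.mono_left h2).congr' ?_
      have h3 : V j ∩ κ j ⁻¹' B ∈ 𝓝[κ j ⁻¹' B] z :=
        inter_mem (mem_nhdsWithin_of_mem_nhds ((C.open_V j).mem_nhds hz)) self_mem_nhdsWithin
      filter_upwards [h3] with t ht
      exact (hΨ j t ht.1 ((hBm j t ht.1).mp ht.2)).symm
    · intro f hf hp
      rw [mem_compl_iff, not_not] at hp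
      obtain ⟨z, hz, hκ⟩ := hp
      obtain ⟨γ, h1, h2, h3, h4⟩ := S.disc2 f hf 0 z (notLam_V0 hz) hκ
      have hz' : (γ 0).2 ∉ Lam := h2 ▸ hz
      have hV : γ 0 ∈ V 0 := notLam_V0 hz'
      rw [hΩ f 0 γ h1 hV h3, hθ f 0 γ h1 hV h3,
        dl_eq L h1 h3 (p1 _ hz') (by
          filter_upwards [hLo.mem_nhds hz'] with t ht
          exact hΨ0 t ht)]
      rw [← L.add _ _ _ _ (((hP H A e h).1.smooth 0 _ hV).of_le two_le)
        ((p1 _ hz').of_le two_le)]
      exact p3 _ hz' _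
  · rintro ⟨u, hu1, hu2⟩
    have hU : IsFun (fun j z => u (κ j z)) := by
      refine ⟨fun j z hz => (S.smooth u j z hz).mp (hu1 _), ?_, ?_⟩
      · intro z l hz hl
        have hz' : z + l ∈ V 0 := by
          simp only [V, if_true] at hz ⊢
          intro hh
          apply hz
          refine ⟨?_, ?_⟩
          · have := Lam.sub_mem hh.1 hl.1
            simpa using this
          · have := Lam.sub_mem hh.2 hl.2
            simpa using this
        have := (S.eq0 z (z + l) hz hz').mpr (by simpa using hl)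
        change u (κ 0 (z + l)) = u (κ 0 z)
        rw [this]
      · intro j z hz h0
        change u (κ j z) = u (κ 0 (tr j z))
        rw [S.eqj j z hz h0]
    refine hNot H A e h _ hU ?_
    intro j z hz v
    have hγ : AnalyticAt ℂ (fun ζ : ℂ => z + ζ • v) 0 := by fun_prop
    have hz' : (fun ζ : ℂ => z + ζ • v) 0 ∈ V j := by simpa using hz
    have hd : deriv (fun ζ : ℂ => z + ζ • v) 0 = v := by
      have : HasDerivAt (fun ζ : ℂ => z + ζ • v) ((1 : ℂ) • v) 0 :=
        ((hasDerivAt_id (0 : ℂ)).smul_const v).const_add z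
      rw [this.deriv, one_smul]
    have h1 := hu2 (fun ζ => κ j (z + ζ • v)) (S.disc1 j _ hz' hγ)
    rw [zero_mul, hθ _ j (fun ζ : ℂ => z + ζ • v) hγ hz' (Eventually.of_forall fun _ => rfl), hd] at h1
    simp only [zero_smul, add_zero] at h1
    rw [L.add _ _ _ _ (((hP H A e h).1.smooth j z hz).of_le two_le)
      ((hU.smooth j z hz).of_le two_le)]
    exact h1

end Pool.Agent.Y810.SP
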