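import Pool.Agent.Y810.SP.Base

set_option autoImplicit false

open Set Topology Filter
open scoped ContDiff Manifold

namespace Pool.Agent.Y810.SP




theorem HF.H_zero {H A : ℂ → ℝ} {e : ℝ} (h : HF H A e) {x : ℂ} (hx : x ∈ Lam) : H x = 0 := by
  have h1 := h.H_per 0 x hx
  rw [zero_add] at h1
  rw [h1, h.H_eq 0]
  simp

theorem HF.H_nn {H A : ℂ → ℝ} {e : ℝ} (h : HF H A e) (x : ℂ) : 0 ≤ H x := by
  by_cases hx : x ∈ Lam
  · rw [h.H_zero hx]
  · exact (h.H_pos x hx).le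

theorem HF.H_smooth {H A : ℂ → ℝ} {e : ℝ} (h : HF H A e) : ContDiff ℝ ∞ H := by
  have h1 : H = fun x => ‖x‖ ^ 2 * A x := funext h.H_eq
  rw [h1]
  exact (contDiff_norm_sq ℝ).mul h.A_smooth

/-- one of `w`, `x` is not in the lattice -/
theorem big_cases {z : E} (hz : z.2 ∉ Lam) : z.2 - z.1 ∉ Lam ∨ z.1 ∉ Lam := by
  by_contra hcon
  push Not at hcon
  apply hz
  have := Lam.add_mem hcon.1 hcon.2
  simpa using this

theorem big_pos1 {H A : ℂ → ℝ} {e : ℝ} (h : HF H A e) {z : E} (hz : z.2 ∉ Lam) :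
    0 < H (z.2 - z.1) + H z.1 ^ 2 := by
  rcases big_cases hz with h1 | h1
  · have := h.H_pos _ h1
    positivity
  · have h2 := h.H_pos _ h1
    have h3 := h.H_nn (z.2 - z.1)
    positivity

theorem big_pos2 {H A : ℂ → ℝ} {e : ℝ} (h : HF H A e) {z : E} (hz : z.2 ∉ Lam) :
    0 < H (z.2 - z.1) + H z.1 := by
  rcases big_cases hz with h1 | h1
  · have := h.H_pos _ h1
    have h3 := h.H_nn z.1
    positivity
  · have h2 := h.H_pos _ h1
    have h3 := h.H_nn (z.2 - z.1)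
    positivity

/-- the function `ψ` -/
noncomputable def bigPsi (H : ℂ → ℝ) (z : E) : ℝ :=
  far H z + 1 / 20 * (Real.log (H (z.2 - z.1) + H z.1 ^ 2) + Real.log (H (z.2 - z.1) + H z.1))

theorem big_sm1 {H A : ℂ → ℝ} {e : ℝ} (h : HF H A e) {z : E} (hz : z.2 ∉ Lam) :
    ContDiffAt ℝ ∞ (fun z : E => Real.log (H (z.2 - z.1) + H z.1 ^ 2)) z := by
  have hH := h.H_smooth
  apply ContDiffAt.log
  · exact ((hH.comp (contDiff_snd.sub contDiff_fst)).add ((hH.comp contDiff_fst).pow 2)).contDiffAt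
  · exact (big_pos1 h hz).ne'

theorem big_sm2 {H A : ℂ → ℝ} {e : ℝ} (h : HF H A e) {z : E} (hz : z.2 ∉ Lam) :
    ContDiffAt ℝ ∞ (fun z : E => Real.log (H (z.2 - z.1) + H z.1)) z := by
  have hH := h.H_smooth
  apply ContDiffAt.log
  · exact ((hH.comp (contDiff_snd.sub contDiff_fst)).add (hH.comp contDiff_fst)).contDiffAt
  · exact (big_pos2 h hz).ne'

theorem big_smlog {H A : ℂ → ℝ} {e : ℝ} (h : HF H A e) {y : ℂ} (hz : y ∉ Lam) :
    ContDiffAt ℝ ∞ (fun y : ℂ => Real.log (H y)) y := by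
  apply ContDiffAt.log
  · exact h.H_smooth.contDiffAt
  · exact (h.H_pos _ hz).ne'

theorem big_sm3 {H A : ℂ → ℝ} {e : ℝ} (h : HF H A e) {z : E} (hz : z.2 ∉ Lam) :
    ContDiffAt ℝ ∞ (fun z : E => Real.log (H z.2)) z := by
  apply ContDiffAt.log
  · exact (h.H_smooth.comp contDiff_snd).contDiffAt
  · exact (h.H_pos _ hz).ne'

theorem big_smooth {H A : ℂ → ℝ} {e : ℝ} (h : HF H A e) {z : E} (hz : z.2 ∉ Lam) :
    ContDiffAt ℝ ∞ (bigPsi H) z := by
  unfold bigPsi far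
  exact ((contDiffAt_const.mul (big_sm3 h hz)).sub (big_sm1 h hz)).add
    (contDiffAt_const.mul ((big_sm1 h hz).add (big_sm2 h hz)))

theorem big_per {H A : ℂ → ℝ} {e : ℝ} (h : HF H A e) {z l : E} (hl : l ∈ Lam2) :
    bigPsi H (z + l) = bigPsi H z := by
  have h1 : H (z + l).1 = H z.1 := h.H_per z.1 l.1 hl.1
  have h2 : H (z + l).2 = H z.2 := h.H_per z.2 l.2 hl.2
  have h3 : H ((z + l).2 - (z + l).1) = H (z.2 - z.1) := by
    have := h.H_per (z.2 - z.1) (l.2 - l.1) (Lam.sub_mem hl.2 hl.1)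
    rw [← this]
    congr 1
    simp only [Prod.snd_add, Prod.fst_add]
    ring
  unfold bigPsi far
  rw [h1, h2, h3]

theorem big_le {H A : ℂ → ℝ} {e : ℝ} (h : HF H A e) {r c K D : ℝ} (hb : HB H r c K D) {z : E}
    (hz : z.2 ∉ Lam) : bigPsi H z ≤ 13 / 20 * Real.log (H z.2) +
      (37 / 20 * Real.log K + 19 / 20 * Real.log (2 * D + 2)) := by
  have hP := big_pos1 h hz
  have hS := big_pos2 h hz
  have hy := h.H_pos _ hz
  have hK := hb.K_pos
  have hD := hb.D_pos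
  have ha := h.H_nn (z.2 - z.1)
  have hbb := h.H_nn z.1
  have hKS : H z.2 ≤ K * (H (z.2 - z.1) + H z.1) := by
    have := hb.tri (z.2 - z.1) z.1
    rwa [sub_add_cancel] at this
  have h1 : Real.log (H z.2) ≤ Real.log K + Real.log (H (z.2 - z.1) + H z.1) := by
    rw [← Real.log_mul hK.ne' hS.ne']
    exact Real.log_le_log hy hKS
  have h2 : 2 * Real.log (H (z.2 - z.1) + H z.1) ≤
      Real.log (2 * D + 2) + Real.log (H (z.2 - z.1) + H z.1 ^ 2) := by
    rw [← Real.log_mul (by positivity) hP.ne']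
    have h3 : 2 * Real.log (H (z.2 - z.1) + H z.1) = Real.log ((H (z.2 - z.1) + H z.1) ^ 2) := by
      rw [Real.log_pow]
      norm_num
    rw [h3]
    apply Real.log_le_log (by positivity)
    have hbd := hb.bdd (z.2 - z.1)
    have h4 : H (z.2 - z.1) ^ 2 ≤ D * H (z.2 - z.1) := by
      rw [sq]
      exact mul_le_mul_of_nonneg_right hbd ha
    have h5 : 0 ≤ D * H z.1 ^ 2 := by positivity
    nlinarith [sq_nonneg (H (z.2 - z.1) - H z.1)]
  unfold bigPsi far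
  linarith

theorem big_lev (L : LevBasics) {H A : ℂ → ℝ} {e : ℝ} (h : HF H A e) {z : E}
    (hz : z.2 ∉ Lam) (v : E) :
    1 / 20 * lev (Om H A e 0) z v ≤ lev (fun t => Th H A e 0 t + bigPsi H t) z v := by
  have he := h.e_pos
  have hOm : Om H A e 0 = fun z : E => 8 * e * ‖z.1‖ ^ 2 + 8 * e * ‖z.2‖ ^ 2 +
      Real.log (H (z.2 - z.1) + H z.1 ^ 2) + Real.log (H (z.2 - z.1) + H z.1) := by
    funext z
    simp only [Om, tr, xx, ww, ca, cb, ca1, cb1, sub_add_cancel]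
  have hn1 : ContDiff ℝ ∞ (fun z : E => ‖z.1‖ ^ 2) := (contDiff_norm_sq ℝ).comp contDiff_fst
  have hn2 : ContDiff ℝ ∞ (fun z : E => ‖z.2‖ ^ 2) := (contDiff_norm_sq ℝ).comp contDiff_snd
  have hOmS : ContDiffAt ℝ ∞ (Om H A e 0) z := by
    rw [hOm]
    exact (((contDiffAt_const.mul hn1.contDiffAt).add (contDiffAt_const.mul hn2.contDiffAt)).add
      (big_sm1 h hz)).add (big_sm2 h hz)
  have hQ : (fun t => Th H A e 0 t + bigPsi H t) = fun t => 1 / 20 * Om H A e 0 t +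
      ((3 / 5 * e * ‖t.1‖ ^ 2 + 13 / 5 * e * ‖t.2‖ ^ 2) + 5 / 2 * Real.log (H t.2)) := by
    funext t
    rw [hOm]
    simp only [Th, tr, xx, ww, ca, cb, sub_add_cancel, bigPsi, far]
    ring
  have h2 : ∀ {f : E → ℝ}, ContDiffAt ℝ ∞ f z → ContDiffAt ℝ 2 f z := fun hf =>
    hf.of_le (WithTop.coe_le_coe.2 (le_top : (2 : ℕ∞) ≤ ⊤))
  have a1 : ContDiffAt ℝ 2 (fun z : E => ‖z.1‖ ^ 2) z := h2 hn1.contDiffAt
  have a2 : ContDiffAt ℝ 2 (fun z : E => ‖z.2‖ ^ 2) z := h2 hn2.contDiffAt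
  have a3 : ContDiffAt ℝ 2 (fun z : E => Real.log (H z.2)) z := h2 (big_sm3 h hz)
  have a4 : ContDiffAt ℝ 2 (Om H A e 0) z := h2 hOmS
  have b1 : ContDiffAt ℝ 2 (fun z : E => 3 / 5 * e * ‖z.1‖ ^ 2) z := contDiffAt_const.mul a1
  have b2 : ContDiffAt ℝ 2 (fun z : E => 13 / 5 * e * ‖z.2‖ ^ 2) z := contDiffAt_const.mul a2
  have b3 : ContDiffAt ℝ 2 (fun z : E => 5 / 2 * Real.log (H z.2)) z := contDiffAt_const.mul a3
  have b4 : ContDiffAt ℝ 2 (fun z : E => 1 / 20 * Om H A e 0 z) z := contDiffAt_const.mul a4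
  rw [hQ, L.add _ _ z v b4 ((b1.add b2).add b3), L.add _ _ z v (b1.add b2) b3,
    L.add _ _ z v b1 b2, L.smul _ _ z v a1, L.smul _ _ z v a2, L.smul _ _ z v a3,
    L.smul _ _ z v a4]
  have c1 : lev (fun z : E => ‖z.1‖ ^ 2) z v = ‖v.1‖ ^ 2 * 4 := by
    rw [L.fst (fun x => ‖x‖ ^ 2) z v ((contDiff_norm_sq ℝ).contDiffAt), L.sq]
  have c2 : lev (fun z : E => ‖z.2‖ ^ 2) z v = ‖v.2‖ ^ 2 * 4 := by
    rw [L.snd (fun x => ‖x‖ ^ 2) z v ((contDiff_norm_sq ℝ).contDiffAt), L.sq]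
  have c3 : lev (fun z : E => Real.log (H z.2)) z v = ‖v.2‖ ^ 2 * -(4 * e) := by
    rw [L.snd (fun x => Real.log (H x)) z v ((big_smlog h hz).of_le (WithTop.coe_le_coe.2 (le_top : (2 : ℕ∞) ≤ ⊤))),
      h.lap_H _ hz]
  rw [c1, c2, c3]
  have d1 : 0 ≤ e * ‖v.1‖ ^ 2 := by positivity
  have d2 : 0 ≤ e * ‖v.2‖ ^ 2 := by positivity
  nlinarith

theorem big_lim (C : Coord) {H A : ℂ → ℝ} {e : ℝ} (h : HF H A e) {r c K D : ℝ}
    (hb : HB H r c K D) (j : Fin 4) (z : E) (hz : (tr j z).2 ∈ Lam) :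
    Tendsto (fun t => bigPsi H (tr j t)) (𝓝[{t | (tr j t).2 ∉ Lam}] z) atBot := by
  have hc : ContinuousAt (fun t => H (tr j t).2) z := by
    have h1 : ContinuousAt (tr j) z := (C.tr_an j z).continuousAt
    have h2 : ContinuousAt (fun t => (tr j t).2) z := continuous_snd.continuousAt.comp h1
    exact h.H_smooth.continuous.continuousAt.comp h2
  have h0 : Tendsto (fun t => H (tr j t).2) (𝓝[{t | (tr j t).2 ∉ Lam}] z) (𝓝[>] 0) := by
    rw [tendsto_nhdsWithin_iff]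
    constructor
    · have h1 : Tendsto (fun t => H (tr j t).2) (𝓝 z) (𝓝 (H (tr j z).2)) := hc
      rw [h.H_zero hz] at h1
      exact h1.mono_left nhdsWithin_le_nhds
    · filter_upwards [self_mem_nhdsWithin] with t ht
      exact h.H_pos _ ht
  have h1 : Tendsto (fun t => 13 / 20 * Real.log (H (tr j t).2) +
      (37 / 20 * Real.log K + 19 / 20 * Real.log (2 * D + 2)))
      (𝓝[{t | (tr j t).2 ∉ Lam}] z) atBot := by
    apply tendsto_atBot_add_const_right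
    exact (Real.tendsto_log_nhdsGT_zero.comp h0).const_mul_atBot (by norm_num)
  refine tendsto_atBot_mono' _ ?_ h1
  filter_upwards [self_mem_nhdsWithin] with t ht
  exact big_le h hb ht

/-- TARGET. Proof in words:
δ = 1/20, `ψ z = far H z + δ (log (H w + (H x)²) + log (H w + H x))`, x = z.1, y = z.2, w = y - x. H ≥ 0, H = 0 exactly on Lam (H_pos, H_eq, H_per), H smooth.
For y ∉ Lam: H y > 0 and x, w are not both in Lam so the arguments of the logs are positive: smooth. Periodic: H_per.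
Inequality for z ∈ Wd: near z `Th 0 + ψ = e|x|² + 3e|y|² + 5/2 log (H y) + δ(L + L1)` and `Om 0 = 8e|x|² + 8e|y|² + L + L1` with L = log (H w + (H x)²),
L1 = log (H w + H x), so `lev (Th 0 + ψ) - δ lev (Om 0) = 4e|v₁|² + 12e|v₂|² - 10e|v₂|² - δ 32 e (|v₁|² + |v₂|²) ≥ 0` (4 - 1.6 > 0, 2 - 1.6 > 0; lev log H y = -4e|v₂|²).
In fact this computation only needs z.2 ∉ Lam (L, L1 smooth at z), no density argument and no StSum are needed.
Limit: with S = H w + H x, constants r,c,K,D from StHB: H y ≤ K S (tri), S² ≤ 2(H w)² + 2(H x)² ≤ max(2D, 2) (H w + (H x)²), and H w + (H x)² ≤ max(1, D) S. So for y ∉ Lam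
 ψ ≤ 5/2 log (H y) - (2 log S - c₁) + δ (log S + c₂ + log S) = 5/2 log (H y) - (2 - 2δ) log S + c₃ ≤ (1/2 + 2δ) log (H y) + c₄
(using log S ≥ log (H y) - log K). If z ∈ V j and (tr j z).2 ∈ Lam then H ((tr j t).2) → H((tr j z).2) = 0 as t → z, and it is > 0 when (tr j t).2 ∉ Lam, so
log → -∞ and ψ (tr j t) → -∞.
-/
theorem stBig (L : LevBasics) (C : Coord) (hS : StSum) (hHB : StHB) : StBig := by
  intro H A e h
  obtain ⟨r, c, K, D, hb⟩ := hHB H A e h
  refine ⟨1 / 20, bigPsi H, by norm_num, fun z hz => big_smooth h hz,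
    fun z l _ hl => big_per h hl, fun z hz v => big_lev L h hz v,
    fun j z _ hz => big_lim C h hb j z hz⟩



end Pool.Agent.Y810.SP
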