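import Pool.Agent.Y810.SP.Base

set_option autoImplicit false

open Set Topology Filter
open scoped ContDiff Manifold

namespace Pool.Agent.Y810.SP

namespace JstComp


theorem comp_zero {H A : ℂ → ℝ} {e : ℝ} (hf : HF H A e) {x : ℂ} (hx : x ∈ Lam) : H x = 0 := by
  have h := hf.H_per 0 x hx
  rw [zero_add] at h
  rw [h, hf.H_eq]
  simp

theorem comp_nonneg {H A : ℂ → ℝ} {e : ℝ} (hf : HF H A e) (x : ℂ) : 0 ≤ H x := by
  by_cases hx : x ∈ Lam
  · exact (comp_zero hf hx).ge
  · exact (hf.H_pos x hx).le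

theorem comp_diff (H A : ℂ → ℝ) (k M C : ℝ) (z : E) :
    near H A k M C 0 z - far H z =
      Real.log (H (z.2 - z.1) + k * H z.1 ^ 2 * Real.exp (M * H z.1)) + C * H z.2 -
        5 / 2 * Real.log (H z.2) := by
  have e1 : near H A k M C 0 z = Real.log (H (z.2 - z.1) + k * H z.1 ^ 2 * Real.exp (M * H z.1)) -
      Real.log (H (z.2 - z.1) + H z.1 ^ 2) + C * H (z.2 - z.1 + z.1) := rfl
  have e2 : far H z = 5 / 2 * Real.log (H z.2) - Real.log (H (z.2 - z.1) + H z.1 ^ 2) := rfl
  rw [e1, e2, sub_add_cancel]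
  ring

/-- TARGET. Proof in words:
Write x = z.1, y = z.2, w = y - x, P = H w + k (H x)² exp (M H x). H ≥ 0, H = 0 exactly on Lam. For y ∉ Lam one has P > 0 and H w + (H x)² > 0
(if H x = H w = 0 then x, w ∈ Lam, so y ∈ Lam). `near 0 z - far z = log P + C H y - 5/2 log (H y)` (tr 0 z = z).
Second part: if H y ≥ h/2 (so y ∉ Lam as H = 0 on Lam): `near - far ≤ log (D + D² exp (M D)) + C D - 5/2 log (h/2) =: a - 1` (with k ≤ 1, H ≤ D;
monotonicity of log on positives). This defines a.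
First part: H y ≤ K (H w + H x) (tri, y = w + x), and `(H w + H x)² ≤ 2 (H w)² + 2 (H x)² ≤ 2D H w + 2 (H x)² ≤ m P` with m = max (2D) (2/k)
(exp ≥ 1). So P ≥ (H y)²/(K² m), `near - far ≥ 2 log (H y) - log (K² m) - 5/2 log (H y) = -1/2 log (H y) - log (K² m)` (C H y ≥ 0), which is ≥ a + 1 when
log (H y) ≤ -2 (a + 1 + log (K² m)), i.e. H y < h0 := min (h/2) (exp (-2 (a + 1 + log (K² m)))).
-/
theorem stComp : StComp := by
  intro H A e r c K D hf hb k M C h hk hk1 hM hC hh
  have hK := hb.K_pos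
  have hD := hb.D_pos
  set b1 : ℝ := Real.log (D + D ^ 2 * Real.exp (M * D)) + C * D - 5 / 2 * Real.log (h / 2) with hb1
  set m : ℝ := max (2 * D) (2 / k) with hm
  have hm0 : 0 < m := lt_of_lt_of_le (by positivity) (le_max_left (2 * D) (2 / k))
  have hKm : 0 < K ^ 2 * m := by positivity
  -- a = b1 + 1
  refine ⟨b1 + 1, min (h / 2) (Real.exp (-2 * (b1 + 2 + Real.log (K ^ 2 * m)))), ?_, ?_, ?_, ?_⟩
  · exact lt_min (by positivity) (Real.exp_pos _)
  · exact lt_of_le_of_lt (min_le_left _ _) (by linarith)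
  · intro z hz hzh
    have hd := comp_diff H A k M C z
    have hy : 0 < H z.2 := hf.H_pos _ hz
    have hw := comp_nonneg hf (z.2 - z.1)
    have hx := comp_nonneg hf z.1
    have htri : H z.2 ≤ K * (H (z.2 - z.1) + H z.1) := by
      have := hb.tri (z.2 - z.1) z.1
      rwa [sub_add_cancel] at this
    have hwD := hb.bdd (z.2 - z.1)
    have hexp : 1 ≤ Real.exp (M * H z.1) := Real.one_le_exp (by positivity)
    -- P
    set P : ℝ := H (z.2 - z.1) + k * H z.1 ^ 2 * Real.exp (M * H z.1) with hP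
    have hP1 : H (z.2 - z.1) + k * H z.1 ^ 2 ≤ P := by
      have : k * H z.1 ^ 2 * 1 ≤ k * H z.1 ^ 2 * Real.exp (M * H z.1) :=
        mul_le_mul_of_nonneg_left hexp (by positivity)
      rw [hP]; linarith
    have hm1 : 2 * D ≤ m := le_max_left _ _
    have hm2 : 2 / k ≤ m := le_max_right _ _
    have hmk : 2 ≤ m * k := by
      rw [div_le_iff₀ hk] at hm2
      linarith
    have h1 : (H (z.2 - z.1) + H z.1) ^ 2 ≤ m * P := by
      have a1 : H (z.2 - z.1) * H (z.2 - z.1) ≤ D * H (z.2 - z.1) :=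
        mul_le_mul_of_nonneg_right hwD hw
      have a2 : 2 * D * H (z.2 - z.1) ≤ m * H (z.2 - z.1) := mul_le_mul_of_nonneg_right hm1 hw
      have a3 : 2 * H z.1 ^ 2 ≤ m * k * H z.1 ^ 2 := mul_le_mul_of_nonneg_right hmk (by positivity)
      have a4 : m * (H (z.2 - z.1) + k * H z.1 ^ 2) ≤ m * P := mul_le_mul_of_nonneg_left hP1 hm0.le
      nlinarith [sq_nonneg (H (z.2 - z.1) - H z.1)]
    have h2 : H z.2 ^ 2 ≤ K ^ 2 * m * P := by
      have a1 : H z.2 ^ 2 ≤ (K * (H (z.2 - z.1) + H z.1)) ^ 2 := by gcongr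
      have a2 : K ^ 2 * (H (z.2 - z.1) + H z.1) ^ 2 ≤ K ^ 2 * (m * P) :=
        mul_le_mul_of_nonneg_left h1 (by positivity)
      nlinarith
    have hPpos : 0 < P := by
      by_contra hcon
      push Not at hcon
      have : K ^ 2 * m * P ≤ 0 := mul_nonpos_of_nonneg_of_nonpos hKm.le hcon
      have h3 : 0 < H z.2 ^ 2 := by positivity
      linarith
    have h3 : 2 * Real.log (H z.2) ≤ Real.log (K ^ 2 * m) + Real.log P := by
      rw [← Real.log_mul hKm.ne' hPpos.ne']
      have : Real.log (H z.2 ^ 2) ≤ Real.log (K ^ 2 * m * P) := Real.log_le_log (by positivity) h2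
      rw [Real.log_pow] at this
      exact_mod_cast this
    have h4 : Real.log (H z.2) ≤ -2 * (b1 + 2 + Real.log (K ^ 2 * m)) := by
      have a1 : H z.2 ≤ Real.exp (-2 * (b1 + 2 + Real.log (K ^ 2 * m))) :=
        (hzh.trans_le (min_le_right _ _)).le
      calc Real.log (H z.2) ≤ Real.log (Real.exp (-2 * (b1 + 2 + Real.log (K ^ 2 * m)))) :=
            Real.log_le_log hy a1
        _ = _ := Real.log_exp _
    have h5 : 0 ≤ C * H z.2 := by positivity
    linarith
  · intro z hz
    have hd := comp_diff H A k M C z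
    have hy : 0 < H z.2 := lt_of_lt_of_le (by positivity) hz
    have hw := comp_nonneg hf (z.2 - z.1)
    have hx := comp_nonneg hf z.1
    have hwD := hb.bdd (z.2 - z.1)
    have hxD := hb.bdd z.1
    have hyD := hb.bdd z.2
    have htri : H z.2 ≤ K * (H (z.2 - z.1) + H z.1) := by
      have := hb.tri (z.2 - z.1) z.1
      rwa [sub_add_cancel] at this
    have hP : 0 < H (z.2 - z.1) + k * H z.1 ^ 2 * Real.exp (M * H z.1) := by
      have hpos : 0 < H (z.2 - z.1) + H z.1 := by
        by_contra hcon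
        push Not at hcon
        have := mul_nonpos_of_nonneg_of_nonpos hK.le hcon
        linarith
      rcases hx.eq_or_lt with h0 | h0
      · rw [← h0] at hpos ⊢
        simpa using hpos
      · positivity
    have h1 : H (z.2 - z.1) + k * H z.1 ^ 2 * Real.exp (M * H z.1) ≤
        D + D ^ 2 * Real.exp (M * D) := by
      have a1 : Real.exp (M * H z.1) ≤ Real.exp (M * D) :=
        Real.exp_le_exp.mpr (mul_le_mul_of_nonneg_left hxD hM)
      have a2 : k * H z.1 ^ 2 ≤ 1 * D ^ 2 := by gcongr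
      have a3 : k * H z.1 ^ 2 * Real.exp (M * H z.1) ≤ 1 * D ^ 2 * Real.exp (M * D) := by gcongr
      linarith
    have h2 := Real.log_le_log hP h1
    have h3 : Real.log (h / 2) ≤ Real.log (H z.2) := Real.log_le_log (by positivity) hz
    have h4 : C * H z.2 ≤ C * D := mul_le_mul_of_nonneg_left hyD hC
    linarith


end JstComp

end Pool.Agent.Y810.SP
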