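import Pool.Agent.Y810.SP.Base

set_option autoImplicit false

open Set Topology Filter
open scoped ContDiff Manifold

namespace Pool.Agent.Y810.SP

namespace JstCompact


/-- the four compact sets -/
def scK : Fin 4 → Set E
  | 0 => {z | |z.1.re| ≤ 1 / 2 ∧ |z.1.im| ≤ 1 / 2 ∧ |z.2.re| ≤ 1 / 2 ∧ |z.2.im| ≤ 1 / 2 ∧
      (1 / 16 ≤ ‖z.1‖ ∨ 1 / 16 ≤ ‖z.2 - z.1‖)}
  | 1 => {z | ‖z.1‖ ≤ 1 ∧ ‖z.2‖ ≤ 1 / 16}
  | 2 => {z | ‖z.1‖ ≤ 1 ∧ ‖z.2‖ ≤ 1 ∧ ‖z.1 * z.2‖ ≤ 1 / 16}
  | 3 => {z | ‖z.1‖ ≤ 1 / 16 ∧ ‖z.2‖ ≤ 1}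

theorem scK_closed (j : Fin 4) : IsClosed (scK j) := by
  fin_cases j
  · have h6 : IsClosed {z : E | 1 / 16 ≤ ‖z.1‖} := isClosed_le continuous_const (by fun_prop)
    have h7 : IsClosed {z : E | 1 / 16 ≤ ‖z.2 - z.1‖} := isClosed_le continuous_const (by fun_prop)
    have h5 : IsClosed {z : E | 1 / 16 ≤ ‖z.1‖ ∨ 1 / 16 ≤ ‖z.2 - z.1‖} := h6.union h7
    exact (isClosed_le (by fun_prop) continuous_const).and
      ((isClosed_le (by fun_prop) continuous_const).and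
      ((isClosed_le (by fun_prop) continuous_const).and
      ((isClosed_le (by fun_prop) continuous_const).and h5)))
  · exact (isClosed_le (by fun_prop) continuous_const).and (isClosed_le (by fun_prop) continuous_const)
  · exact (isClosed_le (by fun_prop) continuous_const).and
      ((isClosed_le (by fun_prop) continuous_const).and (isClosed_le (by fun_prop) continuous_const))
  · exact (isClosed_le (by fun_prop) continuous_const).and (isClosed_le (by fun_prop) continuous_const)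

theorem scK_bdd (j : Fin 4) : scK j ⊆ Metric.closedBall (0 : E) 1 := by
  intro z hz
  rw [mem_closedBall_zero_iff, Prod.norm_def, max_le_iff]
  fin_cases j
  · obtain ⟨h1, h2, h3, h4, _⟩ := hz
    constructor
    · exact (Complex.norm_le_abs_re_add_abs_im _).trans (by linarith)
    · exact (Complex.norm_le_abs_re_add_abs_im _).trans (by linarith)
  · exact ⟨hz.1, hz.2.trans (by norm_num)⟩
  · exact ⟨hz.1, hz.2.1⟩
  · exact ⟨hz.1.trans (by norm_num), hz.2⟩

theorem scK_compact (j : Fin 4) : IsCompact (scK j) :=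
  (isCompact_closedBall (0 : E) 1).of_isClosed_subset (scK_closed j) (scK_bdd j)

theorem sc_small {a : ℂ} (ha : a ∈ Lam) (h1 : |a.re| ≤ 1 / 2) (h2 : |a.im| ≤ 1 / 2) : a = 0 := by
  obtain ⟨m, n, rfl⟩ := ha
  simp only [Complex.add_re, Complex.intCast_re, Complex.mul_re, Complex.I_re, mul_zero,
    Complex.intCast_im, Complex.I_im, mul_one, sub_self, add_zero, Complex.add_im, Complex.mul_im,
    zero_add] at h1 h2
  have hm : m = 0 := by
    have h3 : |(m : ℝ)| < 1 := by linarith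
    have h4 : |m| < 1 := by exact_mod_cast h3
    exact Int.abs_lt_one_iff.1 h4
  have hn : n = 0 := by
    have h3 : |(n : ℝ)| < 1 := by linarith
    have h4 : |n| < 1 := by exact_mod_cast h3
    exact Int.abs_lt_one_iff.1 h4
  subst hm
  subst hn
  simp

theorem scK_sub (j : Fin 4) : scK j ⊆ V j := by
  intro z hz
  fin_cases j
  · obtain ⟨h1, h2, h3, h4, h5⟩ := hz
    show z ∈ V 0
    unfold V
    rw [if_pos rfl]
    rintro ⟨g1, g2⟩
    have e1 := sc_small g1 h1 h2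
    have e2 := sc_small g2 h3 h4
    rw [e1, e2] at h5
    norm_num at h5
  · show z ∈ V 1
    unfold V
    rw [if_neg (by decide)]
    obtain ⟨h1, h2⟩ := hz
    refine ⟨?_, ?_⟩
    · show ‖z.1 * z.2‖ < 1 / 8
      rw [norm_mul]
      calc ‖z.1‖ * ‖z.2‖ ≤ 1 * (1 / 16) := by gcongr
        _ < 1 / 8 := by norm_num
    · show ‖z.2‖ < 1 / 8
      linarith
  · show z ∈ V 2
    unfold V
    rw [if_neg (by decide)]
    obtain ⟨h1, h2, h3⟩ := hz
    refine ⟨?_, ?_⟩
    · show ‖z.1 * z.2‖ < 1 / 8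
      linarith
    · show ‖z.1 * z.2 ^ 2‖ < 1 / 8
      have : z.1 * z.2 ^ 2 = (z.1 * z.2) * z.2 := by ring
      rw [this, norm_mul]
      calc ‖z.1 * z.2‖ * ‖z.2‖ ≤ (1 / 16) * 1 := by gcongr
        _ < 1 / 8 := by norm_num
  · show z ∈ V 3
    unfold V
    rw [if_neg (by decide)]
    obtain ⟨h1, h2⟩ := hz
    refine ⟨?_, ?_⟩
    · show ‖z.1‖ < 1 / 8
      linarith
    · show ‖z.1 ^ 2 * z.2‖ < 1 / 8
      rw [norm_mul, norm_pow]
      calc ‖z.1‖ ^ 2 * ‖z.2‖ ≤ (1 / 16) ^ 2 * 1 := by gcongr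
        _ < 1 / 8 := by norm_num

/-- representative in the box -/
theorem sc_rep (a : ℂ) : ∃ b : ℂ, ((b : ℂ ⧸ Lam) = (a : ℂ ⧸ Lam)) ∧ |b.re| ≤ 1 / 2 ∧ |b.im| ≤ 1 / 2 := by
  refine ⟨a - ((round a.re : ℤ) + (round a.im : ℤ) * Complex.I), ?_, ?_, ?_⟩
  · rw [QuotientAddGroup.eq]
    exact ⟨round a.re, round a.im, by ring⟩
  · simp only [Complex.sub_re, Complex.add_re, Complex.intCast_re, Complex.mul_re, Complex.I_re,
      mul_zero, Complex.intCast_im, Complex.I_im, mul_one, sub_self, add_zero]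
    exact abs_sub_round _
  · simp only [Complex.sub_im, Complex.add_im, Complex.intCast_im, Complex.mul_im, Complex.I_re,
      mul_zero, Complex.intCast_re, Complex.I_im, mul_one, zero_add, add_zero]
    exact abs_sub_round _

theorem sc_cover (s : S0) : ∃ j, ∃ z ∈ scK j, κ0 j z = s := by
  rcases s with ⟨p, q⟩ | a | b
  · obtain ⟨a, rfl⟩ := QuotientAddGroup.mk_surjective p
    obtain ⟨b, rfl⟩ := QuotientAddGroup.mk_surjective q
    obtain ⟨x, hx, hx1, hx2⟩ := sc_rep a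
    obtain ⟨y, hy, hy1, hy2⟩ := sc_rep b
    have hs : tor (x, y) = Sum.inl ((a : ℂ ⧸ Lam), (b : ℂ ⧸ Lam)) := by
      unfold tor
      rw [hx, hy]
    by_cases h : 1 / 16 ≤ ‖x‖ ∨ 1 / 16 ≤ ‖y - x‖
    · exact ⟨0, (x, y), ⟨hx1, hx2, hy1, hy2, h⟩, hs⟩
    push Not at h
    obtain ⟨h1, h2⟩ := h
    obtain ⟨w, hw⟩ : ∃ w, w = y - x := ⟨_, rfl⟩
    have hyw : y = w + x := by
      rw [hw]
      ring
    rw [← hw] at h2
    by_cases hw0 : w = 0 ∧ x = 0
    · refine ⟨1, (0, 0), ⟨by simp, by simp⟩, ?_⟩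
      rw [← hs]
      show (if (0 : ℂ) = 0 then (if (0 : ℂ) = 0 then tor 0 else ea (0 : ℂ)⁻¹) else tor (tr 1 (0, 0))) = _
      rw [if_pos rfl, if_pos rfl, hyw, hw0.1, hw0.2, add_zero]
      rfl
    by_cases hxw : ‖x‖ ≤ ‖w‖
    · have hwn : w ≠ 0 := by
        rintro rfl
        refine hw0 ⟨rfl, ?_⟩
        simpa using hxw
      have hwp : 0 < ‖w‖ := norm_pos_iff.2 hwn
      refine ⟨1, (x / w, w), ⟨?_, h2.le⟩, ?_⟩
      · show ‖x / w‖ ≤ 1
        rw [norm_div, div_le_one hwp]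
        exact hxw
      · rw [← hs]
        show (if w = 0 then (if x / w = 0 then tor 0 else ea (x / w)⁻¹) else tor (tr 1 (x / w, w))) = _
        rw [if_neg hwn]
        congr 1
        show ((x / w) * w, w + (x / w) * w) = (x, y)
        rw [div_mul_cancel₀ _ hwn, hyw]
    push Not at hxw
    have hxn : x ≠ 0 := by
      rintro rfl
      rw [norm_zero] at hxw
      exact absurd (norm_nonneg w) (not_le.2 hxw)
    have hxp : 0 < ‖x‖ := norm_pos_iff.2 hxn
    by_cases hxw2 : ‖x‖ ^ 2 ≤ ‖w‖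
    · have hwp : 0 < ‖w‖ := lt_of_lt_of_le (by positivity) hxw2
      have hwn : w ≠ 0 := norm_pos_iff.1 hwp
      have e1 : x ^ 2 / w * (w / x) = x := by
        field_simp
      refine ⟨2, (x ^ 2 / w, w / x), ⟨?_, ?_, ?_⟩, ?_⟩
      · show ‖x ^ 2 / w‖ ≤ 1
        rw [norm_div, norm_pow, div_le_one hwp]
        exact hxw2
      · show ‖w / x‖ ≤ 1
        rw [norm_div, div_le_one hxp]
        exact hxw.le
      · show ‖x ^ 2 / w * (w / x)‖ ≤ 1 / 16
        rw [e1]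
        exact h1.le
      · rw [← hs]
        show (if x ^ 2 / w = 0 then ea (w / x) else if w / x = 0 then eb (x ^ 2 / w)⁻¹ else
          tor (tr 2 (x ^ 2 / w, w / x))) = _
        rw [if_neg (div_ne_zero (pow_ne_zero 2 hxn) hwn), if_neg (div_ne_zero hwn hxn)]
        congr 1
        show (x ^ 2 / w * (w / x), x ^ 2 / w * (w / x) ^ 2 + x ^ 2 / w * (w / x)) = (x, y)
        have e2 : x ^ 2 / w * (w / x) ^ 2 = w := by
          field_simp
        rw [e1, e2, hyw]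
    push Not at hxw2
    refine ⟨3, (x, w / x ^ 2), ⟨h1.le, ?_⟩, ?_⟩
    · show ‖w / x ^ 2‖ ≤ 1
      rw [norm_div, norm_pow, div_le_one (by positivity)]
      exact hxw2.le
    · rw [← hs]
      show (if x = 0 then eb (w / x ^ 2) else tor (tr 3 (x, w / x ^ 2))) = _
      rw [if_neg hxn]
      congr 1
      show (x, x ^ 2 * (w / x ^ 2) + x) = (x, y)
      have e2 : x ^ 2 * (w / x ^ 2) = w := by
        field_simp
      rw [e2, hyw]
  · by_cases h : ‖a‖ ≤ 1
    · refine ⟨2, (0, a), ⟨by simp, h, by simp⟩, ?_⟩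
      show (if (0 : ℂ) = 0 then ea a else if a = 0 then eb (0 : ℂ)⁻¹ else tor (tr 2 (0, a))) = _
      rw [if_pos rfl]
      rfl
    · push Not at h
      have ha : a ≠ 0 := by
        rintro rfl
        norm_num at h
      refine ⟨1, (a⁻¹, 0), ⟨?_, by simp⟩, ?_⟩
      · show ‖a⁻¹‖ ≤ 1
        rw [norm_inv]
        exact inv_le_one_of_one_le₀ h.le
      · show (if (0 : ℂ) = 0 then (if a⁻¹ = 0 then tor 0 else ea (a⁻¹)⁻¹) else tor (tr 1 (a⁻¹, 0))) = _
        rw [if_pos rfl, if_neg (inv_ne_zero ha), inv_inv]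
        rfl
  · by_cases h : ‖b‖ ≤ 1
    · refine ⟨3, (0, b), ⟨by simp, h⟩, ?_⟩
      show (if (0 : ℂ) = 0 then eb b else tor (tr 3 (0, b))) = _
      rw [if_pos rfl]
      rfl
    · push Not at h
      have hb : b ≠ 0 := by
        rintro rfl
        norm_num at h
      refine ⟨2, (b⁻¹, 0), ⟨?_, by simp, by simp⟩, ?_⟩
      · show ‖b⁻¹‖ ≤ 1
        rw [norm_inv]
        exact inv_le_one_of_one_le₀ h.le
      · show (if b⁻¹ = 0 then ea (0 : ℂ) else if (0 : ℂ) = 0 then eb (b⁻¹)⁻¹ else tor (tr 2 (b⁻¹, 0))) = _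
        rw [if_neg (inv_ne_zero hb), if_pos rfl, inv_inv]
        rfl

/-- TARGET. -/
theorem stCompact (C : Coord) : StCompact := by
  intro _ hN
  have hc : ∀ j, IsCompact (κ0 j '' scK j) := fun j =>
    (scK_compact j).image_of_continuousOn fun z hz =>
      ContinuousAt.continuousWithinAt (hN j z (scK_sub j hz)).le
  refine ⟨?_⟩
  have h1 : (univ : Set S0) = ⋃ j : Fin 4, κ0 j '' scK j := by
    refine (eq_univ_of_forall fun s => ?_).symm
    obtain ⟨j, z, hz, hs⟩ := sc_cover s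
    exact mem_iUnion.2 ⟨j, z, hz, hs⟩
  rw [h1]
  exact isCompact_iUnion hc


end JstCompact

end Pool.Agent.Y810.SP
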