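import Pool.Agent.Y810.SP.Base

set_option autoImplicit false

open Set Topology Filter
open scoped ContDiff Manifold

namespace Pool.Agent.Y810.SP

namespace JstConn


theorem cn_lam2_countable : Lam2.Countable := by
  have hL : (Lam : Set ℂ).Countable := by
    have h : (Lam : Set ℂ) ⊆ Set.range (fun p : ℤ × ℤ => (p.1 : ℂ) + p.2 * Complex.I) := by
      rintro x ⟨m, n, rfl⟩
      exact ⟨(m, n), rfl⟩
    exact (Set.countable_range _).mono h
  have h2 : Lam2 = (Lam : Set ℂ) ×ˢ (Lam : Set ℂ) := rfl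
  rw [h2]
  exact hL.prod hL

theorem cn_V0_eq : V 0 = Lam2ᶜ := rfl

theorem cn_V_ne (j : Fin 4) (hj : j ≠ 0) : V j = {z | ‖xx j z‖ < 1 / 8 ∧ ‖ww j z‖ < 1 / 8} := by
  simp only [V, if_neg hj]

theorem cn_V0_conn : IsPreconnected (V 0) := by
  rw [cn_V0_eq]
  have h : IsPathConnected (Lam2ᶜ : Set E) := by
    refine cn_lam2_countable.isPathConnected_compl_of_one_lt_rank ?_
    have h4 : Module.finrank ℝ E = 4 := by
      rw [Module.finrank_prod, Complex.finrank_real_complex]
    have := Module.finrank_eq_rank ℝ E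
    rw [← this, h4]
    exact_mod_cast (by norm_num : (1 : ℕ) < 4)
  exact h.isConnected.isPreconnected

theorem cn_zero_mem_Lam2 : (0 : E) ∈ Lam2 := ⟨Lam.zero_mem, Lam.zero_mem⟩

theorem cn_zero_not_Wd : (0 : E) ∉ Wd := fun h => h.1 Lam.zero_mem

/-- the maps over the open set -/
theorem cn_κ0_tor (j : Fin 4) (t : E) (h : tr j t ∈ Wd) : κ0 j t = tor (tr j t) := by
  have hne : tr j t ≠ 0 := fun h0 => cn_zero_not_Wd (h0 ▸ h)
  fin_cases j
  · have : tr 0 t = t := by
      refine Prod.ext rfl ?_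
      simp [tr, xx, ww]
    simp only [Fin.zero_eta, κ0]
    rw [this]
  · by_cases h2 : t.2 = 0
    · exact absurd (by refine Prod.ext ?_ ?_ <;> simp [tr, xx, ww, h2]) hne
    · simp only [Fin.mk_one, κ0, if_neg h2]
  · by_cases h1 : t.1 = 0
    · exact absurd (by refine Prod.ext ?_ ?_ <;> simp [tr, xx, ww, h1]) hne
    · by_cases h2 : t.2 = 0
      · exact absurd (by refine Prod.ext ?_ ?_ <;> simp [tr, xx, ww, h2]) hne
      · simp only [Fin.reduceFinMk, κ0, if_neg h1, if_neg h2]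
  · by_cases h1 : t.1 = 0
    · exact absurd (by refine Prod.ext ?_ ?_ <;> simp [tr, xx, ww, h1]) hne
    · simp only [Fin.reduceFinMk, κ0, if_neg h1]

/-- the coordinate systems cover the surface -/
theorem cn_cov (s : S0) : ∃ j, ∃ z ∈ V j, κ0 j z = s := by
  rcases s with ⟨a, b⟩ | a | b
  · obtain ⟨x, rfl⟩ := QuotientAddGroup.mk_surjective a
    obtain ⟨y, rfl⟩ := QuotientAddGroup.mk_surjective b
    by_cases h : ((x, y) : E) ∈ Lam2
    · refine ⟨1, (0, 0), ?_, ?_⟩
      · rw [cn_V_ne 1 (by decide)]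
        simp [xx, ww]
      · have hx : ((x : ℂ) : ℂ ⧸ Lam) = ((0 : ℂ) : ℂ ⧸ Lam) := by
          rw [QuotientAddGroup.eq]
          simpa using Lam.neg_mem h.1
        have hy : ((y : ℂ) : ℂ ⧸ Lam) = ((0 : ℂ) : ℂ ⧸ Lam) := by
          rw [QuotientAddGroup.eq]
          simpa using Lam.neg_mem h.2
        have h00 : κ0 1 (0, 0) = tor 0 := by
          change (if (0 : ℂ) = 0 then (if (0 : ℂ) = 0 then tor 0 else ea (0 : ℂ)⁻¹) else
            tor (tr 1 (0, 0))) = tor 0
          rw [if_pos rfl, if_pos rfl]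
        rw [h00]
        simp only [tor, Prod.fst_zero, Prod.snd_zero]
        rw [hx, hy]
    · exact ⟨0, (x, y), h, rfl⟩
  · refine ⟨2, (0, a), ?_, ?_⟩
    · rw [cn_V_ne 2 (by decide)]
      simp [xx, ww]
    · simp only [κ0, if_true]
      rfl
  · refine ⟨3, (0, b), ?_, ?_⟩
    · rw [cn_V_ne 3 (by decide)]
      simp [xx, ww]
    · simp only [κ0, if_true]
      rfl

/-- TARGET. Proof in words:
V 0 = complement of the countable set Lam2 in E = ℂ × ℂ is path connected (`Set.Countable.isPathConnected_compl_of_one_lt_rank`, real rank 4 > 1), κ0 0 = tor is continuous on it (Nhds), so B = κ0 0 '' V 0 is preconnected. B is dense: every point is κ0 j z with z ∈ V j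
(inl: tor z with z ∉ Lam2, or tor 0 = κ0 1 (0,0); ea a = κ0 2 (0,a); eb b = κ0 3 (0,b)), C.dense gives z ∈ closure (V j ∩ tr j ⁻¹' Wd), κ0 j is continuous at z, and for t ∈ V j with tr j t ∈ Wd ⊆ V 0: κ0 j t = tor (tr j t) ∈ B
(if j ≥ 1 the exceptional branches have tr j t = 0 ∉ Wd). So univ = closure B is preconnected (`IsPreconnected.closure`), and nonempty.
-/
theorem stConn (C : Coord) : StConn := by
  intro _ hN
  have hcont : ∀ j, ∀ z ∈ V j, ContinuousAt (κ0 j) z := fun j z hz => (hN j z hz).le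
  have hB : IsPreconnected (κ0 0 '' V 0) :=
    cn_V0_conn.image _ fun z hz => (hcont 0 z hz).continuousWithinAt
  have hdense : closure (κ0 0 '' V 0) = Set.univ := by
    refine Set.eq_univ_of_forall fun s => ?_
    obtain ⟨j, z, hz, rfl⟩ := cn_cov s
    have h1 : κ0 j z ∈ closure (κ0 j '' (V j ∩ tr j ⁻¹' Wd)) :=
      (hcont j z hz).continuousWithinAt.mem_closure_image (C.dense j z hz)
    refine closure_mono ?_ h1
    rintro _ ⟨t, ⟨-, ht⟩, rfl⟩
    exact ⟨tr j t, C.Wd_sub ht, (cn_κ0_tor j t ht).symm⟩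
  have hp : PreconnectedSpace S0 := ⟨by rw [← hdense]; exact hB.closure⟩
  exact { toPreconnectedSpace := hp, toNonempty := ⟨tor 0⟩ }


end JstConn

end Pool.Agent.Y810.SP
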