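import Pool.Agent.Y810.SP.Base

set_option autoImplicit false

open Set Topology Filter
open scoped ContDiff Manifold

namespace Pool.Agent.Y810.SP

namespace JstCoord


theorem stCoord_small {t : ℂ} (ht : ‖t‖ < 1) : t ∈ Lam ↔ t = 0 := by
  constructor
  · rintro ⟨m, n, rfl⟩
    have h1 := Complex.abs_re_le_norm ((m : ℂ) + n * Complex.I)
    have h2 := Complex.abs_im_le_norm ((m : ℂ) + n * Complex.I)
    simp at h1 h2
    have hm : |(m : ℝ)| < 1 := lt_of_le_of_lt h1 ht
    have hn : |(n : ℝ)| < 1 := lt_of_le_of_lt h2 ht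
    have hm' : m = 0 := by
      have : |m| < 1 := by exact_mod_cast hm
      exact Int.abs_lt_one_iff.mp this
    have hn' : n = 0 := by
      have : |n| < 1 := by exact_mod_cast hn
      exact Int.abs_lt_one_iff.mp this
    rw [hm', hn']; simp
  · rintro rfl; exact Lam.zero_mem

theorem stCoord_closed : IsClosed (Lam : Set ℂ) := by
  have : (Lam : Set ℂ) = Complex.re ⁻¹' (range ((↑) : ℤ → ℝ)) ∩ Complex.im ⁻¹' (range ((↑) : ℤ → ℝ)) := by
    ext x
    constructor
    · rintro ⟨m, n, rfl⟩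
      exact ⟨⟨m, by simp⟩, ⟨n, by simp⟩⟩
    · rintro ⟨⟨m, hm⟩, ⟨n, hn⟩⟩
      refine ⟨m, n, ?_⟩
      apply Complex.ext
      · simp [← hm]
      · simp [← hn]
  rw [this]
  have h := Int.isClosedEmbedding_coe_real.isClosed_range
  exact (h.preimage Complex.continuous_re).inter (h.preimage Complex.continuous_im)

theorem stCoord_disc (c : ℂ) : ∀ᶠ t in 𝓝[≠] c, t ∉ Lam := by
  by_cases hc : c ∈ Lam
  · have h1 : ∀ᶠ t in 𝓝[≠] c, t ∈ Metric.ball c 1 :=
      nhdsWithin_le_nhds (Metric.ball_mem_nhds c one_pos)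
    filter_upwards [h1, self_mem_nhdsWithin] with t ht hne hL
    have h2 : t - c ∈ Lam := Lam.sub_mem hL hc
    rw [stCoord_small (by rwa [← dist_eq_norm])] at h2
    exact hne (sub_eq_zero.mp h2)
  · exact nhdsWithin_le_nhds (stCoord_closed.isOpen_compl.mem_nhds hc)

theorem stCoord_line (c : ℂ) {k : ℂ} (hk : k ≠ 0) :
    Tendsto (fun s : ℂ => c + k * s) (𝓝[≠] 0) (𝓝[≠] c) := by
  rw [tendsto_nhdsWithin_iff]
  constructor
  · have : Tendsto (fun s : ℂ => c + k * s) (𝓝 0) (𝓝 (c + k * 0)) := by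
      apply Continuous.tendsto; fun_prop
    rw [mul_zero, add_zero] at this
    exact this.mono_left nhdsWithin_le_nhds
  · filter_upwards [self_mem_nhdsWithin] with s hs
    simp only [mem_compl_iff, mem_singleton_iff, add_eq_left]
    exact mul_ne_zero hk hs

theorem stCoord_ne (a : ℂ) : ∀ᶠ s in 𝓝[≠] (0 : ℂ), a + s ≠ 0 := by
  by_cases ha : a = 0
  · filter_upwards [self_mem_nhdsWithin] with s hs
    rw [ha, zero_add]; exact hs
  · have : ContinuousAt (fun s : ℂ => a + s) 0 := by fun_prop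
    exact nhdsWithin_le_nhds (this.eventually_ne (by simpa using ha))

theorem stCoord_ne2 (a b : ℂ) : ∀ᶠ s in 𝓝[≠] (0 : ℂ), 1 + (a + s) * (b + s) ≠ 0 := by
  by_cases h : 1 + a * b = 0
  · filter_upwards [self_mem_nhdsWithin, stCoord_ne (a + b)] with s hs h2
    have : 1 + (a + s) * (b + s) = (1 + a * b) + s * (a + b + s) := by ring
    rw [this, h, zero_add]
    exact mul_ne_zero hs h2
  · have : ContinuousAt (fun s : ℂ => 1 + (a + s) * (b + s)) 0 := by fun_prop
    exact nhdsWithin_le_nhds (this.eventually_ne (by simpa using h))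

theorem stCoord_V0 : V 0 = Lam2ᶜ := by simp [V]

theorem stCoord_Vj {j : Fin 4} (hj : j ≠ 0) : V j = {z | ‖xx j z‖ < 1 / 8 ∧ ‖ww j z‖ < 1 / 8} := by
  simp [V, hj]

theorem stCoord_contx (j : Fin 4) : Continuous (xx j) := by
  fin_cases j <;> simp only [xx] <;> fun_prop

theorem stCoord_contw (j : Fin 4) : Continuous (ww j) := by
  fin_cases j <;> simp only [ww] <;> fun_prop

theorem stCoord_Wd {j : Fin 4} (hj : j ≠ 0) {z : E} (hz : z ∈ V j) (h1 : xx j z ≠ 0)
    (h2 : ww j z ≠ 0) (h3 : ww j z + xx j z ≠ 0) : tr j z ∈ Wd := by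
  rw [stCoord_Vj hj] at hz
  obtain ⟨hx, hw⟩ := hz
  refine ⟨?_, ?_, ?_⟩
  · show xx j z ∉ Lam
    rw [stCoord_small (by linarith)]; exact h1
  · show ww j z + xx j z ∉ Lam
    rw [stCoord_small]
    · exact h3
    · calc ‖ww j z + xx j z‖ ≤ ‖ww j z‖ + ‖xx j z‖ := norm_add_le _ _
        _ < 1 := by linarith
  · show ww j z + xx j z - xx j z ∉ Lam
    rw [add_sub_cancel_right, stCoord_small (by linarith)]; exact h2

theorem stCoord_openV (j : Fin 4) : IsOpen (V j) := by
  by_cases hj : j = 0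
  · subst hj
    rw [stCoord_V0, isOpen_compl_iff]
    exact (stCoord_closed.preimage continuous_fst).inter (stCoord_closed.preimage continuous_snd)
  · rw [stCoord_Vj hj]
    exact (isOpen_lt (stCoord_contx j).norm continuous_const).inter
      (isOpen_lt (stCoord_contw j).norm continuous_const)

theorem stCoord_dense (j : Fin 4) (z : E) (hz : z ∈ V j) : z ∈ closure (V j ∩ tr j ⁻¹' Wd) := by
  have hmain : ∀ v : E, (∀ᶠ s in 𝓝[≠] (0 : ℂ), z + s • v ∈ V j → tr j (z + s • v) ∈ Wd) →
      z ∈ closure (V j ∩ tr j ⁻¹' Wd) := by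
    intro v hv
    have ht0 : Tendsto (fun s : ℂ => z + s • v) (𝓝 0) (𝓝 (z + (0 : ℂ) • v)) := by
      apply Continuous.tendsto; fun_prop
    rw [zero_smul, add_zero] at ht0
    have ht : Tendsto (fun s : ℂ => z + s • v) (𝓝[≠] 0) (𝓝 z) := ht0.mono_left nhdsWithin_le_nhds
    refine mem_closure_of_tendsto ht ?_
    have hV := ht.eventually ((stCoord_openV j).mem_nhds hz)
    filter_upwards [hv, hV] with s h1 h2
    exact ⟨h2, h1 h2⟩
  fin_cases j
  · apply hmain (1, 2)
    have a1 := (stCoord_line z.1 (k := 1) one_ne_zero).eventually (stCoord_disc z.1)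
    have a2 := (stCoord_line z.2 (k := 2) two_ne_zero).eventually (stCoord_disc z.2)
    have a3 := (stCoord_line (z.2 - z.1) (k := 1) one_ne_zero).eventually (stCoord_disc (z.2 - z.1))
    filter_upwards [a1, a2, a3] with s h1 h2 h3 _
    refine ⟨?_, ?_, ?_⟩
    · convert h1 using 1
      simp [tr, xx]
    · convert h2 using 1
      simp [tr, xx, ww]; ring_nf
    · convert h3 using 1
      simp [tr, xx, ww]; ring_nf
  · apply hmain (1, 1)
    filter_upwards [stCoord_ne z.1, stCoord_ne z.2, stCoord_ne (1 + z.1)] with s h1 h2 h3 hV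
    apply stCoord_Wd (by decide) hV
    · simpa [xx] using ⟨h1, h2⟩
    · simpa [ww] using h2
    · have : ww 1 (z + s • ((1 : ℂ), (1 : ℂ))) + xx 1 (z + s • ((1 : ℂ), (1 : ℂ)))
          = (z.2 + s) * (1 + z.1 + s) := by simp [xx, ww]; ring
      show ww 1 (z + s • ((1 : ℂ), (1 : ℂ))) + xx 1 (z + s • ((1 : ℂ), (1 : ℂ))) ≠ 0
      rw [this]; exact mul_ne_zero h2 h3
  · apply hmain (1, 1)
    filter_upwards [stCoord_ne z.1, stCoord_ne z.2, stCoord_ne (1 + z.2)] with s h1 h2 h3 hV
    apply stCoord_Wd (by decide) hV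
    · simpa [xx] using ⟨h1, h2⟩
    · simpa [ww] using ⟨h1, h2⟩
    · have : ww 2 (z + s • ((1 : ℂ), (1 : ℂ))) + xx 2 (z + s • ((1 : ℂ), (1 : ℂ)))
          = (z.1 + s) * ((z.2 + s) * (1 + z.2 + s)) := by simp [xx, ww]; ring
      show ww 2 (z + s • ((1 : ℂ), (1 : ℂ))) + xx 2 (z + s • ((1 : ℂ), (1 : ℂ))) ≠ 0
      rw [this]; exact mul_ne_zero h1 (mul_ne_zero h2 h3)
  · apply hmain (1, 1)
    filter_upwards [stCoord_ne z.1, stCoord_ne z.2, stCoord_ne2 z.1 z.2] with s h1 h2 h3 hV
    apply stCoord_Wd (by decide) hV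
    · simpa [xx] using h1
    · simpa [ww] using ⟨h1, h2⟩
    · have : ww 3 (z + s • ((1 : ℂ), (1 : ℂ))) + xx 3 (z + s • ((1 : ℂ), (1 : ℂ)))
          = (z.1 + s) * (1 + (z.1 + s) * (z.2 + s)) := by simp [xx, ww]; ring
      show ww 3 (z + s • ((1 : ℂ), (1 : ℂ))) + xx 3 (z + s • ((1 : ℂ), (1 : ℂ))) ≠ 0
      rw [this]; exact mul_ne_zero h1 h3

theorem stCoord_an (j : Fin 4) (z : E) : ContDiffAt ℂ ω (tr j) z := by
  fin_cases j
  · show ContDiffAt ℂ ω (fun z : E => (z.1, z.2 - z.1 + z.1)) z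
    fun_prop
  · show ContDiffAt ℂ ω (fun z : E => (z.1 * z.2, z.2 + z.1 * z.2)) z
    fun_prop
  · show ContDiffAt ℂ ω (fun z : E => (z.1 * z.2, z.1 * z.2 ^ 2 + z.1 * z.2)) z
    fun_prop
  · show ContDiffAt ℂ ω (fun z : E => (z.1, z.1 ^ 2 * z.2 + z.1)) z
    fun_prop

theorem stCoord_tr0 (z : E) : tr 0 z = z := by
  show (z.1, z.2 - z.1 + z.1) = z
  rw [sub_add_cancel]

theorem stCoord_exc (j : Fin 4) (hj : j ≠ 0) (z : E) (hz : z ∈ V j) :
    tr j z ∈ V 0 ↔ tr j z ≠ 0 := by
  rw [stCoord_Vj hj] at hz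
  obtain ⟨hx, hw⟩ := hz
  rw [stCoord_V0, mem_compl_iff, not_iff_not]
  show (xx j z ∈ Lam ∧ ww j z + xx j z ∈ Lam) ↔ _
  rw [stCoord_small (show ‖xx j z‖ < 1 by linarith), stCoord_small (show ‖ww j z + xx j z‖ < 1 from
    lt_of_le_of_lt (norm_add_le _ _) (by linarith))]
  show _ ↔ (xx j z, ww j z + xx j z) = 0
  rw [Prod.mk_eq_zero]

theorem stCoord_loc (j : Fin 4) (z : E) (hz : z ∈ V j) (h0 : tr j z ∈ V 0) :
    Function.Injective (fderiv ℂ (tr j) z) := by
  have h1 : HasFDerivAt (fun z : E => z.1) (ContinuousLinearMap.fst ℂ ℂ ℂ) z := hasFDerivAt_fst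
  have h2 : HasFDerivAt (fun z : E => z.2) (ContinuousLinearMap.snd ℂ ℂ ℂ) z := hasFDerivAt_snd
  rw [injective_iff_map_eq_zero]
  intro v hv
  by_cases hj : j = 0
  · subst hj
    have : tr 0 = id := by funext z; exact stCoord_tr0 z
    rw [this, fderiv_id] at hv
    exact hv
  · have hne := (stCoord_exc j hj z hz).mp h0
    fin_cases j
    · exact absurd rfl hj
    · have hd : HasFDerivAt (tr 1) _ z := (h1.mul h2).prodMk (h2.add (h1.mul h2))
      have hv' := hv
      rw [show fderiv ℂ (tr ((fun i => i) ⟨1, by decide⟩)) z = _ from hd.fderiv] at hv'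
      have e1 := congrArg Prod.fst hv'
      have e2 := congrArg Prod.snd hv'
      simp at e1 e2
      have hz2 : z.2 ≠ 0 := by
        intro h
        apply hne
        show (z.1 * z.2, z.2 + z.1 * z.2) = 0
        rw [h]; simp
      have v2 : v.2 = 0 := by linear_combination e2 - e1
      have v1 : v.1 = 0 := by
        rw [v2] at e1
        have : z.2 * v.1 = 0 := by linear_combination e1
        exact (mul_eq_zero.mp this).resolve_left hz2
      exact Prod.ext v1 v2
    · have hd : HasFDerivAt (tr 2) _ z := (h1.mul h2).prodMk ((h1.mul (h2.pow 2)).add (h1.mul h2))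
      have hv' := hv
      rw [show fderiv ℂ (tr ((fun i => i) ⟨2, by decide⟩)) z = _ from hd.fderiv] at hv'
      have e1 := congrArg Prod.fst hv'
      have e2 := congrArg Prod.snd hv'
      simp at e1 e2
      have hz12 : z.1 ≠ 0 ∧ z.2 ≠ 0 := by
        constructor
        · intro h
          apply hne
          show (z.1 * z.2, z.1 * z.2 ^ 2 + z.1 * z.2) = 0
          rw [h]; simp
        · intro h
          apply hne
          show (z.1 * z.2, z.1 * z.2 ^ 2 + z.1 * z.2) = 0
          rw [h]; simp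
      have v2' : z.1 * z.2 * v.2 = 0 := by linear_combination e2 - e1 - z.2 * e1
      have v2 : v.2 = 0 := (mul_eq_zero.mp v2').resolve_left (mul_ne_zero hz12.1 hz12.2)
      have v1 : v.1 = 0 := by
        rw [v2] at e1
        have : z.2 * v.1 = 0 := by linear_combination e1
        exact (mul_eq_zero.mp this).resolve_left hz12.2
      exact Prod.ext v1 v2
    · have hd : HasFDerivAt (tr 3) _ z := h1.prodMk (((h1.pow 2).mul h2).add h1)
      have hv' := hv
      rw [show fderiv ℂ (tr ((fun i => i) ⟨3, by decide⟩)) z = _ from hd.fderiv] at hv'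
      have e1 := congrArg Prod.fst hv'
      have e2 := congrArg Prod.snd hv'
      simp at e1 e2
      have hz1 : z.1 ≠ 0 := by
        intro h
        apply hne
        show (z.1, z.1 ^ 2 * z.2 + z.1) = 0
        rw [h]; simp
      have v2' : z.1 ^ 2 * v.2 = 0 := by
        rw [e1] at e2
        linear_combination e2
      have v2 : v.2 = 0 := (mul_eq_zero.mp v2').resolve_left (pow_ne_zero 2 hz1)
      exact Prod.ext e1 v2

/-- TARGET. Proof in words:
`Lam` is discrete and closed in ℂ (points at distance ≥ 1 from each other), `Lam2 = Lam × Lam`. For `|t| < 1`, `t ∈ Lam ↔ t = 0`.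
open_V, open_Wd, Wd_sub, tr_an (polynomial maps), tr0: direct. 
dense: for j = 0: the complement of Wd is contained in a countable union of proper complex affine lines {x = l}, {y = l},
{y - x = l}; show that every ball around z contains a point of Wd; e.g. for fixed z consider the real/complex line
`s ↦ z + s (1, 2)`, small s ≠ 0: x = z.1 + s, y = z.2 + 2 s, y - x = z.2 - z.1 + s and each lies off the discrete closed set Lam for
all small s ≠ 0 (eventually in 𝓝[≠] 0). Same idea for j = 1, 2, 3: in V j the functions x, w and y = x + w are small (< 1/4), so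
they are in Lam iff they vanish; along the curve `s ↦ z + s (1, c)` with suitable c (or the line `s ↦ z + s v` for any v
such that the product x·w·(x+w)∘(line) is a nonzero polynomial in s) they are ≠ 0 for small s ≠ 0. E.g. show that the
polynomials x, w, w + x of (ξ, η) do not vanish identically on the line: for j=1: x = ξη, w = η, x + w = η(1+ξ); j=2:
ξη, ξη², ξη(1+η); j=3: ξ, ξ²η, ξ(1+ξη): choose v = (1,1) and note that ξ+s, η+s, 1+ξ+s, 1+η+s, 1+(ξ+s)(η+s) are nonzero for
all small s ≠ 0 (each is a nonconstant polynomial in s).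
exc: for j ≠ 0 and z ∈ V j: |x| < 1/8 and |y| ≤ |w| + |x| < 1/4, so (x, y) ∈ Lam2 iff (x, y) = 0.
loc: derivative of tr: j=1: (dx, dy) with dx = η dξ + ξ dη, dw = dη; tr ≠ 0 means η ≠ 0; kernel: dη = 0, η dξ = 0. j=2: dx = η dξ + ξ dη,
dw = η² dξ + 2 ξη dη, tr ≠ 0 iff ξη ≠ 0: dw - η dx = ξη dη = 0, so dη = 0, dξ = 0. j=3: dx = dξ, dw = 2ξη dξ + ξ² dη, tr ≠ 0 iff ξ ≠ 0.
-/
theorem stCoord : StCoord := by
  refine ⟨stCoord_openV, ?_, ?_, stCoord_dense, stCoord_an, stCoord_tr0, stCoord_exc, stCoord_loc⟩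
  · have h1 : IsOpen {z : E | z.1 ∉ Lam} := stCoord_closed.isOpen_compl.preimage continuous_fst
    have h2 : IsOpen {z : E | z.2 ∉ Lam} := stCoord_closed.isOpen_compl.preimage continuous_snd
    have h3 : IsOpen {z : E | z.2 - z.1 ∉ Lam} :=
      stCoord_closed.isOpen_compl.preimage (continuous_snd.sub continuous_fst)
    exact h1.inter (h2.inter h3)
  · intro z hz
    rw [stCoord_V0]
    exact fun h => hz.1 h.1


end JstCoord

end Pool.Agent.Y810.SP
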