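import Pool.Agent.Y810.SP.Base

set_option autoImplicit false

open Set Topology Filter
open scoped ContDiff Manifold

namespace Pool.Agent.Y810.SP

namespace JstFar


theorem cdH {H A : ℂ → ℝ} {e : ℝ} (h : HF H A e) : ContDiff ℝ ∞ H := by
  have h1 : H = fun x => ‖x‖ ^ 2 * A x := funext h.H_eq
  rw [h1]
  exact (contDiff_norm_sq ℝ).mul h.A_smooth

/-- TARGET. Proof in words:
z = (x, y) ∈ Wd. Near z (z ∉ Lam2, H w + (H x)² > 0) the function Th 0 + far equals `e|x|² + 3e|y|² + 5/2 log (H y)` (the logarithms of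
H w + (H x)² cancel, tr 0 t = t), with Levi form `4e|v₁|² + 12e|v₂|² + 5/2 (-4e)|v₂|² = 4e|v₁|² + 2e|v₂|² ≥ 0` (L.fst, L.snd, L.sq, HF.lap_H).
-/
theorem stFar (L : LevBasics) : StFar := by
  intro H A e h z hz v
  obtain ⟨h1, h2, h3⟩ := hz
  have hfun : (fun t : E => Th H A e 0 t + far H t) =
      fun t : E => (e * ‖t.1‖ ^ 2 + (3 * e) * ‖t.2‖ ^ 2) + (5 / 2) * Real.log (H t.2) := by
    funext t
    simp only [Th, far, ca, cb, tr, xx, ww, sub_add_cancel]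
    ring
  rw [hfun]
  have hn1 : ContDiffAt ℝ 2 (fun t : E => ‖t.1‖ ^ 2) z :=
    ((contDiff_norm_sq ℝ).comp contDiff_fst).contDiffAt
  have hn2 : ContDiffAt ℝ 2 (fun t : E => ‖t.2‖ ^ 2) z :=
    ((contDiff_norm_sq ℝ).comp contDiff_snd).contDiffAt
  have hHne : H z.2 ≠ 0 := (h.H_pos z.2 h2).ne'
  have hH2 : ContDiff ℝ 2 H := (cdH h).of_le (WithTop.coe_le_coe.2 le_top)
  have hlog0 : ContDiffAt ℝ 2 (fun t : ℂ => Real.log (H t)) z.2 := hH2.contDiffAt.log hHne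
  have hlog : ContDiffAt ℝ 2 (fun t : E => Real.log (H t.2)) z :=
    ContDiffAt.comp z hlog0 contDiff_snd.contDiffAt
  have hc1 : ContDiffAt ℝ 2 (fun t : E => e * ‖t.1‖ ^ 2) z := contDiffAt_const.mul hn1
  have hc2 : ContDiffAt ℝ 2 (fun t : E => (3 * e) * ‖t.2‖ ^ 2) z := contDiffAt_const.mul hn2
  have hc3 : ContDiffAt ℝ 2 (fun t : E => (5 / 2) * Real.log (H t.2)) z :=
    contDiffAt_const.mul hlog
  have hs : ∀ x : ℂ, ContDiffAt ℝ 2 (fun t : ℂ => ‖t‖ ^ 2) x :=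
    fun x => (contDiff_norm_sq ℝ).contDiffAt
  rw [L.add _ _ z v (hc1.add hc2) hc3, L.add _ _ z v hc1 hc2, L.smul _ _ z v hn1,
    L.smul _ _ z v hn2, L.smul _ _ z v hlog, L.fst (fun x => ‖x‖ ^ 2) z v (hs _),
    L.snd (fun x => ‖x‖ ^ 2) z v (hs _), L.snd (fun x => Real.log (H x)) z v hlog0,
    L.sq, L.sq, h.lap_H z.2 h2]
  have he := h.e_pos
  have e1 : e * (‖v.1‖ ^ 2 * 4) + 3 * e * (‖v.2‖ ^ 2 * 4) + 5 / 2 * (‖v.2‖ ^ 2 * -(4 * e)) =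
      4 * e * ‖v.1‖ ^ 2 + 2 * e * ‖v.2‖ ^ 2 := by ring
  rw [e1]
  positivity


end JstFar

end Pool.Agent.Y810.SP
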