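import Pool.Agent.Y810.SP.Base

set_option autoImplicit false

open Set Topology Filter
open scoped ContDiff Manifold

namespace Pool.Agent.Y810.SP

namespace JstForm


section StFormAux

/-- a complex analytic map is smooth in the real sense -/
theorem sf_real {τ : E → E} {z : E} (h : ContDiffAt ℂ ω τ z) : ContDiffAt ℝ 2 τ z :=
  (h.restrict_scalars ℝ).of_le le_top

theorem sf_Fc2 {F : Fin 4 → E → ℝ} (hF : Sm F) (j : Fin 4) {z : E} (hz : z ∈ V j) :
    ContDiffAt ℝ 2 (F j) z :=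
  (hF j z hz).of_le (by norm_cast)

/-- elements of `Lam` of small norm are zero -/
theorem sf_lam_small {x : ℂ} (hx : x ∈ Lam) (h : ‖x‖ < 1) : x = 0 := by
  obtain ⟨m, n, rfl⟩ := hx
  have h1 : |((m : ℂ) + n * Complex.I).re| < 1 := lt_of_le_of_lt (Complex.abs_re_le_norm _) h
  have h2 : |((m : ℂ) + n * Complex.I).im| < 1 := lt_of_le_of_lt (Complex.abs_im_le_norm _) h
  simp at h1 h2
  have hm : m = 0 := by
    have : |m| < 1 := by exact_mod_cast h1
    exact Int.abs_lt_one_iff.mp this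
  have hn : n = 0 := by
    have : |n| < 1 := by exact_mod_cast h2
    exact Int.abs_lt_one_iff.mp this
  simp [hm, hn]

theorem sf_lam2_small {x y : E} (hx : x ∈ Lam2) (hy : y ∈ Lam2) (h : dist x y < 1) : x = y := by
  have h1 : dist x.1 y.1 < 1 := lt_of_le_of_lt (by rw [Prod.dist_eq]; exact le_max_left _ _) h
  have h2 : dist x.2 y.2 < 1 := lt_of_le_of_lt (by rw [Prod.dist_eq]; exact le_max_right _ _) h
  have e1 : x.1 - y.1 = 0 := sf_lam_small (Lam.sub_mem hx.1 hy.1) (by rwa [dist_eq_norm] at h1)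
  have e2 : x.2 - y.2 = 0 := sf_lam_small (Lam.sub_mem hx.2 hy.2) (by rwa [dist_eq_norm] at h2)
  exact Prod.ext (sub_eq_zero.mp e1) (sub_eq_zero.mp e2)

variable {X : Type} [TopologicalSpace X] [ChartedSpace E X] {κ : Fin 4 → E → X}

/-- the key formula at a nonexceptional point -/
theorem sf_key0 (L : LevBasics) (C : Coord) (S : IsSurf κ) {F : Fin 4 → E → ℝ} (hF : IsPot F)
    {i j : Fin 4} {t : E} {τ : E → E}
    (h : ∀ᶠ s in 𝓝 t, s ∈ V i ∧ τ s ∈ V j ∧ κ j (τ s) = κ i s ∧ ContDiffAt ℂ ω τ s)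
    (ht : tr i t ∈ V 0) (v : E) :
    lev (F i) t v = lev (F j) (τ t) (fderiv ℂ τ t v) := by
  obtain ⟨hti, htj, htk, htc⟩ := h.self_of_nhds
  have htri : ContinuousAt (tr i) t := (C.tr_an i t).continuousAt
  have hev : ∀ᶠ s in 𝓝 t, tr i s ∈ V 0 := htri.eventually ((C.open_V 0).mem_nhds ht)
  have hlam : ∀ᶠ s in 𝓝 t, tr j (τ s) ∈ V 0 ∧ tr j (τ s) - tr i s ∈ Lam2 := by
    filter_upwards [h, hev] with s hs hs0
    obtain ⟨h1, h2, h3, h4⟩ := hs
    have e1 : κ i s = κ 0 (tr i s) := S.eqj i s h1 hs0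
    have e2 : tr j (τ s) ∈ V 0 := by
      by_contra hne
      exact S.ne j (τ s) h2 hne (tr i s) hs0 (h3.trans e1)
    have e3 : κ j (τ s) = κ 0 (tr j (τ s)) := S.eqj j (τ s) h2 e2
    exact ⟨e2, (S.eq0 _ _ hs0 e2).mp (by rw [← e1, ← e3, h3])⟩
  obtain ⟨htj0, hl⟩ := hlam.self_of_nhds
  set l : E := tr j (τ t) - tr i t with hldef
  have hcont : ContinuousAt (fun s => tr j (τ s) - tr i s) t :=
    ((C.tr_an j (τ t)).continuousAt.comp htc.continuousAt).sub htri
  have heq : ∀ᶠ s in 𝓝 t, tr j (τ s) = tr i s + l := by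
    have hb : ∀ᶠ s in 𝓝 t, dist (tr j (τ s) - tr i s) l < 1 :=
      hcont.eventually (Metric.ball_mem_nhds _ one_pos)
    filter_upwards [hlam, hb] with s hs hs2
    have := sf_lam2_small hs.2 hl hs2
    rw [← this]; abel
  -- the real differentiability statements
  have cFi : ContDiffAt ℝ 2 (F i) t := sf_Fc2 hF.smooth i hti
  have cFj : ContDiffAt ℝ 2 (F j) (τ t) := sf_Fc2 hF.smooth j htj
  have cF0 : ContDiffAt ℝ 2 (F 0) (tr i t) := sf_Fc2 hF.smooth 0 ht
  have cF0j : ContDiffAt ℝ 2 (F 0) (tr j (τ t)) := sf_Fc2 hF.smooth 0 htj0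
  have ctri : ContDiffAt ℝ 2 (tr i) t := sf_real (C.tr_an i t)
  have ctrj : ContDiffAt ℝ 2 (tr j) (τ t) := sf_real (C.tr_an j (τ t))
  have cadd : ContDiffAt ℝ 2 (fun s => F 0 (s + l)) (tr i t) := by
    have : ContDiffAt ℝ 2 (F 0) (tr i t + l) := by
      have e : tr i t + l = tr j (τ t) := by rw [hldef]; abel
      rw [e]; exact cF0j
    exact ContDiffAt.comp (tr i t) this (contDiffAt_id.add contDiffAt_const)
  have cF0tri : ContDiffAt ℝ 2 (fun s => F 0 (tr i s)) t := ContDiffAt.comp t cF0 ctri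
  have cF0trj : ContDiffAt ℝ 2 (fun s => F 0 (tr j s)) (τ t) := ContDiffAt.comp (τ t) cF0j ctrj
  -- the chain of equalities
  have s1 : lev (F i) t v = lev (fun s => F 0 (tr i s)) t v := by
    have := hF.compat i t hti ht v
    rw [L.sub _ _ _ _ cFi cF0tri] at this
    linarith
  have s2 : lev (fun s => F 0 (tr i s)) t v = lev (F 0) (tr i t) (fderiv ℂ (tr i) t v) :=
    L.comp (F 0) (tr i) t v (C.tr_an i t) cF0
  have s3 : lev (fun s => F 0 (s + l)) (tr i t) (fderiv ℂ (tr i) t v) =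
      lev (F 0) (tr i t) (fderiv ℂ (tr i) t v) := by
    have := hF.per (tr i t) l ht hl (fderiv ℂ (tr i) t v)
    rw [L.sub _ _ _ _ cadd cF0] at this
    linarith
  have s4 : lev (fun s => F 0 (tr i s + l)) t v =
      lev (fun s => F 0 (s + l)) (tr i t) (fderiv ℂ (tr i) t v) :=
    L.comp (fun s => F 0 (s + l)) (tr i) t v (C.tr_an i t) cadd
  have s5 : lev (fun s => F 0 (tr j (τ s))) t v = lev (fun s => F 0 (tr i s + l)) t v := by
    apply L.congr
    filter_upwards [heq] with s hs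
    rw [hs]
  have s6 : lev (fun s => F 0 (tr j (τ s))) t v =
      lev (fun s => F 0 (tr j s)) (τ t) (fderiv ℂ τ t v) :=
    L.comp (fun s => F 0 (tr j s)) τ t v htc cF0trj
  have s7 : lev (F j) (τ t) (fderiv ℂ τ t v) =
      lev (fun s => F 0 (tr j s)) (τ t) (fderiv ℂ τ t v) := by
    have := hF.compat j (τ t) htj htj0 (fderiv ℂ τ t v)
    rw [L.sub _ _ _ _ cFj cF0trj] at this
    linarith
  rw [s1, s2, ← s3, ← s4, ← s5, s6, ← s7]

/-- the key formula -/
theorem sf_key (L : LevBasics) (C : Coord) (S : IsSurf κ) {F : Fin 4 → E → ℝ} (hF : IsPot F)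
    {i j : Fin 4} {z z' : E} (hz : z ∈ V i) (hz' : z' ∈ V j) {τ : E → E}
    (hτ : ContDiffAt ℂ ω τ z) (hτz : τ z = z') (hκ : ∀ᶠ t in 𝓝 z, κ j (τ t) = κ i t) (v : E) :
    lev (F i) z v = lev (F j) z' (fderiv ℂ τ z v) := by
  subst hτz
  have hτe : ∀ᶠ s in 𝓝 z, ContDiffAt ℂ ω τ s := hτ.eventually (by simp)
  have hall : ∀ᶠ s in 𝓝 z, s ∈ V i ∧ τ s ∈ V j ∧ κ j (τ s) = κ i s ∧ ContDiffAt ℂ ω τ s := by
    filter_upwards [(C.open_V i).mem_nhds hz, hτ.continuousAt.eventually ((C.open_V j).mem_nhds hz'),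
      hκ, hτe] with s h1 h2 h3 h4 using ⟨h1, h2, h3, h4⟩
  have hall2 := hall.eventually_nhds
  set A : Set E := V i ∩ tr i ⁻¹' Wd with hA
  have hzA : z ∈ closure A := C.dense i z hz
  have : (𝓝[A] z).NeBot := mem_closure_iff_nhdsWithin_neBot.mp hzA
  have cFi : ContDiffAt ℝ 2 (F i) z := sf_Fc2 hF.smooth i hz
  have cFj : ContDiffAt ℝ 2 (F j) (τ z) := sf_Fc2 hF.smooth j hz'
  have c1 : ContinuousAt (fun t => lev (F i) t v) z :=
    ContinuousAt.comp (f := fun t : E => (t, v)) (g := fun p : E × E => lev (F i) p.1 p.2)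
      (L.cont (F i) z v cFi) (by fun_prop)
  have cfd : ContinuousAt (fun t => fderiv ℂ τ t) z := by
    have : ContDiffAt ℂ 0 (fderiv ℂ τ) z := hτ.fderiv_right (m := 0) (by simp)
    exact this.continuousAt
  have c2 : ContinuousAt (fun t => lev (F j) (τ t) (fderiv ℂ τ t v)) z :=
    ContinuousAt.comp (f := fun t : E => (τ t, fderiv ℂ τ t v))
      (g := fun p : E × E => lev (F j) p.1 p.2)
      (L.cont (F j) (τ z) (fderiv ℂ τ z v) cFj)
      (hτ.continuousAt.prodMk (cfd.clm_apply continuousAt_const))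
  have t1 : Tendsto (fun t => lev (F i) t v) (𝓝[A] z) (𝓝 (lev (F i) z v)) :=
    c1.tendsto.mono_left nhdsWithin_le_nhds
  have t2 : Tendsto (fun t => lev (F j) (τ t) (fderiv ℂ τ t v)) (𝓝[A] z)
      (𝓝 (lev (F j) (τ z) (fderiv ℂ τ z v))) :=
    c2.tendsto.mono_left nhdsWithin_le_nhds
  have heq : (fun t => lev (F i) t v) =ᶠ[𝓝[A] z]
      (fun t => lev (F j) (τ t) (fderiv ℂ τ t v)) := by
    have h1 : ∀ᶠ t in 𝓝[A] z, t ∈ A := self_mem_nhdsWithin
    filter_upwards [h1, hall2.filter_mono nhdsWithin_le_nhds] with t ht ht2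
    exact sf_key0 L C S hF ht2 (C.Wd_sub ht.2) v
  exact tendsto_nhds_unique_of_eventuallyEq t1 t2 heq

/-- local potentials -/
theorem sf_pot (C : Coord) (S : IsSurf κ) (F : Fin 4 → E → ℝ) (p : X) :
    ∃ (i : Fin 4) (N : Set E) (P : X → ℝ) (z : E), IsOpen N ∧ N ⊆ V i ∧ InjOn (κ i) N ∧
      z ∈ N ∧ κ i z = p ∧ ∀ t ∈ N, P (κ i t) = F i t := by
  obtain ⟨i, z, hz, hzp⟩ := S.cover p
  obtain ⟨N, hN, hinj⟩ := S.inj i z hz
  obtain ⟨N', hN'N, hN'o, hzN'⟩ := mem_nhds_iff.mp (Filter.inter_mem hN ((C.open_V i).mem_nhds hz))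
  have hinj' : InjOn (κ i) N' := hinj.mono fun x hx => (hN'N hx).1
  refine ⟨i, N', fun q => F i (Function.invFunOn (κ i) N' q), z, hN'o, fun x hx => (hN'N hx).2,
    hinj', hzN', hzp, ?_⟩
  intro t ht
  have h1 : Function.invFunOn (κ i) N' (κ i t) ∈ N' := Function.invFunOn_mem ⟨t, ht, rfl⟩
  have h2 : κ i (Function.invFunOn (κ i) N' (κ i t)) = κ i t := Function.invFunOn_eq ⟨t, ht, rfl⟩
  have h3 : Function.invFunOn (κ i) N' (κ i t) = t := hinj' h1 ht h2
  simp only [h3]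

/-- discs given in a coordinate system -/
theorem sf_disc (S : IsSurf κ) {f : ℂ → X} {j : Fin 4} {γ : ℂ → E} (hγ : AnalyticAt ℂ γ 0)
    (h0 : γ 0 ∈ V j) (hf : ∀ᶠ ζ in 𝓝 0, f ζ = κ j (γ ζ)) : IsDisc f := by
  have := S.disc1 j γ h0 hγ
  exact ContMDiffAt.congr_of_eventuallyEq this hf

/-- the Laplacian of a local potential along a disc -/
theorem sf_val (L : LevBasics) (C : Coord) (S : IsSurf κ) {F : Fin 4 → E → ℝ} (hF : IsPot F)
    {i : Fin 4} {N : Set E} {P : X → ℝ} (hNo : IsOpen N) (hNV : N ⊆ V i) (hinj : InjOn (κ i) N)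
    (hP : ∀ t ∈ N, P (κ i t) = F i t) {f : ℂ → X} {j : Fin 4} {γ : ℂ → E}
    (hγ : AnalyticAt ℂ γ 0) (h0 : γ 0 ∈ V j) (hf : ∀ᶠ ζ in 𝓝 0, f ζ = κ j (γ ζ))
    {t : E} (ht : t ∈ N) (hft : f 0 = κ i t) :
    ContDiffAt ℝ 2 (fun ζ => P (f ζ)) 0 ∧
    Laplacian.laplacian (fun ζ => P (f ζ)) 0 = lev (F j) (γ 0) (deriv γ 0) := by
  have hdisc : IsDisc f := sf_disc S hγ h0 hf
  obtain ⟨γ', hγ', hγ't, hfγ', -⟩ := S.disc2 f hdisc i t (hNV ht) hft.symm
  have hN' : ∀ᶠ ζ in 𝓝 (0 : ℂ), γ' ζ ∈ N :=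
    hγ'.continuousAt.eventually (by rw [hγ't]; exact hNo.mem_nhds ht)
  have hPf : (fun ζ => P (f ζ)) =ᶠ[𝓝 0] (fun ζ => F i (γ' ζ)) := by
    filter_upwards [hfγ', hN'] with ζ h1 h2
    rw [h1, hP _ h2]
  have cF : ContDiffAt ℝ 2 (F i) (γ' 0) := by rw [hγ't]; exact sf_Fc2 hF.smooth i (hNV ht)
  have cγ' : ContDiffAt ℝ 2 γ' 0 := by
    have : ContDiffAt ℂ 2 γ' 0 := hγ'.contDiffAt
    exact this.restrict_scalars ℝ
  have cc : ContDiffAt ℝ 2 (fun ζ => F i (γ' ζ)) 0 := ContDiffAt.comp (0 : ℂ) cF cγ'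
  refine ⟨cc.congr_of_eventuallyEq hPf, ?_⟩
  have e1 : Laplacian.laplacian (fun ζ => P (f ζ)) 0 =
      Laplacian.laplacian (fun ζ => F i (γ' ζ)) 0 :=
    (InnerProductSpace.laplacian_congr_nhds hPf).self_of_nhds
  rw [e1, L.disc (F i) γ' hγ' cF]
  -- the transition map
  have hf0 : f 0 = κ j (γ 0) := hf.self_of_nhds
  obtain ⟨τ, hτ, hτz, hτκ⟩ := S.trans j i (γ 0) t h0 (hNV ht) (by rw [← hf0, hft])
  have hτγ : (fun ζ => τ (γ ζ)) =ᶠ[𝓝 0] γ' := by
    have hc : ContinuousAt (fun ζ => τ (γ ζ)) 0 :=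
      ContinuousAt.comp (f := γ) (g := τ) hτ.continuousAt hγ.continuousAt
    have hm : ∀ᶠ ζ in 𝓝 (0 : ℂ), τ (γ ζ) ∈ N :=
      hc.eventually (by simp only [hτz]; exact hNo.mem_nhds ht)
    filter_upwards [hm, hN', hfγ', hf, hγ.continuousAt.eventually hτκ] with ζ h1 h2 h3 h4 h5
    exact hinj h1 h2 (by rw [h5, ← h4, h3])
  have hder : deriv γ' 0 = fderiv ℂ τ (γ 0) (deriv γ 0) := by
    rw [← hτγ.deriv_eq]
    have hd1 : HasFDerivAt τ (fderiv ℂ τ (γ 0)) (γ 0) :=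
      (hτ.differentiableAt (by simp)).hasFDerivAt
    have hd2 : HasDerivAt γ (deriv γ 0) 0 := hγ.differentiableAt.hasDerivAt
    exact (hd1.comp_hasDerivAt (0 : ℂ) hd2).deriv
  rw [hder, hγ't]
  exact (sf_key L C S hF h0 (hNV ht) hτ hτz hτκ (deriv γ 0)).symm

end StFormAux

/-- TARGET. Proof in words:
KEY: if z ∈ V i, z' ∈ V j, κ i z = κ j z', and τ is as in IsSurf.trans (analytic at z, τ z = z', κ j (τ t) = κ i t near z), then `lev (F i) z v = lev (F j) z' (fderiv ℂ τ z v)` for all v.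
Proof: first let t ∈ V i be a point near z with tr i t ∈ V 0 (nonexceptional). Then κ j (τ t) = κ i t = κ 0 (tr i t), so τ t (∈ V j for t near z) is nonexceptional (`ne`), κ 0 (tr j (τ t)) = κ 0 (tr i t) so
l = tr j (τ t) - tr i t ∈ Lam2 (eq0), and the same for all points near t with the same l (Lam2 is discrete; continuity: tr j (τ s) - tr i s is continuous in s with values in the discrete closed set Lam2, e.g. it is within distance < 1/2 of l, and distinct points of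
Lam2 have distance ≥ 1). So near t: tr j ∘ τ = tr i + l. By IsPot.compat (for i), IsPot.per and IsPot.compat (for j) with the chain rule L.comp:
 lev (F i) t v = lev (F 0 ∘ tr i) t v = lev (F 0 (· + l) ∘ tr i) t v = lev (F 0 ∘ tr j ∘ τ) t v = lev (F j ∘ τ) t v = lev (F j) (τ t) (fderiv ℂ τ t v).
(per: lev (F 0 (·+l) - F 0) (tr i t) w = 0 for all w.) Now let t → z along the nonexceptional points (dense by C.dense); both sides are continuous (L.cont jointly in point and direction, τ analytic so fderiv τ continuous).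
Form: for p ∈ X choose (i p, z p) with z p ∈ V (i p), κ (i p) (z p) = p, and a local inverse: let N ∋ z p be an open set in V (i p) on which κ (i p) is injective (IsSurf.inj); put pot p q = F (i p) (t) for the t ∈ N with κ (i p) t = q (invFunOn), so pot p (κ (i p) t) = F (i p) t for t ∈ N.
smooth: q near p is κ (i p) t with t ∈ N (nhds); near t, pot p ∘ κ (i p) = F (i p), smooth; use IsSurf.smooth.
VALUE: for a disc f with f = κ j ∘ γ near 0, γ analytic at 0, γ 0 ∈ V j, and q₀ := f 0 = κ (i p) t, t ∈ N (some p): by IsSurf.disc2 f = κ (i p) ∘ γ' near 0 with γ' 0 = t; pot p (f ζ) = F (i p) (γ' ζ) near 0, Laplacian = lev (F (i p)) t (γ'' ) with γ'' = deriv γ' 0 (L.disc). With τ from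
trans for (j, γ 0), (i p, t): κ (i p) (τ (γ ζ)) = κ j (γ ζ) = f ζ = κ (i p) (γ' ζ), both τ (γ ζ), γ' ζ near t, so τ ∘ γ = γ' near 0 by injectivity, deriv γ' 0 = fderiv ℂ τ (γ 0) (deriv γ 0). By KEY: Laplacian of pot p ∘ f at 0 = lev (F j) (γ 0) (deriv γ 0). Taking p = f 0: this is the formula for θ.val f.
compat: the same VALUE computation for p and for q = f 0 gives the same Laplacian for pot p ∘ f and pot q ∘ f; Laplacian of the difference is the difference (both C² at 0), so 0.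
-/
theorem stForm (L : LevBasics) (C : Coord) : StForm := by
  intro X _ _ κ S F hF
  choose I N P Z hNo hNV hinj hZN hZp hP using sf_pot C S F
  refine ⟨⟨P, ?_, ?_⟩, ?_⟩
  · -- smoothness
    intro p
    have hm : map (κ (I p)) (𝓝 (Z p)) = 𝓝 p := by
      rw [S.nhds (I p) (Z p) (hNV p (hZN p)), hZp p]
    rw [← hm, eventually_map]
    filter_upwards [(hNo p).mem_nhds (hZN p)] with t ht
    rw [S.smooth (P p) (I p) t (hNV p ht)]
    refine (hF.smooth (I p) t (hNV p ht)).congr_of_eventuallyEq ?_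
    filter_upwards [(hNo p).mem_nhds ht] with s hs
    exact hP p s hs
  · -- compatibility
    intro p
    have hm : map (κ (I p)) (𝓝 (Z p)) = 𝓝 p := by
      rw [S.nhds (I p) (Z p) (hNV p (hZN p)), hZp p]
    rw [← hm, eventually_map]
    filter_upwards [(hNo p).mem_nhds (hZN p)] with t ht
    intro f hf hf0
    set q : X := κ (I p) t with hq
    obtain ⟨γ, hγ, hγ0, hfγ, -⟩ := S.disc2 f hf (I q) (Z q) (hNV q (hZN q))
      (by rw [hZp q, hf0])
    have hγV : γ 0 ∈ V (I q) := by rw [hγ0]; exact hNV q (hZN q)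
    obtain ⟨a1, a2⟩ := sf_val L C S hF (hNo p) (hNV p) (hinj p) (hP p) hγ hγV hfγ ht
      (by rw [hf0])
    obtain ⟨b1, b2⟩ := sf_val L C S hF (hNo q) (hNV q) (hinj q) (hP q) hγ hγV hfγ (hZN q)
      (by rw [hf0, hZp q])
    have := a1.laplacian_sub b1
    have e : (fun ζ : ℂ => P p (f ζ) - P q (f ζ)) =
        (fun ζ => P p (f ζ)) - (fun ζ => P q (f ζ)) := rfl
    rw [e, this, a2, b2, sub_self]
  · intro f j γ hγ h0 hf
    exact (sf_val L C S hF (hNo (f 0)) (hNV (f 0)) (hinj (f 0)) (hP (f 0)) hγ h0 hf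
      (hZN (f 0)) (hZp (f 0)).symm).2


end JstForm

end Pool.Agent.Y810.SP
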