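import Pool.Agent.Y810.SP.Base

set_option autoImplicit false

open Set Topology Filter
open scoped ContDiff Manifold

namespace Pool.Agent.Y810.SP

namespace JstFun


/-- TARGET. Proof in words:
Let N = κ 0 '' V 0 (the nonexceptional points). Define u₀ on N by u₀ (κ 0 z) = F 0 z (z ∈ V 0): well-defined by eq0 and IsFun.per. For j, z ∈ V j with tr j z ∈ V 0: κ j z = κ 0 (tr j z) and F j z = F 0 (tr j z) = u₀ (κ j z).
For exceptional z ∈ V j (tr j z ∉ V 0), κ j z ∉ N by `ne`. Claim: if κ j z = κ k z' with both exceptional then F j z = F k z': both are the limit of u₀ q as q → p = κ j z inside N: 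
Tendsto u₀ (𝓝[N] p) (𝓝 (F j z)): since 𝓝 p = map (κ j) (𝓝 z) (nhds), for t near z with κ j t ∈ N one has tr j t ∈ V 0 (by ne) so u₀ (κ j t) = F j t → F j z by continuity. And 𝓝[N] p is NeBot: C.dense gives t → z in V j with tr j t ∈ Wd ⊆ V 0,
κ j t ∈ N. Uniqueness of limits. Now define u p = u₀ p for p ∈ N, and for p ∉ N: F j z for some choice of (j, z) with z ∈ V j, κ j z = p (cover).
-/
theorem stFun (C : Coord) : StFun := by
  classical
  intro X _ _ κ hS F hF
  have hcov := hS.cover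
  choose jj hjj using hcov
  choose zz hzz1 hzz2 using hjj
  let u : X → ℝ := fun p =>
    if h : ∃ z, z ∈ V 0 ∧ κ 0 z = p then F 0 (Classical.choose h) else F (jj p) (zz p)
  have hA : ∀ j, ∀ z ∈ V j, tr j z ∈ V 0 → u (κ j z) = F j z := by
    intro j z hz ht
    have hex : ∃ z', z' ∈ V 0 ∧ κ 0 z' = κ j z := ⟨tr j z, ht, (hS.eqj j z hz ht).symm⟩
    have hu : u (κ j z) = F 0 (Classical.choose hex) := dif_pos hex
    obtain ⟨h1, h2⟩ := Classical.choose_spec hex
    rw [hu, hF.compat j z hz ht]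
    have h3 : κ 0 (Classical.choose hex) = κ 0 (tr j z) := by rw [h2, hS.eqj j z hz ht]
    have h4 := (hS.eq0 _ _ h1 ht).mp h3
    have h5 := hF.per _ _ h1 h4
    rw [← h5, add_sub_cancel]
  have hN : ∀ j, ∀ z ∈ V j, (∃ z', z' ∈ V 0 ∧ κ 0 z' = κ j z) → tr j z ∈ V 0 := by
    rintro j z hz ⟨z', hz', he⟩
    by_contra ht
    exact hS.ne j z hz ht z' hz' he.symm
  have hlim : ∀ j, ∀ z ∈ V j, Tendsto u (𝓝[κ 0 '' V 0] (κ j z)) (𝓝 (F j z)) := by
    intro j z hz
    rw [tendsto_def]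
    intro O hO
    rw [mem_nhdsWithin_iff_eventually, ← hS.nhds j z hz, eventually_map]
    have hc : ContinuousAt (F j) z := (hF.smooth j z hz).continuousAt
    filter_upwards [(C.open_V j).mem_nhds hz, hc hO] with t ht1 ht2
    rintro ⟨z', hz', he⟩
    show u (κ j t) ∈ O
    rw [hA j t ht1 (hN j t ht1 ⟨z', hz', he⟩)]
    exact ht2
  have hne : ∀ j, ∀ z ∈ V j, (𝓝[κ 0 '' V 0] (κ j z)).NeBot := by
    intro j z hz
    rw [← mem_closure_iff_nhdsWithin_neBot, mem_closure_iff_frequently]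
    have h1 := C.dense j z hz
    rw [mem_closure_iff_frequently] at h1
    rw [← hS.nhds j z hz, frequently_map]
    refine h1.mono fun t ht => ?_
    exact ⟨tr j t, C.Wd_sub ht.2, (hS.eqj j t ht.1 (C.Wd_sub ht.2)).symm⟩
  refine ⟨u, fun j z hz => ?_⟩
  by_cases ht : tr j z ∈ V 0
  · exact hA j z hz ht
  · have hex : ¬ ∃ z', z' ∈ V 0 ∧ κ 0 z' = κ j z := fun h => ht (hN j z hz h)
    have hu : u (κ j z) = F (jj (κ j z)) (zz (κ j z)) := dif_neg hex
    rw [hu]
    have h1 := hlim j z hz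
    have h2 := hlim _ _ (hzz1 (κ j z))
    rw [hzz2] at h2
    have := hne j z hz
    exact tendsto_nhds_unique h2 h1


end JstFun

end Pool.Agent.Y810.SP
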