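import Pool.Agent.Y810.SP.Base

set_option autoImplicit false

open Set Topology Filter
open scoped ContDiff Manifold

namespace Pool.Agent.Y810.SP

namespace JstGlueA


namespace GlueA

variable {ι S : Type} (G : GData ι S)

/-- the topology -/
@[instance_reducible] def top : TopologicalSpace S where
  IsOpen U := ∀ i, IsOpen (G.V i ∩ G.κ i ⁻¹' U)
  isOpen_univ := by intro i; simpa using G.isOpen_V i
  isOpen_inter := by
    intro s t hs ht i
    have := (hs i).inter (ht i)
    convert this using 1
    ext z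
    simp only [mem_inter_iff, mem_preimage]
    tauto
  isOpen_sUnion := by
    intro s hs i
    have : G.V i ∩ G.κ i ⁻¹' ⋃₀ s = ⋃ t ∈ s, (G.V i ∩ G.κ i ⁻¹' t) := by
      ext z
      simp only [mem_inter_iff, mem_preimage, mem_sUnion, mem_iUnion, exists_prop]
      constructor
      · rintro ⟨h1, t, ht, h2⟩; exact ⟨t, ht, h1, h2⟩
      · rintro ⟨t, ht, h1, h2⟩; exact ⟨h1, t, ht, h2⟩
    rw [this]
    exact isOpen_biUnion fun t ht => hs t ht i

lemma isOpen_image (i : ι) (W : Set E) (hW : IsOpen W) (hWV : W ⊆ G.V i) :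
    @IsOpen S (top G) (G.κ i '' W) := by
  intro j
  rw [isOpen_iff_mem_nhds]
  rintro z' ⟨hz', z, hz, hzz⟩
  obtain ⟨τ, hτ, hev⟩ := G.trans j i z' z hz' (hWV hz) hzz.symm
  have h1 := hev.self_of_nhds
  have h2 : τ z' = z := G.inj i h1.1 (hWV hz) (h1.2.trans hzz.symm)
  have h3 : ContinuousAt τ z' := hτ.continuousAt
  have h4 : ∀ᶠ t in 𝓝 z', τ t ∈ W := h3 (by rw [h2]; exact hW.mem_nhds hz)
  filter_upwards [h4, hev, (G.isOpen_V j).mem_nhds hz'] with t ht1 ht2 ht3
  exact ⟨ht3, τ t, ht1, ht2.2⟩

/-- the charts -/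
noncomputable def ch (i : ι) : @OpenPartialHomeomorph S E (top G) _ :=
  letI := top G
  { toFun := Function.invFunOn (G.κ i) (G.V i)
    invFun := G.κ i
    source := G.κ i '' G.V i
    target := G.V i
    map_source' := by
      rintro s ⟨z, hz, rfl⟩
      exact Function.invFunOn_mem ⟨z, hz, rfl⟩
    map_target' := fun z hz => mem_image_of_mem _ hz
    left_inv' := by
      rintro s ⟨z, hz, rfl⟩
      exact Function.invFunOn_eq ⟨z, hz, rfl⟩
    right_inv' := by
      intro z hz
      exact (G.inj i).leftInvOn_invFunOn hz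
    open_source := isOpen_image G i _ (G.isOpen_V i) subset_rfl
    open_target := G.isOpen_V i
    continuousOn_toFun := by
      have hop : IsOpen (G.κ i '' G.V i) := isOpen_image G i _ (G.isOpen_V i) subset_rfl
      rw [continuousOn_open_iff hop]
      intro W hW
      have : G.κ i '' G.V i ∩ Function.invFunOn (G.κ i) (G.V i) ⁻¹' W = G.κ i '' (G.V i ∩ W) := by
        ext s
        constructor
        · rintro ⟨⟨z, hz, rfl⟩, h2⟩
          rw [mem_preimage, (G.inj i).leftInvOn_invFunOn hz] at h2
          exact ⟨z, ⟨hz, h2⟩, rfl⟩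
        · rintro ⟨z, ⟨hz, hw⟩, rfl⟩
          refine ⟨⟨z, hz, rfl⟩, ?_⟩
          rw [mem_preimage, (G.inj i).leftInvOn_invFunOn hz]
          exact hw
      rw [this]
      exact isOpen_image G i _ ((G.isOpen_V i).inter hW) inter_subset_left
    continuousOn_invFun := by
      rw [continuousOn_open_iff (G.isOpen_V i)]
      intro U hU
      exact hU i }

lemma ch_coe (i : ι) : letI := top G; (ch G i : S → E) = Function.invFunOn (G.κ i) (G.V i) := rfl

lemma ch_symm (i : ι) : letI := top G; ((ch G i).symm : E → S) = G.κ i := rfl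

lemma ch_apply (i : ι) (z : E) (hz : z ∈ G.V i) : letI := top G; ch G i (G.κ i z) = z := by
  letI := top G
  exact (ch G i).right_inv hz

/-- the charted space -/
@[instance_reducible] noncomputable def cs : @ChartedSpace E _ S (top G) :=
  letI := top G
  { atlas := range (ch G)
    chartAt := fun s => ch G (Classical.choose (G.cover s))
    mem_chart_source := by
      intro s
      obtain ⟨z, hz, h⟩ := Classical.choose_spec (G.cover s)
      exact ⟨z, hz, h⟩
    chart_mem_atlas := fun s => mem_range_self _ }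

lemma trans_contDiffOn (i j : ι) : letI := top G;
    ContDiffOn ℂ ω ((ch G i).symm ≫ₕ ch G j) ((ch G i).symm ≫ₕ ch G j).source := by
  letI := top G
  intro z hz
  have hz1 : z ∈ G.V i := hz.1
  obtain ⟨z', hz', hzz⟩ : G.κ i z ∈ G.κ j '' G.V j := hz.2
  obtain ⟨τ, hτ, hev⟩ := G.trans i j z z' hz1 hz' hzz.symm
  refine ContDiffAt.contDiffWithinAt ?_
  refine hτ.congr_of_eventuallyEq ?_
  filter_upwards [hev] with t ht
  show ch G j (G.κ i t) = τ t
  rw [← ht.2, ch_apply G j _ ht.1]

lemma man : letI := top G; letI := cs G; IsManifold 𝓘(ℂ, E) ω S := by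
  letI := top G
  letI := cs G
  refine isManifold_of_contDiffOn _ _ _ ?_
  rintro _ _ ⟨i, rfl⟩ ⟨j, rfl⟩
  simpa using trans_contDiffOn G i j

lemma manR : letI := top G; letI := cs G; IsManifold 𝓘(ℝ, E) ∞ S := by
  letI := top G
  letI := cs G
  refine isManifold_of_contDiffOn _ _ _ ?_
  rintro _ _ ⟨i, rfl⟩ ⟨j, rfl⟩
  have h := trans_contDiffOn G i j
  have h2 : ContDiffOn ℝ ∞ ((ch G i).symm ≫ₕ ch G j) ((ch G i).symm ≫ₕ ch G j).source :=
    (h.restrict_scalars ℝ).of_le le_top
  simpa using h2

end GlueA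

/-- TARGET. Proof in words:
Topology: U ⊆ S is open iff for all i the set `V i ∩ κ i ⁻¹' U` is open (a topology). By `trans`, for W ⊆ V i open, κ i '' W is open: for z' ∈ V j with κ j z' = κ i z, z ∈ W, the
map τ (for the pair (j, z'), (i, z)) is continuous at z', τ z' = z by injectivity (κ i (τ z') = κ j z' = κ i z, τ z' ∈ V i), so τ t ∈ W for t near z', so κ j t = κ i (τ t) ∈ κ i '' W. And κ i is continuous on V i by
definition. So κ i restricted to V i is an open embedding with inverse a chart `e i : OpenPartialHomeomorph S E` with source κ i '' V i and target V i (build the OpenPartialHomeomorph directly from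
toFun = invFunOn (κ i) (V i), invFun = κ i). ChartedSpace: atlas = range e, chartAt s = e of a chart i given by `cover`. IsManifold 𝓘(ℂ, E) ω: `isManifold_of_contDiffOn`: the transition
(e i).symm ≫ e j agrees near each point z of its source with the analytic τ (κ j (τ t) = κ i t and τ t ∈ V j give e j (κ i t) = τ t). Over ℝ with ∞: `ContDiffAt.restrict_scalars`, ω ≥ ∞.
chart: e i is in the atlas, so in the maximal atlas (`IsManifold.subset_maximalAtlas`).
Alternatively use `ChartedSpaceCore`. (E = ℂ × ℂ.)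
-/
theorem stGlueA : StGlueA := by
  intro ι S G
  letI := GlueA.top G
  letI := GlueA.cs G
  haveI := GlueA.man G
  haveI := GlueA.manR G
  refine ⟨GlueA.top G, GlueA.cs G, GlueA.man G, GlueA.manR G, ?_⟩
  intro i
  refine ⟨GlueA.ch G i, ?_, ?_, rfl, fun z hz => rfl⟩
  · exact IsManifold.subset_maximalAtlas ⟨i, rfl⟩
  · exact IsManifold.subset_maximalAtlas ⟨i, rfl⟩


end JstGlueA

end Pool.Agent.Y810.SP
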