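import Pool.Agent.Y810.SP.Base

set_option autoImplicit false

open Set Topology Filter
open scoped ContDiff Manifold

namespace Pool.Agent.Y810.SP

namespace JstGlueB


section

variable {ι S : Type} {G : GData ι S} [TopologicalSpace S] [ChartedSpace E S]

omit [ChartedSpace E S] in
theorem stGlueB_nhds (e : OpenPartialHomeomorph S E) (i : ι)
    (hs : ∀ z ∈ G.V i, e.symm z = G.κ i z) {z : E} (hz : z ∈ G.V i) :
    ∀ᶠ t in 𝓝 z, e.symm t = G.κ i t := by
  have h1 : G.V i ∈ 𝓝 z := (G.isOpen_V i).mem_nhds hz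
  filter_upwards [h1] with t ht using hs t ht

end

/-- TARGET. Proof in words:
Let e be the chart for i from IsGlue (source = κ i '' V i, e (κ i t) = t for t ∈ V i, target V i open).
nhds: `OpenPartialHomeomorph.map_nhds_eq` for e.symm at z (e.symm = κ i near z).
smooth: over ℝ: e ∈ maximalAtlas 𝓘(ℝ,E) ∞, so u is ContMDiffAt at κ i z iff u ∘ e.symm is ContDiffAt at e (κ i z) = z
(`contMDiffAt_iff_source_of_mem_maximalAtlas` / `contMDiffOn_iff_of_mem_maximalAtlas`, or compose with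
`contMDiffAt_of_mem_maximalAtlas`, `contMDiffAt_symm_of_mem_maximalAtlas`); u ∘ e.symm = u ∘ κ i near z.
disc1: κ i ∘ γ = e.symm ∘ γ near 0, e.symm is ContMDiffAt (ω over ℂ) at γ 0, γ is (AnalyticAt → ContDiffAt ω → ContMDiffAt).
disc2: γ = e ∘ f near 0: e is ContMDiffAt at f 0 = κ i z, so γ ζ = e (f ζ) is ContMDiffAt, so ContDiffAt ω, AnalyticAt (`contDiffAt_omega_iff_analyticAt`); γ 0 = e (κ i z) = z; f ζ ∈ e.source for ζ near 0 by
continuity, so κ i (γ ζ) = e.symm (e (f ζ)) = f ζ. If deriv γ 0 = 0 then fderiv γ 0 = 0, mfderiv of f = e.symm ∘ γ near 0 is 0 by the chain rule (`mfderiv_comp`; mfderiv congruence `Filter.EventuallyEq.mfderiv_eq`).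
-/
theorem stGlueB : StGlueB := by
  intro ι S G _ _ hG
  refine ⟨?_, ?_, ?_, ?_⟩
  · -- neighbourhoods
    intro i z hz
    obtain ⟨e, -, -, he, hs⟩ := hG.chart i
    have h1 := stGlueB_nhds e i hs hz
    have h2 : z ∈ e.symm.source := by
      rw [OpenPartialHomeomorph.symm_source, he]
      exact hz
    have h3 := e.symm.map_nhds_eq h2
    rw [hs z hz] at h3
    rw [← h3]
    exact (Filter.map_congr h1).symm
  · -- smooth functions
    intro u i z hz
    obtain ⟨e, -, heR, he, hs⟩ := hG.chart i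
    have h1 := stGlueB_nhds e i hs hz
    have hzt : z ∈ e.target := by rw [he]; exact hz
    have hsz : e.symm z = G.κ i z := hs z hz
    have hsrc : G.κ i z ∈ e.source := by
      rw [← hsz]
      exact e.map_target hzt
    have hez : e (G.κ i z) = z := by
      rw [← hsz]
      exact e.right_inv hzt
    have hm := hG.manR
    have h2 : ContMDiffAt 𝓘(ℝ, E) 𝓘(ℝ, E) ∞ e.symm z :=
      contMDiffAt_symm_of_mem_maximalAtlas heR hzt
    have h3 : ContMDiffAt 𝓘(ℝ, E) 𝓘(ℝ, E) ∞ e (G.κ i z) :=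
      contMDiffAt_of_mem_maximalAtlas heR hsrc
    constructor
    · intro h
      have h4 : ContMDiffAt 𝓘(ℝ, E) 𝓘(ℝ, ℝ) ∞ (u ∘ e.symm) z := by
        refine ContMDiffAt.comp z ?_ h2
        rw [hsz]
        exact h
      have h5 : ContDiffAt ℝ ∞ (u ∘ e.symm) z := contMDiffAt_iff_contDiffAt.1 h4
      refine h5.congr_of_eventuallyEq ?_
      filter_upwards [h1] with t ht
      rw [Function.comp_apply, ht]
    · intro h
      have h4 : ContMDiffAt 𝓘(ℝ, E) 𝓘(ℝ, ℝ) ∞ (fun t => u (G.κ i t)) (e (G.κ i z)) := by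
        rw [hez]
        exact contMDiffAt_iff_contDiffAt.2 h
      have h5 := ContMDiffAt.comp (G.κ i z) h4 h3
      refine h5.congr_of_eventuallyEq ?_
      have h6 : e.source ∈ 𝓝 (G.κ i z) := e.open_source.mem_nhds hsrc
      filter_upwards [h6] with p hp
      have h7 : e p ∈ G.V i := by
        rw [← he]
        exact e.map_source hp
      rw [Function.comp_apply, ← hs _ h7, e.left_inv hp]
  · -- discs in coordinates
    intro i γ hγ0 hγ
    obtain ⟨e, heC, -, he, hs⟩ := hG.chart i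
    have h1 := stGlueB_nhds e i hs hγ0
    have hm := hG.man
    have hzt : γ 0 ∈ e.target := by rw [he]; exact hγ0
    have h2 : ContMDiffAt 𝓘(ℂ, E) 𝓘(ℂ, E) ω e.symm (γ 0) :=
      contMDiffAt_symm_of_mem_maximalAtlas heC hzt
    have h3 : ContMDiffAt 𝓘(ℂ, ℂ) 𝓘(ℂ, E) ω γ 0 := contMDiffAt_iff_contDiffAt.2 hγ.contDiffAt
    have h4 := ContMDiffAt.comp (0 : ℂ) h2 h3
    refine ContMDiffAt.congr_of_eventuallyEq h4 ?_
    have h5 : ∀ᶠ ζ in 𝓝 (0 : ℂ), e.symm (γ ζ) = G.κ i (γ ζ) := hγ.continuousAt.eventually h1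
    filter_upwards [h5] with ζ hζ
    rw [Function.comp_apply, hζ]
  · -- discs
    intro f hf i z hz hfz
    obtain ⟨e, heC, -, he, hs⟩ := hG.chart i
    have hm := hG.man
    have hzt : z ∈ e.target := by rw [he]; exact hz
    have hsz : e.symm z = G.κ i z := hs z hz
    have hsrc : f 0 ∈ e.source := by
      rw [← hfz, ← hsz]
      exact e.map_target hzt
    have hez : e (f 0) = z := by
      rw [← hfz, ← hsz]
      exact e.right_inv hzt
    have h3 : ContMDiffAt 𝓘(ℂ, E) 𝓘(ℂ, E) ω e (f 0) := contMDiffAt_of_mem_maximalAtlas heC hsrc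
    have h4 : ContMDiffAt 𝓘(ℂ, ℂ) 𝓘(ℂ, E) ω (e ∘ f) 0 := ContMDiffAt.comp (0 : ℂ) h3 hf
    have h5 : AnalyticAt ℂ (e ∘ f) 0 :=
      ContDiffAt.analyticAt (contMDiffAt_iff_contDiffAt.1 h4)
    have h6 : ∀ᶠ ζ in 𝓝 (0 : ℂ), f ζ ∈ e.source :=
      hf.continuousAt.eventually (e.open_source.mem_nhds hsrc)
    have h7 : ∀ᶠ ζ in 𝓝 (0 : ℂ), f ζ = e.symm ((e ∘ f) ζ) := by
      filter_upwards [h6] with ζ hζ
      exact (e.left_inv hζ).symm
    refine ⟨e ∘ f, h5, hez, ?_, ?_⟩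
    · filter_upwards [h6] with ζ hζ
      have h8 : e (f ζ) ∈ G.V i := by
        rw [← he]
        exact e.map_source hζ
      rw [Function.comp_apply, ← hs _ h8, e.left_inv hζ]
    · intro hd
      have h8 : f =ᶠ[𝓝 0] e.symm ∘ (e ∘ f) := h7
      rw [h8.mfderiv_eq]
      have h9 : MDifferentiableAt 𝓘(ℂ, E) 𝓘(ℂ, E) e.symm ((e ∘ f) 0) := by
        have h10 : (e ∘ f) 0 ∈ e.target := e.map_source hsrc
        have h11 : ContMDiffAt 𝓘(ℂ, E) 𝓘(ℂ, E) ω e.symm ((e ∘ f) 0) :=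
          contMDiffAt_symm_of_mem_maximalAtlas heC h10
        exact h11.mdifferentiableAt (by simp)
      have h10 : MDifferentiableAt 𝓘(ℂ, ℂ) 𝓘(ℂ, E) (e ∘ f) 0 := h4.mdifferentiableAt (by simp)
      rw [mfderiv_comp (0 : ℂ) h9 h10]
      have h11 : mfderiv 𝓘(ℂ, ℂ) 𝓘(ℂ, E) (e ∘ f) 0 = 0 := by
        rw [mfderiv_eq_fderiv]
        have h12 : fderiv ℂ (e ∘ f) 0 = 0 := by
          apply ContinuousLinearMap.ext_ring
          rw [fderiv_apply_one_eq_deriv, hd]
          rfl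
        exact h12
      rw [h11]
      exact ContinuousLinearMap.comp_zero _


end JstGlueB

end Pool.Agent.Y810.SP
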