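import Pool.Agent.Y810.SP.Base

set_option autoImplicit false

open Set Topology Filter
open scoped ContDiff Manifold

namespace Pool.Agent.Y810.SP

namespace JstHB


theorem hb_lap_eq (H : ℂ → ℝ) (x : ℂ) : Laplacian.laplacian H x =
    iteratedFDeriv ℝ 2 H x ![1, 1] + iteratedFDeriv ℝ 2 H x ![Complex.I, Complex.I] := by
  rw [InnerProductSpace.laplacian_eq_iteratedFDeriv_complexPlane]

theorem hb_lap_cont {H : ℂ → ℝ} (h : ContDiff ℝ ∞ H) : Continuous (Laplacian.laplacian H) := by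
  have h1 : Continuous (iteratedFDeriv ℝ 2 H) := h.continuous_iteratedFDeriv (WithTop.coe_le_coe.2 le_top)
  have h2 : ∀ v : Fin 2 → ℂ, Continuous fun x => iteratedFDeriv ℝ 2 H x v := fun v =>
    (ContinuousMultilinearMap.apply ℝ (fun _ : Fin 2 => ℂ) ℝ v).continuous.comp h1
  have h3 : Laplacian.laplacian H = fun x => iteratedFDeriv ℝ 2 H x ![1, 1] +
      iteratedFDeriv ℝ 2 H x ![Complex.I, Complex.I] := funext fun x => hb_lap_eq H x
  rw [h3]
  exact (h2 _).add (h2 _)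

theorem hb_lap_per {H : ℂ → ℝ} {l : ℂ} (h : ∀ x, H (x + l) = H x) (x : ℂ) :
    Laplacian.laplacian H (x + l) = Laplacian.laplacian H x := by
  rw [hb_lap_eq, hb_lap_eq]
  have h1 : (fun z => H (z + l)) = H := funext h
  have h2 := iteratedFDeriv_comp_add_right (𝕜 := ℝ) (f := H) 2 l x
  rw [h1] at h2
  rw [h2]

theorem hb_lap_zero {A : ℂ → ℝ} (hA : ContDiff ℝ ∞ A) :
    Laplacian.laplacian (fun x : ℂ => ‖x‖ ^ 2 * A x) 0 = 4 * A 0 := by
  have key : ∀ w : ℂ, iteratedFDeriv ℝ 2 (fun x : ℂ => ‖x‖ ^ 2 * A x) 0 ![w, w] =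
      2 * ‖w‖ ^ 2 * A 0 := by
    intro w
    rw [iteratedFDeriv_two_apply]
    simp only [Matrix.cons_val_zero, Matrix.cons_val_one]
    have hsm : ContDiff ℝ ∞ (fun x : ℂ => ‖x‖ ^ 2 * A x) := (contDiff_norm_sq ℝ).mul hA
    have hd : ∀ x, fderiv ℝ (fun x : ℂ => ‖x‖ ^ 2 * A x) x w =
        2 * inner ℝ x w * A x + ‖x‖ ^ 2 * fderiv ℝ A x w := by
      intro x
      have h1 : HasFDerivAt (fun x : ℂ => ‖x‖ ^ 2) (2 • innerSL ℝ x) x :=
        (hasStrictFDerivAt_norm_sq x).hasFDerivAt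
      have h2 : HasFDerivAt A (fderiv ℝ A x) x :=
        (hA.differentiable (by simp) x).hasFDerivAt
      have h3 : HasFDerivAt (fun x : ℂ => ‖x‖ ^ 2 * A x) _ x := h1.mul h2
      rw [h3.fderiv]
      simp
      ring
    have hdd : DifferentiableAt ℝ (fderiv ℝ (fun x : ℂ => ‖x‖ ^ 2 * A x)) 0 :=
      ((hsm.fderiv_right (m := 1) (WithTop.coe_le_coe.2 le_top)).differentiable one_ne_zero) 0
    have e1 : fderiv ℝ (fderiv ℝ (fun x : ℂ => ‖x‖ ^ 2 * A x)) 0 w w =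
        fderiv ℝ (fun x => fderiv ℝ (fun x : ℂ => ‖x‖ ^ 2 * A x) x w) 0 w := by
      have h3 := (hdd.hasFDerivAt.clm_apply (hasFDerivAt_const w (0 : ℂ))).fderiv
      rw [h3]
      simp
    rw [e1]
    have e2 : (fun x => fderiv ℝ (fun x : ℂ => ‖x‖ ^ 2 * A x) x w) =
        fun x => 2 * inner ℝ x w * A x + ‖x‖ ^ 2 * fderiv ℝ A x w := funext hd
    rw [e2]
    have hB : DifferentiableAt ℝ (fun x => fderiv ℝ A x w) 0 :=
      (((hA.fderiv_right (m := 1) (WithTop.coe_le_coe.2 le_top)).differentiable one_ne_zero) 0).clm_apply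
        (differentiableAt_const w)
    have h4 : HasFDerivAt (fun x : ℂ => 2 * inner ℝ x w) ((2 : ℝ) • innerSL ℝ w) 0 := by
      have h5 : (fun x : ℂ => 2 * inner ℝ x w) = fun x => ((2 : ℝ) • innerSL ℝ w) x := by
        funext x
        simp only [smul_apply, innerSL_apply_apply, smul_eq_mul]
        rw [real_inner_comm]
      rw [h5]
      exact ((2 : ℝ) • innerSL ℝ w).hasFDerivAt
    have h6 : HasFDerivAt A (fderiv ℝ A 0) 0 := (hA.differentiable (by simp) 0).hasFDerivAt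
    have h7 : HasFDerivAt (fun x : ℂ => ‖x‖ ^ 2) (2 • innerSL ℝ (0 : ℂ)) 0 :=
      (hasStrictFDerivAt_norm_sq (0 : ℂ)).hasFDerivAt
    have h8 : HasFDerivAt (fun x : ℂ => 2 * inner ℝ x w * A x + ‖x‖ ^ 2 * fderiv ℝ A x w) _ 0 :=
      (h4.mul h6).add (h7.mul hB.hasFDerivAt)
    rw [h8.fderiv]
    simp
    ring
  rw [hb_lap_eq, key, key]
  simp
  ring

/-- reduction modulo the lattice -/
noncomputable def hbr (x : ℂ) : ℂ := x - ((round x.re : ℤ) + (round x.im : ℤ) * Complex.I)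

theorem hbr_re (x : ℂ) : (hbr x).re = x.re - round x.re := by simp [hbr]

theorem hbr_im (x : ℂ) : (hbr x).im = x.im - round x.im := by simp [hbr]

theorem hbr_mem (x : ℂ) : ∃ l ∈ Lam, x = hbr x + l :=
  ⟨(round x.re : ℤ) + (round x.im : ℤ) * Complex.I, ⟨_, _, rfl⟩, by simp [hbr]⟩

theorem hbr_sq (x : ℂ) : ‖x‖ ^ 2 = x.re ^ 2 + x.im ^ 2 := by
  rw [← Complex.normSq_eq_norm_sq, Complex.normSq_apply]
  ring

theorem hbr_small (x : ℂ) : ‖hbr x‖ ≤ 3 / 4 := by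
  have h1 := abs_sub_round x.re
  have h2 := abs_sub_round x.im
  rw [← hbr_re] at h1
  rw [← hbr_im] at h2
  have h3 : (hbr x).re ^ 2 ≤ (1 / 2) ^ 2 := sq_le_sq' (by linarith [(abs_le.1 h1).1]) (abs_le.1 h1).2
  have h4 : (hbr x).im ^ 2 ≤ (1 / 2) ^ 2 := sq_le_sq' (by linarith [(abs_le.1 h2).1]) (abs_le.1 h2).2
  have h5 := hbr_sq (hbr x)
  refine abs_le_of_sq_le_sq' ?_ (by norm_num) |>.2
  rw [h5]
  nlinarith

theorem hbr_le (x : ℂ) : ‖hbr x‖ ^ 2 ≤ ‖x‖ ^ 2 := by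
  have h1 := round_le x.re 0
  have h2 := round_le x.im 0
  simp only [Int.cast_zero, sub_zero] at h1 h2
  rw [← hbr_re] at h1
  rw [← hbr_im] at h2
  rw [hbr_sq, hbr_sq]
  exact add_le_add (sq_le_sq.2 h1) (sq_le_sq.2 h2)

/-- TARGET. Proof in words:
H = |x|² A x is smooth, periodic under Λ = ℤ[i], positive off Λ and 0 on Λ. Reduction: every x is `x' + l` with
l ∈ Λ and `|Re x'|, |Im x'| ≤ 1/2`, so `|x'| ≤ √2/2 < 1`. Let Q be the compact square. On Q: A is continuous and positive, so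
`a₁ ≤ A ≤ a₂` with a₁ > 0, so `a₁ |x'|² ≤ H x = H x' ≤ a₂ |x'|²`.
bdd, lap_bdd: H and ΔH are continuous and periodic, hence bounded by their maxima on Q (the Laplacian is translation
invariant). near: `ΔH (0) = 4 A 0 > 0` (write H near 0 as |x|² A x; second derivative at 0), so by continuity of ΔH there is
ρ > 0 with `ΔH x ≥ 2 A 0 =: c` for |x| < ρ; take `r = a₁ ρ²`: if `H x < r` then the representative x' in Q has
`a₁|x'|² ≤ H x < a₁ ρ²`, so |x'| < ρ.
tri: let a', b' ∈ Q be the representatives. `H (a + b) = H (a' + b')`. Let c' be the representative of a' + b' in Q: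
then `|c'| ≤ |a' + b'|` (|Re c'| is the distance of Re(a'+b') to ℤ, so ≤ |Re (a'+b')|; same for Im), so
`H (a+b) ≤ a₂ |c'|² ≤ a₂ |a' + b'|² ≤ 2 a₂ (|a'|² + |b'|²) ≤ (2 a₂ / a₁)(H a + H b)`.
-/
theorem stHB : StHB := by
  intro H A e hF
  have hHeq : H = fun x : ℂ => ‖x‖ ^ 2 * A x := funext hF.H_eq
  have hHs : ContDiff ℝ ∞ H := by
    rw [hHeq]
    exact (contDiff_norm_sq ℝ).mul hF.A_smooth
  have hHc : Continuous H := hHs.continuous
  have hLc := hb_lap_cont hHs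
  have hAc : Continuous A := hF.A_smooth.continuous
  have hH0 : ∀ x, H x = H (hbr x) := by
    intro x
    obtain ⟨l, hl, hx⟩ := hbr_mem x
    conv_lhs => rw [hx]
    exact hF.H_per _ l hl
  have hL0 : ∀ x, Laplacian.laplacian H x = Laplacian.laplacian H (hbr x) := by
    intro x
    obtain ⟨l, hl, hx⟩ := hbr_mem x
    conv_lhs => rw [hx]
    exact hb_lap_per (fun y => hF.H_per y l hl) _
  have hcp : IsCompact (Metric.closedBall (0 : ℂ) (3 / 4)) := isCompact_closedBall _ _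
  have hne : (Metric.closedBall (0 : ℂ) (3 / 4)).Nonempty :=
    ⟨0, by rw [mem_closedBall_zero_iff, norm_zero]; norm_num⟩
  have hmem : ∀ x, hbr x ∈ Metric.closedBall (0 : ℂ) (3 / 4) := fun x => by
    rw [mem_closedBall_zero_iff]
    exact hbr_small x
  obtain ⟨p, hp, hpmin⟩ := hcp.exists_isMinOn hne hAc.continuousOn
  obtain ⟨q, hq, hqmax⟩ := hcp.exists_isMaxOn hne hAc.continuousOn
  have ha1 : 0 < A p := hF.A_pos p (by rw [mem_closedBall_zero_iff] at hp; linarith)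
  have hlow : ∀ x, A p * ‖hbr x‖ ^ 2 ≤ H x := by
    intro x
    rw [hH0 x, hF.H_eq, mul_comm]
    exact mul_le_mul_of_nonneg_left (hpmin (hmem x)) (by positivity)
  have hup : ∀ x, H x ≤ A q * ‖hbr x‖ ^ 2 := by
    intro x
    rw [hH0 x, hF.H_eq, mul_comm]
    exact mul_le_mul_of_nonneg_right (hqmax (hmem x)) (by positivity)
  have ha2 : 0 < A q := ha1.trans_le (hpmin hq)
  obtain ⟨D1, hD1⟩ := hcp.exists_bound_of_continuousOn hHc.continuousOn
  obtain ⟨D2, hD2⟩ := hcp.exists_bound_of_continuousOn hLc.continuousOn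
  have hA0 : 0 < A 0 := hF.A_pos 0 (by simp)
  have hL00 : Laplacian.laplacian H 0 = 4 * A 0 := by
    rw [hHeq]
    exact hb_lap_zero hF.A_smooth
  obtain ⟨ρ, hρ, hρL⟩ : ∃ ρ : ℝ, 0 < ρ ∧ ∀ x : ℂ, ‖x‖ < ρ → 2 * A 0 ≤ Laplacian.laplacian H x := by
    have h1 : ∀ᶠ x in 𝓝 (0 : ℂ), 2 * A 0 < Laplacian.laplacian H x :=
      hLc.continuousAt.eventually_const_lt (by rw [hL00]; linarith)
    obtain ⟨ρ, hρ, hb⟩ := Metric.eventually_nhds_iff.1 h1
    exact ⟨ρ, hρ, fun x hx => (hb (by rwa [dist_zero_right])).le⟩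
  refine ⟨A p * ρ ^ 2, 2 * A 0, 2 * A q / A p, |D1| + |D2| + 1, ?_⟩
  constructor
  · positivity
  · positivity
  · positivity
  · positivity
  · intro x hx
    rw [hL0]
    apply hρL
    have h1 := (hlow x).trans_lt hx
    have h2 : ‖hbr x‖ ^ 2 < ρ ^ 2 := lt_of_mul_lt_mul_left h1 ha1.le
    exact lt_of_pow_lt_pow_left₀ 2 hρ.le h2
  · intro x
    rw [hH0]
    have h1 := hD1 _ (hmem x)
    rw [Real.norm_eq_abs] at h1
    linarith [le_abs_self (H (hbr x)), le_abs_self D1, abs_nonneg D2]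
  · intro x
    rw [hL0]
    have h1 := hD2 _ (hmem x)
    rw [Real.norm_eq_abs] at h1
    linarith [le_abs_self D2, abs_nonneg D1]
  · intro a b
    obtain ⟨l, hl, ha⟩ := hbr_mem a
    obtain ⟨m, hm, hb⟩ := hbr_mem b
    have h1 : H (a + b) = H (hbr a + hbr b) := by
      have h2 : a + b = (hbr a + hbr b) + (l + m) := by
        conv_lhs => rw [ha, hb]
        ring
      rw [h2]
      exact hF.H_per _ _ (Lam.add_mem hl hm)
    have h3 : H (hbr a + hbr b) ≤ A q * ‖hbr a + hbr b‖ ^ 2 :=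
      (hup _).trans (mul_le_mul_of_nonneg_left (hbr_le _) ha2.le)
    have h4 : ‖hbr a + hbr b‖ ^ 2 ≤ 2 * (‖hbr a‖ ^ 2 + ‖hbr b‖ ^ 2) := by
      have h5 : ‖hbr a + hbr b‖ ^ 2 ≤ (‖hbr a‖ + ‖hbr b‖) ^ 2 :=
        pow_le_pow_left₀ (norm_nonneg _) (norm_add_le _ _) 2
      nlinarith [sq_nonneg (‖hbr a‖ - ‖hbr b‖)]
    have h6 := hlow a
    have h7 := hlow b
    calc H (a + b) ≤ A q * (2 * (‖hbr a‖ ^ 2 + ‖hbr b‖ ^ 2)) := by
          rw [h1]
          exact h3.trans (mul_le_mul_of_nonneg_left h4 ha2.le)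
      _ = 2 * A q / A p * (A p * ‖hbr a‖ ^ 2 + A p * ‖hbr b‖ ^ 2) := by
          field_simp
      _ ≤ 2 * A q / A p * (H a + H b) :=
          mul_le_mul_of_nonneg_left (add_le_add h6 h7) (by positivity)


end JstHB

end Pool.Agent.Y810.SP
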