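import Pool.Agent.Y810.SP.Base

set_option autoImplicit false

open Set Topology Filter
open scoped ContDiff Manifold

namespace Pool.Agent.Y810.SP

namespace JstHol


/-- the second derivative at a point, Cauchy–Schwarz for the Levi form -/
theorem stHol_cs (B : E →L[ℝ] E →L[ℝ] ℝ) (hsymm : ∀ v w, B v w = B w v)
    (hpos : ∀ v, 0 ≤ B v v + B (Complex.I • v) (Complex.I • v)) (e : E)
    (he : B e e + B (Complex.I • e) (Complex.I • e) = 0) (w : E) :
    B e w + B (Complex.I • e) (Complex.I • w) = 0 := by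
  have key : ∀ t : ℝ, 0 ≤ (B w w + B (Complex.I • w) (Complex.I • w)) +
      2 * t * (B e w + B (Complex.I • e) (Complex.I • w)) := by
    intro t
    have h := hpos (w + t • e)
    have e1 : Complex.I • (w + t • e) = Complex.I • w + t • (Complex.I • e) := by
      rw [smul_add, smul_comm]
    rw [e1] at h
    simp only [map_add, map_smul, add_apply, smul_apply,
      smul_eq_mul] at h
    rw [hsymm w e, hsymm (Complex.I • w) (Complex.I • e)] at h
    have h2 : B (Complex.I • e) (Complex.I • e) = - B e e := by linarith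
    rw [h2] at h
    nlinarith [h]
  by_contra hne
  set c := B e w + B (Complex.I • e) (Complex.I • w) with hc
  set q := B w w + B (Complex.I • w) (Complex.I • w) with hq
  have h := key (-(q + 1) / (2 * c))
  have h3 : 2 * (-(q + 1) / (2 * c)) * c = -(q + 1) := by
    field_simp
  rw [h3] at h
  linarith

/-- TARGET. Proof in words:
z = (x, 0). By L.eq, `lev f z v = B(v, v)` with the symmetric real bilinear form `B(v, w) = D²f(v, w) + D²f(I v, I w)` (D² = fderiv ℝ (fderiv ℝ f) z, symmetric for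
C² functions: `ContDiffAt.isSymmSndFDerivAt`), which is positive semidefinite; B(e, e) = 0 for e = (1, 0). Cauchy–Schwarz: B(e, w) = 0 for all w
(from `0 ≤ B(w + t e, w + t e) = B(w,w) + 2 t B(e, w)` for all real t). So for all c ∈ ℂ: `D²f((1,0),(0,c)) + D²f((I,0),(0, I c)) = 0`.
The function `G x' = dy f (x', 0) = Df_{(x',0)}(0,1) - I Df_{(x',0)}(0,I)` is real differentiable at x with derivative
`h ↦ D²f((h,0),(0,1)) - I D²f((h,0),(0,I))`. Cauchy–Riemann at x: G'(I) = I G'(1), that is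
 D²f((I,0),(0,1)) - I D²f((I,0),(0,I)) = I D²f((1,0),(0,1)) + D²f((1,0),(0,I)):
 c = I: D²f((1,0),(0,I)) + D²f((I,0),(0,-1)) = 0; c = 1: D²f((1,0),(0,1)) + D²f((I,0),(0,I)) = 0. So G is complex differentiable at x
(a real differentiable function whose derivative is ℂ-linear; `HasFDerivAt` over ℝ with the CR equation, see Mathlib
`differentiableAt_complex_iff_differentiableAt_real` or similar).
-/
theorem stHol (L : LevBasics) : StHol := by
  intro f x hf hlev h0
  have hf2 : ContDiffAt ℝ 2 f (x, 0) := by exact_mod_cast contDiffAt_infty.1 hf 2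
  have hsymm : ∀ v w, fderiv ℝ (fderiv ℝ f) (x, 0) v w = fderiv ℝ (fderiv ℝ f) (x, 0) w v := by
    intro v w
    exact hf2.isSymmSndFDerivAt (by simp) v w
  have hpos : ∀ v : E, 0 ≤ fderiv ℝ (fderiv ℝ f) (x, 0) v v +
      fderiv ℝ (fderiv ℝ f) (x, 0) (Complex.I • v) (Complex.I • v) := by
    intro v
    have h := hlev.self_of_nhds v
    rwa [L.eq f (x, 0) v hf2] at h
  have he : fderiv ℝ (fderiv ℝ f) (x, 0) (1, 0) (1, 0) +
      fderiv ℝ (fderiv ℝ f) (x, 0) (Complex.I • ((1, 0) : E)) (Complex.I • ((1, 0) : E)) = 0 := by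
    rw [← L.eq f (x, 0) (1, 0) hf2]
    exact h0
  have hcs := stHol_cs _ hsymm hpos (1, 0) he
  have c1 := hcs (0, 1)
  have c2 := hcs (0, Complex.I)
  simp only [Prod.smul_mk, smul_eq_mul, mul_one, mul_zero, Complex.I_mul_I] at c1 c2
  have hneg : ((0, -1) : E) = -(0, 1) := by simp
  rw [hneg, map_neg] at c2
  -- the derivative of the map `x' ↦ fderiv ℝ f (x', 0)`
  have hD : HasFDerivAt (fderiv ℝ f) (fderiv ℝ (fderiv ℝ f) (x, 0)) (x, 0) := by
    have h : ContDiffAt ℝ 1 (fderiv ℝ f) (x, 0) := hf2.fderiv_right (by norm_num)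
    exact (h.differentiableAt (by simp)).hasFDerivAt
  have hinl : HasFDerivAt (fun x' : ℂ => ((x', 0) : E)) (ContinuousLinearMap.inl ℝ ℂ ℂ) x :=
    (ContinuousLinearMap.inl ℝ ℂ ℂ).hasFDerivAt
  have hcomp : HasFDerivAt (fun x' : ℂ => fderiv ℝ f (x', 0))
      ((fderiv ℝ (fderiv ℝ f) (x, 0)).comp (ContinuousLinearMap.inl ℝ ℂ ℂ)) x :=
    HasFDerivAt.comp x hD hinl
  have hap : ∀ w : E, HasFDerivAt (fun x' : ℂ => (fderiv ℝ f (x', 0)) w)
      ((ContinuousLinearMap.apply ℝ ℝ w).comp
        ((fderiv ℝ (fderiv ℝ f) (x, 0)).comp (ContinuousLinearMap.inl ℝ ℂ ℂ))) x := by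
    intro w
    exact (ContinuousLinearMap.apply ℝ ℝ w).hasFDerivAt.comp x hcomp
  have hof : ∀ w : E, HasFDerivAt (fun x' : ℂ => (((fderiv ℝ f (x', 0)) w : ℝ) : ℂ))
      (Complex.ofRealCLM.comp ((ContinuousLinearMap.apply ℝ ℝ w).comp
        ((fderiv ℝ (fderiv ℝ f) (x, 0)).comp (ContinuousLinearMap.inl ℝ ℂ ℂ)))) x := by
    intro w
    exact Complex.ofRealCLM.hasFDerivAt.comp x (hap w)
  have hG := (hof (0, 1)).sub ((hof (0, Complex.I)).const_smul Complex.I)
  have hG' := HasFDerivAt.complexOfReal_hasFDerivAt hG (by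
    simp only [sub_apply, smul_apply,
      ContinuousLinearMap.comp_apply, ContinuousLinearMap.apply_apply,
      ContinuousLinearMap.inl_apply, Complex.ofRealCLM_apply, smul_eq_mul]
    have d1 : fderiv ℝ (fderiv ℝ f) (x, 0) (Complex.I, 0) (0, Complex.I) =
      - fderiv ℝ (fderiv ℝ f) (x, 0) (1, 0) (0, 1) := by linarith
    have d2 : fderiv ℝ (fderiv ℝ f) (x, 0) (Complex.I, 0) (0, 1) =
      fderiv ℝ (fderiv ℝ f) (x, 0) (1, 0) (0, Complex.I) := by linarith
    rw [d1, d2]
    push_cast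
    ring_nf
    rw [Complex.I_sq]
    ring)
  exact hG'.differentiableAt.congr_of_eventuallyEq (Filter.Eventually.of_forall fun x' => by
    simp [dy])


end JstHol

end Pool.Agent.Y810.SP
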