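import Pool.Agent.Y810.SP.Base

set_option autoImplicit false

open Set Topology Filter
open scoped ContDiff Manifold

namespace Pool.Agent.Y810.SP

namespace JstInj


theorem tor_eq (z z' : E) : tor z = tor z' ↔ z' - z ∈ Lam2 := by
  constructor
  · intro h
    have h1 : (((z.1 : ℂ ⧸ Lam), (z.2 : ℂ ⧸ Lam)) : (ℂ ⧸ Lam) × (ℂ ⧸ Lam)) =
        ((z'.1 : ℂ ⧸ Lam), (z'.2 : ℂ ⧸ Lam)) := Sum.inl.inj h
    have h2 : (z.1 : ℂ ⧸ Lam) = (z'.1 : ℂ ⧸ Lam) := congrArg Prod.fst h1
    have h3 : (z.2 : ℂ ⧸ Lam) = (z'.2 : ℂ ⧸ Lam) := congrArg Prod.snd h1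
    rw [QuotientAddGroup.eq] at h2 h3
    refine ⟨?_, ?_⟩
    · have : (z' - z).1 = -z.1 + z'.1 := by rw [Prod.fst_sub]; ring
      rw [this]; exact h2
    · have : (z' - z).2 = -z.2 + z'.2 := by rw [Prod.snd_sub]; ring
      rw [this]; exact h3
  · rintro ⟨h1, h2⟩
    have h3 : (z.1 : ℂ ⧸ Lam) = (z'.1 : ℂ ⧸ Lam) := by
      rw [QuotientAddGroup.eq]
      have : (z' - z).1 = -z.1 + z'.1 := by rw [Prod.fst_sub]; ring
      rw [← this]; exact h1
    have h4 : (z.2 : ℂ ⧸ Lam) = (z'.2 : ℂ ⧸ Lam) := by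
      rw [QuotientAddGroup.eq]
      have : (z' - z).2 = -z.2 + z'.2 := by rw [Prod.snd_sub]; ring
      rw [← this]; exact h2
    show (Sum.inl ((z.1 : ℂ ⧸ Lam), (z.2 : ℂ ⧸ Lam)) : ((ℂ ⧸ Lam) × (ℂ ⧸ Lam)) ⊕ (ℂ ⊕ ℂ)) =
      Sum.inl ((z'.1 : ℂ ⧸ Lam), (z'.2 : ℂ ⧸ Lam))
    rw [h3, h4]

theorem ea_ne_tor (a : ℂ) (z : E) : ea a ≠ tor z := fun h => Sum.inr_ne_inl h
theorem eb_ne_tor (a : ℂ) (z : E) : eb a ≠ tor z := fun h => Sum.inr_ne_inl h
theorem ea_ne_eb (a b : ℂ) : ea a ≠ eb b := fun h => Sum.inl_ne_inr (Sum.inr.inj h)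
theorem ea_inj {a b : ℂ} (h : ea a = ea b) : a = b := Sum.inl.inj (Sum.inr.inj h)
theorem eb_inj {a b : ℂ} (h : eb a = eb b) : a = b := Sum.inr.inj (Sum.inr.inj h)

/-- a lattice point of norm less than one is zero -/
theorem lam_small {t : ℂ} (ht : t ∈ Lam) (h : ‖t‖ < 1) : t = 0 := by
  obtain ⟨m, n, rfl⟩ := ht
  have h1 : ‖((m : ℂ) + n * Complex.I)‖ ^ 2 = (m : ℝ) ^ 2 + (n : ℝ) ^ 2 := by
    rw [Complex.sq_norm, Complex.normSq_apply]
    simp
    ring
  have h2 : (m : ℝ) ^ 2 + (n : ℝ) ^ 2 < 1 := by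
    rw [← h1]
    have h0 := norm_nonneg ((m : ℂ) + n * Complex.I)
    nlinarith
  have h3 : m ^ 2 + n ^ 2 < 1 := by exact_mod_cast h2
  have h4 : m = 0 := by
    have : m ^ 2 = 0 := by nlinarith [sq_nonneg m, sq_nonneg n]
    exact pow_eq_zero_iff (two_ne_zero) |>.1 this
  have h5 : n = 0 := by
    have : n ^ 2 = 0 := by nlinarith [sq_nonneg m, sq_nonneg n]
    exact pow_eq_zero_iff (two_ne_zero) |>.1 this
  rw [h4, h5]
  simp

theorem lam2_small {z : E} (hz : z ∈ Lam2) (h1 : ‖z.1‖ < 1) (h2 : ‖z.2‖ < 1) : z = 0 :=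
  Prod.ext (lam_small hz.1 h1) (lam_small hz.2 h2)

theorem mem_V0 (z : E) : z ∈ V 0 ↔ z ∉ Lam2 := by
  show z ∈ (if (0 : Fin 4) = 0 then Lam2ᶜ else _) ↔ _
  rw [if_pos rfl]
  rfl

theorem mem_V {j : Fin 4} (hj : j ≠ 0) (z : E) :
    z ∈ V j ↔ ‖xx j z‖ < 1 / 8 ∧ ‖ww j z‖ < 1 / 8 := by
  show z ∈ (if j = 0 then _ else {z | ‖xx j z‖ < 1 / 8 ∧ ‖ww j z‖ < 1 / 8}) ↔ _
  rw [if_neg hj]
  rfl

theorem tr_small {j : Fin 4} (hj : j ≠ 0) {z : E} (hz : z ∈ V j) :
    ‖(tr j z).1‖ < 1 / 4 ∧ ‖(tr j z).2‖ < 1 / 4 := by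
  rw [mem_V hj] at hz
  refine ⟨?_, ?_⟩
  · show ‖xx j z‖ < 1 / 4
    linarith [hz.1]
  · show ‖ww j z + xx j z‖ < 1 / 4
    have := norm_add_le (ww j z) (xx j z)
    linarith [hz.1, hz.2]

theorem zero_mem_Lam2 : (0 : E) ∈ Lam2 := ⟨Lam.zero_mem, Lam.zero_mem⟩

theorem tr_mem {j : Fin 4} (hj : j ≠ 0) {z : E} (hz : z ∈ V j) :
    tr j z ∈ Lam2 ↔ xx j z = 0 ∧ ww j z = 0 := by
  constructor
  · intro h
    obtain ⟨h1, h2⟩ := tr_small hj hz
    have h3 := lam2_small h (by linarith) (by linarith)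
    have h4 : xx j z = 0 := congrArg Prod.fst h3
    have h5 : ww j z + xx j z = 0 := congrArg Prod.snd h3
    rw [h4, add_zero] at h5
    exact ⟨h4, h5⟩
  · rintro ⟨h1, h2⟩
    have : tr j z = 0 := by
      show (xx j z, ww j z + xx j z) = (0 : E)
      rw [h1, h2, add_zero]
      rfl
    rw [this]
    exact zero_mem_Lam2

theorem tor_tr_eq {j : Fin 4} (hj : j ≠ 0) {z z' : E} (hz : z ∈ V j) (hz' : z' ∈ V j)
    (h : tor (tr j z) = tor (tr j z')) : xx j z = xx j z' ∧ ww j z = ww j z' := by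
  rw [tor_eq] at h
  obtain ⟨h1, h2⟩ := tr_small hj hz
  obtain ⟨h3, h4⟩ := tr_small hj hz'
  have h5 := lam2_small h
    (by rw [Prod.fst_sub]; have := norm_sub_le (tr j z').1 (tr j z).1; linarith)
    (by rw [Prod.snd_sub]; have := norm_sub_le (tr j z').2 (tr j z).2; linarith)
  have h6 : tr j z' = tr j z := sub_eq_zero.1 h5
  have h7 : xx j z' = xx j z := congrArg Prod.fst h6
  have h8 : ww j z' + xx j z' = ww j z + xx j z := congrArg Prod.snd h6
  rw [h7] at h8
  exact ⟨h7.symm, (add_right_cancel h8).symm⟩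

theorem tr_zero_eq (z : E) : tr 0 z = z := by
  show (z.1, z.2 - z.1 + z.1) = z
  rw [sub_add_cancel]

theorem inj1 {z z' : E} (hz : z ∈ V 1) (hz' : z' ∈ V 1) (h : κ0 1 z = κ0 1 z') : z = z' := by
  have h10 : (1 : Fin 4) ≠ 0 := by decide
  have key : ∀ {z z' : E}, z ∈ V 1 → z' ∈ V 1 → κ0 1 z = κ0 1 z' → z.2 = 0 → z = z' := by
    intro z z' hz hz' h h0
    have e1 : κ0 1 z = (if z.1 = 0 then tor 0 else ea z.1⁻¹) := by
      show (if z.2 = 0 then (if z.1 = 0 then tor 0 else ea z.1⁻¹) else tor (tr 1 z)) = _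
      rw [if_pos h0]
    by_cases h0' : z'.2 = 0
    · have e2 : κ0 1 z' = (if z'.1 = 0 then tor 0 else ea z'.1⁻¹) := by
        show (if z'.2 = 0 then (if z'.1 = 0 then tor 0 else ea z'.1⁻¹) else tor (tr 1 z')) = _
        rw [if_pos h0']
      rw [e1, e2] at h
      by_cases a : z.1 = 0
      · by_cases b : z'.1 = 0
        · exact Prod.ext (a.trans b.symm) (h0.trans h0'.symm)
        · rw [if_pos a, if_neg b] at h
          exact absurd h.symm (ea_ne_tor _ _)
      · by_cases b : z'.1 = 0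
        · rw [if_neg a, if_pos b] at h
          exact absurd h (ea_ne_tor _ _)
        · rw [if_neg a, if_neg b] at h
          exact Prod.ext (inv_injective (ea_inj h)) (h0.trans h0'.symm)
    · have e2 : κ0 1 z' = tor (tr 1 z') := by
        show (if z'.2 = 0 then (if z'.1 = 0 then tor 0 else ea z'.1⁻¹) else tor (tr 1 z')) = _
        rw [if_neg h0']
      rw [e1, e2] at h
      by_cases a : z.1 = 0
      · rw [if_pos a, tor_eq, sub_zero, tr_mem h10 hz'] at h
        exact absurd h.2 h0'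
      · rw [if_neg a] at h
        exact absurd h (ea_ne_tor _ _)
  by_cases h0 : z.2 = 0
  · exact key hz hz' h h0
  by_cases h0' : z'.2 = 0
  · exact (key hz' hz h.symm h0').symm
  have e1 : κ0 1 z = tor (tr 1 z) := by
    show (if z.2 = 0 then (if z.1 = 0 then tor 0 else ea z.1⁻¹) else tor (tr 1 z)) = _
    rw [if_neg h0]
  have e2 : κ0 1 z' = tor (tr 1 z') := by
    show (if z'.2 = 0 then (if z'.1 = 0 then tor 0 else ea z'.1⁻¹) else tor (tr 1 z')) = _
    rw [if_neg h0']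
  rw [e1, e2] at h
  obtain ⟨h1, h2⟩ := tor_tr_eq h10 hz hz' h
  have h3 : z.1 * z.2 = z'.1 * z'.2 := h1
  have h4 : z.2 = z'.2 := h2
  rw [← h4] at h3
  exact Prod.ext (mul_right_cancel₀ h0 h3) h4

theorem inj2 {z z' : E} (hz : z ∈ V 2) (hz' : z' ∈ V 2) (h : κ0 2 z = κ0 2 z') : z = z' := by
  have h20 : (2 : Fin 4) ≠ 0 := by decide
  have d : ∀ z : E, κ0 2 z = if z.1 = 0 then ea z.2 else if z.2 = 0 then eb z.1⁻¹ else
    tor (tr 2 z) := fun z => rfl
  rw [d z, d z'] at h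
  by_cases a : z.1 = 0
  · rw [if_pos a] at h
    by_cases a' : z'.1 = 0
    · rw [if_pos a'] at h
      exact Prod.ext (a.trans a'.symm) (ea_inj h)
    · rw [if_neg a'] at h
      by_cases b' : z'.2 = 0
      · rw [if_pos b'] at h
        exact absurd h (ea_ne_eb _ _)
      · rw [if_neg b'] at h
        exact absurd h (ea_ne_tor _ _)
  · rw [if_neg a] at h
    by_cases b : z.2 = 0
    · rw [if_pos b] at h
      by_cases a' : z'.1 = 0
      · rw [if_pos a'] at h
        exact absurd h.symm (ea_ne_eb _ _)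
      · rw [if_neg a'] at h
        by_cases b' : z'.2 = 0
        · rw [if_pos b'] at h
          exact Prod.ext (inv_injective (eb_inj h)) (b.trans b'.symm)
        · rw [if_neg b'] at h
          exact absurd h (eb_ne_tor _ _)
    · rw [if_neg b] at h
      by_cases a' : z'.1 = 0
      · rw [if_pos a'] at h
        exact absurd h.symm (ea_ne_tor _ _)
      · rw [if_neg a'] at h
        by_cases b' : z'.2 = 0
        · rw [if_pos b'] at h
          exact absurd h.symm (eb_ne_tor _ _)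
        · rw [if_neg b'] at h
          obtain ⟨h1, h2⟩ := tor_tr_eq h20 hz hz' h
          have h3 : z.1 * z.2 = z'.1 * z'.2 := h1
          have h4 : z.1 * z.2 ^ 2 = z'.1 * z'.2 ^ 2 := h2
          have h5 : (z.1 * z.2) * z.2 = (z.1 * z.2) * z'.2 := by
            calc (z.1 * z.2) * z.2 = z.1 * z.2 ^ 2 := by ring
              _ = z'.1 * z'.2 ^ 2 := h4
              _ = (z'.1 * z'.2) * z'.2 := by ring
              _ = (z.1 * z.2) * z'.2 := by rw [h3]
          have h6 : z.2 = z'.2 := mul_left_cancel₀ (mul_ne_zero a b) h5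
          rw [← h6] at h3
          exact Prod.ext (mul_right_cancel₀ b h3) h6

theorem inj3 {z z' : E} (hz : z ∈ V 3) (hz' : z' ∈ V 3) (h : κ0 3 z = κ0 3 z') : z = z' := by
  have h30 : (3 : Fin 4) ≠ 0 := by decide
  have d : ∀ z : E, κ0 3 z = if z.1 = 0 then eb z.2 else tor (tr 3 z) := fun z => rfl
  rw [d z, d z'] at h
  by_cases a : z.1 = 0
  · rw [if_pos a] at h
    by_cases a' : z'.1 = 0
    · rw [if_pos a'] at h
      exact Prod.ext (a.trans a'.symm) (eb_inj h)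
    · rw [if_neg a'] at h
      exact absurd h (eb_ne_tor _ _)
  · rw [if_neg a] at h
    by_cases a' : z'.1 = 0
    · rw [if_pos a'] at h
      exact absurd h.symm (eb_ne_tor _ _)
    · rw [if_neg a'] at h
      obtain ⟨h1, h2⟩ := tor_tr_eq h30 hz hz' h
      have h3 : z.1 = z'.1 := h1
      have h4 : z.1 ^ 2 * z.2 = z'.1 ^ 2 * z'.2 := h2
      rw [← h3] at h4
      exact Prod.ext h3 (mul_left_cancel₀ (pow_ne_zero 2 a) h4)

theorem inj0 (c : E) : InjOn (κ0 0) (V 0 ∩ Metric.ball c (1 / 2)) := by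
  rintro z ⟨-, hz⟩ z' ⟨-, hz'⟩ h
  have h1 : tor z = tor z' := h
  rw [tor_eq] at h1
  have h2 : dist z' z < 1 := by
    have := dist_triangle_right z' z c
    rw [Metric.mem_ball] at hz hz'
    linarith
  rw [dist_eq_norm] at h2
  have h3 := lam2_small h1 ((norm_fst_le _).trans_lt h2) ((norm_snd_le _).trans_lt h2)
  exact (sub_eq_zero.1 h3).symm

/-- TARGET. Proof in words:
tor z = tor z' iff z' - z ∈ Lam2 (QuotientAddGroup.eq on both coordinates); ea, eb, tor have different values (Sum constructors).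
For |t| < 1: t ∈ Lam iff t = 0. For z ∈ V j, j ≠ 0: |x| < 1/8, |y| = |w + x| < 1/4, so tr j z ∈ Lam2 iff tr j z = 0 (iff x = w = 0): j=1: iff η = 0; j=2: iff ξη = 0; j=3: iff ξ = 0. So the branches
else tor (tr j z) of κ0 are exactly those with tr j z ∈ V 0.
StInj: j=0: z, z' in a ball of radius 1/2: z' - z ∈ Lam2 and |z' - z| < 1 (sup norm) so equal. j ≥ 1 (injective on V j): two exceptional points: j=1: tor 0 / ea ξ⁻¹, j=2: ea η / eb ξ⁻¹, j=3: eb η; all determine the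
point. Exceptional and nonexceptional: j=1: tor 0 ≠ tor (tr 1 z') as tr 1 z' ∉ Lam2; else different constructors. Two nonexceptional points: tr j z - tr j z' ∈ Lam2 and small (< 1/2), so
tr j z = tr j z', so x and w agree: j=1: η = w, ξ = x/w; j=2: η = w/x, ξ = x²/w; j=3: ξ = x, η = w/x².
StCover: inl (t₁, t₂): representatives z; if z ∈ Lam2 it is tor 0 = κ0 1 (0,0), else κ0 0 z. ea a = κ0 2 (0, a), eb b = κ0 3 (0, b).
StEq: first from tor; second by the branches (κ0 0 = tor); third: exceptional points give ea, eb or tor 0, and tor 0 ≠ tor z' for z' ∉ Lam2.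
-/
theorem stInj : StInj ∧ StCover ∧ StEq := by
  refine ⟨?_, ?_, ?_, ?_, ?_⟩
  · intro j c
    fin_cases j
    · exact inj0 c
    · exact fun z hz z' hz' h => inj1 hz.1 hz'.1 h
    · exact fun z hz z' hz' h => inj2 hz.1 hz'.1 h
    · exact fun z hz z' hz' h => inj3 hz.1 hz'.1 h
  · rintro (⟨t₁, t₂⟩ | (a | b))
    · obtain ⟨x, rfl⟩ := QuotientAddGroup.mk_surjective t₁
      obtain ⟨y, rfl⟩ := QuotientAddGroup.mk_surjective t₂
      by_cases h : ((x, y) : E) ∈ Lam2
      · refine ⟨1, (0, 0), ?_, ?_⟩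
        · rw [mem_V (by decide)]
          show ‖(0 : ℂ) * 0‖ < 1 / 8 ∧ ‖(0 : ℂ)‖ < 1 / 8
          simp
        · have e : κ0 1 (0, 0) = tor 0 := by
            show (if (0 : ℂ) = 0 then (if (0 : ℂ) = 0 then tor 0 else ea (0 : ℂ)⁻¹) else
              tor (tr 1 (0, 0))) = tor 0
            rw [if_pos rfl, if_pos rfl]
          rw [e]
          exact (tor_eq 0 (x, y)).2 (by rw [sub_zero]; exact h)
      · exact ⟨0, (x, y), (mem_V0 _).2 h, rfl⟩
    · refine ⟨2, (0, a), ?_, ?_⟩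
      · rw [mem_V (by decide)]
        show ‖(0 : ℂ) * a‖ < 1 / 8 ∧ ‖(0 : ℂ) * a ^ 2‖ < 1 / 8
        simp
      · show (if (0 : ℂ) = 0 then ea a else _) = _
        rw [if_pos rfl]
        rfl
    · refine ⟨3, (0, b), ?_, ?_⟩
      · rw [mem_V (by decide)]
        show ‖(0 : ℂ)‖ < 1 / 8 ∧ ‖(0 : ℂ) ^ 2 * b‖ < 1 / 8
        simp
      · show (if (0 : ℂ) = 0 then eb b else _) = _
        rw [if_pos rfl]
        rfl
  · intro z z' _ _
    exact tor_eq z z'
  · intro j z hz h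
    rw [mem_V0] at h
    fin_cases j
    · show tor z = tor (tr 0 z)
      rw [tr_zero_eq]
    · have h2 : z.2 ≠ 0 := by
        intro h0
        apply h
        refine (tr_mem (by decide) hz).2 ⟨?_, ?_⟩
        · show z.1 * z.2 = 0
          rw [h0, mul_zero]
        · exact h0
      show (if z.2 = 0 then (if z.1 = 0 then tor 0 else ea z.1⁻¹) else tor (tr 1 z)) = tor (tr 1 z)
      rw [if_neg h2]
    · have h1 : z.1 ≠ 0 := by
        intro h0
        apply h
        refine (tr_mem (by decide) hz).2 ⟨?_, ?_⟩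
        · show z.1 * z.2 = 0
          rw [h0, zero_mul]
        · show z.1 * z.2 ^ 2 = 0
          rw [h0, zero_mul]
      have h2 : z.2 ≠ 0 := by
        intro h0
        apply h
        refine (tr_mem (by decide) hz).2 ⟨?_, ?_⟩
        · show z.1 * z.2 = 0
          rw [h0, mul_zero]
        · show z.1 * z.2 ^ 2 = 0
          rw [h0]
          ring
      show (if z.1 = 0 then ea z.2 else if z.2 = 0 then eb z.1⁻¹ else tor (tr 2 z)) = tor (tr 2 z)
      rw [if_neg h1, if_neg h2]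
    · have h1 : z.1 ≠ 0 := by
        intro h0
        apply h
        refine (tr_mem (by decide) hz).2 ⟨?_, ?_⟩
        · exact h0
        · show z.1 ^ 2 * z.2 = 0
          rw [h0]
          ring
      show (if z.1 = 0 then eb z.2 else tor (tr 3 z)) = tor (tr 3 z)
      rw [if_neg h1]
  · intro j z hz h z' hz' he
    rw [mem_V0, not_not] at h
    rw [mem_V0] at hz'
    have he' : κ0 j z = tor z' := he
    fin_cases j
    · have hz0 : z ∈ V 0 := hz
      rw [mem_V0] at hz0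
      apply hz0
      have h2 : tr 0 z ∈ Lam2 := h
      rwa [tr_zero_eq] at h2
    · obtain ⟨h1, h2⟩ := (tr_mem (by decide) hz).1 h
      have h3 : z.2 = 0 := h2
      have e : κ0 1 z = (if z.1 = 0 then tor 0 else ea z.1⁻¹) := by
        show (if z.2 = 0 then (if z.1 = 0 then tor 0 else ea z.1⁻¹) else tor (tr 1 z)) = _
        rw [if_pos h3]
      have he2 : (if z.1 = 0 then tor 0 else ea z.1⁻¹) = tor z' := e.symm.trans he'
      by_cases a : z.1 = 0
      · rw [if_pos a, tor_eq, sub_zero] at he2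
        exact hz' he2
      · rw [if_neg a] at he2
        exact ea_ne_tor _ _ he2
    · obtain ⟨h1, h2⟩ := (tr_mem (by decide) hz).1 h
      have h3 : z.1 * z.2 = 0 := h1
      have he2 : (if z.1 = 0 then ea z.2 else if z.2 = 0 then eb z.1⁻¹ else tor (tr 2 z)) =
        tor z' := he'
      by_cases a : z.1 = 0
      · rw [if_pos a] at he2
        exact ea_ne_tor _ _ he2
      · have b : z.2 = 0 := (mul_eq_zero.1 h3).resolve_left a
        rw [if_neg a, if_pos b] at he2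
        exact eb_ne_tor _ _ he2
    · obtain ⟨h1, h2⟩ := (tr_mem (by decide) hz).1 h
      have h3 : z.1 = 0 := h1
      have he2 : (if z.1 = 0 then eb z.2 else tor (tr 3 z)) = tor z' := he'
      rw [if_pos h3] at he2
      exact eb_ne_tor _ _ he2


end JstInj

end Pool.Agent.Y810.SP
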