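import Pool.Agent.Y810.SP.Base

set_option autoImplicit false

open Set Topology Filter
open scoped ContDiff Manifold

namespace Pool.Agent.Y810.SP

namespace JstK1


theorem stK1_H {H A : ℂ → ℝ} {e : ℝ} (hH : HF H A e) : ContDiff ℝ 2 H := by
  have h1 : H = fun x => ‖x‖ ^ 2 * A x := funext hH.H_eq
  rw [h1]
  exact (contDiff_norm_sq ℝ).mul (hH.A_smooth.of_le (WithTop.coe_le_coe.2 le_top))

theorem stK1_dist (v : E) : ‖v.2 - v.1‖ ^ 2 ≤ 2 * ‖v.1‖ ^ 2 + 2 * ‖v.2‖ ^ 2 := by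
  have h1 := norm_sub_le v.2 v.1
  have h2 : ‖v.2 - v.1‖ ^ 2 ≤ (‖v.2‖ + ‖v.1‖) ^ 2 :=
    pow_le_pow_left₀ (norm_nonneg _) h1 2
  nlinarith [sq_nonneg (‖v.2‖ - ‖v.1‖)]

/-- the convex combination -/
theorem stK1_comb {P Q e d n1 n2 q : ℝ} (hP : 0 < P) (hQ : 0 < Q) (he : 0 < e)
    (hd : d ≤ 2 * n1 + 2 * n2) (hq : -(8 * e * (n1 + n2)) ≤ q) :
    -(8 * e * (n1 + n2)) ≤ P / (P + Q) * (d * -(4 * e)) + Q / (P + Q) * q := by
  have h1 : 0 ≤ P / (P + Q) := by positivity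
  have h2 : 0 ≤ Q / (P + Q) := by positivity
  have h3 : P / (P + Q) + Q / (P + Q) = 1 := by
    rw [← add_div]
    exact div_self (by positivity)
  have h4 : -(8 * e * (n1 + n2)) ≤ d * -(4 * e) := by nlinarith
  have h5 := mul_le_mul_of_nonneg_left h4 h1
  have h6 := mul_le_mul_of_nonneg_left hq h2
  have h7 : P / (P + Q) * -(8 * e * (n1 + n2)) + Q / (P + Q) * -(8 * e * (n1 + n2)) =
      -(8 * e * (n1 + n2)) := by
    rw [← add_mul, h3, one_mul]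
  linarith

/-- TARGET. Proof in words:
z = (x, y) ∈ Wd, w = y - x, so H x, H w > 0. `Om 0 = 8 e |x|² + 8 e |y|² + log (H w + (H x)²) + log (H w + H x)` (tr 0 t = t).
Levi forms: `|x|²`: 4|v₁|² (L.fst, L.sq); `|y|²`: 4|v₂|²; `log H x`: -4e |v₁|² (L.fst and HF.lap_H); `log H w`: -4 e |v₂ - v₁|² (L.dif); `log (H x)² = 2 log H x`:
-8 e |v₁|². By StSum with λ = H w/(H w + (H x)²) ∈ [0,1]: `lev log(H w + (H x)²) ≥ λ(-4e|v₂-v₁|²) + (1-λ)(-8e|v₁|²) ≥ -8e |v₁|² - 8 e |v₂|²` using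
`|v₂ - v₁|² ≤ 2|v₁|² + 2|v₂|²`; the same bound for log (H w + H x). Total ≥ 32 e nm v - 16 e nm v = 16 e nm v.
-/
theorem stK1 (L : LevBasics) (hS : StSum) : StK1 := by
  intro H A e hH z hz v
  obtain ⟨hz1, -, hz3⟩ := hz
  have hHs := stK1_H hH
  have he := hH.e_pos
  have hP : 0 < H (z.2 - z.1) := hH.H_pos _ hz3
  have hQ : 0 < H z.1 := hH.H_pos _ hz1
  have hOm : Om H A e 0 = fun t : E => (8 * e) * ‖t.1‖ ^ 2 + (8 * e) * ‖t.2‖ ^ 2 +
      Real.log (H (t.2 - t.1) + H t.1 ^ 2) + Real.log (H (t.2 - t.1) + H t.1) := by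
    funext t
    simp only [Om, tr, xx, ww, ca, cb, ca1, cb1, sub_add_cancel]
  -- smoothness
  have s1 : ContDiff ℝ 2 (fun t : E => H (t.2 - t.1)) := hHs.comp (contDiff_snd.sub contDiff_fst)
  have s2 : ContDiff ℝ 2 (fun t : E => H t.1) := hHs.comp contDiff_fst
  have s2' : ContDiff ℝ 2 (fun t : E => H t.1 ^ 2) := s2.pow 2
  have n1 : ContDiff ℝ 2 (fun t : E => ‖t.1‖ ^ 2) := (contDiff_norm_sq ℝ).comp contDiff_fst
  have n2 : ContDiff ℝ 2 (fun t : E => ‖t.2‖ ^ 2) := (contDiff_norm_sq ℝ).comp contDiff_snd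
  have n1' : ContDiff ℝ 2 (fun t : E => (8 * e) * ‖t.1‖ ^ 2) := contDiff_const.mul n1
  have n2' : ContDiff ℝ 2 (fun t : E => (8 * e) * ‖t.2‖ ^ 2) := contDiff_const.mul n2
  have l1 : ContDiffAt ℝ 2 (fun t : E => Real.log (H (t.2 - t.1) + H t.1 ^ 2)) z :=
    (s1.contDiffAt.add s2'.contDiffAt).log (by positivity)
  have l2 : ContDiffAt ℝ 2 (fun t : E => Real.log (H (t.2 - t.1) + H t.1)) z :=
    (s1.contDiffAt.add s2.contDiffAt).log (by positivity)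
  have logH : ∀ x : ℂ, x ∉ Lam → ContDiffAt ℝ 2 (fun t => Real.log (H t)) x := fun x hx =>
    hHs.contDiffAt.log (hH.H_pos x hx).ne'
  -- the Levi forms
  have e1 : lev (fun t : E => ‖t.1‖ ^ 2) z v = ‖v.1‖ ^ 2 * 4 := by
    rw [L.fst (fun t : ℂ => ‖t‖ ^ 2) z v (contDiff_norm_sq ℝ).contDiffAt, L.sq]
  have e2 : lev (fun t : E => ‖t.2‖ ^ 2) z v = ‖v.2‖ ^ 2 * 4 := by
    rw [L.snd (fun t : ℂ => ‖t‖ ^ 2) z v (contDiff_norm_sq ℝ).contDiffAt, L.sq]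
  have e3 : lev (fun t : E => Real.log (H (t.2 - t.1))) z v = ‖v.2 - v.1‖ ^ 2 * -(4 * e) := by
    rw [L.dif (fun t : ℂ => Real.log (H t)) z v (logH _ hz3), hH.lap_H _ hz3]
  have e4 : lev (fun t : E => Real.log (H t.1)) z v = ‖v.1‖ ^ 2 * -(4 * e) := by
    rw [L.fst (fun t : ℂ => Real.log (H t)) z v (logH _ hz1), hH.lap_H _ hz1]
  have e5 : lev (fun t : E => Real.log (H t.1 ^ 2)) z v = 2 * (‖v.1‖ ^ 2 * -(4 * e)) := by
    have h1 : (fun t : E => Real.log (H t.1 ^ 2)) = fun t : E => 2 * Real.log (H t.1) := by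
      funext t
      rw [Real.log_pow]
      norm_num
    rw [h1, L.smul 2 (fun t : E => Real.log (H t.1)) z v
      (ContDiffAt.comp z (logH _ hz1) contDiffAt_fst), e4]
  have k1 := hS (fun t : E => H (t.2 - t.1)) (fun t : E => H t.1 ^ 2) z v s1.contDiffAt
    s2'.contDiffAt hP (by positivity)
  have k2 := hS (fun t : E => H (t.2 - t.1)) (fun t : E => H t.1) z v s1.contDiffAt
    s2.contDiffAt hP hQ
  rw [e3, e5] at k1
  rw [e3, e4] at k2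
  have hd := stK1_dist v
  have hv1 : 0 ≤ ‖v.1‖ ^ 2 := sq_nonneg _
  have hv2 : 0 ≤ ‖v.2‖ ^ 2 := sq_nonneg _
  have c1 := stK1_comb (q := 2 * (‖v.1‖ ^ 2 * -(4 * e))) hP (pow_pos hQ 2) he hd
    (by nlinarith)
  have c2 := stK1_comb (q := ‖v.1‖ ^ 2 * -(4 * e)) hP hQ he hd (by nlinarith)
  have m1 := c1.trans k1
  have m2 := c2.trans k2
  rw [hOm, L.add _ _ z v ((n1'.add n2').contDiffAt.add l1) l2,
    L.add _ _ z v (n1'.add n2').contDiffAt l1, L.add _ _ z v n1'.contDiffAt n2'.contDiffAt,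
    L.smul _ _ z v n1.contDiffAt, L.smul _ _ z v n2.contDiffAt, e1, e2]
  unfold nm
  linarith


end JstK1

end Pool.Agent.Y810.SP
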