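import Pool.Agent.Y810.SP.Base

set_option autoImplicit false

open Set Topology Filter
open scoped ContDiff Manifold

namespace Pool.Agent.Y810.SP

namespace JstK2


open Laplacian

/-- first derivative in the direction `u` -/
noncomputable def D1 (f : E → ℝ) (z u : E) : ℝ := fderiv ℝ f z u

/-- second derivative in the direction `u` -/
noncomputable def D2 (f : E → ℝ) (z u : E) : ℝ := fderiv ℝ (fderiv ℝ f) z u u

theorem line_aux (z u : E) (t : ℝ) : HasDerivAt (fun t : ℝ => z + t • u) u t := by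
  have h := ((hasDerivAt_id t).smul_const u).const_add z
  simpa using h

theorem line0 (f : E → ℝ) (z u : E) (hf : ContDiffAt ℝ 2 f z) :
    HasDerivAt (fun t : ℝ => f (z + t • u)) (D1 f z u) 0 := by
  have hd : HasFDerivAt f (fderiv ℝ f z) (z + (0 : ℝ) • u) := by
    have := (hf.differentiableAt (by norm_num)).hasFDerivAt
    simpa using this
  exact hd.comp_hasDerivAt (0 : ℝ) (line_aux z u 0)

theorem line1 (f : E → ℝ) (z u : E) (hf : ContDiffAt ℝ 2 f z) :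
    ∀ᶠ t : ℝ in 𝓝 0, HasDerivAt (fun t : ℝ => f (z + t • u)) (fderiv ℝ f (z + t • u) u) t := by
  have h1 : ∀ᶠ z' in 𝓝 z, ContDiffAt ℝ 2 f z' := hf.eventually (by simp)
  have h2 : Tendsto (fun t : ℝ => z + t • u) (𝓝 0) (𝓝 z) := by
    have := (line_aux z u 0).continuousAt.tendsto
    simpa using this
  filter_upwards [h2.eventually h1] with t ht
  exact (ht.differentiableAt (by norm_num)).hasFDerivAt.comp_hasDerivAt t (line_aux z u t)

theorem line2 (f : E → ℝ) (z u : E) (hf : ContDiffAt ℝ 2 f z) :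
    HasDerivAt (fun t : ℝ => fderiv ℝ f (z + t • u) u) (D2 f z u) 0 := by
  have h1 : ContDiffAt ℝ 1 (fderiv ℝ f) z := hf.fderiv_right (by norm_num)
  have h2 : HasFDerivAt (fderiv ℝ f) (fderiv ℝ (fderiv ℝ f) z) (z + (0 : ℝ) • u) := by
    have := (h1.differentiableAt (by norm_num)).hasFDerivAt
    simpa using this
  have h3 := h2.comp_hasDerivAt (0 : ℝ) (line_aux z u 0)
  have h4 := h3.clm_apply (hasDerivAt_const (0 : ℝ) u)
  simpa [D2] using h4

theorem D1_mul (f g : E → ℝ) (z u : E) (hf : ContDiffAt ℝ 2 f z) (hg : ContDiffAt ℝ 2 g z) :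
    D1 (fun t => f t * g t) z u = D1 f z u * g z + f z * D1 g z u := by
  have h3 := line0 (fun t => f t * g t) z u (hf.mul hg)
  have h4 := (line0 f z u hf).mul (line0 g z u hg)
  have h5 := h3.unique h4
  simpa using h5

theorem D1_add (f g : E → ℝ) (z u : E) (hf : ContDiffAt ℝ 2 f z) (hg : ContDiffAt ℝ 2 g z) :
    D1 (fun t => f t + g t) z u = D1 f z u + D1 g z u := by
  have h3 := line0 (fun t => f t + g t) z u (hf.add hg)
  have h4 := (line0 f z u hf).add (line0 g z u hg)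
  exact h3.unique h4

theorem D2_mul (f g : E → ℝ) (z u : E) (hf : ContDiffAt ℝ 2 f z) (hg : ContDiffAt ℝ 2 g z) :
    D2 (fun t => f t * g t) z u =
      D2 f z u * g z + 2 * (D1 f z u * D1 g z u) + f z * D2 g z u := by
  have h7 : (fun t : ℝ => fderiv ℝ (fun t => f t * g t) (z + t • u) u) =ᶠ[𝓝 0]
      fun t => fderiv ℝ f (z + t • u) u * g (z + t • u) +
        f (z + t • u) * fderiv ℝ g (z + t • u) u := by
    filter_upwards [line1 f z u hf, line1 g z u hg, line1 (fun t => f t * g t) z u (hf.mul hg)]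
      with t a b c
    exact c.unique (a.mul b)
  have h8 := (((line2 f z u hf).mul (line0 g z u hg)).add
    ((line0 f z u hf).mul (line2 g z u hg))).congr_of_eventuallyEq h7
  have h9 := (line2 (fun t => f t * g t) z u (hf.mul hg)).unique h8
  rw [h9]
  simp only [zero_smul, add_zero, D1]
  ring

theorem D2_log (f : E → ℝ) (z u : E) (hf : ContDiffAt ℝ 2 f z) (h0 : 0 < f z) :
    D2 (fun t => Real.log (f t)) z u = D2 f z u / f z - (D1 f z u) ^ 2 / (f z) ^ 2 := by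
  have hl : ContDiffAt ℝ 2 (fun t => Real.log (f t)) z := hf.log h0.ne'
  have hc : ∀ᶠ t : ℝ in 𝓝 0, 0 < f (z + t • u) := by
    have h2 : Tendsto (fun t : ℝ => f (z + t • u)) (𝓝 0) (𝓝 (f z)) := by
      have := (line0 f z u hf).continuousAt.tendsto
      simpa using this
    exact h2.eventually (lt_mem_nhds h0)
  have h7 : (fun t : ℝ => fderiv ℝ (fun t => Real.log (f t)) (z + t • u) u) =ᶠ[𝓝 0]
      fun t => fderiv ℝ f (z + t • u) u / f (z + t • u) := by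
    filter_upwards [line1 f z u hf, line1 (fun t => Real.log (f t)) z u hl, hc] with t a b c
    exact b.unique (a.log c.ne')
  have h8 := ((line2 f z u hf).div (line0 f z u hf) (by simpa using h0.ne')).congr_of_eventuallyEq h7
  have h9 := (line2 (fun t => Real.log (f t)) z u hl).unique h8
  rw [h9]
  simp only [zero_smul, add_zero, D1]
  field_simp

theorem D1_sq_fst (z u : E) : D1 (fun t : E => ‖t.1‖ ^ 2) z u =
    2 * (z.1.re * u.1.re + z.1.im * u.1.im) := by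
  have h1 : ContDiffAt ℝ 2 (fun t : E => ‖t.1‖ ^ 2) z := contDiffAt_fst.norm_sq ℝ
  have h2 := line0 _ z u h1
  have h3 : (fun t : ℝ => ‖(z + t • u).1‖ ^ 2) =
      fun t : ℝ => (z.1.re + t * u.1.re) ^ 2 + (z.1.im + t * u.1.im) ^ 2 := by
    funext t
    rw [← Complex.normSq_eq_norm_sq, Complex.normSq_apply]
    simp
    ring
  rw [h3] at h2
  have h4 : HasDerivAt (fun t : ℝ => (z.1.re + t * u.1.re) ^ 2 + (z.1.im + t * u.1.im) ^ 2)
      (2 * (z.1.re * u.1.re + z.1.im * u.1.im)) 0 := by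
    have a := (((hasDerivAt_id (0 : ℝ)).mul_const u.1.re).const_add z.1.re).pow 2
    have b := (((hasDerivAt_id (0 : ℝ)).mul_const u.1.im).const_add z.1.im).pow 2
    have c := a.add b
    refine HasDerivAt.congr_deriv (f := fun t : ℝ => (z.1.re + t * u.1.re) ^ 2 +
      (z.1.im + t * u.1.im) ^ 2) c ?_
    simp
    ring
  exact h2.unique h4

theorem D1_sq_snd (z u : E) : D1 (fun t : E => ‖t.2‖ ^ 2) z u =
    2 * (z.2.re * u.2.re + z.2.im * u.2.im) := by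
  have h1 : ContDiffAt ℝ 2 (fun t : E => ‖t.2‖ ^ 2) z := contDiffAt_snd.norm_sq ℝ
  have h2 := line0 _ z u h1
  have h3 : (fun t : ℝ => ‖(z + t • u).2‖ ^ 2) =
      fun t : ℝ => (z.2.re + t * u.2.re) ^ 2 + (z.2.im + t * u.2.im) ^ 2 := by
    funext t
    rw [← Complex.normSq_eq_norm_sq, Complex.normSq_apply]
    simp
    ring
  rw [h3] at h2
  have h4 : HasDerivAt (fun t : ℝ => (z.2.re + t * u.2.re) ^ 2 + (z.2.im + t * u.2.im) ^ 2)
      (2 * (z.2.re * u.2.re + z.2.im * u.2.im)) 0 := by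
    have a := (((hasDerivAt_id (0 : ℝ)).mul_const u.2.re).const_add z.2.re).pow 2
    have b := (((hasDerivAt_id (0 : ℝ)).mul_const u.2.im).const_add z.2.im).pow 2
    have c := a.add b
    refine HasDerivAt.congr_deriv (f := fun t : ℝ => (z.2.re + t * u.2.re) ^ 2 +
      (z.2.im + t * u.2.im) ^ 2) c ?_
    simp
    ring
  exact h2.unique h4

/-- functions whose derivative and Levi form vanish in the direction `v` -/
structure Flat (f : E → ℝ) (z v : E) : Prop where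
  c2 : ContDiffAt ℝ 2 f z
  d1 : D1 f z v = 0
  d2 : D1 f z (Complex.I • v) = 0
  lv : lev f z v = 0

theorem lev_mul (L : LevBasics) (f g : E → ℝ) (z v : E) (hf : ContDiffAt ℝ 2 f z)
    (hg : ContDiffAt ℝ 2 g z) : lev (fun t => f t * g t) z v =
      lev f z v * g z + f z * lev g z v + 2 * (D1 f z v * D1 g z v +
        D1 f z (Complex.I • v) * D1 g z (Complex.I • v)) := by
  rw [L.eq _ z v (hf.mul hg), L.eq f z v hf, L.eq g z v hg]
  have h1 := D2_mul f g z v hf hg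
  have h2 := D2_mul f g z (Complex.I • v) hf hg
  simp only [D2] at h1 h2
  rw [h1, h2]
  ring

theorem lev_log (L : LevBasics) (f : E → ℝ) (z v : E) (hf : ContDiffAt ℝ 2 f z) (h0 : 0 < f z) :
    lev (fun t => Real.log (f t)) z v =
      lev f z v / f z - ((D1 f z v) ^ 2 + (D1 f z (Complex.I • v)) ^ 2) / (f z) ^ 2 := by
  rw [L.eq _ z v (hf.log h0.ne'), L.eq f z v hf]
  have h1 := D2_log f z v hf h0
  have h2 := D2_log f z (Complex.I • v) hf h0
  simp only [D2] at h1 h2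
  rw [h1, h2]
  ring

theorem Flat.mul {f g : E → ℝ} {z v : E} (L : LevBasics) (hf : Flat f z v) (hg : Flat g z v) :
    Flat (fun t => f t * g t) z v := by
  refine ⟨hf.c2.mul hg.c2, ?_, ?_, ?_⟩
  · rw [D1_mul f g z v hf.c2 hg.c2, hf.d1, hg.d1]; ring
  · rw [D1_mul f g z _ hf.c2 hg.c2, hf.d2, hg.d2]; ring
  · rw [lev_mul L f g z v hf.c2 hg.c2, hf.lv, hg.lv, hf.d1, hf.d2]; ring

theorem Flat.mul0 {f g : E → ℝ} {z v : E} (L : LevBasics) (hf : Flat f z v) (h0 : f z = 0)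
    (hg : ContDiffAt ℝ 2 g z) : Flat (fun t => f t * g t) z v := by
  refine ⟨hf.c2.mul hg, ?_, ?_, ?_⟩
  · rw [D1_mul f g z v hf.c2 hg, hf.d1, h0]; ring
  · rw [D1_mul f g z _ hf.c2 hg, hf.d2, h0]; ring
  · rw [lev_mul L f g z v hf.c2 hg, hf.lv, h0, hf.d1, hf.d2]; ring

theorem Flat.add {f g : E → ℝ} {z v : E} (L : LevBasics) (hf : Flat f z v) (hg : Flat g z v) :
    Flat (fun t => f t + g t) z v := by
  refine ⟨hf.c2.add hg.c2, ?_, ?_, ?_⟩
  · rw [D1_add f g z v hf.c2 hg.c2, hf.d1, hg.d1]; ring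
  · rw [D1_add f g z _ hf.c2 hg.c2, hf.d2, hg.d2]; ring
  · rw [L.add f g z v hf.c2 hg.c2, hf.lv, hg.lv]; ring

theorem Flat.log {f : E → ℝ} {z v : E} (L : LevBasics) (hf : Flat f z v) (h0 : 0 < f z) :
    lev (fun t => Real.log (f t)) z v = 0 := by
  rw [lev_log L f z v hf.c2 h0, hf.lv, hf.d1, hf.d2]; simp

/-- the main computation -/
theorem lev_main (L : LevBasics) (P Q S : E → ℝ) (z v : E) (c : ℝ) (hP : Flat P z v)
    (hQ : Flat Q z v) (hS : ContDiffAt ℝ 2 S z) (hS1 : lev S z v = 4 * c)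
    (hS2 : (D1 S z v) ^ 2 + (D1 S z (Complex.I • v)) ^ 2 = 4 * c * S z)
    (h0 : 0 < P z + S z * Q z) :
    lev (fun t => Real.log (P t + S t * Q t)) z v =
      4 * c * P z * Q z / (P z + S z * Q z) ^ 2 := by
  have hSQ : ContDiffAt ℝ 2 (fun t => S t * Q t) z := hS.mul hQ.c2
  have hN : ContDiffAt ℝ 2 (fun t => P t + S t * Q t) z := hP.c2.add hSQ
  rw [lev_log L (fun t => P t + S t * Q t) z v hN h0]
  have e1 : lev (fun t => P t + S t * Q t) z v = 4 * c * Q z := by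
    rw [L.add P (fun t => S t * Q t) z v hP.c2 hSQ, lev_mul L S Q z v hS hQ.c2, hP.lv, hQ.lv,
      hQ.d1, hQ.d2, hS1]
    ring
  have e2 : ∀ u, D1 P z u = 0 → D1 Q z u = 0 →
      D1 (fun t => P t + S t * Q t) z u = D1 S z u * Q z := by
    intro u h1 h2
    rw [D1_add P (fun t => S t * Q t) z u hP.c2 hSQ, D1_mul S Q z u hS hQ.c2, h1, h2]
    ring
  rw [e1, e2 v hP.d1 hQ.d1, e2 _ hP.d2 hQ.d2]
  have h0' := h0.ne'
  have e3 : (D1 S z v * Q z) ^ 2 + (D1 S z (Complex.I • v) * Q z) ^ 2 =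
      4 * c * S z * Q z ^ 2 := by
    rw [← hS2]; ring
  rw [e3]
  field_simp
  ring

theorem S_fst (L : LevBasics) (z v : E) : lev (fun t : E => ‖t.1‖ ^ 2) z v = 4 * ‖v.1‖ ^ 2 ∧
    (D1 (fun t : E => ‖t.1‖ ^ 2) z v) ^ 2 + (D1 (fun t : E => ‖t.1‖ ^ 2) z (Complex.I • v)) ^ 2 =
      4 * ‖v.1‖ ^ 2 * ‖z.1‖ ^ 2 := by
  constructor
  · rw [L.fst (fun x => ‖x‖ ^ 2) z v ((contDiffAt_id (𝕜 := ℝ)).norm_sq ℝ), L.sq]; ring
  · rw [D1_sq_fst, D1_sq_fst, ← Complex.normSq_eq_norm_sq, ← Complex.normSq_eq_norm_sq,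
      Complex.normSq_apply, Complex.normSq_apply]
    simp
    ring

theorem S_snd (L : LevBasics) (z v : E) : lev (fun t : E => ‖t.2‖ ^ 2) z v = 4 * ‖v.2‖ ^ 2 ∧
    (D1 (fun t : E => ‖t.2‖ ^ 2) z v) ^ 2 + (D1 (fun t : E => ‖t.2‖ ^ 2) z (Complex.I • v)) ^ 2 =
      4 * ‖v.2‖ ^ 2 * ‖z.2‖ ^ 2 := by
  constructor
  · rw [L.snd (fun x => ‖x‖ ^ 2) z v ((contDiffAt_id (𝕜 := ℝ)).norm_sq ℝ), L.sq]; ring
  · rw [D1_sq_snd, D1_sq_snd, ← Complex.normSq_eq_norm_sq, ← Complex.normSq_eq_norm_sq,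
      Complex.normSq_apply, Complex.normSq_apply]
    simp
    ring

theorem flat_fst (L : LevBasics) (z v : E) (h0 : v.1 = 0) :
    Flat (fun t : E => ‖t.1‖ ^ 2) z v := by
  refine ⟨contDiffAt_fst.norm_sq ℝ, ?_, ?_, ?_⟩
  · rw [D1_sq_fst, h0]; simp
  · rw [D1_sq_fst]; simp [h0]
  · rw [(S_fst L z v).1, h0]; simp

theorem flat_snd (L : LevBasics) (z v : E) (h0 : v.2 = 0) :
    Flat (fun t : E => ‖t.2‖ ^ 2) z v := by
  refine ⟨contDiffAt_snd.norm_sq ℝ, ?_, ?_, ?_⟩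
  · rw [D1_sq_snd, h0]; simp
  · rw [D1_sq_snd]; simp [h0]
  · rw [(S_snd L z v).1, h0]; simp

/-- composition with a holomorphic function whose derivative vanishes in the direction `v` -/
theorem flat_comp (L : LevBasics) (f : ℂ → ℝ) (τ : E → ℂ) (z v : E) (hf : ContDiff ℝ ∞ f)
    (hτ : ContDiffAt ℂ ω τ z) (h0 : fderiv ℂ τ z v = 0) : Flat (fun t => f (τ t)) z v := by
  have hf2 : ContDiffAt ℝ 2 f (τ z) := by
    have h : ContDiff ℝ ((2 : ℕ) : WithTop ℕ∞) f := contDiff_infty.1 hf 2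
    exact_mod_cast h.contDiffAt
  have hτ2 : ContDiffAt ℝ 2 τ z := (hτ.restrict_scalars ℝ).of_le (by exact_mod_cast le_top)
  have hτd : DifferentiableAt ℂ τ z := hτ.differentiableAt (by simp)
  have key : ∀ u : E, D1 (fun t => f (τ t)) z u = fderiv ℝ f (τ z) (fderiv ℂ τ z u) := by
    intro u
    have h1 : HasFDerivAt τ ((fderiv ℂ τ z).restrictScalars ℝ) z :=
      hτd.hasFDerivAt.restrictScalars ℝ
    have h2 : HasFDerivAt f (fderiv ℝ f (τ z)) (τ z) :=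
      (hf2.differentiableAt (by norm_num)).hasFDerivAt
    have h3 := h2.comp z h1
    have h4 : fderiv ℝ (fun t => f (τ t)) z =
        (fderiv ℝ f (τ z)).comp ((fderiv ℂ τ z).restrictScalars ℝ) := h3.fderiv
    simp only [D1]
    rw [h4]
    rfl
  refine ⟨hf2.comp z hτ2, ?_, ?_, ?_⟩
  · rw [key, h0]; simp
  · rw [key, map_smul, h0]; simp
  · rw [L.one f τ z v hτ hf2, h0]; simp

theorem an_x (j : Fin 4) (z : E) : ContDiffAt ℂ ω (xx j) z := by
  have h : ContDiff ℂ ω (xx j) := by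
    fin_cases j
    · exact contDiff_fst
    · exact contDiff_fst.mul contDiff_snd
    · exact contDiff_fst.mul contDiff_snd
    · exact contDiff_fst
  exact h.contDiffAt

theorem an_w (j : Fin 4) (z : E) : ContDiffAt ℂ ω (ww j) z := by
  have h : ContDiff ℂ ω (ww j) := by
    fin_cases j
    · exact contDiff_snd.sub contDiff_fst
    · exact contDiff_snd
    · exact contDiff_fst.mul (contDiff_snd.pow 2)
    · exact (contDiff_fst.pow 2).mul contDiff_snd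
  exact h.contDiffAt

/-- TARGET. Proof in words:
At an exceptional point z = (ξ, η) of V j (j = 1,2,3) one has x = w = 0, tr j z = 0; that is η = 0 (j=1), ξη = 0 (j=2), ξ = 0 (j=3).
Look at g ζ = Om j (z + ζ v) for v in the kernel of D(tr j) z; write a = A 0 > 0; need Δ g (0) > 0.
j=1: z = (ξ, 0); kernel: v₂ = 0 (dw = dη), v = (v₁, 0): along the line x = w = 0, so
  `g ζ = log (a + 0) + log (a + |ξ + ζ v₁|² a) = 2 log a + log (1 + |ξ + ζ v₁|²)`, Laplacian `4|v₁|²/(1+|ξ|²)² > 0`.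
j=2, z = (0, η), η ≠ 0: dx = η dξ, kernel v₁ = 0, v = (0, v₂): along the line x = w = 0, `g ζ = log a + log (|η + ζ v₂|² a + a)`, as before > 0.
j=2, z = (ξ, 0), ξ ≠ 0: dx = ξ dη, kernel v₂ = 0: along the line x = w = 0: `g ζ = log (a + |ξ + ζ v₁|² a²) + log a`, Laplacian
  `4 a² · a |v₁|² / (a + a²|ξ|²)² > 0`.
j=2, z = (0,0): D = 0, all v: x = ζ² v₁ v₂, w = ζ³ v₁ v₂²; `g ζ = 8e|x|² + 8e|y|² + log (A w + |ζ v₁|² (A x)²) + log (|ζ v₂|² A w + A x)`. The Laplacian at 0: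
  every function of the form f (ζ² h(ζ)) with f C² and h holomorphic has Laplacian 0 at 0 (L.one-type chain rule: |(ζ² h)'|² = 0 at
  0), so |x|², |y|², A w, A x contribute only their values; result `4 |v₁|² a²/a + 4 |v₂|² a/a = 4 (a |v₁|² + |v₂|²) > 0`. General lemma:
  if p, q are C² near 0, q(0) > 0, then Δ log (|ζ c|² p(ζ) + q(ζ)) at 0 = 4|c|² p(0)/q(0) + Δ (log q)(0).
j=3: z = (0, η): dx = dξ, kernel v₁ = 0, v = (0, v₂): along the line x = w = 0: `g ζ = log (|η + ζ v₂|² a + a²) + log (0 + a)`,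
  Laplacian `4 a · a² |v₂|²/(a|η|²+a²)² > 0`.
Useful lemma: for constants p, q > 0 (or p > 0, q > 0) `Δ_ζ log (q + p |η + ζ c|²)` at 0 is `4 p q |c|²/(q + p|η|²)²`.
(The kernel conditions: fderiv ℂ (tr j) z v = 0, compute fderiv of the polynomial map, or use that tr j (z + ζ v) has derivative 0.)
-/
theorem stK2 (L : LevBasics) (C : Coord) : StK2 := by
  intro H A e hF j hj z hz htr v hv hk
  have h00 : tr j z = 0 := by
    by_contra h
    exact htr ((C.exc j hj z hz).2 h)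
  have hx0 : xx j z = 0 := congrArg Prod.fst h00
  have hw0 : ww j z = 0 := by
    have h : ww j z + xx j z = 0 := congrArg Prod.snd h00
    rwa [hx0, add_zero] at h
  have hxd : DifferentiableAt ℂ (xx j) z := (an_x j z).differentiableAt (by simp)
  have hwd : DifferentiableAt ℂ (ww j) z := (an_w j z).differentiableAt (by simp)
  have hk' : HasFDerivAt (tr j) ((fderiv ℂ (xx j) z).prod (fderiv ℂ (ww j) z + fderiv ℂ (xx j) z))
      z := hxd.hasFDerivAt.prodMk (hwd.hasFDerivAt.add hxd.hasFDerivAt)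
  rw [hk'.fderiv] at hk
  have hx1 : fderiv ℂ (xx j) z v = 0 := congrArg Prod.fst hk
  have hw1 : fderiv ℂ (ww j) z v = 0 := by
    have h : fderiv ℂ (ww j) z v + fderiv ℂ (xx j) z v = 0 := congrArg Prod.snd hk
    rwa [hx1, add_zero] at h
  have hA0 : 0 < A 0 := hF.A_pos 0 (by simp)
  have fX : Flat (fun t => A (xx j t)) z v := flat_comp L A (xx j) z v hF.A_smooth (an_x j z) hx1
  have fW : Flat (fun t => A (ww j t)) z v := flat_comp L A (ww j) z v hF.A_smooth (an_w j z) hw1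
  have fX2 : Flat (fun t => A (xx j t) ^ 2) z v := by
    have := fX.mul L fX
    simpa only [pow_two] using this
  have hsq : ContDiff ℝ ∞ (fun x : ℂ => ‖x‖ ^ 2) := contDiff_id.norm_sq ℝ
  have fx : Flat (fun t => ‖(tr j t).1‖ ^ 2) z v :=
    flat_comp L (fun x => ‖x‖ ^ 2) (xx j) z v hsq (an_x j z) hx1
  have fy : Flat (fun t => ‖(tr j t).2‖ ^ 2) z v := by
    refine flat_comp L (fun x => ‖x‖ ^ 2) (fun t => ww j t + xx j t) z v hsq
      ((an_w j z).add (an_x j z)) ?_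
    have h : HasFDerivAt (fun t => ww j t + xx j t) (fderiv ℂ (ww j) z + fderiv ℂ (xx j) z) z :=
      hwd.hasFDerivAt.add hxd.hasFDerivAt
    rw [h.fderiv]
    show fderiv ℂ (ww j) z v + fderiv ℂ (xx j) z v = 0
    rw [hx1, hw1, add_zero]
  -- the splitting of the Levi form
  have split : ∀ (M N : E → ℝ), ContDiffAt ℝ 2 M z → ContDiffAt ℝ 2 N z → 0 < M z → 0 < N z →
      lev (fun t => 8 * e * ‖(tr j t).1‖ ^ 2 + 8 * e * ‖(tr j t).2‖ ^ 2 + Real.log (M t) +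
        Real.log (N t)) z v =
      lev (fun t => Real.log (M t)) z v + lev (fun t => Real.log (N t)) z v := by
    intro M N hM hN hM0 hN0
    have c1 : ContDiffAt ℝ 2 (fun t => 8 * e * ‖(tr j t).1‖ ^ 2) z := contDiffAt_const.mul fx.c2
    have c2 : ContDiffAt ℝ 2 (fun t => 8 * e * ‖(tr j t).2‖ ^ 2) z := contDiffAt_const.mul fy.c2
    have c3 : ContDiffAt ℝ 2 (fun t => Real.log (M t)) z := hM.log hM0.ne'
    have c4 : ContDiffAt ℝ 2 (fun t => Real.log (N t)) z := hN.log hN0.ne'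
    rw [L.add (fun t => 8 * e * ‖(tr j t).1‖ ^ 2 + 8 * e * ‖(tr j t).2‖ ^ 2 + Real.log (M t))
      (fun t => Real.log (N t)) z v ((c1.add c2).add c3) c4,
      L.add (fun t => 8 * e * ‖(tr j t).1‖ ^ 2 + 8 * e * ‖(tr j t).2‖ ^ 2)
      (fun t => Real.log (M t)) z v (c1.add c2) c3,
      L.add (fun t => 8 * e * ‖(tr j t).1‖ ^ 2) (fun t => 8 * e * ‖(tr j t).2‖ ^ 2) z v c1 c2,
      L.smul (8 * e) (fun t => ‖(tr j t).1‖ ^ 2) z v fx.c2,
      L.smul (8 * e) (fun t => ‖(tr j t).2‖ ^ 2) z v fy.c2, fx.lv, fy.lv]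
    ring
  have sfst : ContDiffAt ℝ 2 (fun t : E => ‖t.1‖ ^ 2) z := contDiffAt_fst.norm_sq ℝ
  have ssnd : ContDiffAt ℝ 2 (fun t : E => ‖t.2‖ ^ 2) z := contDiffAt_snd.norm_sq ℝ
  have npos : ∀ x : ℂ, x ≠ 0 → 0 < ‖x‖ ^ 2 := fun x hx => by
    have := norm_pos_iff.2 hx
    positivity
  match j, hj with
  | 0, h => exact absurd rfl h
  | 1, _ =>
    have z2 : z.2 = 0 := hw0
    have v2 : v.2 = 0 := by
      have h : fderiv ℂ (fun t : E => t.2) z v = 0 := hw1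
      rw [fderiv_snd] at h
      exact h
    have v1 : v.1 ≠ 0 := fun h => hv (Prod.ext h v2)
    have hX : A (xx 1 z) = A 0 := by rw [hx0]
    have hW : A (ww 1 z) = A 0 := by rw [hw0]
    have fS : Flat (fun t : E => ‖t.2‖ ^ 2) z v := flat_snd L z v v2
    have f1 : Flat (fun t : E => ‖t.2‖ ^ 2 * (‖t.1‖ ^ 2 * ‖t.1‖ ^ 2 * A (xx 1 t) ^ 2)) z v :=
      fS.mul0 L (by simp [z2]) ((sfst.mul sfst).mul fX2.c2)
    have f2 := fW.add L f1
    have e1 : (fun t => Om H A e 1 t) = fun t => 8 * e * ‖(tr 1 t).1‖ ^ 2 +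
        8 * e * ‖(tr 1 t).2‖ ^ 2 + Real.log (A (ww 1 t) +
          ‖t.2‖ ^ 2 * (‖t.1‖ ^ 2 * ‖t.1‖ ^ 2 * A (xx 1 t) ^ 2)) +
        Real.log (A (ww 1 t) + ‖t.1‖ ^ 2 * A (xx 1 t)) := by
      funext t
      simp only [Om, ca, cb, ca1, cb1]
      congr 3
      ring
    have p1 : 0 < A (ww 1 z) + ‖z.2‖ ^ 2 * (‖z.1‖ ^ 2 * ‖z.1‖ ^ 2 * A (xx 1 z) ^ 2) := by
      rw [hW]; positivity
    have p2 : 0 < A (ww 1 z) + ‖z.1‖ ^ 2 * A (xx 1 z) := by
      rw [hW, hX]; positivity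
    have e2 := split (fun t => A (ww 1 t) + ‖t.2‖ ^ 2 * (‖t.1‖ ^ 2 * ‖t.1‖ ^ 2 * A (xx 1 t) ^ 2))
      (fun t => A (ww 1 t) + ‖t.1‖ ^ 2 * A (xx 1 t)) f2.c2 (fW.c2.add (sfst.mul fX.c2)) p1 p2
    have e3 := lev_main L (fun t => A (ww 1 t)) (fun t => A (xx 1 t)) (fun t => ‖t.1‖ ^ 2) z v
      (‖v.1‖ ^ 2) fW fX sfst (S_fst L z v).1 (S_fst L z v).2 p2
    have e4 : lev (fun t => Real.log (A (ww 1 t) +
        ‖t.2‖ ^ 2 * (‖t.1‖ ^ 2 * ‖t.1‖ ^ 2 * A (xx 1 t) ^ 2))) z v = 0 := f2.log L p1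
    show 0 < lev (fun t => Om H A e 1 t) z v
    rw [e1, e2, e4, e3, zero_add]
    have q := npos _ v1
    have p3 : 0 < A (ww 1 z) := by rw [hW]; exact hA0
    have p4 : 0 < A (xx 1 z) := by rw [hX]; exact hA0
    positivity
  | 2, _ =>
    have hX : A (xx 2 z) = A 0 := by rw [hx0]
    have hW : A (ww 2 z) = A 0 := by rw [hw0]
    have p3 : 0 < A (ww 2 z) := by rw [hW]; exact hA0
    have p4 : 0 < A (xx 2 z) := by rw [hX]; exact hA0
    have e1 : (fun t => Om H A e 2 t) = fun t => 8 * e * ‖(tr 2 t).1‖ ^ 2 +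
        8 * e * ‖(tr 2 t).2‖ ^ 2 + Real.log (A (ww 2 t) + ‖t.1‖ ^ 2 * A (xx 2 t) ^ 2) +
        Real.log (A (xx 2 t) + ‖t.2‖ ^ 2 * A (ww 2 t)) := by
      funext t
      simp only [Om, ca, cb, ca1, cb1]
      rw [add_comm (‖t.2‖ ^ 2 * A (ww 2 t))]
    have p1 : 0 < A (ww 2 z) + ‖z.1‖ ^ 2 * A (xx 2 z) ^ 2 := by positivity
    have p2 : 0 < A (xx 2 z) + ‖z.2‖ ^ 2 * A (ww 2 z) := by positivity
    have e2 := split (fun t => A (ww 2 t) + ‖t.1‖ ^ 2 * A (xx 2 t) ^ 2)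
      (fun t => A (xx 2 t) + ‖t.2‖ ^ 2 * A (ww 2 t)) (fW.c2.add (sfst.mul fX2.c2))
      (fX.c2.add (ssnd.mul fW.c2)) p1 p2
    have e3 := lev_main L (fun t => A (ww 2 t)) (fun t => A (xx 2 t) ^ 2) (fun t => ‖t.1‖ ^ 2) z v
      (‖v.1‖ ^ 2) fW fX2 sfst (S_fst L z v).1 (S_fst L z v).2 p1
    have e4 := lev_main L (fun t => A (xx 2 t)) (fun t => A (ww 2 t)) (fun t => ‖t.2‖ ^ 2) z v
      (‖v.2‖ ^ 2) fX fW ssnd (S_snd L z v).1 (S_snd L z v).2 p2
    show 0 < lev (fun t => Om H A e 2 t) z v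
    rw [e1, e2, e3, e4]
    by_cases h1 : v.1 = 0
    · have h2 : v.2 ≠ 0 := fun h => hv (Prod.ext h1 h)
      have q := npos _ h2
      rw [h1]
      simp only [norm_zero]
      positivity
    · have q := npos _ h1
      positivity
  | 3, _ =>
    have z1 : z.1 = 0 := hx0
    have v1 : v.1 = 0 := by
      have h : fderiv ℂ (fun t : E => t.1) z v = 0 := hx1
      rw [fderiv_fst] at h
      exact h
    have v2 : v.2 ≠ 0 := fun h => hv (Prod.ext v1 h)
    have hX : A (xx 3 z) = A 0 := by rw [hx0]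
    have hW : A (ww 3 z) = A 0 := by rw [hw0]
    have p3 : 0 < A (ww 3 z) := by rw [hW]; exact hA0
    have p4 : 0 < A (xx 3 z) := by rw [hX]; exact hA0
    have fS : Flat (fun t : E => ‖t.1‖ ^ 2) z v := flat_fst L z v v1
    have f1 : Flat (fun t : E => ‖t.1‖ ^ 2 * (‖t.2‖ ^ 2 * A (ww 3 t))) z v :=
      fS.mul0 L (by simp [z1]) (ssnd.mul fW.c2)
    have f2 := fX.add L f1
    have e1 : (fun t => Om H A e 3 t) = fun t => 8 * e * ‖(tr 3 t).1‖ ^ 2 +
        8 * e * ‖(tr 3 t).2‖ ^ 2 + Real.log (A (xx 3 t) ^ 2 + ‖t.2‖ ^ 2 * A (ww 3 t)) +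
        Real.log (A (xx 3 t) + ‖t.1‖ ^ 2 * (‖t.2‖ ^ 2 * A (ww 3 t))) := by
      funext t
      simp only [Om, ca, cb, ca1, cb1]
      rw [add_comm (‖t.2‖ ^ 2 * A (ww 3 t)), add_comm (‖t.1‖ ^ 2 * ‖t.2‖ ^ 2 * A (ww 3 t)),
        mul_assoc (‖t.1‖ ^ 2)]
    have p1 : 0 < A (xx 3 z) ^ 2 + ‖z.2‖ ^ 2 * A (ww 3 z) := by positivity
    have p2 : 0 < A (xx 3 z) + ‖z.1‖ ^ 2 * (‖z.2‖ ^ 2 * A (ww 3 z)) := by positivity
    have e2 := split (fun t => A (xx 3 t) ^ 2 + ‖t.2‖ ^ 2 * A (ww 3 t))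
      (fun t => A (xx 3 t) + ‖t.1‖ ^ 2 * (‖t.2‖ ^ 2 * A (ww 3 t)))
      (fX2.c2.add (ssnd.mul fW.c2)) f2.c2 p1 p2
    have e3 := lev_main L (fun t => A (xx 3 t) ^ 2) (fun t => A (ww 3 t)) (fun t => ‖t.2‖ ^ 2) z v
      (‖v.2‖ ^ 2) fX2 fW ssnd (S_snd L z v).1 (S_snd L z v).2 p1
    have e4 : lev (fun t => Real.log (A (xx 3 t) +
        ‖t.1‖ ^ 2 * (‖t.2‖ ^ 2 * A (ww 3 t)))) z v = 0 := f2.log L p2
    show 0 < lev (fun t => Om H A e 3 t) z v
    rw [e1, e2, e4, e3, add_zero]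
    have q := npos _ v2
    positivity


end JstK2

end Pool.Agent.Y810.SP
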