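import Pool.Agent.Y810.SP.Base

set_option autoImplicit false

open Set Topology Filter
open scoped ContDiff Manifold

namespace Pool.Agent.Y810.SP

namespace JstLev


section LevProofs

variable {F : Type*} [NormedAddCommGroup F] [NormedSpace ℝ F]

theorem lap_eq (g : ℂ → ℝ) (a : ℂ) : Laplacian.laplacian g a =
    fderiv ℝ (fderiv ℝ g) a 1 1 + fderiv ℝ (fderiv ℝ g) a Complex.I Complex.I := by
  have h := congrFun (InnerProductSpace.laplacian_eq_iteratedFDeriv_complexPlane g) a
  rw [h, iteratedFDeriv_two_apply, iteratedFDeriv_two_apply]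
  rfl

/-- second derivative of a composition -/
theorem second_comp (f : F → ℝ) (γ : ℂ → F) (a : ℂ) (hf : ContDiffAt ℝ 2 f (γ a))
    (hγ : ContDiffAt ℝ 2 γ a) (e e' : ℂ) :
    fderiv ℝ (fderiv ℝ (fun ζ => f (γ ζ))) a e e' =
      fderiv ℝ (fderiv ℝ f) (γ a) (fderiv ℝ γ a e) (fderiv ℝ γ a e') +
        fderiv ℝ f (γ a) (fderiv ℝ (fderiv ℝ γ) a e e') := by
  have h1 : fderiv ℝ (fun ζ => f (γ ζ)) =ᶠ[𝓝 a]
      fun x => (fderiv ℝ f (γ x)).comp (fderiv ℝ γ x) := by
    have hf' : ∀ᶠ x in 𝓝 a, ContDiffAt ℝ 2 f (γ x) :=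
      hγ.continuousAt.eventually (hf.eventually (by simp))
    filter_upwards [hf', hγ.eventually (by simp)] with x hx hx'
    exact fderiv_comp x (hx.differentiableAt (by norm_num)) (hx'.differentiableAt (by norm_num))
  have hDf : DifferentiableAt ℝ (fderiv ℝ f) (γ a) :=
    (hf.fderiv_right (m := 1) (by norm_num)).differentiableAt (by norm_num)
  have hDγ : DifferentiableAt ℝ (fderiv ℝ γ) a :=
    (hγ.fderiv_right (m := 1) (by norm_num)).differentiableAt (by norm_num)
  have hγ1 : DifferentiableAt ℝ γ a := hγ.differentiableAt (by norm_num)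
  have h2 : HasFDerivAt (fun x => fderiv ℝ f (γ x))
      ((fderiv ℝ (fderiv ℝ f) (γ a)).comp (fderiv ℝ γ a)) a :=
    hDf.hasFDerivAt.comp a hγ1.hasFDerivAt
  have h3 := h2.clm_comp hDγ.hasFDerivAt
  rw [h1.fderiv_eq, h3.fderiv]
  simp [add_comm]

theorem deriv_facts {G : Type*} [NormedAddCommGroup G] [NormedSpace ℂ G] [CompleteSpace G]
    (γ : ℂ → G) (a : ℂ) (hγ : AnalyticAt ℂ γ a) :
    ContDiffAt ℝ 2 γ a ∧ (∀ e : ℂ, fderiv ℝ γ a e = e • deriv γ a) ∧
      ∀ e e' : ℂ, fderiv ℝ (fderiv ℝ γ) a e e' = (e * e') • deriv (deriv γ) a := by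
  have key : ∀ (δ : ℂ → G) (x : ℂ), DifferentiableAt ℂ δ x → ∀ e : ℂ,
      fderiv ℝ δ x e = e • deriv δ x := by
    intro δ x hx e
    rw [hx.fderiv_restrictScalars ℝ]
    change fderiv ℂ δ x e = _
    exact fderiv_eq_smul_deriv e
  have hc : ContDiffAt ℝ 2 γ a := by
    have : ContDiffAt ℂ 2 γ a := hγ.contDiffAt
    exact this.restrict_scalars ℝ
  refine ⟨hc, key γ a hγ.differentiableAt, ?_⟩
  intro e e'
  have hD : DifferentiableAt ℝ (fderiv ℝ γ) a :=
    (hc.fderiv_right (m := 1) (by norm_num)).differentiableAt (by norm_num)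
  have h1 : fderiv ℝ (fun x => fderiv ℝ γ x e') a e = fderiv ℝ (fderiv ℝ γ) a e e' := by
    rw [fderiv_clm_apply hD (differentiableAt_const _)]
    simp
  have h2 : (fun x => fderiv ℝ γ x e') =ᶠ[𝓝 a] fun x => e' • deriv γ x := by
    filter_upwards [hγ.eventually_analyticAt] with x hx
    exact key γ x hx.differentiableAt e'
  have h3 : DifferentiableAt ℂ (deriv γ) a := hγ.deriv.differentiableAt
  rw [← h1, h2.fderiv_eq]
  have h4 : fderiv ℝ (fun x => e' • deriv γ x) a e = e • deriv (fun x => e' • deriv γ x) a :=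
    key _ a (h3.const_smul e') e
  rw [h4, show deriv (fun x => e' • deriv γ x) a = e' • deriv (deriv γ) a from
    (h3.hasDerivAt.const_smul e').deriv, smul_smul]

/-- the Laplacian along a holomorphic disc -/
theorem disc_gen {G : Type*} [NormedAddCommGroup G] [NormedSpace ℂ G] [CompleteSpace G]
    (f : G → ℝ) (γ : ℂ → G) (hγ : AnalyticAt ℂ γ 0) (hf : ContDiffAt ℝ 2 f (γ 0)) :
    Laplacian.laplacian (fun ζ => f (γ ζ)) 0 =
      fderiv ℝ (fderiv ℝ f) (γ 0) (deriv γ 0) (deriv γ 0) +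
        fderiv ℝ (fderiv ℝ f) (γ 0) (Complex.I • deriv γ 0) (Complex.I • deriv γ 0) := by
  obtain ⟨h1, h2, h3⟩ := deriv_facts γ 0 hγ
  rw [lap_eq, second_comp f γ 0 hf h1, second_comp f γ 0 hf h1, h2, h2, h3, h3]
  simp only [one_smul, mul_one, Complex.I_mul_I, neg_smul, map_neg]
  ring


/-- the vector `z + ζ v` as a disc -/
theorem line_an (z v : E) : AnalyticAt ℂ (fun ζ : ℂ => z + ζ • v) 0 := by
  fun_prop

theorem line_deriv (z v : E) : deriv (fun ζ : ℂ => z + ζ • v) 0 = v := by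
  have h : HasDerivAt (fun ζ : ℂ => z + ζ • v) ((1 : ℂ) • v) 0 :=
    ((hasDerivAt_id (0 : ℂ)).smul_const v).const_add z
  rw [h.deriv, one_smul]

theorem lev_formula (f : E → ℝ) (z v : E) (hf : ContDiffAt ℝ 2 f z) : lev f z v =
    fderiv ℝ (fderiv ℝ f) z v v + fderiv ℝ (fderiv ℝ f) z (Complex.I • v) (Complex.I • v) := by
  have h := disc_gen f (fun ζ : ℂ => z + ζ • v) (line_an z v) (by simpa using hf)
  rw [line_deriv] at h
  simpa [lev] using h

theorem lev_disc (f : E → ℝ) (γ : ℂ → E) (hγ : AnalyticAt ℂ γ 0) (hf : ContDiffAt ℝ 2 f (γ 0)) :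
    Laplacian.laplacian (fun ζ => f (γ ζ)) 0 = lev f (γ 0) (deriv γ 0) := by
  rw [disc_gen f γ hγ hf, lev_formula f _ _ hf]

theorem line_comp {G : Type*} [NormedAddCommGroup G] [NormedSpace ℂ G] [CompleteSpace G]
    (τ : E → G) (z v : E) (hτ : ContDiffAt ℂ ω τ z) :
    AnalyticAt ℂ (fun ζ : ℂ => τ (z + ζ • v)) 0 ∧
      deriv (fun ζ : ℂ => τ (z + ζ • v)) 0 = fderiv ℂ τ z v := by
  have h0 : z + (0 : ℂ) • v = z := by simp
  have h1 : AnalyticAt ℂ τ (z + (0 : ℂ) • v) := by
    rw [h0]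
    exact analyticWithinAt_univ.1 (contDiffWithinAt_omega_iff_analyticWithinAt.1 hτ)
  refine ⟨AnalyticAt.fun_comp (f := fun ζ : ℂ => z + ζ • v) h1 (line_an z v), ?_⟩
  have h2 : HasDerivAt (fun ζ : ℂ => z + ζ • v) v 0 := by
    have h : HasDerivAt (fun ζ : ℂ => z + ζ • v) ((1 : ℂ) • v) 0 :=
      ((hasDerivAt_id (0 : ℂ)).smul_const v).const_add z
    rwa [one_smul] at h
  have h3 : HasFDerivAt τ (fderiv ℂ τ z) (z + (0 : ℂ) • v) := by
    rw [h0]
    rw [h0] at h1
    exact h1.differentiableAt.hasFDerivAt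
  exact (h3.comp_hasDerivAt (0 : ℂ) h2).deriv

theorem lev_comp (f : E → ℝ) (τ : E → E) (z v : E) (hτ : ContDiffAt ℂ ω τ z)
    (hf : ContDiffAt ℝ 2 f (τ z)) : lev (fun t => f (τ t)) z v = lev f (τ z) (fderiv ℂ τ z v) := by
  obtain ⟨h1, h2⟩ := line_comp τ z v hτ
  have h := lev_disc f (fun ζ : ℂ => τ (z + ζ • v)) h1 (by simpa using hf)
  rw [h2] at h
  simpa [lev] using h

theorem quad (D : ℂ →L[ℝ] ℂ →L[ℝ] ℝ) (c : ℂ) : D c c + D (Complex.I • c) (Complex.I • c) =
    ‖c‖ ^ 2 * (D 1 1 + D Complex.I Complex.I) := by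
  have h1 : c = c.re • (1 : ℂ) + c.im • Complex.I := by
    apply Complex.ext <;> simp
  have h2 : Complex.I • c = (-c.im) • (1 : ℂ) + c.re • Complex.I := by
    apply Complex.ext <;> simp
  have h3 : ‖c‖ ^ 2 = c.re ^ 2 + c.im ^ 2 := by
    rw [← Complex.normSq_eq_norm_sq, Complex.normSq_apply]
    ring
  rw [h2, h3]
  conv_lhs => rw [h1]
  simp only [map_add, map_smul, add_apply, smul_apply,
    smul_eq_mul]
  simp
  ring

theorem lev_one (f : ℂ → ℝ) (τ : E → ℂ) (z v : E) (hτ : ContDiffAt ℂ ω τ z)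
    (hf : ContDiffAt ℝ 2 f (τ z)) :
    lev (fun t => f (τ t)) z v = ‖fderiv ℂ τ z v‖ ^ 2 * Laplacian.laplacian f (τ z) := by
  obtain ⟨h1, h2⟩ := line_comp τ z v hτ
  have h := disc_gen f (fun ζ : ℂ => τ (z + ζ • v)) h1 (by simpa using hf)
  rw [h2, quad, ← lap_eq] at h
  simpa [lev] using h

theorem lev_congr (f g : E → ℝ) (z v : E) (h : ∀ᶠ t in 𝓝 z, f t = g t) : lev f z v = lev g z v := by
  have hc : ContinuousAt (fun ζ : ℂ => z + ζ • v) 0 := by fun_prop
  have h1 : ∀ᶠ ζ in 𝓝 (0 : ℂ), f (z + ζ • v) = g (z + ζ • v) := by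
    have h2 : ∀ᶠ t in 𝓝 (z + (0 : ℂ) • v), f t = g t := by simpa using h
    exact hc.eventually h2
  exact (InnerProductSpace.laplacian_congr_nhds h1).self_of_nhds

theorem c2_line (f : E → ℝ) (z v : E) (hf : ContDiffAt ℝ 2 f z) :
    ContDiffAt ℝ 2 (fun ζ : ℂ => f (z + ζ • v)) 0 := by
  have h : ContDiffAt ℝ 2 f (z + (0 : ℂ) • v) := by simpa using hf
  exact h.comp (0 : ℂ) (by fun_prop)


theorem lev_cont (f : E → ℝ) (z v : E) (hf : ContDiffAt ℝ 2 f z) :
    ContinuousAt (fun p : E × E => lev f p.1 p.2) (z, v) := by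
  have hD : ContinuousAt (fderiv ℝ (fderiv ℝ f)) z :=
    ((hf.fderiv_right (m := 1) (by norm_num)).fderiv_right (m := 0) (by norm_num)).continuousAt
  have h1 : ∀ᶠ p : E × E in 𝓝 (z, v), ContDiffAt ℝ 2 f p.1 :=
    continuousAt_fst.eventually (hf.eventually (by simp))
  have h2 : (fun p : E × E => lev f p.1 p.2) =ᶠ[𝓝 (z, v)] fun p =>
      fderiv ℝ (fderiv ℝ f) p.1 p.2 p.2 +
        fderiv ℝ (fderiv ℝ f) p.1 (Complex.I • p.2) (Complex.I • p.2) := by
    filter_upwards [h1] with p hp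
    exact lev_formula f p.1 p.2 hp
  have hD' : ContinuousAt (fun p : E × E => fderiv ℝ (fderiv ℝ f) p.1) (z, v) :=
    ContinuousAt.comp (f := fun p : E × E => p.1) (g := fderiv ℝ (fderiv ℝ f)) hD continuousAt_fst
  refine (continuousAt_congr h2).2 ?_
  have hI : ContinuousAt (fun p : E × E => Complex.I • p.2) (z, v) := by fun_prop
  exact ((hD'.clm_apply continuousAt_snd).clm_apply continuousAt_snd).add
    ((hD'.clm_apply hI).clm_apply hI)

theorem lap_sq (x : ℂ) : Laplacian.laplacian (fun t : ℂ => ‖t‖ ^ 2) x = 4 := by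
  rw [lap_eq]
  have h : fderiv ℝ (fderiv ℝ fun t : ℂ => ‖t‖ ^ 2) x = 2 • innerSL ℝ := by
    rw [fderiv_norm_sq]
    exact (2 • innerSL ℝ (E := ℂ)).fderiv
  rw [h]
  have hi : ∀ e : ℂ, (2 • innerSL ℝ (E := ℂ)) e e = 2 * ‖e‖ ^ 2 := by
    intro e
    rw [← real_inner_self_eq_norm_sq]
    change (2 • innerSL ℝ e) e = _
    rw [two_smul, two_mul]
    rfl
  rw [hi, hi]
  simp
  norm_num

theorem lev_log (τ : E → ℂ) (z v : E) (hτ : ContDiffAt ℂ ω τ z) (h0 : τ z ≠ 0) :
    lev (fun t => Real.log (‖τ t‖ ^ 2)) z v = 0 := by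
  have h1 : InnerProductSpace.HarmonicAt (fun t : ℂ => Real.log ‖t‖) (τ z) :=
    AnalyticAt.harmonicAt_log_norm (f := fun t : ℂ => t) analyticAt_id h0
  have h2 : (fun t : ℂ => Real.log (‖t‖ ^ 2)) = (2 : ℝ) • fun t : ℂ => Real.log ‖t‖ := by
    funext t
    simp [Real.log_pow]
  have h3 : ContDiffAt ℝ 2 (fun t : ℂ => Real.log (‖t‖ ^ 2)) (τ z) := by
    rw [h2]
    exact h1.1.const_smul (2 : ℝ)
  rw [lev_one (fun t : ℂ => Real.log (‖t‖ ^ 2)) τ z v hτ h3, h2,
    InnerProductSpace.laplacian_smul _ h1.1, h1.2.self_of_nhds]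
  simp

end LevProofs

/-- TARGET. Proof in words:
Key facts on the Laplacian on ℂ: `InnerProductSpace.laplacian_eq_iteratedFDeriv_complexPlane` (sum of the second derivatives in the
directions 1 and I), `InnerProductSpace.laplacian_congr_nhds` / `Filter.EventuallyEq`-type congruence, `ContDiffAt.laplacian_add` etc.
congr: ζ ↦ z + ζ v is continuous. eq: g ζ = f (z + ζ • v) is f composed with an affine real-linear map; its second derivative in the direction
e is `fderiv ℝ (fderiv ℝ f) z (e • v) (e • v)`. add, sub, smul, const: from eq (or the Mathlib lemmas); for a C² function use ContDiffAt of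
fderiv. cont: f is C² near z (ContDiffAt ℝ 2 f z gives it on a neighbourhood), so the formula eq holds at the points p near z and
`p ↦ fderiv ℝ (fderiv ℝ f) p` is continuous at z.
disc: g ζ = f (γ ζ), γ holomorphic near 0. Second derivative of g at 0 in the direction e:
 D²f(γ 0)(e γ', e γ') + Df(γ 0)(e² γ''), with γ' = deriv γ 0, γ'' the second derivative; sum over e = 1, I: the last terms cancel as 1 + I² = 0.
 (One way: γ ζ = γ 0 + ζ γ' + ζ² c + o; another: restrict to the real lines t ↦ g (t e), one-variable second derivatives, chain rule for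
 HasDerivAt twice.) comp: apply disc to γ ζ = τ (z + ζ v) (ContDiffAt ℂ ω is AnalyticAt, `contDiffAt_omega_iff_analyticAt`), whose derivative at 0 is
 fderiv ℂ τ z v. one: the same with f : ℂ → ℝ, where D²f(a)(c, c) + D²f(a)(I c, I c) = |c|² Δf(a) for c : ℂ. (E.g. apply disc to the function p ↦ f p.1 on E
 and the rotation invariance; or directly expand c = p + q I bilinearly, symmetric second derivative.) fst, snd, dif: special cases of
 one with τ = the coordinate, resp. the difference. sq: Laplacian of re² + im² is 4. log: `one` with f = log |·|², harmonic off 0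
 (`AnalyticAt.harmonicAt_log_norm`, log ‖t‖² = 2 log ‖t‖).
Prove as many fields as separate lemmas; if a field turns out false as stated say so.
-/
theorem stLev : StLev := by
  have lineC : ∀ z v : E, ContinuousAt (fun ζ : ℂ => z + ζ • v) 0 := fun z v => by fun_prop
  refine
    { congr := lev_congr
      add := fun f g z v hf hg =>
        (c2_line f z v hf).laplacian_add (c2_line g z v hg)
      sub := fun f g z v hf hg =>
        (c2_line f z v hf).laplacian_sub (c2_line g z v hg)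
      smul := fun c f z v hf => by
        have h := InnerProductSpace.laplacian_smul c (c2_line f z v hf)
        rw [smul_eq_mul] at h
        exact h
      const := fun c z v => congrFun InnerProductSpace.laplacian_const 0
      eq := lev_formula
      cont := lev_cont
      disc := lev_disc
      comp := lev_comp
      one := lev_one
      fst := fun f z v hf => ?_
      snd := fun f z v hf => ?_
      dif := fun f z v hf => ?_
      sq := lap_sq
      log := lev_log }
  · have h := lev_one f Prod.fst z v contDiffAt_fst hf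
    rwa [fderiv_fst] at h
  · have h := lev_one f Prod.snd z v contDiffAt_snd hf
    rwa [fderiv_snd] at h
  · have h1 : HasFDerivAt (fun t : E => t.2 - t.1)
        (ContinuousLinearMap.snd ℂ ℂ ℂ - ContinuousLinearMap.fst ℂ ℂ ℂ) z :=
      hasFDerivAt_snd.sub hasFDerivAt_fst
    have h := lev_one f (fun t : E => t.2 - t.1) z v (contDiffAt_snd.sub contDiffAt_fst) hf
    rw [h1.fderiv] at h
    exact h


end JstLev

end Pool.Agent.Y810.SP
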