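import Pool.Agent.Y810.SP.Base

set_option autoImplicit false

open Set Topology Filter
open scoped ContDiff Manifold

namespace Pool.Agent.Y810.SP

namespace JstLiou


/-- the second derivative along a line -/
lemma liou_second {f : ℂ → ℝ} {x : ℂ} (hf : ContDiffAt ℝ 2 f x) (w : ℂ) :
    deriv (deriv (fun s : ℝ => f (x + s * w))) 0 = iteratedFDeriv ℝ 2 f x ![w, w] := by
  have hl : ∀ s : ℝ, HasDerivAt (fun s : ℝ => x + (s : ℂ) * w) w s := by
    intro s
    have h1 : HasDerivAt (fun s : ℝ => (s : ℂ)) 1 s := Complex.ofRealCLM.hasDerivAt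
    simpa using (h1.mul_const w).const_add x
  have hlc : Continuous (fun s : ℝ => x + (s : ℂ) * w) := by fun_prop
  have hl0 : (fun s : ℝ => x + (s : ℂ) * w) 0 = x := by simp
  have h1 : ∀ᶠ s : ℝ in 𝓝 0, deriv (fun s : ℝ => f (x + s * w)) s =
      fderiv ℝ f (x + s * w) w := by
    have h2 : ∀ᶠ y in 𝓝 x, ContDiffAt ℝ 2 f y := hf.eventually (by simp)
    have h3 : Tendsto (fun s : ℝ => x + (s : ℂ) * w) (𝓝 0) (𝓝 x) := by
      have := hlc.tendsto 0
      simpa using this
    filter_upwards [h3.eventually h2] with s hs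
    have h4 : DifferentiableAt ℝ f (x + s * w) := hs.differentiableAt (by norm_num)
    exact (h4.hasFDerivAt.comp_hasDerivAt s (hl s)).deriv
  have h2 : deriv (fun s : ℝ => f (x + s * w)) =ᶠ[𝓝 0]
      fun s : ℝ => fderiv ℝ f (x + s * w) w := h1
  rw [h2.deriv_eq, iteratedFDeriv_two_apply]
  have h5 : ContDiffAt ℝ 1 (fderiv ℝ f) x := hf.fderiv_right (by norm_num)
  have h6 : DifferentiableAt ℝ (fderiv ℝ f) ((fun s : ℝ => x + (s : ℂ) * w) 0) := by
    rw [hl0]; exact h5.differentiableAt (by norm_num)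
  have h7 := h6.hasFDerivAt.comp_hasDerivAt (0 : ℝ) (hl 0)
  have h8 := (ContinuousLinearMap.apply ℝ ℝ w).hasFDerivAt.comp_hasDerivAt (0 : ℝ) h7
  have h9 := h8.deriv
  simp only [hl0] at h9
  simpa [Function.comp_def] using h9

/-- the second derivative at a local maximum -/
lemma liou_max {f : ℂ → ℝ} {x : ℂ} (hf : ContDiffAt ℝ 2 f x) (hm : IsLocalMax f x) (w : ℂ) :
    iteratedFDeriv ℝ 2 f x ![w, w] ≤ 0 := by
  rw [← liou_second hf w]
  by_contra hlt
  push Not at hlt
  have hlc : Continuous (fun s : ℝ => x + (s : ℂ) * w) := by fun_prop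
  have h3 : Tendsto (fun s : ℝ => x + (s : ℂ) * w) (𝓝 0) (𝓝 x) := by
    have := hlc.tendsto 0
    simpa using this
  have hmg : IsLocalMax (fun s : ℝ => f (x + s * w)) 0 := by
    have h4 := h3.eventually hm
    filter_upwards [h4] with s hs
    simpa using hs
  have hc : ContinuousAt (fun s : ℝ => f (x + s * w)) 0 := by
    have h5 : ContinuousAt f ((fun s : ℝ => x + (s : ℂ) * w) 0) := by
      simpa using hf.continuousAt
    exact ContinuousAt.comp (f := fun s : ℝ => x + (s : ℂ) * w) h5 hlc.continuousAt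
  have hd : deriv (fun s : ℝ => f (x + s * w)) 0 = 0 := hmg.deriv_eq_zero
  have hmin := isLocalMin_of_deriv_deriv_pos hlt hd hc
  have heq : (fun s : ℝ => f (x + s * w)) =ᶠ[𝓝 0] fun _ => f (x + (0 : ℝ) * w) := by
    filter_upwards [hmg, hmin] with s h1 h2
    exact le_antisymm h1 h2
  have h6 : deriv (deriv (fun s : ℝ => f (x + s * w))) 0 = 0 := by
    have h7 := heq.deriv
    rw [h7.deriv_eq]
    simp
  rw [h6] at hlt
  exact lt_irrefl _ hlt

lemma liou_lap_max {f : ℂ → ℝ} {x : ℂ} (hf : ContDiffAt ℝ 2 f x) (hm : IsLocalMax f x) :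
    Laplacian.laplacian f x ≤ 0 := by
  rw [InnerProductSpace.laplacian_eq_iteratedFDeriv_complexPlane]
  have h1 := liou_max hf hm 1
  have h2 := liou_max hf hm Complex.I
  simp only
  linarith

/-- the square of the norm -/
lemma liou_sq (a x : ℂ) : Laplacian.laplacian (fun t : ℂ => ‖t - a‖ ^ 2) x = 4 := by
  have hsm : ContDiffAt ℝ 2 (fun t : ℂ => ‖t - a‖ ^ 2) x := by
    have : ContDiff ℝ 2 (fun t : ℂ => ‖t - a‖ ^ 2) :=
      (contDiff_id.sub contDiff_const).norm_sq ℝ
    exact this.contDiffAt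
  have key : ∀ w : ℂ, iteratedFDeriv ℝ 2 (fun t : ℂ => ‖t - a‖ ^ 2) x ![w, w] =
      2 * (w.re ^ 2 + w.im ^ 2) := by
    intro w
    rw [← liou_second hsm w]
    have h1 : (fun s : ℝ => ‖x + s * w - a‖ ^ 2) =
        fun s : ℝ => (w.re ^ 2 + w.im ^ 2) * s ^ 2 +
          2 * ((x.re - a.re) * w.re + (x.im - a.im) * w.im) * s +
          ((x.re - a.re) ^ 2 + (x.im - a.im) ^ 2) := by
      funext s
      rw [← Complex.normSq_eq_norm_sq, Complex.normSq_apply]
      simp
      ring
    rw [h1]
    set A := w.re ^ 2 + w.im ^ 2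
    set B := 2 * ((x.re - a.re) * w.re + (x.im - a.im) * w.im)
    set C := (x.re - a.re) ^ 2 + (x.im - a.im) ^ 2
    have h2 : deriv (fun s : ℝ => A * s ^ 2 + B * s + C) = fun s : ℝ => 2 * A * s + B := by
      funext s
      have h3 : HasDerivAt (fun s : ℝ => A * s ^ 2 + B * s + C)
          (A * (2 * s) + B * 1) s := by
        have h4 : HasDerivAt (fun s : ℝ => s ^ 2) (2 * s) s := by
          simpa using hasDerivAt_pow 2 s
        exact ((h4.const_mul A).add ((hasDerivAt_id s).const_mul B)).add_const C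
      rw [h3.deriv]; ring
    rw [h2]
    have h5 : HasDerivAt (fun s : ℝ => 2 * A * s + B) (2 * A * 1) 0 :=
      ((hasDerivAt_id (0 : ℝ)).const_mul (2 * A)).add_const B
    rw [h5.deriv]; ring
  rw [InnerProductSpace.laplacian_eq_iteratedFDeriv_complexPlane]
  simp only [key]
  simp
  norm_num

/-- the weak maximum principle for an annulus, applied to `v - s - ε log (|t - a| / r)` -/
lemma liou_ann {v : ℂ → ℝ} (hv : ContDiff ℝ 2 v) (hL : ∀ x, 0 ≤ Laplacian.laplacian v x)
    {a z : ℂ} {r R s ε : ℝ} (hr : 0 < r) (hrz : r ≤ ‖z - a‖) (hzR : ‖z - a‖ ≤ R)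
    (h1 : ∀ t, ‖t - a‖ = r → v t - s - ε * (Real.log ‖t - a‖ - Real.log r) ≤ 0)
    (h2 : ∀ t, ‖t - a‖ = R → v t - s - ε * (Real.log ‖t - a‖ - Real.log r) ≤ 0) :
    v z - s - ε * (Real.log ‖z - a‖ - Real.log r) ≤ 0 := by
  have hR : 0 ≤ R := (norm_nonneg _).trans hzR
  have hall : ∀ δ : ℝ, 0 < δ → v z - s - ε * (Real.log ‖z - a‖ - Real.log r) ≤ δ * R ^ 2 := by
    intro δ hδ
    let G : ℂ → ℝ := fun t => v t - s - ε * (Real.log ‖t - a‖ - Real.log r) + δ * ‖t - a‖ ^ 2
    let A : Set ℂ := {t | r ≤ ‖t - a‖ ∧ ‖t - a‖ ≤ R}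
    have hAc : IsCompact A := by
      apply Metric.isCompact_of_isClosed_isBounded
      · have c1 : Continuous (fun t : ℂ => ‖t - a‖) := by fun_prop
        exact (isClosed_le continuous_const c1).inter (isClosed_le c1 continuous_const)
      · refine (Metric.isBounded_closedBall (x := a) (r := R)).subset ?_
        intro t ht
        rw [Metric.mem_closedBall, dist_eq_norm]
        exact ht.2
    have hzA : z ∈ A := ⟨hrz, hzR⟩
    have hGc : ContinuousOn G A := by
      intro t ht
      have ht0 : ‖t - a‖ ≠ 0 := ne_of_gt (lt_of_lt_of_le hr ht.1)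
      have hlog : ContinuousAt (fun t : ℂ => Real.log ‖t - a‖) t :=
        (Real.continuousAt_log ht0).comp (f := fun t : ℂ => ‖t - a‖)
          (by fun_prop)
      have hvc : ContinuousAt v t := hv.continuous.continuousAt
      apply ContinuousAt.continuousWithinAt
      exact ((hvc.sub continuousAt_const).sub
        (continuousAt_const.mul (hlog.sub continuousAt_const))).add
        (continuousAt_const.mul (by fun_prop))
    obtain ⟨t0, ht0, hmax⟩ := hAc.exists_isMaxOn ⟨z, hzA⟩ hGc
    have hGz : G z ≤ G t0 := hmax hzA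
    have hb : G t0 ≤ δ * R ^ 2 := by
      rcases eq_or_lt_of_le ht0.1 with he | hlt
      · have h3 := h1 t0 he.symm
        have h4 : δ * ‖t0 - a‖ ^ 2 ≤ δ * R ^ 2 := by
          apply mul_le_mul_of_nonneg_left _ hδ.le
          exact pow_le_pow_left₀ (norm_nonneg _) ht0.2 2
        show v t0 - s - ε * (Real.log ‖t0 - a‖ - Real.log r) + δ * ‖t0 - a‖ ^ 2 ≤ _
        linarith
      · rcases eq_or_lt_of_le ht0.2 with he | hlt2
        · have h3 := h2 t0 he
          have h4 : δ * ‖t0 - a‖ ^ 2 ≤ δ * R ^ 2 := by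
            apply mul_le_mul_of_nonneg_left _ hδ.le
            exact pow_le_pow_left₀ (norm_nonneg _) ht0.2 2
          show v t0 - s - ε * (Real.log ‖t0 - a‖ - Real.log r) + δ * ‖t0 - a‖ ^ 2 ≤ _
          linarith
        · exfalso
          have hta : t0 - a ≠ 0 := by
            intro h
            rw [h, norm_zero] at hlt
            exact absurd hlt (not_lt.mpr hr.le)
          -- `t0` is a local maximum
          have hnh : A ∈ 𝓝 t0 := by
            have c1 : Continuous (fun t : ℂ => ‖t - a‖) := by fun_prop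
            have ho : IsOpen {t : ℂ | r < ‖t - a‖ ∧ ‖t - a‖ < R} :=
              (isOpen_lt continuous_const c1).inter (isOpen_lt c1 continuous_const)
            refine mem_of_superset (ho.mem_nhds ⟨hlt, hlt2⟩) ?_
            rintro t ⟨h5, h6⟩
            exact ⟨h5.le, h6.le⟩
          have hlm : IsLocalMax G t0 := hmax.isLocalMax hnh
          have hharm : InnerProductSpace.HarmonicAt (fun t : ℂ => Real.log ‖t - a‖) t0 :=
            AnalyticAt.harmonicAt_log_norm (f := fun t : ℂ => t - a) (by fun_prop) hta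
          have hlc : ContDiffAt ℝ 2 (fun t : ℂ => Real.log ‖t - a‖) t0 := hharm.1
          have hl0 : Laplacian.laplacian (fun t : ℂ => Real.log ‖t - a‖) t0 = 0 :=
            hharm.2.eq_of_nhds
          have hsq : ContDiffAt ℝ 2 (fun t : ℂ => ‖t - a‖ ^ 2) t0 := by
            have : ContDiff ℝ 2 (fun t : ℂ => ‖t - a‖ ^ 2) :=
              (contDiff_id.sub contDiff_const).norm_sq ℝ
            exact this.contDiffAt
          have hvt : ContDiffAt ℝ 2 v t0 := hv.contDiffAt
          have hcst : ContDiffAt ℝ 2 (fun _ : ℂ => -s + ε * Real.log r) t0 := contDiffAt_const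
          have hGe : G = ((v + fun _ : ℂ => -s + ε * Real.log r) +
              (-ε) • (fun t : ℂ => Real.log ‖t - a‖)) + δ • (fun t : ℂ => ‖t - a‖ ^ 2) := by
            funext t
            simp only [G, Pi.add_apply, Pi.smul_apply, smul_eq_mul]
            ring
          have hGs : ContDiffAt ℝ 2 G t0 := by
            rw [hGe]
            exact ((hvt.add hcst).add (hlc.const_smul (-ε))).add (hsq.const_smul δ)
          have hneg := liou_lap_max hGs hlm
          have e1 : ContDiffAt ℝ 2 (v + fun _ : ℂ => -s + ε * Real.log r) t0 := hvt.add hcst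
          have e2 : ContDiffAt ℝ 2 ((-ε) • (fun t : ℂ => Real.log ‖t - a‖)) t0 :=
            hlc.const_smul (-ε)
          have e3 : ContDiffAt ℝ 2 (δ • (fun t : ℂ => ‖t - a‖ ^ 2)) t0 := hsq.const_smul δ
          have e4 : ContDiffAt ℝ 2 ((v + fun _ : ℂ => -s + ε * Real.log r) +
              (-ε) • (fun t : ℂ => Real.log ‖t - a‖)) t0 := e1.add e2
          rw [hGe, ContDiffAt.laplacian_add e4 e3, ContDiffAt.laplacian_add e1 e2,
            ContDiffAt.laplacian_add hvt hcst, InnerProductSpace.laplacian_smul (-ε) hlc,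
            InnerProductSpace.laplacian_smul δ hsq, hl0, liou_sq,
            InnerProductSpace.laplacian_const] at hneg
          have := hL t0
          simp only [Pi.zero_apply, smul_eq_mul] at hneg
          linarith
    have h7 : v z - s - ε * (Real.log ‖z - a‖ - Real.log r) ≤ G z := by
      have : 0 ≤ δ * ‖z - a‖ ^ 2 := by positivity
      show _ ≤ v z - s - ε * (Real.log ‖z - a‖ - Real.log r) + δ * ‖z - a‖ ^ 2
      linarith
    linarith
  by_contra hpos
  push Not at hpos
  set q := v z - s - ε * (Real.log ‖z - a‖ - Real.log r)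
  have hR1 : 0 < R ^ 2 + 1 := by positivity
  have h8 := hall (q / (2 * (R ^ 2 + 1))) (by positivity)
  have h9 : q / (2 * (R ^ 2 + 1)) * R ^ 2 ≤ q / 2 := by
    rw [div_mul_eq_mul_div, div_le_div_iff₀ (by positivity) (by norm_num)]
    nlinarith [mul_nonneg hpos.le (sq_nonneg R)]
  linarith

lemma liou_le {v : ℂ → ℝ} (hv : ContDiff ℝ 2 v) {K : ℝ} (hK : ∀ x, |v x| ≤ K)
    (hL : ∀ x, 0 ≤ Laplacian.laplacian v x) (a z : ℂ) : v z ≤ v a := by
  rcases eq_or_ne z a with rfl | hne
  · exact le_rfl
  have hza : 0 < ‖z - a‖ := norm_pos_iff.mpr (sub_ne_zero.mpr hne)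
  apply le_of_forall_gt_imp_ge_of_dense
  intro s hs
  -- a small circle
  have hev : ∀ᶠ t in 𝓝 a, v t < s := hv.continuous.continuousAt.eventually_lt continuousAt_const hs
  obtain ⟨r0, hr0, hball⟩ := Metric.eventually_nhds_iff.mp hev
  set r := min r0 ‖z - a‖ / 2 with hrdef
  have hr : 0 < r := by positivity
  have hrr0 : r < r0 := by
    have := min_le_left r0 ‖z - a‖
    have h2 : 0 < min r0 ‖z - a‖ := by positivity
    rw [hrdef]; linarith
  have hrz : r ≤ ‖z - a‖ := by
    have := min_le_right r0 ‖z - a‖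
    have h2 : 0 < min r0 ‖z - a‖ := by positivity
    rw [hrdef]; linarith
  have hsmall : ∀ t, ‖t - a‖ = r → v t ≤ s := by
    intro t ht
    refine (hball ?_).le
    rw [dist_eq_norm, ht]; exact hrr0
  have hall : ∀ ε : ℝ, 0 < ε → v z - s - ε * (Real.log ‖z - a‖ - Real.log r) ≤ 0 := by
    intro ε hε
    -- a large circle
    obtain ⟨R, hR1, hR2⟩ : ∃ R : ℝ, ‖z - a‖ ≤ R ∧ (K + |s|) / ε + Real.log r ≤ Real.log R := by
      have h1 := Real.tendsto_log_atTop.eventually_ge_atTop ((K + |s|) / ε + Real.log r)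
      obtain ⟨R, h2, h3⟩ := (h1.and (eventually_ge_atTop ‖z - a‖)).exists
      exact ⟨R, h3, h2⟩
    refine liou_ann hv hL hr hrz hR1 ?_ ?_
    · intro t ht
      rw [ht]
      have := hsmall t ht
      simp only [sub_self, mul_zero, sub_zero]
      linarith
    · intro t ht
      rw [ht]
      have h4 : (K + |s|) ≤ ε * (Real.log R - Real.log r) := by
        have h5 : (K + |s|) / ε ≤ Real.log R - Real.log r := by linarith
        rwa [div_le_iff₀' hε] at h5
      have h6 := (abs_le.mp (hK t)).2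
      have h7 := neg_abs_le s
      linarith
  by_contra hlt
  push Not at hlt
  set c := Real.log ‖z - a‖ - Real.log r
  have hc : 0 ≤ c := by
    have := Real.log_le_log hr hrz
    simp only [c]; linarith
  have h8 := hall ((v z - s) / (2 * (c + 1))) (by
    have : 0 < v z - s := by linarith
    positivity)
  have h9 : (v z - s) / (2 * (c + 1)) * c ≤ (v z - s) / 2 := by
    have hp : 0 < v z - s := by linarith
    rw [div_mul_eq_mul_div, div_le_div_iff₀ (by positivity) (by norm_num)]
    nlinarith [mul_nonneg hp.le hc]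
  linarith

/-- TARGET. Proof in words:
Let `v` be C² with `Δ v ≥ 0` and `|v| ≤ K`. CLAIM: for all `a, z` we have `v z ≤ v a`; then `v` is constant by symmetry.
Let `z ≠ a`, `0 < r < |z - a|` and `S r = max_{|t - a| = r} v t` (or any bound `s` with `v t ≤ s` on the circle). For `ε > 0`
the function `h t = v t - s - ε log (|t - a| / r)` is C² for `t ≠ a`, `Δ h = Δ v ≥ 0`, `h ≤ 0` on `|t - a| = r` and
`h ≤ 0` for `|t - a| ≥ R` when `R` is large (as `v` is bounded and log tends to infinity). Weak maximum principle on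
`r ≤ |t-a| ≤ R`: `h ≤ 0` there. (Proof: for `δ > 0` the continuous function `h + δ |t - a|²` on the compact annulus has a
maximum point; it is not in the interior because there the Laplacian of a C² function at a local maximum is `≤ 0`
whereas here it is `≥ 4 δ > 0`; so the maximum is on the boundary, where it is `≤ δ R²`. Let δ → 0.) So `h z ≤ 0`; let
`ε → 0`: `v z ≤ s`. By continuity of `v` at `a`: for every `s > v a` the circle of small radius `r` satisfies `v ≤ s`, so
`v z ≤ s` for all `s > v a`, that is `v z ≤ v a`.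
Laplacian on ℂ: `InnerProductSpace.laplacian_eq_iteratedFDeriv_complexPlane`. `log |t - a|` is harmonic off `a`, see
Mathlib's `AnalyticAt.harmonicAt_log_norm` (harmonic functions: `InnerProductSpace.HarmonicAt`).
-/
theorem stLiou : StLiou := by
  rintro v hv ⟨K, hK⟩ hL x y
  exact le_antisymm (liou_le hv hK hL y x) (liou_le hv hK hL x y)


end JstLiou

end Pool.Agent.Y810.SP
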