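import Pool.Agent.Y810.SP.Base

set_option autoImplicit false

open Set Topology Filter
open scoped ContDiff Manifold

namespace Pool.Agent.Y810.SP

namespace JstN1


theorem tr_two (z : E) : tr 2 z = (z.1 * z.2, z.1 * z.2 ^ 2 + z.1 * z.2) := rfl

theorem tr_one (z : E) : tr 1 z = (z.1 * z.2, z.2 + z.1 * z.2) := rfl

theorem mem_V_two (z : E) : z ∈ V 2 ↔ ‖z.1 * z.2‖ < 1 / 8 ∧ ‖z.1 * z.2 ^ 2‖ < 1 / 8 := by
  have h : V 2 = {z : E | ‖xx 2 z‖ < 1 / 8 ∧ ‖ww 2 z‖ < 1 / 8} := by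
    simp [V]
  rw [h]
  rfl

theorem mem_V_one (z : E) : z ∈ V 1 ↔ ‖z.1 * z.2‖ < 1 / 8 ∧ ‖z.2‖ < 1 / 8 := by
  have h : V 1 = {z : E | ‖xx 1 z‖ < 1 / 8 ∧ ‖ww 1 z‖ < 1 / 8} := by
    simp [V]
  rw [h]
  rfl

theorem zero_mem_V_two (η : ℂ) : ((0, η) : E) ∈ V 2 := by
  rw [mem_V_two]; simp

theorem zero_mem_V_one (η : ℂ) : ((η, 0) : E) ∈ V 1 := by
  rw [mem_V_one]; simp

theorem U_two_eq (C : Coord) {U : Fin 4 → E → ℝ} (hU : IsFun U) {η : ℂ} (hη : η ≠ 0) :
    U 2 (0, η) = U 1 (η⁻¹, 0) := by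
  have h2 : ContinuousAt (fun s : ℂ => ((s, η) : E)) 0 := by fun_prop
  have h1 : ContinuousAt (fun s : ℂ => ((η⁻¹, s * η ^ 2) : E)) 0 := by fun_prop
  have hV2 : ∀ᶠ s in 𝓝 (0 : ℂ), ((s, η) : E) ∈ V 2 :=
    h2.eventually ((C.open_V 2).mem_nhds (zero_mem_V_two η))
  have hV1 : ∀ᶠ s in 𝓝 (0 : ℂ), ((η⁻¹, s * η ^ 2) : E) ∈ V 1 := by
    refine h1.eventually ((C.open_V 1).mem_nhds ?_)
    simpa using zero_mem_V_one η⁻¹
  have hc2 : ContinuousAt (U 2) (0, η) :=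
    (hU.smooth 2 _ (zero_mem_V_two η)).continuousAt
  have hc1 : ContinuousAt (U 1) (η⁻¹, (0 : ℂ) * η ^ 2) := by
    have := (hU.smooth 1 _ (zero_mem_V_one η⁻¹)).continuousAt
    simpa using this
  have t2 : Tendsto (fun s : ℂ => U 2 (s, η)) (𝓝[≠] 0) (𝓝 (U 2 (0, η))) :=
    (ContinuousAt.comp (f := fun s : ℂ => ((s, η) : E)) (x := 0) hc2 h2).tendsto.mono_left
      nhdsWithin_le_nhds
  have t1 : Tendsto (fun s : ℂ => U 1 (η⁻¹, s * η ^ 2)) (𝓝[≠] 0)
      (𝓝 (U 1 (η⁻¹, (0 : ℂ) * η ^ 2))) :=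
    (ContinuousAt.comp (f := fun s : ℂ => ((η⁻¹, s * η ^ 2) : E)) (x := 0) hc1 h1).tendsto.mono_left
      nhdsWithin_le_nhds
  have heq : (fun s : ℂ => U 2 (s, η)) =ᶠ[𝓝[≠] 0] fun s : ℂ => U 1 (η⁻¹, s * η ^ 2) := by
    filter_upwards [nhdsWithin_le_nhds hV2, nhdsWithin_le_nhds hV1, self_mem_nhdsWithin]
      with s hs2 hs1 hs
    have hs : s ≠ 0 := hs
    have htr : tr 2 (s, η) = tr 1 (η⁻¹, s * η ^ 2) := by
      rw [tr_two, tr_one]
      have e1 : s * η = η⁻¹ * (s * η ^ 2) := by field_simp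
      simp only [Prod.mk.injEq]
      exact ⟨e1, by rw [← e1]⟩
    have hne : tr 2 (s, η) ≠ 0 := by
      rw [tr_two]
      intro h
      have := congrArg Prod.fst h
      simp [hs, hη] at this
    have hin : tr 2 (s, η) ∈ V 0 := (C.exc 2 (by decide) _ hs2).2 hne
    have hin1 : tr 1 (η⁻¹, s * η ^ 2) ∈ V 0 := htr ▸ hin
    show U 2 (s, η) = U 1 (η⁻¹, s * η ^ 2)
    rw [hU.compat 2 _ hs2 hin, hU.compat 1 _ hs1 hin1, htr]
  have := tendsto_nhds_unique_of_eventuallyEq t2 t1 heq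
  simpa using this

theorem Th_two_zero (H A : ℂ → ℝ) (e : ℝ) (η : ℂ) : Th H A e 2 (0, η) = Real.log (A 0) := by
  simp only [Th, tr_two, ca, cb, ww, xx]
  simp

/-- TARGET. Proof in words:
Put v η = U 2 (0, η), η ∈ ℂ ((0, η) ∈ V 2 as x = w = 0 there). It is smooth on ℂ. Th 2 (0, η) = log (A 0 + 0) is constant along this line (tr 2 (0, η) = 0), so
`0 ≤ lev (Th 2 + U 2) (0, η) (0, 1) = lev (U 2) (0, η) (0, 1) = Δ v (η)`.
Bounded: claim `U 2 (0, η) = U 1 (1/η, 0)` for η ≠ 0. For s ≠ 0 small: tr 2 (s, η) = (sη, sη² + sη) = tr 1 (1/η, sη²) is ≠ 0, small, so in V 0 (C.exc), so both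
U 2 (s, η) and U 1 (1/η, sη²) equal U 0 of it (IsFun.compat; the points are in V 2, V 1 for small s). Let s → 0 and use the continuity of U 2 at (0, η) ∈ V 2 and of
U 1 at (1/η, 0) ∈ V 1. As U 1 is continuous at (0, 0) ∈ V 1, v is bounded for |η| large; on the rest it is bounded by compactness.
By StLiou v is constant.
-/
theorem stN1 (L : LevBasics) (C : Coord) (hLi : StLiou) : StN1 := by
  intro H A e hH U hU hpos
  set v : ℂ → ℝ := fun η => U 2 (0, η) with hv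
  have hvs : ∀ η, ContDiffAt ℝ ∞ v η := fun η =>
    ContDiffAt.comp η (g := U 2) (f := fun η : ℂ => ((0, η) : E)) (hU.smooth 2 _ (zero_mem_V_two η))
      (by fun_prop)
  have hv2 : ContDiff ℝ 2 v := by
    rw [contDiff_iff_contDiffAt]
    intro η
    exact (hvs η).of_le (by norm_cast)
  have hlap : ∀ η, 0 ≤ Laplacian.laplacian v η := by
    intro η
    have h0 := hpos 2 (0, η) (zero_mem_V_two η) (0, 1)
    have hfun : lev (fun t => Th H A e 2 t + U 2 t) (0, η) (0, 1) =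
        lev (fun t => Real.log (A 0) + v t.2) (0, η) (0, 1) := by
      have hf : (fun ζ : ℂ => (fun t => Th H A e 2 t + U 2 t) (((0, η) : E) + ζ • ((0, 1) : E))) =
          fun ζ : ℂ => (fun t : E => Real.log (A 0) + v t.2) (((0, η) : E) + ζ • ((0, 1) : E)) := by
        funext ζ
        have : ((0, η) : E) + ζ • ((0, 1) : E) = (0, η + ζ) := by
          ext <;> simp
        simp only [this, Th_two_zero, hv]
      unfold lev
      rw [hf]
    have hsm : ContDiffAt ℝ 2 (fun t : E => v t.2) (0, η) :=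
      ContDiffAt.comp (0, η) (g := v) (f := fun t : E => t.2) (hv2.contDiffAt) (by fun_prop)
    rw [hfun, L.add _ _ _ _ contDiffAt_const hsm, L.const, L.snd v _ _ hv2.contDiffAt] at h0
    simpa using h0
  have hbd : ∃ K, ∀ x, |v x| ≤ K := by
    have hc1 : ContinuousAt (U 1) (0, 0) := (hU.smooth 1 _ (zero_mem_V_one 0)).continuousAt
    have hc : ContinuousAt (fun a : ℂ => U 1 (a, 0)) 0 :=
      ContinuousAt.comp (f := fun a : ℂ => ((a, 0) : E)) (x := 0) hc1 (by fun_prop)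
    obtain ⟨δ, hδ, hδ'⟩ := Metric.continuousAt_iff.1 hc 1 one_pos
    have hcomp : IsCompact (Metric.closedBall (0 : ℂ) (2 / δ)) := isCompact_closedBall _ _
    obtain ⟨K, hK⟩ := hcomp.exists_bound_of_continuousOn (f := v) hv2.continuous.continuousOn
    refine ⟨max K (|U 1 (0, 0)| + 1), fun x => ?_⟩
    by_cases hx : ‖x‖ ≤ 2 / δ
    · exact le_max_of_le_left (by simpa using hK x (by simpa using hx))
    · push Not at hx
      have hx0 : 0 < ‖x‖ := lt_trans (by positivity) hx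
      have hxne : x ≠ 0 := norm_pos_iff.1 hx0
      have hlt : dist x⁻¹ 0 < δ := by
        rw [dist_zero_right, norm_inv, inv_lt_comm₀ hx0 hδ]
        calc δ⁻¹ < 2 / δ := by
              rw [div_eq_mul_inv]
              have : 0 < δ⁻¹ := by positivity
              linarith
          _ < ‖x‖ := hx
      have h3 := hδ' hlt
      rw [Real.dist_eq] at h3
      refine le_max_of_le_right ?_
      show |U 2 (0, x)| ≤ _
      rw [U_two_eq C hU hxne]
      have h4 : |U 1 (x⁻¹, 0)| ≤ |U 1 (x⁻¹, 0) - U 1 (0, 0)| + |U 1 (0, 0)| := by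
        have := abs_add_le (U 1 (x⁻¹, 0) - U 1 (0, 0)) (U 1 (0, 0))
        simpa using this
      linarith
  intro η
  exact hLi v hv2 hbd hlap η 0


end JstN1

end Pool.Agent.Y810.SP
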