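import Pool.Agent.Y810.SP.Base

set_option autoImplicit false

open Set Topology Filter
open scoped ContDiff Manifold

namespace Pool.Agent.Y810.SP

namespace JstN2


theorem n2_small (l : ℂ) (hl : l ∈ Lam) (h : ‖l‖ < 1 / 8) : l = 0 := by
  obtain ⟨m, n, rfl⟩ := hl
  have h1 := Complex.abs_re_le_norm ((m : ℂ) + n * Complex.I)
  have h2 := Complex.abs_im_le_norm ((m : ℂ) + n * Complex.I)
  have e1 : ((m : ℂ) + n * Complex.I).re = m := by simp
  have e2 : ((m : ℂ) + n * Complex.I).im = n := by simp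
  rw [e1] at h1
  rw [e2] at h2
  have hm : |(m : ℝ)| < 1 := by linarith
  have hn : |(n : ℝ)| < 1 := by linarith
  have hm' : m = 0 := by
    have : |m| < 1 := by exact_mod_cast hm
    exact Int.abs_lt_one_iff.1 this
  have hn' : n = 0 := by
    have : |n| < 1 := by exact_mod_cast hn
    exact Int.abs_lt_one_iff.1 this
  simp [hm', hn']

theorem n2_H0 {H A : ℂ → ℝ} {e : ℝ} (hH : HF H A e) (l : ℂ) (hl : l ∈ Lam) : H l = 0 := by
  have := hH.H_per 0 l hl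
  rw [zero_add] at this
  rw [this, hH.H_eq]
  simp

theorem n2_Hnn {H A : ℂ → ℝ} {e : ℝ} (hH : HF H A e) (x : ℂ) : 0 ≤ H x := by
  by_cases hx : x ∈ Lam
  · exact (n2_H0 hH x hx).ge
  · exact (hH.H_pos x hx).le

theorem n2_Hs {H A : ℂ → ℝ} {e : ℝ} (hH : HF H A e) : ContDiff ℝ ∞ H := by
  have h1 : H = fun x => ‖x‖ ^ 2 * A x := funext hH.H_eq
  rw [h1]
  exact (contDiff_norm_sq ℝ).mul hH.A_smooth

theorem n2_V0 (x : ℂ) : ((x, 0) : E) ∈ V 0 ↔ x ∉ Lam := by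
  have h : V 0 = Lam2ᶜ := if_pos rfl
  rw [h]
  constructor
  · intro h1 h2
    exact h1 ⟨h2, Lam.zero_mem⟩
  · intro h1 h2
    exact h1 h2.1

theorem n2_V2 (x : ℂ) (h : ‖x‖ < 1 / 8) : ((-x, -1) : E) ∈ V 2 := by
  have h2 : V 2 = {z | ‖xx 2 z‖ < 1 / 8 ∧ ‖ww 2 z‖ < 1 / 8} := if_neg (by decide)
  rw [h2]
  constructor
  · show ‖(-x) * (-1)‖ < 1 / 8
    simpa using h
  · show ‖(-x) * (-1) ^ 2‖ < 1 / 8
    simpa using h

theorem n2_tr2 (x : ℂ) : tr 2 ((-x, -1) : E) = (x, 0) := by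
  refine Prod.ext ?_ ?_
  · show (-x) * (-1) = x
    ring
  · show (-x) * (-1) ^ 2 + (-x) * (-1) = 0
    ring

open Classical in
noncomputable def n2k (H : ℂ → ℝ) (U : Fin 4 → E → ℝ) : ℂ → ℝ := fun x =>
  Real.log (1 + H x) + (if x ∈ Lam then U 2 (0, -1) else U 0 (x, 0))

theorem n2_near (H : ℂ → ℝ) {U : Fin 4 → E → ℝ} (hU : IsFun U) {l x : ℂ} (hl : l ∈ Lam)
    (hx : ‖x - l‖ < 1 / 8) :
    n2k H U x = Real.log (1 + H x) + U 2 (-(x - l), -1) := by
  unfold n2k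
  congr 1
  by_cases h : x = l
  · subst h
    rw [if_pos hl, sub_self, neg_zero]
  · have hx' : x ∉ Lam := by
      intro hxl
      have := n2_small (x - l) (Lam.sub_mem hxl hl) hx
      exact h (sub_eq_zero.1 this)
    have hxl' : x - l ∉ Lam := by
      intro h1
      have := Lam.add_mem h1 hl
      rw [sub_add_cancel] at this
      exact hx' this
    rw [if_neg hx']
    have e1 : ((x, 0) : E) = (x - l, 0) + (l, 0) := by
      ext <;> simp
    rw [e1, hU.per _ _ ((n2_V0 _).2 hxl') ⟨hl, Lam.zero_mem⟩]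
    have h2 := hU.compat 2 (-(x - l), -1) (n2_V2 _ hx) (by rw [n2_tr2]; exact (n2_V0 _).2 hxl')
    rw [n2_tr2] at h2
    exact h2.symm

theorem n2_open (C : Coord) : IsOpen {t : ℂ | t ∉ Lam} := by
  have h := (C.open_V 0).preimage (f := fun t : ℂ => ((t, 0) : E)) (by fun_prop)
  have e : {t : ℂ | t ∉ Lam} = (fun t : ℂ => ((t, 0) : E)) ⁻¹' V 0 := by
    ext t
    exact (n2_V0 t).symm
  rw [e]
  exact h

theorem n2_smooth (C : Coord) {H A : ℂ → ℝ} {e : ℝ} (hH : HF H A e) {U : Fin 4 → E → ℝ}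
    (hU : IsFun U) : ContDiff ℝ ∞ (n2k H U) := by
  rw [contDiff_iff_contDiffAt]
  intro x
  have hHx : 0 ≤ H x := n2_Hnn hH x
  have hlog : ContDiffAt ℝ ∞ (fun t => Real.log (1 + H t)) x :=
    ContDiffAt.log (contDiffAt_const.add (n2_Hs hH).contDiffAt) (by linarith)
  by_cases hx : x ∈ Lam
  · have h1 : n2k H U =ᶠ[𝓝 x] fun t => Real.log (1 + H t) + U 2 (-(t - x), -1) := by
      filter_upwards [Metric.ball_mem_nhds x (show (0 : ℝ) < 1 / 8 by norm_num)] with t ht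
      refine n2_near H hU hx ?_
      rw [Metric.mem_ball, dist_eq_norm] at ht
      exact ht
    refine ContDiffAt.congr_of_eventuallyEq (hlog.add ?_) h1
    have h2 : ContDiffAt ℝ ∞ (U 2) ((fun t : ℂ => ((-(t - x), -1) : E)) x) := by
      refine hU.smooth 2 _ ?_
      show ((-(x - x), -1) : E) ∈ V 2
      exact n2_V2 _ (by simp)
    exact ContDiffAt.comp x h2 (by fun_prop)
  · have h1 : n2k H U =ᶠ[𝓝 x] fun t => Real.log (1 + H t) + U 0 (t, 0) := by
      filter_upwards [(n2_open C).mem_nhds hx] with t ht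
      unfold n2k
      rw [if_neg ht]
    refine ContDiffAt.congr_of_eventuallyEq (hlog.add ?_) h1
    have h2 : ContDiffAt ℝ ∞ (U 0) ((fun t : ℂ => ((t, 0) : E)) x) :=
      hU.smooth 0 _ ((n2_V0 x).2 hx)
    exact ContDiffAt.comp x h2 (by fun_prop)

theorem n2_per {H A : ℂ → ℝ} {e : ℝ} (hH : HF H A e) {U : Fin 4 → E → ℝ} (hU : IsFun U)
    (x l : ℂ) (hl : l ∈ Lam) : n2k H U (x + l) = n2k H U x := by
  unfold n2k
  rw [hH.H_per x l hl]
  congr 1
  by_cases hx : x ∈ Lam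
  · rw [if_pos hx, if_pos (Lam.add_mem hx hl)]
  · have hx' : x + l ∉ Lam := by
      intro h
      have := Lam.sub_mem h hl
      rw [add_sub_cancel_right] at this
      exact hx this
    rw [if_neg hx, if_neg hx']
    have e1 : ((x + l, 0) : E) = (x, 0) + (l, 0) := by
      ext <;> simp
    rw [e1]
    exact hU.per _ _ ((n2_V0 _).2 hx) ⟨hl, Lam.zero_mem⟩

theorem n2_bdd (C : Coord) {H A : ℂ → ℝ} {e : ℝ} (hH : HF H A e) {U : Fin 4 → E → ℝ}
    (hU : IsFun U) : ∃ K, ∀ x, |n2k H U x| ≤ K := by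
  obtain ⟨K, hK⟩ := (isCompact_closedBall (0 : ℂ) 2).exists_bound_of_continuousOn
    (n2_smooth C hH hU).continuous.continuousOn
  refine ⟨K, fun x => ?_⟩
  have hl : ((⌊x.re⌋ : ℂ) + ⌊x.im⌋ * Complex.I) ∈ Lam := ⟨⌊x.re⌋, ⌊x.im⌋, rfl⟩
  have h1 := n2_per hH hU (x - ((⌊x.re⌋ : ℂ) + ⌊x.im⌋ * Complex.I)) _ hl
  rw [sub_add_cancel] at h1
  rw [h1]
  refine hK _ ?_
  rw [mem_closedBall_zero_iff]
  refine (Complex.norm_le_abs_re_add_abs_im _).trans ?_
  have e1 : (x - ((⌊x.re⌋ : ℂ) + ⌊x.im⌋ * Complex.I)).re = Int.fract x.re := by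
    simp
  have e2 : (x - ((⌊x.re⌋ : ℂ) + ⌊x.im⌋ * Complex.I)).im = Int.fract x.im := by
    simp
  rw [e1, e2, abs_of_nonneg (Int.fract_nonneg _), abs_of_nonneg (Int.fract_nonneg _)]
  have h2 := Int.fract_lt_one x.re
  have h3 := Int.fract_lt_one x.im
  linarith

theorem n2_fst (L : LevBasics) {f : ℂ → ℝ} (x : ℂ) (hf : ContDiffAt ℝ 2 f x) :
    lev (fun t => f t.1) ((x, 0) : E) ((1, 0) : E) = Laplacian.laplacian f x := by
  rw [L.fst f ((x, 0) : E) ((1, 0) : E) hf]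
  simp

theorem n2_le : (2 : WithTop ℕ∞) ≤ ∞ := by
  exact WithTop.coe_le_coe.2 (le_top : (2 : ℕ∞) ≤ ⊤)

theorem n2_lev (L : LevBasics) (C : Coord) {H A : ℂ → ℝ} {e : ℝ} (hH : HF H A e)
    {U : Fin 4 → E → ℝ} (hU : IsFun U) (x : ℂ) (hx : x ∉ Lam) :
    lev (fun t => Th H A e 0 t + U 0 t) (x, 0) (1, 0) = Laplacian.laplacian (n2k H U) x := by
  have e1 : lev (fun t => Th H A e 0 t + U 0 t) ((x, 0) : E) ((1, 0) : E) =
      lev (fun t : E => Th H A e 0 (t.1, 0) + U 0 (t.1, 0)) (x, 0) (1, 0) := by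
    have h0 : (fun ζ : ℂ => Th H A e 0 (((x, 0) : E) + ζ • ((1, 0) : E)) +
        U 0 (((x, 0) : E) + ζ • ((1, 0) : E))) =
        fun ζ : ℂ => Th H A e 0 ((((x, 0) : E) + ζ • ((1, 0) : E)).1, 0) +
        U 0 ((((x, 0) : E) + ζ • ((1, 0) : E)).1, 0) := by
      funext ζ
      have h1 : ((x, 0) : E) + ζ • ((1, 0) : E) = (x + ζ, 0) := by
        ext <;> simp
      rw [h1]
    unfold lev
    rw [h0]
  have e2 : ∀ᶠ t in 𝓝 ((x, 0) : E), Th H A e 0 (t.1, 0) + U 0 (t.1, 0) =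
      (e * ‖t.1‖ ^ 2 + Real.log (H t.1)) + n2k H U t.1 := by
    have h1 : ∀ᶠ t in 𝓝 ((x, 0) : E), t.1 ∉ Lam :=
      (continuous_fst.tendsto ((x, 0) : E)).eventually ((n2_open C).mem_nhds hx)
    filter_upwards [h1] with t ht
    have hp : 0 < H t.1 := hH.H_pos _ ht
    have e3 : Th H A e 0 (t.1, 0) = e * ‖t.1‖ ^ 2 + 3 * e * ‖(0 : ℂ) - t.1 + t.1‖ ^ 2 +
        Real.log (H (0 - t.1) + H t.1 ^ 2) := rfl
    have e4 : H (0 - t.1) + H t.1 ^ 2 = H t.1 * (1 + H t.1) := by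
      rw [zero_sub, hH.H_even]; ring
    have e5 : (0 : ℂ) - t.1 + t.1 = 0 := by ring
    unfold n2k
    rw [e3, e4, e5, if_neg ht, Real.log_mul hp.ne' (by linarith)]
    simp
    ring
  have s1 : ContDiffAt ℝ 2 (fun t : ℂ => ‖t‖ ^ 2) x := (contDiff_norm_sq ℝ).contDiffAt
  have s2 : ContDiffAt ℝ 2 (fun t : ℂ => Real.log (H t)) x :=
    (((n2_Hs hH).contDiffAt).of_le n2_le).log (hH.H_pos x hx).ne'
  have s3 : ContDiffAt ℝ 2 (n2k H U) x := ((n2_smooth C hH hU).contDiffAt).of_le n2_le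
  have t1 : ContDiffAt ℝ 2 (fun t : E => ‖t.1‖ ^ 2) ((x, 0) : E) :=
    ContDiffAt.comp (f := Prod.fst) ((x, 0) : E) s1 contDiffAt_fst
  have t2 : ContDiffAt ℝ 2 (fun t : E => Real.log (H t.1)) ((x, 0) : E) :=
    ContDiffAt.comp (g := fun t : ℂ => Real.log (H t)) (f := Prod.fst) ((x, 0) : E) s2 contDiffAt_fst
  have t3 : ContDiffAt ℝ 2 (fun t : E => n2k H U t.1) ((x, 0) : E) :=
    ContDiffAt.comp (g := n2k H U) (f := Prod.fst) ((x, 0) : E) s3 contDiffAt_fst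
  rw [e1, L.congr _ _ _ _ e2,
    L.add (fun t : E => e * ‖t.1‖ ^ 2 + Real.log (H t.1)) (fun t : E => n2k H U t.1) _ _
      ((contDiffAt_const.mul t1).add t2) t3,
    L.add (fun t : E => e * ‖t.1‖ ^ 2) (fun t : E => Real.log (H t.1)) _ _
      (contDiffAt_const.mul t1) t2,
    L.smul e (fun t : E => ‖t.1‖ ^ 2) _ _ t1,
    n2_fst L (f := fun t : ℂ => ‖t‖ ^ 2) x s1,
    n2_fst L (f := fun t : ℂ => Real.log (H t)) x s2,
    n2_fst L (f := n2k H U) x s3, L.sq, hH.lap_H x hx]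
  ring

theorem n2_nonneg (L : LevBasics) (C : Coord) {H A : ℂ → ℝ} {e : ℝ} (hH : HF H A e)
    {U : Fin 4 → E → ℝ} (hU : IsFun U)
    (hp : ∀ j, ∀ z ∈ V j, ∀ v, 0 ≤ lev (fun t => Th H A e j t + U j t) z v) (x : ℂ) :
    0 ≤ Laplacian.laplacian (n2k H U) x := by
  have key : ∀ y, y ∉ Lam → 0 ≤ Laplacian.laplacian (n2k H U) y := by
    intro y hy
    rw [← n2_lev L C hH hU y hy]
    exact hp 0 _ ((n2_V0 y).2 hy) _
  by_cases hx : x ∈ Lam
  · have hs : ∀ y, ContDiffAt ℝ 2 (n2k H U) y := fun y =>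
      ((n2_smooth C hH hU).contDiffAt).of_le n2_le
    have hc : ContinuousAt (fun y : ℂ => Laplacian.laplacian (n2k H U) y) x := by
      have h1 := L.cont (fun t : E => n2k H U t.1) ((x, 0) : E) ((1, 0) : E)
        (ContDiffAt.comp (g := n2k H U) (f := Prod.fst) ((x, 0) : E) (hs x) contDiffAt_fst)
      have h2 : ContinuousAt (fun y : ℂ => ((((y, 0) : E), ((1, 0) : E)) : E × E)) x := by
        fun_prop
      have h3 := ContinuousAt.comp (f := fun y : ℂ => ((((y, 0) : E), ((1, 0) : E)) : E × E))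
        (g := fun p : E × E => lev (fun t : E => n2k H U t.1) p.1 p.2) (x := x) h1 h2
      have h4 : (fun y : ℂ => Laplacian.laplacian (n2k H U) y) =
          (fun p : E × E => lev (fun t : E => n2k H U t.1) p.1 p.2) ∘
            (fun y : ℂ => ((((y, 0) : E), ((1, 0) : E)) : E × E)) := by
        funext y
        exact (n2_fst L (f := n2k H U) y (hs y)).symm
      rw [h4]
      exact h3
    refine ge_of_tendsto (hc.tendsto.mono_left (nhdsWithin_le_nhds (s := {x}ᶜ))) ?_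
    have h5 : {x}ᶜ ∩ Metric.ball x (1 / 8) ∈ 𝓝[≠] x :=
      inter_mem_nhdsWithin _ (Metric.ball_mem_nhds x (by norm_num))
    filter_upwards [h5] with y hy
    refine key y ?_
    intro hyl
    have h6 := n2_small (y - x) (Lam.sub_mem hyl hx) (by
      have := hy.2
      rw [Metric.mem_ball, dist_eq_norm] at this
      exact this)
    exact hy.1 (sub_eq_zero.1 h6)
  · exact key x hx

/-- TARGET. Proof in words:
H ≥ 0, H = 0 exactly on Lam, H smooth (= |x|²A x). For x ∉ Λ, (x, 0) ∈ V 0. Th 0 (x, 0) = e|x|² + log (H (-x) + (H x)²) = e|x|² + log (H x) + log (1 + H x), and e|x|² + log (H x) has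
Laplacian 4e - 4e = 0 off Λ. So with `h x = log (1 + H x) + U 0 (x, 0)` for x ∉ Λ: `Δh (x) = lev (Th 0 + U 0) (x, 0) (1, 0) ≥ 0`
(the restriction of Th 0 + U 0 to the line (x + ζ, 0)).
h extends to a smooth function k on ℂ: near x = 0, x ≠ 0: (x, 0) = tr 2 (-x, -1) (ξ = -x, η = -1: ξη = x, w = ξη² = -x, w + x = 0), so U 0 (x, 0) = U 2 (-x, -1), which is
smooth at x = 0; by periodicity the same near every l ∈ Λ: define k x = log (1 + H x) + U 0 (x, 0) for x ∉ Λ and k l = log 1 + U 2 (0, -1) for l ∈ Λ.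
k is smooth and Λ-periodic, hence bounded (compact period square); Δk ≥ 0 off Λ, and on Λ by continuity. By StLiou k is constant, so Δk = 0, and
lev (Th 0 + U 0) (x, 0) (1, 0) = 0 for x ∉ Λ.
-/
theorem stN2 (L : LevBasics) (C : Coord) (hLi : StLiou) : StN2 := by
  intro H A e hH U hU hp x hx
  have hconst := hLi (n2k H U) ((n2_smooth C hH hU).of_le n2_le) (n2_bdd C hH hU)
    (n2_nonneg L C hH hU hp)
  rw [n2_lev L C hH hU x hx, ← n2_fst L (f := n2k H U) x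
    (((n2_smooth C hH hU).contDiffAt).of_le n2_le)]
  have h1 : (fun t : E => n2k H U t.1) = fun _ => n2k H U 0 := by
    funext t
    exact hconst _ _
  rw [h1]
  exact L.const _ _ _


end JstN2

end Pool.Agent.Y810.SP
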