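import Pool.Agent.Y810.SP.Base

set_option autoImplicit false

open Set Topology Filter
open scoped ContDiff Manifold

namespace Pool.Agent.Y810.SP

namespace JstNear


theorem sn_smooth {H A : ℂ → ℝ} {e : ℝ} (h : HF H A e) : ContDiff ℝ ∞ H := by
  have h1 : H = fun x => ‖x‖ ^ 2 * A x := funext h.H_eq
  rw [h1]
  exact (contDiff_norm_sq ℝ).mul h.A_smooth

theorem sn_ineq (v : E) {δ : ℝ} (hδ : 0 < δ) :
    ‖v.2 - v.1‖ ^ 2 ≤ (1 + δ) * ‖v.1‖ ^ 2 + (1 + 1 / δ) * ‖v.2‖ ^ 2 := by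
  have h1 : ‖v.2 - v.1‖ ≤ ‖v.2‖ + ‖v.1‖ := norm_sub_le _ _
  have h2 : ‖v.2 - v.1‖ ^ 2 ≤ (‖v.2‖ + ‖v.1‖) ^ 2 := by
    gcongr
  have h3 : 0 ≤ (δ * ‖v.1‖ - ‖v.2‖) ^ 2 / δ := by positivity
  have h4 : (δ * ‖v.1‖ - ‖v.2‖) ^ 2 / δ =
      δ * ‖v.1‖ ^ 2 - 2 * (‖v.1‖ * ‖v.2‖) + 1 / δ * ‖v.2‖ ^ 2 := by
    field_simp
    ring
  rw [h4] at h3
  nlinarith

theorem sn_real {a b d e ε δ M Δx Δy C lam S : ℝ} (ha : 0 ≤ a) (hb : 0 ≤ b) (he : 0 < e)
    (hd : d ≤ (1 + δ) * a + (1 + 1 / δ) * b) (_hd0 : 0 ≤ d) (hδ : 0 < δ) (hδe : 4 * e * δ = ε / 2)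
    (hl0 : 0 ≤ lam) (hl1 : lam ≤ 1) (h1 : -(ε / 2) ≤ (1 - lam) * (M * Δx - 4 * e))
    (h2 : 4 * e * (1 + 1 / δ) ≤ C * Δy) (hε : 0 < ε)
    (hS : lam * (d * -(4 * e)) + (1 - lam) * (a * (2 * -(4 * e) + M * Δx)) ≤ S) :
    -(ε * (a + b)) ≤ e * (a * 4) + 3 * e * (b * 4) + S + C * (b * Δy) := by
  have h3 : lam * d ≤ lam * ((1 + δ) * a + (1 + 1 / δ) * b) := mul_le_mul_of_nonneg_left hd hl0
  have h4 : 0 ≤ (1 - lam) * (δ * a) := mul_nonneg (by linarith) (by positivity)
  have h5 : 0 ≤ (1 - lam) * ((1 + 1 / δ) * b) := mul_nonneg (by linarith) (by positivity)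
  have h6 : a * -(ε / 2) ≤ a * ((1 - lam) * (M * Δx - 4 * e)) := mul_le_mul_of_nonneg_left h1 ha
  have h7 : b * (4 * e * (1 + 1 / δ)) ≤ b * (C * Δy) := mul_le_mul_of_nonneg_left h2 hb
  have h8 : 0 ≤ ε * b := by positivity
  have h9 : 0 ≤ e * b := by positivity
  have h10 : e * (lam * d) ≤ e * (lam * a + δ * a + (1 + 1 / δ) * b) := by
    apply mul_le_mul_of_nonneg_left _ he.le
    nlinarith
  have h11 : 4 * e * δ * a = ε / 2 * a := by rw [hδe]
  nlinarith

/-- TARGET. -/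
theorem stNear (L : LevBasics) (hS : StSum) : StNear := by
  intro H A e r c K D hF hB ε hε
  have he := hF.e_pos
  have hc := hB.c_pos
  have hK := hB.K_pos
  have hD := hB.D_pos
  have hr := hB.r_pos
  set δ : ℝ := ε / (8 * e) with hδ
  have hδ0 : 0 < δ := by positivity
  have hδe : 4 * e * δ = ε / 2 := by
    rw [hδ]
    field_simp
    ring
  set M : ℝ := 4 * e / c with hM
  have hM0 : 0 < M := by positivity
  set T : ℝ := D ^ 2 * Real.exp (M * D) * (2 * K / r) * (M * D + 4 * e) with hT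
  have hT0 : 0 < T := by positivity
  set k : ℝ := min 1 (ε / 2 / T) with hk
  have hk0 : 0 < k := lt_min one_pos (by positivity)
  have hkT : k * T ≤ ε / 2 := by
    have : k ≤ ε / 2 / T := min_le_right _ _
    rwa [le_div_iff₀ hT0] at this
  set C : ℝ := 4 * e * (1 + 1 / δ) / c with hC
  have hC0 : 0 < C := by positivity
  refine ⟨k, M, C, min r (r / (2 * K)), hk0, min_le_left _ _, hM0.le, hC0.le,
    lt_min hr (by positivity), ?_⟩
  intro z hz hy v
  obtain ⟨hz1, hz2, hzw⟩ := hz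
  have hyr : H z.2 < r := lt_of_lt_of_le hy (min_le_left _ _)
  have hyK : H z.2 < r / (2 * K) := lt_of_lt_of_le hy (min_le_right _ _)
  have hsm : ContDiff ℝ ∞ H := sn_smooth hF
  have hsm2 : ContDiff ℝ 2 H := by exact_mod_cast contDiff_infty.1 hsm 2
  have hHx : 0 < H z.1 := hF.H_pos _ hz1
  have hHy : 0 < H z.2 := hF.H_pos _ hz2
  have hHw : 0 < H (z.2 - z.1) := hF.H_pos _ hzw
  set P : E → ℝ := fun t => H (t.2 - t.1) with hP
  set Q : E → ℝ := fun t => k * H t.1 ^ 2 * Real.exp (M * H t.1) with hQ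
  have hPc : ContDiff ℝ 2 P := hsm2.comp (contDiff_snd.sub contDiff_fst)
  have hHx1 : ContDiff ℝ 2 (fun t : E => H t.1) := hsm2.comp contDiff_fst
  have hHy1 : ContDiff ℝ 2 (fun t : E => H t.2) := hsm2.comp contDiff_snd
  have hQc : ContDiff ℝ 2 Q :=
    (contDiff_const.mul (hHx1.pow 2)).mul (Real.contDiff_exp.comp (contDiff_const.mul hHx1))
  have hP0 : 0 < P z := hHw
  have hQ0 : 0 < Q z := by
    change 0 < k * H z.1 ^ 2 * Real.exp (M * H z.1)
    positivity
  have hn1 : ContDiff ℝ 2 (fun t : E => ‖t.1‖ ^ 2) := (contDiff_norm_sq ℝ).comp contDiff_fst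
  have hn2 : ContDiff ℝ 2 (fun t : E => ‖t.2‖ ^ 2) := (contDiff_norm_sq ℝ).comp contDiff_snd
  -- the function
  have hfun : (fun t => Th H A e 0 t + near H A k M C 0 t) =
      fun t : E => ((e * ‖t.1‖ ^ 2 + 3 * e * ‖t.2‖ ^ 2) + Real.log (P t + Q t)) + C * H t.2 := by
    funext t
    have h1 : (tr 0 t).1 = t.1 := rfl
    have h2 : (tr 0 t).2 = t.2 := by
      change (t.2 - t.1) + t.1 = t.2
      ring
    simp only [Th, near, h1, h2]
    change e * ‖t.1‖ ^ 2 + 3 * e * ‖t.2‖ ^ 2 + Real.log (H (t.2 - t.1) + H t.1 ^ 2) +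
      (Real.log (H (t.2 - t.1) + k * H t.1 ^ 2 * Real.exp (M * H t.1)) -
        Real.log (H (t.2 - t.1) + H t.1 ^ 2) + C * H t.2) = _
    ring
  have hlogc : ContDiffAt ℝ 2 (fun t => Real.log (P t + Q t)) z :=
    ((hPc.contDiffAt).add hQc.contDiffAt).log (by positivity)
  have hlev : lev (fun t => Th H A e 0 t + near H A k M C 0 t) z v =
      e * (‖v.1‖ ^ 2 * 4) + 3 * e * (‖v.2‖ ^ 2 * 4) + lev (fun t => Real.log (P t + Q t)) z v +
        C * (‖v.2‖ ^ 2 * Laplacian.laplacian H z.2) := by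
    rw [hfun]
    rw [L.add (fun t : E => (e * ‖t.1‖ ^ 2 + 3 * e * ‖t.2‖ ^ 2) + Real.log (P t + Q t))
      (fun t : E => C * H t.2) z v
      (((contDiff_const.mul hn1).add (contDiff_const.mul hn2)).contDiffAt.add hlogc)
      (contDiff_const.mul hHy1).contDiffAt]
    rw [L.add (fun t : E => e * ‖t.1‖ ^ 2 + 3 * e * ‖t.2‖ ^ 2) (fun t => Real.log (P t + Q t)) z v
      ((contDiff_const.mul hn1).add (contDiff_const.mul hn2)).contDiffAt hlogc]
    rw [L.add (fun t : E => e * ‖t.1‖ ^ 2) (fun t : E => 3 * e * ‖t.2‖ ^ 2) z v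
      (contDiff_const.mul hn1).contDiffAt (contDiff_const.mul hn2).contDiffAt]
    rw [L.smul e (fun t : E => ‖t.1‖ ^ 2) z v hn1.contDiffAt,
      L.smul (3 * e) (fun t : E => ‖t.2‖ ^ 2) z v hn2.contDiffAt,
      L.smul C (fun t : E => H t.2) z v hHy1.contDiffAt]
    have e1 := L.fst (fun x : ℂ => ‖x‖ ^ 2) z v (contDiff_norm_sq ℝ).contDiffAt
    have e2 := L.snd (fun x : ℂ => ‖x‖ ^ 2) z v (contDiff_norm_sq ℝ).contDiffAt
    have e3 := L.snd H z v hsm2.contDiffAt
    rw [L.sq] at e1 e2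
    rw [e1, e2, e3]
  have hlP : lev (fun t => Real.log (P t)) z v = ‖v.2 - v.1‖ ^ 2 * -(4 * e) := by
    have h1 := L.dif (fun x => Real.log (H x)) z v ((hsm2.contDiffAt).log hHw.ne')
    rw [hF.lap_H _ hzw] at h1
    exact h1
  have hlQ : lev (fun t => Real.log (Q t)) z v =
      ‖v.1‖ ^ 2 * (2 * -(4 * e) + M * Laplacian.laplacian H z.1) := by
    have hev : ∀ᶠ t in 𝓝 z, Real.log (Q t) =
        Real.log k + (2 * Real.log (H t.1) + M * H t.1) := by
      have h1 : ∀ᶠ t in 𝓝 z, 0 < H t.1 :=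
        hHx1.continuous.continuousAt.eventually (lt_mem_nhds hHx)
      filter_upwards [h1] with t ht
      change Real.log (k * H t.1 ^ 2 * Real.exp (M * H t.1)) = _
      rw [Real.log_mul (by positivity) (Real.exp_ne_zero _), Real.log_mul hk0.ne' (by positivity),
        Real.log_exp, Real.log_pow]
      push_cast
      ring
    have hlx : ContDiffAt ℝ 2 (fun t : E => Real.log (H t.1)) z := (hHx1.contDiffAt).log hHx.ne'
    have hlx1 : ContDiffAt ℝ 2 (fun t : E => 2 * Real.log (H t.1)) z := contDiffAt_const.mul hlx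
    have hmx : ContDiffAt ℝ 2 (fun t : E => M * H t.1) z := contDiffAt_const.mul hHx1.contDiffAt
    rw [L.congr _ _ z v hev]
    rw [L.add (fun _ : E => Real.log k) (fun t : E => 2 * Real.log (H t.1) + M * H t.1) z v
      contDiffAt_const (hlx1.add hmx)]
    rw [L.const, L.add (fun t : E => 2 * Real.log (H t.1)) (fun t : E => M * H t.1) z v hlx1 hmx,
      L.smul 2 (fun t : E => Real.log (H t.1)) z v hlx,
      L.smul M (fun t : E => H t.1) z v hHx1.contDiffAt]
    have e1 := L.fst (fun x => Real.log (H x)) z v ((hsm2.contDiffAt).log hHx.ne')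
    have e2 := L.fst H z v hsm2.contDiffAt
    rw [hF.lap_H _ hz1] at e1
    rw [e1, e2]
    ring
  have hSum := hS P Q z v hPc.contDiffAt hQc.contDiffAt hP0 hQ0
  rw [hlP, hlQ] at hSum
  have hPQ : 0 < P z + Q z := by positivity
  have hlam : Q z / (P z + Q z) = 1 - P z / (P z + Q z) := by
    field_simp
    ring
  rw [hlam] at hSum
  rw [hlev]
  have hl0 : 0 ≤ P z / (P z + Q z) := by positivity
  have hl1 : P z / (P z + Q z) ≤ 1 := by
    rw [div_le_one hPQ]
    linarith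
  have h1 : -(ε / 2) ≤ (1 - P z / (P z + Q z)) * (M * Laplacian.laplacian H z.1 - 4 * e) := by
    have hl2 : 0 ≤ 1 - P z / (P z + Q z) := by linarith
    rcases lt_or_ge (H z.1) r with hx | hx
    · have h2 := hB.near z.1 hx
      have h3 : 0 ≤ M * Laplacian.laplacian H z.1 - 4 * e := by
        have h4 : M * c = 4 * e := by
          rw [hM]
          field_simp
        have h5 : M * c ≤ M * Laplacian.laplacian H z.1 := mul_le_mul_of_nonneg_left h2 hM0.le
        linarith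
      have := mul_nonneg hl2 h3
      linarith
    · have h2 : H z.1 ≤ K * (H z.2 + H (z.2 - z.1)) := by
        have h3 := hB.tri z.2 (-(z.2 - z.1))
        rw [hF.H_even] at h3
        have h4 : z.2 + -(z.2 - z.1) = z.1 := by ring
        rwa [h4] at h3
      have h3 : r / (2 * K) ≤ P z := by
        have h4 : K * H z.2 < r / 2 := by
          have := mul_lt_mul_of_pos_left hyK hK
          have h5 : K * (r / (2 * K)) = r / 2 := by
            field_simp
          linarith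
        rw [div_le_iff₀ (by positivity)]
        change r ≤ H (z.2 - z.1) * (2 * K)
        nlinarith
      have h4 : Q z ≤ k * D ^ 2 * Real.exp (M * D) := by
        change k * H z.1 ^ 2 * Real.exp (M * H z.1) ≤ _
        have h5 := hB.bdd z.1
        gcongr
      have h5 : 1 - P z / (P z + Q z) ≤ k * D ^ 2 * Real.exp (M * D) * (2 * K / r) := by
        rw [← hlam, div_le_iff₀ hPQ]
        have h6 : 1 ≤ 2 * K / r * P z := by
          have := mul_le_mul_of_nonneg_left h3 (by positivity : 0 ≤ 2 * K / r)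
          have h7 : 2 * K / r * (r / (2 * K)) = 1 := by
            field_simp
          linarith
        have h8 : 0 ≤ k * D ^ 2 * Real.exp (M * D) := by positivity
        have h9 : 0 ≤ 2 * K / r * Q z := by positivity
        calc Q z ≤ k * D ^ 2 * Real.exp (M * D) := h4
          _ = k * D ^ 2 * Real.exp (M * D) * 1 := by ring
          _ ≤ k * D ^ 2 * Real.exp (M * D) * (2 * K / r * P z + 2 * K / r * Q z) :=
            mul_le_mul_of_nonneg_left (by linarith) h8
          _ = k * D ^ 2 * Real.exp (M * D) * (2 * K / r) * (P z + Q z) := by ring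
      have h6 : -(M * D + 4 * e) ≤ M * Laplacian.laplacian H z.1 - 4 * e := by
        have h7 := neg_abs_le (Laplacian.laplacian H z.1)
        have h8 := hB.lap_bdd z.1
        have h9 : M * (-D) ≤ M * Laplacian.laplacian H z.1 :=
          mul_le_mul_of_nonneg_left (by linarith) hM0.le
        linarith
      have h7 := mul_le_mul_of_nonneg_left h6 hl2
      have h8 : (1 - P z / (P z + Q z)) * (M * D + 4 * e) ≤
          k * D ^ 2 * Real.exp (M * D) * (2 * K / r) * (M * D + 4 * e) :=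
        mul_le_mul_of_nonneg_right h5 (by positivity)
      have h9 : k * D ^ 2 * Real.exp (M * D) * (2 * K / r) * (M * D + 4 * e) = k * T := by
        rw [hT]
        ring
      linarith
  have h2 : 4 * e * (1 + 1 / δ) ≤ C * Laplacian.laplacian H z.2 := by
    have h3 := hB.near z.2 hyr
    have h4 : C * c = 4 * e * (1 + 1 / δ) := by
      rw [hC]
      field_simp
    have h5 : C * c ≤ C * Laplacian.laplacian H z.2 := mul_le_mul_of_nonneg_left h3 hC0.le
    linarith
  exact sn_real (by positivity) (by positivity) he (sn_ineq v hδ0) (by positivity) hδ0 hδe hl0 hl1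
    h1 h2 hε hSum


end JstNear

end Pool.Agent.Y810.SP
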