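import Pool.Agent.Y810.SP.Base

set_option autoImplicit false

open Set Topology Filter
open scoped ContDiff Manifold

namespace Pool.Agent.Y810.SP

namespace JstNearFun



theorem nf_norm : ContDiff ℝ ∞ fun x : ℂ => ‖x‖ ^ 2 := contDiff_norm_sq ℝ

theorem nf_xx : ∀ j, ContDiff ℝ ∞ (xx j)
  | 0 => contDiff_fst
  | 1 => contDiff_fst.mul contDiff_snd
  | 2 => contDiff_fst.mul contDiff_snd
  | 3 => contDiff_fst

theorem nf_ww : ∀ j, ContDiff ℝ ∞ (ww j)
  | 0 => contDiff_snd.sub contDiff_fst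
  | 1 => contDiff_snd
  | 2 => contDiff_fst.mul (contDiff_snd.pow 2)
  | 3 => (contDiff_fst.pow 2).mul contDiff_snd

section

variable {H A : ℂ → ℝ} {e : ℝ}

theorem nf_H (h : HF H A e) : ContDiff ℝ ∞ H := by
  have h1 : H = fun x => ‖x‖ ^ 2 * A x := funext h.H_eq
  rw [h1]
  exact nf_norm.mul h.A_smooth

theorem nf_ca (h : HF H A e) : ∀ j, ContDiff ℝ ∞ (ca H A j)
  | 0 => (nf_H h).comp (contDiff_snd.sub contDiff_fst)
  | 1 => h.A_smooth.comp (nf_ww 1)
  | 2 => h.A_smooth.comp (nf_ww 2)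
  | 3 => (nf_norm.comp contDiff_snd).mul (h.A_smooth.comp (nf_ww 3))

theorem nf_cb (h : HF H A e) : ∀ j, ContDiff ℝ ∞ (cb H A j)
  | 0 => ((nf_H h).comp contDiff_fst).pow 2
  | 1 => by
    have h1 : cb H A 1 = fun z : E => (‖z.1‖ ^ 2) ^ 2 * ‖z.2‖ ^ 2 * A (xx 1 z) ^ 2 := by
      funext z
      simp only [cb]
      ring
    rw [h1]
    exact (((nf_norm.comp contDiff_fst).pow 2).mul (nf_norm.comp contDiff_snd)).mul
      ((h.A_smooth.comp (nf_xx 1)).pow 2)
  | 2 => (nf_norm.comp contDiff_fst).mul ((h.A_smooth.comp (nf_xx 2)).pow 2)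
  | 3 => (h.A_smooth.comp (nf_xx 3)).pow 2

theorem nf_H0 (h : HF H A e) {l : ℂ} (hl : l ∈ Lam) : H l = 0 := by
  have h1 := h.H_per 0 l hl
  rw [zero_add] at h1
  rw [h1, h.H_eq]
  simp

theorem nf_Hn (h : HF H A e) (x : ℂ) : 0 ≤ H x := by
  by_cases hx : x ∈ Lam
  · rw [nf_H0 h hx]
  · exact (h.H_pos x hx).le

theorem nf_V {j : Fin 4} (hj : j ≠ 0) {z : E} (hz : z ∈ V j) :
    ‖xx j z‖ < 1 / 8 ∧ ‖ww j z‖ < 1 / 8 := by
  unfold V at hz
  rw [if_neg hj] at hz
  exact hz

theorem nf_pos (h : HF H A e) : ∀ (j : Fin 4) (z : E), z ∈ V j →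
    0 ≤ ca H A j z ∧ 0 ≤ cb H A j z ∧ (0 < ca H A j z ∨ 0 < cb H A j z)
  | 0, z, hz => by
    refine ⟨nf_Hn h _, sq_nonneg _, ?_⟩
    have hz' : z ∉ Lam2 := by
      unfold V at hz
      rw [if_pos rfl] at hz
      exact hz
    by_cases h1 : z.1 ∈ Lam
    · left
      apply h.H_pos
      intro h2
      apply hz'
      refine ⟨h1, ?_⟩
      have := Lam.add_mem h2 h1
      rwa [sub_add_cancel] at this
    · right
      exact pow_pos (h.H_pos _ h1) 2
  | 1, z, hz => by
    have h1 := nf_V (by decide) hz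
    have h2 : 0 < A (ww 1 z) := h.A_pos _ (by linarith [h1.2])
    refine ⟨h2.le, ?_, Or.inl h2⟩
    simp only [cb]
    positivity
  | 2, z, hz => by
    have h1 := nf_V (by decide) hz
    have h2 : 0 < A (ww 2 z) := h.A_pos _ (by linarith [h1.2])
    refine ⟨h2.le, ?_, Or.inl h2⟩
    simp only [cb]
    positivity
  | 3, z, hz => by
    have h1 := nf_V (by decide) hz
    have h2 : 0 < A (ww 3 z) := h.A_pos _ (by linarith [h1.2])
    have h3 : 0 < A (xx 3 z) := h.A_pos _ (by linarith [h1.1])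
    refine ⟨?_, sq_nonneg _, Or.inr (pow_pos h3 2)⟩
    simp only [ca]
    positivity

theorem nf_pos' (h : HF H A e) {j : Fin 4} {z : E} (hz : z ∈ V j) {t : ℝ} (ht : 0 < t) :
    0 < ca H A j z + t * cb H A j z := by
  obtain ⟨h1, h2, h3⟩ := nf_pos h j z hz
  rcases h3 with h3 | h3
  · have := mul_nonneg ht.le h2
    linarith
  · have := mul_pos ht h3
    linarith

/-- the common factor -/
theorem nf_fac (h : HF H A e) : ∀ (j : Fin 4), j ≠ 0 → ∀ z : E, ∃ m : ℝ, 0 ≤ m ∧
    H (ww j z) = m * ca H A j z ∧ H (xx j z) ^ 2 = m * cb H A j z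
  | 0, hj, _ => absurd rfl hj
  | 1, _, z => by
    refine ⟨‖z.2‖ ^ 2, by positivity, ?_, ?_⟩
    · rw [h.H_eq]
      rfl
    · rw [h.H_eq]
      simp only [cb, xx, norm_mul]
      ring
  | 2, _, z => by
    refine ⟨‖z.1‖ ^ 2 * ‖z.2‖ ^ 4, by positivity, ?_, ?_⟩
    · rw [h.H_eq]
      simp only [ca, ww, norm_mul, norm_pow]
      ring
    · rw [h.H_eq]
      simp only [cb, xx, norm_mul]
      ring
  | 3, _, z => by
    refine ⟨‖z.1‖ ^ 4, by positivity, ?_, ?_⟩
    · rw [h.H_eq]
      simp only [ca, ww, norm_mul, norm_pow]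
      ring
    · rw [h.H_eq]
      simp only [cb, xx]
      ring

theorem nf_ca0 (j : Fin 4) (z : E) : ca H A 0 (tr j z) = H (ww j z) := by
  simp only [ca, tr]
  rw [add_sub_cancel_right]

theorem nf_cb0 (j : Fin 4) (z : E) : cb H A 0 (tr j z) = H (xx j z) ^ 2 := rfl

end

/-- TARGET. Proof in words:
smooth: the arguments of the logarithms are positive and smooth on V j. j = 0: z ∉ Lam2; H ≥ 0 with H = 0 exactly on
Lam (from H_pos and H = |x|²A, H_per: H l = H 0 = 0); if H x = 0 and H w = 0 then x, w ∈ Lam, so y = w + x ∈ Lam, impossible;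
so `ca + cb = H w + (H x)² > 0` and `ca + k cb exp(..) > 0` (k > 0). j ≥ 1: |x|, |w| < 1/8 so A x, A w > 0; `ca > 0` for j = 1,2 and `cb > 0` for
j = 3; the others are ≥ 0. H is smooth because H = |x|² A x (`HF.H_eq`, A_smooth).
per: H_per. compat: j = 0: tr 0 = id. j ≥ 1: with m = η, ξη², ξ² (j = 1,2,3), m ≠ 0 when tr j z ≠ 0: `H w = |m|² ca j`, `(H x)² = |m|² cb j` (w = η, ξη²,
ξ²η; x = ξη, ξη, ξ; H t = |t|² A t), and the second coordinate minus the first of tr j z is w; so
`log (H w + k (H x)² exp) - log (H w + (H x)²) = log (ca + k cb exp) - log (ca + cb)`.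
-/
theorem stNearFun (C : Coord) : StNearFun := by
  intro H A e h k M c hk
  refine ⟨?_, ?_, ?_⟩
  · intro j z hz
    have h1 : 0 < ca H A j z + k * cb H A j z * Real.exp (M * H (xx j z)) := by
      have := nf_pos' h hz (mul_pos hk (Real.exp_pos (M * H (xx j z))))
      have h2 : k * Real.exp (M * H (xx j z)) * cb H A j z =
          k * cb H A j z * Real.exp (M * H (xx j z)) := by ring
      rwa [h2] at this
    have h2 : 0 < ca H A j z + cb H A j z := by
      have := nf_pos' h hz one_pos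
      rwa [one_mul] at this
    have hHx : ContDiff ℝ ∞ fun z : E => H (xx j z) := (nf_H h).comp (nf_xx j)
    have hHy : ContDiff ℝ ∞ fun z : E => H (tr j z).2 :=
      (nf_H h).comp ((nf_ww j).add (nf_xx j))
    have h3 : ContDiff ℝ ∞ fun z : E =>
        ca H A j z + k * cb H A j z * Real.exp (M * H (xx j z)) :=
      (nf_ca h j).add ((contDiff_const.mul (nf_cb h j)).mul
        (Real.contDiff_exp.comp (contDiff_const.mul hHx)))
    have h4 : ContDiff ℝ ∞ fun z : E => ca H A j z + cb H A j z :=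
      (nf_ca h j).add (nf_cb h j)
    exact ((h3.contDiffAt.log h1.ne').sub (h4.contDiffAt.log h2.ne')).add
      (contDiff_const.mul hHy).contDiffAt
  · intro z l hz hl
    have hd : H ((z + l).2 - (z + l).1) = H (z.2 - z.1) := by
      have h1 : (z + l).2 - (z + l).1 = (z.2 - z.1) + (l.2 - l.1) := by
        rw [Prod.snd_add, Prod.fst_add]
        ring
      rw [h1]
      exact h.H_per _ _ (Lam.sub_mem hl.2 hl.1)
    have hx : H (z + l).1 = H z.1 := h.H_per _ _ hl.1
    have hy : H (z + l).2 = H z.2 := h.H_per _ _ hl.2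
    unfold near
    rw [C.tr0, C.tr0]
    simp only [ca, cb, xx]
    rw [hd, hx, hy]
  · intro j z hz htr
    by_cases hj : j = 0
    · subst hj
      rw [C.tr0]
    · obtain ⟨m, hm0, hm1, hm2⟩ := nf_fac h j hj z
      have hp := nf_pos' h htr one_pos
      rw [one_mul, nf_ca0, nf_cb0, hm1, hm2] at hp
      have hm : 0 < m := by
        rcases hm0.eq_or_lt with h1 | h1
        · rw [← h1] at hp
          simp at hp
        · exact h1
      have h1 : 0 < ca H A j z + k * cb H A j z * Real.exp (M * H (xx j z)) := by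
        have := nf_pos' h hz (mul_pos hk (Real.exp_pos (M * H (xx j z))))
        have h2 : k * Real.exp (M * H (xx j z)) * cb H A j z =
            k * cb H A j z * Real.exp (M * H (xx j z)) := by ring
        rwa [h2] at this
      have h2 : 0 < ca H A j z + cb H A j z := by
        have := nf_pos' h hz one_pos
        rwa [one_mul] at this
      have hxx : xx 0 (tr j z) = xx j z := rfl
      unfold near
      rw [C.tr0, nf_ca0, nf_cb0, hm1, hm2, hxx]
      have e1 : m * ca H A j z + k * (m * cb H A j z) * Real.exp (M * H (xx j z)) =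
          m * (ca H A j z + k * cb H A j z * Real.exp (M * H (xx j z))) := by ring
      have e2 : m * ca H A j z + m * cb H A j z = m * (ca H A j z + cb H A j z) := by ring
      rw [e1, e2, Real.log_mul hm.ne' h1.ne', Real.log_mul hm.ne' h2.ne']
      ring


end JstNearFun

end Pool.Agent.Y810.SP
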