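import Pool.Agent.Y810.SP.Base

set_option autoImplicit false

open Set Topology Filter
open scoped ContDiff Manifold

namespace Pool.Agent.Y810.SP

namespace JstNef



theorem nef_H_smooth {H A : ℂ → ℝ} {e : ℝ} (hf : HF H A e) : ContDiff ℝ ∞ H := by
  have h : H = fun x => ‖x‖ ^ 2 * A x := funext hf.H_eq
  rw [h]
  exact (contDiff_norm_sq ℝ).mul hf.A_smooth

theorem nef_H_zero {H A : ℂ → ℝ} {e : ℝ} (hf : HF H A e) {x : ℂ} (hx : x ∈ Lam) : H x = 0 := by
  have h1 := hf.H_per 0 x hx
  rw [zero_add] at h1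
  rw [h1, hf.H_eq 0]
  simp

theorem nef_H_nonneg {H A : ℂ → ℝ} {e : ℝ} (hf : HF H A e) (x : ℂ) : 0 ≤ H x := by
  by_cases hx : x ∈ Lam
  · exact (nef_H_zero hf hx).ge
  · exact (hf.H_pos x hx).le

theorem nef_V0 {z : E} : z ∈ V 0 ↔ z ∉ Lam2 := by
  simp [V]

theorem nef_V0_of {z : E} (h : z.2 ∉ Lam) : z ∈ V 0 := by
  rw [nef_V0]
  exact fun h' => h h'.2

theorem nef_ev {H A : ℂ → ℝ} {e : ℝ} (hf : HF H A e) {z : E} (h : z.2 ∉ Lam) :
    ∀ᶠ t in 𝓝 z, t.2 ∉ Lam := by
  have hc : Continuous (fun t : E => H t.2) := (nef_H_smooth hf).continuous.comp continuous_snd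
  have h1 : ∀ᶠ t in 𝓝 z, 0 < H t.2 := hc.continuousAt.eventually (lt_mem_nhds (hf.H_pos _ h))
  filter_upwards [h1] with t ht h2
  rw [nef_H_zero hf h2] at ht
  exact lt_irrefl _ ht

theorem nef_sum_pos {H A : ℂ → ℝ} {e : ℝ} (hf : HF H A e) {z : E} (h : z.2 ∉ Lam) :
    0 < H (z.2 - z.1) + H z.1 ^ 2 := by
  by_cases h1 : z.1 ∈ Lam
  · have h2 : z.2 - z.1 ∉ Lam := by
      intro h3
      apply h
      have := Lam.add_mem h3 h1
      simpa using this
    have := hf.H_pos _ h2
    positivity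
  · have h2 := hf.H_pos _ h1
    have h3 := nef_H_nonneg hf (z.2 - z.1)
    positivity

theorem nef_c1 {H A : ℂ → ℝ} {e : ℝ} (hf : HF H A e) (z : E) :
    ContDiffAt ℝ ∞ (fun t : E => H (t.2 - t.1) + H t.1 ^ 2) z := by
  have hs := nef_H_smooth hf
  exact ((hs.comp (contDiff_snd.sub contDiff_fst)).add ((hs.comp contDiff_fst).pow 2)).contDiffAt

theorem nef_far_smooth {H A : ℂ → ℝ} {e : ℝ} (hf : HF H A e) {z : E} (h : z.2 ∉ Lam) :
    ContDiffAt ℝ ∞ (far H) z := by
  have hs := nef_H_smooth hf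
  have h1 : ContDiffAt ℝ ∞ (fun t : E => H t.2) z := (hs.comp contDiff_snd).contDiffAt
  have h2 := nef_c1 hf z
  have h3 := (contDiffAt_const (c := (5 / 2 : ℝ))).mul (h1.log (hf.H_pos _ h).ne')
  have h4 := h2.log (nef_sum_pos hf h).ne'
  exact h3.sub h4

theorem nef_Th_smooth {H A : ℂ → ℝ} {e : ℝ} (hf : HF H A e) (C : Coord) {z : E} (h : z.2 ∉ Lam) :
    ContDiffAt ℝ ∞ (Th H A e 0) z := by
  have h4 := (nef_c1 hf z).log (nef_sum_pos hf h).ne'
  have h5 : Th H A e 0 = fun t : E => e * ‖t.1‖ ^ 2 + 3 * e * ‖t.2‖ ^ 2 +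
      Real.log (H (t.2 - t.1) + H t.1 ^ 2) := by
    funext t
    simp only [Th, C.tr0, ca, cb]
  rw [h5]
  have h6 : ContDiffAt ℝ ∞ (fun t : E => e * ‖t.1‖ ^ 2) z :=
    (contDiff_const.mul ((contDiff_norm_sq ℝ).comp contDiff_fst)).contDiffAt
  have h7 : ContDiffAt ℝ ∞ (fun t : E => 3 * e * ‖t.2‖ ^ 2) z :=
    (contDiff_const.mul ((contDiff_norm_sq ℝ).comp contDiff_snd)).contDiffAt
  exact (h6.add h7).add h4

theorem nef_far_per {H A : ℂ → ℝ} {e : ℝ} (hf : HF H A e) (z l : E) (hl : l ∈ Lam2) :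
    far H (z + l) = far H z := by
  have h1 : H (z + l).2 = H z.2 := by rw [Prod.snd_add]; exact hf.H_per _ _ hl.2
  have h2 : H ((z + l).2 - (z + l).1) = H (z.2 - z.1) := by
    have : (z + l).2 - (z + l).1 = (z.2 - z.1) + (l.2 - l.1) := by
      rw [Prod.snd_add, Prod.fst_add]; ring
    rw [this]
    exact hf.H_per _ _ (Lam.sub_mem hl.2 hl.1)
  have h3 : H (z + l).1 = H z.1 := by rw [Prod.fst_add]; exact hf.H_per _ _ hl.1
  unfold far
  rw [h1, h2, h3]

/-- TARGET. Proof in words:
Given ε take r,c,K,D from StHB, k,M,C',h from StNear, a,h0 from StComp, m from StMax. Write nr j = near H A k M C' j, fr = far H. Put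
 U 0 z = if z.2 ∈ Lam then nr 0 z - a else fr z + m (nr 0 z - a - fr z),
 U j z = if tr j z ∈ V 0 then U 0 (tr j z) else nr j z - a  (j ≠ 0).
compat holds by definition (for j = 0: tr 0 z = z). per: fr and nr 0 are periodic on V 0 (hNF gives IsFun (near ...), H_per), z.2 + l.2 ∈ Lam iff z.2 ∈ Lam.
(Note H ≥ 0, H = 0 exactly on Lam.)
KEY: if z ∈ V 0 and H z.2 < h0 then U 0 z = nr 0 z - a (if z.2 ∈ Lam by definition; else fr + 1 ≤ nr - a by StComp so m(r) = r as r ≥ 1).
Smooth at z ∈ V 0: if z.2 ∉ Lam: near z the function is fr + m(nr - a - fr), all smooth there (the logs have positive arguments: H z.2 > 0 and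
H w + (H x)² > 0 for z ∉ Lam2). If z.2 ∈ Lam then H t.2 < h0 for t near z, so U 0 = nr 0 - a near z (KEY).
Smooth at z ∈ V j, j ≠ 0: if (tr j z).2 ∉ Lam then tr j t ∈ V 0 for t near z and U j = U 0 ∘ tr j near z with U 0 smooth at tr j z. If
(tr j z).2 ∈ Lam: for t near z in V j, H (tr j t).2 < h0, so U j t = nr j t - a in both cases (tr j t ∈ V 0: KEY and compat of near), smooth by hNF.
Inequality at z ∈ Wd (so z.2 ∉ Lam, z ∈ V 0, U 0 = fr + m(nr - a - fr) near z): 
 if H z.2 < h: both `lev (Th 0 + (nr 0 - a)) ≥ -ε nm v` (hN) and `lev (Th 0 + fr) z v ≥ 0 ≥ ...` (hF), and hM with f = Th 0 + nr 0 - a, g = Th 0 + fr,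
 t = -(ε nm v): Th 0 + U 0 = g + m (f - g). If H z.2 ≥ h: near z H t.2 > h/2, so nr - a + 1 ≤ fr and m(..) = 0: U 0 = fr near z, use hF.
-/
theorem stNef (L : LevBasics) (C : Coord) (hM : StMax) (hHB : StHB) (hNF : StNearFun) (hN : StNear) (hF : StFar) (hC : StComp) : StNef := by
  classical
  intro H A e hf ε hε
  obtain ⟨r, c, K, D, hb⟩ := hHB H A e hf
  obtain ⟨k, M, C', h, hk, hk1, hM0, hC0, hh, hnear⟩ := hN H A e r c K D hf hb ε hε
  obtain ⟨a, h0, hh0, hh0h, hcomp1, hcomp2⟩ := hC H A e r c K D hf hb k M C' h hk hk1 hM0 hC0 hh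
  obtain ⟨m, hmsm, hm0, hm1, hmlev⟩ := hM
  have hnf := hNF H A e hf k M C' hk
  set nr : Fin 4 → E → ℝ := near H A k M C' with hnr
  set fr : E → ℝ := far H with hfr
  set U0 : E → ℝ := fun z => if z.2 ∈ Lam then nr 0 z - a else fr z + m (nr 0 z - a - fr z) with hU0
  set U : Fin 4 → E → ℝ := fun j z =>
    if j = 0 then U0 z else if tr j z ∈ V 0 then U0 (tr j z) else nr j z - a with hU
  have hUz : ∀ z, U 0 z = U0 z := fun z => by simp [hU]
  have hUj : ∀ j, j ≠ 0 → ∀ z, U j z = if tr j z ∈ V 0 then U0 (tr j z) else nr j z - a := by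
    intro j hj z
    simp only [hU, if_neg hj]
  have KEY : ∀ z : E, H z.2 < h0 → U0 z = nr 0 z - a := by
    intro z hz
    by_cases h1 : z.2 ∈ Lam
    · simp only [hU0, if_pos h1]
    · have h2 := hcomp1 z h1 hz
      have h3 : m (nr 0 z - a - fr z) = nr 0 z - a - fr z := hm1 _ (by linarith)
      simp only [hU0, if_neg h1, h3]
      ring
  have hHc : Continuous H := (nef_H_smooth hf).continuous
  have sm0 : ∀ z ∈ V 0, ContDiffAt ℝ ∞ U0 z := by
    intro z hz
    by_cases h1 : z.2 ∈ Lam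
    · have h2 : ∀ᶠ t in 𝓝 z, H t.2 < h0 := by
        have hc : Continuous (fun t : E => H t.2) := hHc.comp continuous_snd
        apply hc.continuousAt.eventually (gt_mem_nhds _)
        show H z.2 < h0
        rw [nef_H_zero hf h1]
        exact hh0
      have h3 : U0 =ᶠ[𝓝 z] fun t => nr 0 t - a := by
        filter_upwards [h2] with t ht
        exact KEY t ht
      exact ((hnf.smooth 0 z hz).sub contDiffAt_const).congr_of_eventuallyEq h3
    · have h3 : U0 =ᶠ[𝓝 z] fun t => fr t + m (nr 0 t - a - fr t) := by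
        filter_upwards [nef_ev hf h1] with t ht
        simp only [hU0, if_neg ht]
      have h4 : ContDiffAt ℝ ∞ fr z := nef_far_smooth hf h1
      have h5 : ContDiffAt ℝ ∞ (fun t => nr 0 t - a - fr t) z :=
        ((hnf.smooth 0 z hz).sub contDiffAt_const).sub h4
      have h6 : ContDiffAt ℝ ∞ (fun t => m (nr 0 t - a - fr t)) z :=
        hmsm.contDiffAt.comp z h5
      exact (h4.add h6).congr_of_eventuallyEq h3
  have htrc : ∀ j, Continuous (tr j) := fun j =>
    continuous_iff_continuousAt.2 fun z => (C.tr_an j z).continuousAt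
  have hfun : IsFun U := by
    refine ⟨?_, ?_, ?_⟩
    · intro j z hz
      by_cases hj : j = 0
      · subst hj
        have : U 0 = U0 := funext hUz
        rw [this]
        exact sm0 z hz
      · by_cases h1 : (tr j z).2 ∈ Lam
        · have h2 : ∀ᶠ t in 𝓝 z, H (tr j t).2 < h0 := by
            have hc : Continuous (fun t : E => H (tr j t).2) := hHc.comp (continuous_snd.comp (htrc j))
            apply hc.continuousAt.eventually (gt_mem_nhds _)
            show H (tr j z).2 < h0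
            rw [nef_H_zero hf h1]
            exact hh0
          have h3 : U j =ᶠ[𝓝 z] fun t => nr j t - a := by
            filter_upwards [h2, (C.open_V j).mem_nhds hz] with t ht htV
            rw [hUj j hj]
            by_cases h4 : tr j t ∈ V 0
            · rw [if_pos h4, KEY _ ht, ← hnf.compat j t htV h4]
            · rw [if_neg h4]
          exact ((hnf.smooth j z hz).sub contDiffAt_const).congr_of_eventuallyEq h3
        · have h2 : tr j z ∈ V 0 := nef_V0_of h1
          have h3 : U j =ᶠ[𝓝 z] fun t => U0 (tr j t) := by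
            have h4 : ∀ᶠ t in 𝓝 z, tr j t ∈ V 0 :=
              (htrc j).continuousAt.eventually ((C.open_V 0).mem_nhds h2)
            filter_upwards [h4] with t ht
            rw [hUj j hj, if_pos ht]
          have h5 : ContDiffAt ℝ ∞ (tr j) z := ((C.tr_an j z).restrict_scalars ℝ).of_le le_top
          have h6 : ContDiffAt ℝ ∞ (fun t => U0 (tr j t)) z := (sm0 _ h2).comp z h5
          exact h6.congr_of_eventuallyEq h3
    · intro z l hz hl
      rw [hUz, hUz]
      have h1 : (z + l).2 ∈ Lam ↔ z.2 ∈ Lam := by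
        rw [Prod.snd_add]
        constructor
        · intro h2
          have := Lam.sub_mem h2 hl.2
          simpa using this
        · intro h2
          exact Lam.add_mem h2 hl.2
      have h2 : nr 0 (z + l) = nr 0 z := hnf.per z l hz hl
      have h3 : fr (z + l) = fr z := nef_far_per hf z l hl
      simp only [hU0, h1, h2, h3]
    · intro j z hz htz
      by_cases hj : j = 0
      · subst hj
        rw [C.tr0]
      · rw [hUj j hj, if_pos htz, hUz]
  refine ⟨U, hfun, ?_⟩
  intro z hz v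
  have hz2 : z.2 ∉ Lam := hz.2.1
  have hzV : z ∈ V 0 := C.Wd_sub hz
  have hnm : 0 ≤ nm v := by unfold nm; positivity
  have hneg : -(ε * nm v) ≤ 0 := by
    have := mul_nonneg hε.le hnm
    linarith
  have le2 : (2 : WithTop ℕ∞) ≤ ∞ := by
    have h1 : ((2 : ℕ∞) : WithTop ℕ∞) ≤ ((⊤ : ℕ∞) : WithTop ℕ∞) := WithTop.coe_le_coe.2 le_top
    exact h1
  have hTs : ContDiffAt ℝ 2 (Th H A e 0) z := (nef_Th_smooth hf C hz2).of_le le2
  have hfs : ContDiffAt ℝ 2 fr z := (nef_far_smooth hf hz2).of_le le2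
  have hns : ContDiffAt ℝ 2 (nr 0) z := (hnf.smooth 0 z hzV).of_le le2
  have hfar : 0 ≤ lev (fun t => Th H A e 0 t + fr t) z v := hF H A e hf z hz v
  rcases lt_or_ge (H z.2) h with hlt | hge
  · have hn1 := hnear z hz hlt v
    have e1 : lev (fun t => Th H A e 0 t + (nr 0 t - a)) z v =
        lev (fun t => Th H A e 0 t + nr 0 t) z v := by
      have h1 : (fun t => Th H A e 0 t + (nr 0 t - a)) = fun t => (Th H A e 0 t + nr 0 t) - a := by
        funext t; ring
      rw [h1, L.sub (fun t => Th H A e 0 t + nr 0 t) (fun _ => a) z v (hTs.add hns) contDiffAt_const,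
        L.const, sub_zero]
    have h2 := hmlev (fun t => Th H A e 0 t + (nr 0 t - a)) (fun t => Th H A e 0 t + fr t) z v
      (-(ε * nm v)) (hTs.add (hns.sub contDiffAt_const)) (hTs.add hfs) (by rw [e1]; exact hn1)
      (hneg.trans hfar)
    have h3 : lev (fun t => Th H A e 0 t + U 0 t) z v =
        lev (fun z' => (Th H A e 0 z' + fr z') +
          m ((Th H A e 0 z' + (nr 0 z' - a)) - (Th H A e 0 z' + fr z'))) z v := by
      apply L.congr
      filter_upwards [nef_ev hf hz2] with t ht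
      rw [hUz]
      simp only [hU0, if_neg ht]
      have h4 : (Th H A e 0 t + (nr 0 t - a)) - (Th H A e 0 t + fr t) = nr 0 t - a - fr t := by ring
      rw [h4]
      ring
    rw [h3]
    exact h2
  · have h1 : ∀ᶠ t in 𝓝 z, h / 2 < H t.2 := by
      have hc : Continuous (fun t : E => H t.2) := hHc.comp continuous_snd
      apply hc.continuousAt.eventually (lt_mem_nhds _)
      show h / 2 < H z.2
      linarith
    have h3 : lev (fun t => Th H A e 0 t + U 0 t) z v = lev (fun t => Th H A e 0 t + fr t) z v := by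
      apply L.congr
      filter_upwards [nef_ev hf hz2, h1] with t ht ht2
      rw [hUz]
      have h4 := hcomp2 t ht2.le
      have h5 : m (nr 0 t - a - fr t) = 0 := hm0 _ (by linarith)
      simp only [hU0, if_neg ht, h5, add_zero]
    rw [h3]
    exact hneg.trans hfar


end JstNef

end Pool.Agent.Y810.SP
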