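import Pool.Agent.Y810.SP.Base

set_option autoImplicit false

open Set Topology Filter
open scoped ContDiff Manifold

namespace Pool.Agent.Y810.SP

namespace JstNot


/-- TARGET. Proof in words:
f = Th 0 + U 0, g x = 1/2 * dy f (x, 0). For x ∉ Λ: (x, 0) ∈ V 0, f is smooth near it (Th 0 smooth: H w + (H x)² > 0 off Lam2; H ≥ 0 vanishes exactly on Lam), lev f t v ≥ 0 for t
near (x,0) (in V 0), lev f (x,0) (1,0) = 0 (h2), so g is holomorphic at x by h3. Periodic: for l ∈ Λ: near (x, 0),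
f (t + (l, 0)) = f t + e (|t.1 + l|² - |t.1|²) (IsFun.per, H_per), and the last term does not depend on t.2, so dy f (x + l, 0) = dy f (x, 0).
By h1 and h4: x g x → -1 at 0. Contradiction to h5.
-/
theorem stNot (L : LevBasics) (C : Coord) (h1 : StN1) (h2 : StN2) (h3 : StHol) (h4 : StPole) (h5 : StRes) : StNot := by
  intro H A e hH U hU hpos
  have hHs : ContDiff ℝ ∞ H := by
    have : H = fun x => ‖x‖ ^ 2 * A x := funext hH.H_eq
    rw [this]
    exact (contDiff_norm_sq ℝ).mul hH.A_smooth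
  have hH0 : ∀ x, x ∈ Lam → H x = 0 := by
    intro x hx
    have h := hH.H_per 0 x hx
    rw [zero_add] at h
    rw [h, hH.H_eq 0]
    simp
  have hHnn : ∀ x, 0 ≤ H x := by
    intro x
    by_cases hx : x ∈ Lam
    · rw [hH0 x hx]
    · exact (hH.H_pos x hx).le
  set f : E → ℝ := fun t => Th H A e 0 t + U 0 t with hf
  have hThe : ∀ t : E, Th H A e 0 t =
      e * ‖t.1‖ ^ 2 + 3 * e * ‖t.2‖ ^ 2 + Real.log (H (t.2 - t.1) + H t.1 ^ 2) := by
    intro t
    show e * ‖(tr 0 t).1‖ ^ 2 + 3 * e * ‖(tr 0 t).2‖ ^ 2 + Real.log (ca H A 0 t + cb H A 0 t) = _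
    rw [C.tr0 t]
    rfl
  have hV0 : V 0 = Lam2ᶜ := by simp [V]
  have hmem : ∀ x : ℂ, x ∉ Lam → ((x, (0 : ℂ)) : E) ∈ V 0 := by
    intro x hx
    rw [hV0]
    intro h
    exact hx h.1
  have hsm : ∀ x : ℂ, x ∉ Lam → ContDiffAt ℝ ∞ f (x, 0) := by
    intro x hx
    have h2 : ContDiffAt ℝ ∞ (U 0) (x, 0) := hU.smooth 0 _ (hmem x hx)
    have h3 : ContDiffAt ℝ ∞ (Th H A e 0) (x, 0) := by
      have : Th H A e 0 = fun t : E =>
          e * ‖t.1‖ ^ 2 + 3 * e * ‖t.2‖ ^ 2 + Real.log (H (t.2 - t.1) + H t.1 ^ 2) :=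
        funext hThe
      rw [this]
      have a1 : ContDiff ℝ ∞ (fun t : E => e * ‖t.1‖ ^ 2 + 3 * e * ‖t.2‖ ^ 2) := by
        have b1 : ContDiff ℝ ∞ (fun t : E => ‖t.1‖ ^ 2) := (contDiff_norm_sq ℝ).comp contDiff_fst
        have b2 : ContDiff ℝ ∞ (fun t : E => ‖t.2‖ ^ 2) := (contDiff_norm_sq ℝ).comp contDiff_snd
        exact (contDiff_const.mul b1).add (contDiff_const.mul b2)
      have a2 : ContDiff ℝ ∞ (fun t : E => H (t.2 - t.1) + H t.1 ^ 2) := by
        have b1 : ContDiff ℝ ∞ (fun t : E => H (t.2 - t.1)) :=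
          hHs.comp (contDiff_snd.sub contDiff_fst)
        have b2 : ContDiff ℝ ∞ (fun t : E => H t.1 ^ 2) := (hHs.comp contDiff_fst).pow 2
        exact b1.add b2
      refine a1.contDiffAt.add (a2.contDiffAt.log ?_)
      have c1 : 0 < H x := hH.H_pos x hx
      have c2 : 0 ≤ H ((0 : ℂ) - x) := hHnn _
      show H ((0 : ℂ) - x) + H x ^ 2 ≠ 0
      positivity
    exact h3.add h2
  have hhol : ∀ x : ℂ, x ∉ Lam → DifferentiableAt ℂ (fun x' => dy f (x', 0)) x := by
    intro x hx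
    refine h3 f x (hsm x hx) ?_ (h2 H A e hH U hU hpos x hx)
    filter_upwards [(C.open_V 0).mem_nhds (hmem x hx)] with t ht v
    exact hpos 0 t ht v
  have hper : ∀ x l : ℂ, x ∉ Lam → l ∈ Lam → dy f (x + l, 0) = dy f (x, 0) := by
    intro x l hx hl
    set lz : E := (l, 0) with hlz
    have hlz2 : lz ∈ Lam2 := ⟨hl, Lam.zero_mem⟩
    set ph : ℂ → ℝ := fun s => e * (‖s + l‖ ^ 2 - ‖s‖ ^ 2) with hph
    have hphs : ContDiff ℝ ∞ ph := by
      have b1 : ContDiff ℝ ∞ (fun s : ℂ => ‖s + l‖ ^ 2) :=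
        (contDiff_norm_sq ℝ).comp (contDiff_id.add contDiff_const)
      exact contDiff_const.mul (b1.sub (contDiff_norm_sq ℝ))
    have hev : (fun t => f (t + lz)) =ᶠ[𝓝 ((x, (0 : ℂ)) : E)] fun t => f t + ph t.1 := by
      filter_upwards [(C.open_V 0).mem_nhds (hmem x hx)] with t ht
      have u1 : U 0 (t + lz) = U 0 t := hU.per t lz ht hlz2
      have u2 : H ((t + lz).2 - (t + lz).1) = H (t.2 - t.1) := by
        have : (t + lz).2 - (t + lz).1 = (t.2 - t.1) + (-l) := by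
          simp only [hlz, Prod.fst_add, Prod.snd_add]; ring
        rw [this]
        exact hH.H_per _ _ (Lam.neg_mem hl)
      have u3 : H (t + lz).1 = H t.1 := by
        simp only [hlz, Prod.fst_add]
        exact hH.H_per _ _ hl
      show Th H A e 0 (t + lz) + U 0 (t + lz) = (Th H A e 0 t + U 0 t) + ph t.1
      rw [u1, hThe, hThe, u2, u3]
      simp only [hlz, Prod.fst_add, Prod.snd_add, add_zero, hph]
      ring
    have hfd : DifferentiableAt ℝ f ((x, (0 : ℂ)) : E) :=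
      (hsm x hx).differentiableAt (by simp)
    have hpd : DifferentiableAt ℝ (fun t : E => ph t.1) ((x, (0 : ℂ)) : E) :=
      ((hphs.comp contDiff_fst).contDiffAt).differentiableAt (by simp)
    have key : ∀ w : ℂ, fderiv ℝ f ((x + l, (0 : ℂ)) : E) (0, w) =
        fderiv ℝ f ((x, (0 : ℂ)) : E) (0, w) := by
      intro w
      have k1 : ((x + l, (0 : ℂ)) : E) = ((x, (0 : ℂ)) : E) + lz := by
        simp [hlz]
      have k2 : fderiv ℝ (fun t => f (t + lz)) ((x, (0 : ℂ)) : E) =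
          fderiv ℝ f (((x, (0 : ℂ)) : E) + lz) := fderiv_comp_add_right lz
      rw [k1, ← k2, hev.fderiv_eq]
      have k3 : fderiv ℝ (fun t => f t + ph t.1) ((x, (0 : ℂ)) : E) =
          fderiv ℝ f ((x, (0 : ℂ)) : E) + fderiv ℝ (fun t : E => ph t.1) ((x, (0 : ℂ)) : E) :=
        fderiv_fun_add hfd hpd
      rw [k3]
      have k4 : fderiv ℝ (fun t : E => ph t.1) ((x, (0 : ℂ)) : E) =
          (fderiv ℝ ph x).comp (ContinuousLinearMap.fst ℝ ℂ ℂ) := by
        have d1 : HasFDerivAt ph (fderiv ℝ ph x) x :=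
          ((hphs.contDiffAt (x := x)).differentiableAt (by simp)).hasFDerivAt
        have d2 : HasFDerivAt (fun t : E => t.1) (ContinuousLinearMap.fst ℝ ℂ ℂ)
            ((x, (0 : ℂ)) : E) := hasFDerivAt_fst
        exact (HasFDerivAt.comp ((x, (0 : ℂ)) : E) d1 d2).fderiv
      rw [k4]
      simp
    unfold dy
    rw [key 1, key Complex.I]
  have hpole := h4 H A e hH U hU (h1 H A e hH U hU hpos)
  refine h5 (fun x => (1 / 2 : ℂ) * dy f (x, 0)) ?_ ?_ ?_
  · intro x hx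
    exact (hhol x hx).const_mul _
  · intro x l hx hl
    show (1 / 2 : ℂ) * dy f (x + l, 0) = (1 / 2 : ℂ) * dy f (x, 0)
    rw [hper x l hx hl]
  · have h6 := hpole.const_mul (1 / 2 : ℂ)
    have h7 : (1 / 2 : ℂ) * (-2) = -1 := by norm_num
    rw [h7] at h6
    refine h6.congr fun x => ?_
    show (1 / 2 : ℂ) * (x * dy f (x, 0)) = x * ((1 / 2 : ℂ) * dy f (x, 0))
    ring


end JstNot

end Pool.Agent.Y810.SP
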