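import Pool.Agent.Y810.SP.Base

set_option autoImplicit false

open Set Topology Filter
open scoped ContDiff Manifold

namespace Pool.Agent.Y810.SP

namespace JstPole


theorem pole_clin (l : ℂ →L[ℝ] ℝ) (c : ℂ) :
    (l c : ℂ) - Complex.I * (l (Complex.I * c) : ℂ) =
      c * ((l 1 : ℂ) - Complex.I * (l Complex.I : ℂ)) := by
  have e1 : c = c.re • (1 : ℂ) + c.im • Complex.I := by
    apply Complex.ext <;> simp
  have e2 : Complex.I * c = (-c.im) • (1 : ℂ) + c.re • Complex.I := by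
    apply Complex.ext <;> simp
  have h1 : l c = c.re * l 1 + c.im * l Complex.I := by
    conv_lhs => rw [e1]
    rw [map_add, map_smul, map_smul]; simp
  have h2 : l (Complex.I * c) = -c.im * l 1 + c.re * l Complex.I := by
    rw [e2, map_add, map_smul, map_smul]; simp
  rw [h1, h2]
  push_cast
  have h3 : c = c.re + c.im * Complex.I := (Complex.re_add_im c).symm
  conv_rhs => rw [h3]
  linear_combination ((c.im : ℂ) * (l Complex.I : ℂ)) * Complex.I_sq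

theorem pole_H {H A : ℂ → ℝ} {e : ℝ} (h : HF H A e) : ContDiff ℝ ∞ H := by
  have : H = fun x => ‖x‖ ^ 2 * A x := funext h.H_eq
  rw [this]
  exact (contDiff_norm_sq ℝ).mul h.A_smooth

theorem pole_Th0 {H A : ℂ → ℝ} {e : ℝ} (h : HF H A e) (z : E) (hz : z.1 ∉ Lam)
    (hw : 0 ≤ H (z.2 - z.1)) :
    ContDiffAt ℝ ∞ (Th H A e 0) z := by
  have h1 : ContDiffAt ℝ ∞ (fun t : E => (tr 0 t).1) z := by
    change ContDiffAt ℝ ∞ (fun t : E => t.1) z
    exact contDiffAt_fst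
  have h2 : ContDiffAt ℝ ∞ (fun t : E => (tr 0 t).2) z := by
    change ContDiffAt ℝ ∞ (fun t : E => t.2 - t.1 + t.1) z
    exact (contDiffAt_snd.sub contDiffAt_fst).add contDiffAt_fst
  have h3 : ContDiffAt ℝ ∞ (fun t : E => ca H A 0 t + cb H A 0 t) z := by
    change ContDiffAt ℝ ∞ (fun t : E => H (t.2 - t.1) + H t.1 ^ 2) z
    have hH := pole_H h
    have a1 : ContDiffAt ℝ ∞ (fun t : E => H (t.2 - t.1)) z :=
      hH.contDiffAt.comp z (contDiffAt_snd.sub contDiffAt_fst)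
    have a2 : ContDiffAt ℝ ∞ (fun t : E => H t.1) z := hH.contDiffAt.comp z contDiffAt_fst
    exact a1.add (a2.pow 2)
  have h4 : ca H A 0 z + cb H A 0 z ≠ 0 := by
    change H (z.2 - z.1) + H z.1 ^ 2 ≠ 0
    have := h.H_pos z.1 hz
    positivity
  unfold Th
  exact ((contDiffAt_const.mul (h1.norm_sq ℝ)).add (contDiffAt_const.mul (h2.norm_sq ℝ))).add
    (h3.log h4)

theorem pole_Th2 {H A : ℂ → ℝ} {e : ℝ} (h : HF H A e) (z : E) (hz : z ∈ V 2) :
    ContDiffAt ℝ ∞ (Th H A e 2) z := by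
  have hx : ContDiffAt ℝ ∞ (fun t : E => xx 2 t) z := by
    change ContDiffAt ℝ ∞ (fun t : E => t.1 * t.2) z
    exact contDiffAt_fst.mul contDiffAt_snd
  have hw : ContDiffAt ℝ ∞ (fun t : E => ww 2 t) z := by
    change ContDiffAt ℝ ∞ (fun t : E => t.1 * t.2 ^ 2) z
    exact contDiffAt_fst.mul (contDiffAt_snd.pow 2)
  have h1 : ContDiffAt ℝ ∞ (fun t : E => (tr 2 t).1) z := hx
  have h2 : ContDiffAt ℝ ∞ (fun t : E => (tr 2 t).2) z := hw.add hx
  have h3 : ContDiffAt ℝ ∞ (fun t : E => ca H A 2 t + cb H A 2 t) z := by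
    change ContDiffAt ℝ ∞ (fun t : E => A (ww 2 t) + ‖t.1‖ ^ 2 * A (xx 2 t) ^ 2) z
    have a1 : ContDiffAt ℝ ∞ (fun t : E => A (ww 2 t)) z := h.A_smooth.contDiffAt.comp z hw
    have a2 : ContDiffAt ℝ ∞ (fun t : E => A (xx 2 t)) z := h.A_smooth.contDiffAt.comp z hx
    exact a1.add ((contDiffAt_fst.norm_sq ℝ).mul (a2.pow 2))
  have hz' : ‖xx 2 z‖ < 1 / 8 ∧ ‖ww 2 z‖ < 1 / 8 := by
    have : V 2 = {z | ‖xx 2 z‖ < 1 / 8 ∧ ‖ww 2 z‖ < 1 / 8} := by
      unfold V; rw [if_neg (by decide)]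
    rw [this] at hz
    exact hz
  have h4 : ca H A 2 z + cb H A 2 z ≠ 0 := by
    change A (ww 2 z) + ‖z.1‖ ^ 2 * A (xx 2 z) ^ 2 ≠ 0
    have := h.A_pos (ww 2 z) (by linarith [hz'.2])
    positivity
  unfold Th
  exact ((contDiffAt_const.mul (h1.norm_sq ℝ)).add (contDiffAt_const.mul (h2.norm_sq ℝ))).add
    (h3.log h4)

theorem pole_V2 (z : E) : z ∈ V 2 ↔ ‖z.1 * z.2‖ < 1 / 8 ∧ ‖z.1 * z.2 ^ 2‖ < 1 / 8 := by
  have : V 2 = {z | ‖xx 2 z‖ < 1 / 8 ∧ ‖ww 2 z‖ < 1 / 8} := by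
    unfold V; rw [if_neg (by decide)]
  rw [this]
  rfl

/-- the relation of the two potentials -/
theorem pole_rel (C : Coord) {H A : ℂ → ℝ} {e : ℝ} (h : HF H A e) {U : Fin 4 → E → ℝ}
    (hU : IsFun U) (t : E) (ht : t ∈ V 2) (h1 : t.1 ≠ 0) (h2 : t.2 ≠ 0) :
    Th H A e 0 (tr 2 t) + U 0 (tr 2 t) =
      Th H A e 2 t + U 2 t + Real.log (‖t.1 * t.2 ^ 2‖ ^ 2) := by
  have hne : tr 2 t ≠ 0 := by
    intro hh
    have : (tr 2 t).1 = 0 := by rw [hh]; rfl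
    change t.1 * t.2 = 0 at this
    exact (mul_ne_zero h1 h2) this
  have hU2 : U 2 t = U 0 (tr 2 t) := hU.compat 2 t ht ((C.exc 2 (by decide) t ht).2 hne)
  rw [hU2]
  have hV := (pole_V2 t).1 ht
  have hA : 0 < A (t.1 * t.2 ^ 2) := h.A_pos _ (by linarith [hV.2])
  have e1 : ca H A 0 (tr 2 t) = ‖t.1 * t.2 ^ 2‖ ^ 2 * ca H A 2 t := by
    change H ((t.1 * t.2 ^ 2 + t.1 * t.2) - t.1 * t.2) = ‖t.1 * t.2 ^ 2‖ ^ 2 * A (t.1 * t.2 ^ 2)
    rw [add_sub_cancel_right, h.H_eq]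
  have e2 : cb H A 0 (tr 2 t) = ‖t.1 * t.2 ^ 2‖ ^ 2 * cb H A 2 t := by
    change H (t.1 * t.2) ^ 2 = ‖t.1 * t.2 ^ 2‖ ^ 2 * (‖t.1‖ ^ 2 * A (t.1 * t.2) ^ 2)
    rw [h.H_eq, norm_mul, norm_mul, norm_pow]
    ring
  have e3 : tr 0 (tr 2 t) = tr 2 t := C.tr0 _
  have e4 : ca H A 2 t + cb H A 2 t ≠ 0 := by
    change A (t.1 * t.2 ^ 2) + ‖t.1‖ ^ 2 * A (t.1 * t.2) ^ 2 ≠ 0
    positivity
  have e5 : ‖t.1 * t.2 ^ 2‖ ^ 2 ≠ 0 := by
    have : t.1 * t.2 ^ 2 ≠ 0 := mul_ne_zero h1 (pow_ne_zero 2 h2)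
    positivity
  unfold Th
  rw [e3, e1, e2, ← mul_add, Real.log_mul e5 e4]
  ring

/-- the derivative of the logarithm -/
theorem pole_log (x : ℂ) (hx : x ≠ 0) :
    HasFDerivAt (fun y : ℂ => Real.log (‖y - x‖ ^ 2))
      ((‖(0 : ℂ) - x‖ ^ 2)⁻¹ • ((2 : ℝ) • (innerSL ℝ ((0 : ℂ) - x)))) 0 := by
  have h1 : HasFDerivAt (fun y : ℂ => ‖y - x‖ ^ 2) ((2 : ℝ) • (innerSL ℝ ((0 : ℂ) - x))) 0 := by
    have h2 : HasFDerivAt (fun y : ℂ => y - x) (ContinuousLinearMap.id ℝ ℂ) 0 :=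
      (hasFDerivAt_id (𝕜 := ℝ) (0 : ℂ)).sub_const x
    have h3 := h2.norm_sq
    have h4 : (2 : ℝ) • (innerSL ℝ ((0 : ℂ) - x)) =
        2 • ((innerSL ℝ ((0 : ℂ) - x)).comp (ContinuousLinearMap.id ℝ ℂ)) := by
      ext <;> simp <;> ring
    rw [h4]
    exact h3
  exact h1.log (by simpa using hx)

theorem pole_log_val (x : ℂ) (u : ℂ) :
    ((‖(0 : ℂ) - x‖ ^ 2)⁻¹ • ((2 : ℝ) • (innerSL ℝ ((0 : ℂ) - x)))) u =
      -2 * (x.re * u.re + x.im * u.im) / ‖x‖ ^ 2 := by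
  simp [Complex.inner]
  ring


/-- the map `y ↦ (x² / (y - x), (y - x) / x)` -/
noncomputable def polePhi (x : ℂ) (y : ℂ) : E := (x ^ 2 / (y - x), (y - x) / x)

theorem polePhi_zero (x : ℂ) (hx : x ≠ 0) : polePhi x 0 = (-x, -1) := by
  unfold polePhi
  refine Prod.ext ?_ ?_
  · change x ^ 2 / (0 - x) = -x
    rw [zero_sub]; field_simp
  · change (0 - x) / x = -1
    rw [zero_sub]; field_simp

theorem polePhi_deriv (x : ℂ) (hx : x ≠ 0) : HasDerivAt (polePhi x) ((-1 : ℂ), 1 / x) 0 := by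
  have h0 : HasDerivAt (fun y : ℂ => y - x) 1 0 := (hasDerivAt_id (0 : ℂ)).sub_const x
  have h1 : HasDerivAt (fun y : ℂ => x ^ 2 / (y - x)) (-1) 0 := by
    have h1 := (hasDerivAt_const (0 : ℂ) (x ^ 2)).div h0 (by simpa using hx)
    have e : ((0 * (0 - x) - x ^ 2 * 1) / (0 - x) ^ 2) = -1 := by
      rw [zero_sub]; field_simp; ring
    rw [e] at h1
    exact h1
  have h2 : HasDerivAt (fun y : ℂ => (y - x) / x) (1 / x) 0 := h0.div_const x
  exact h1.prodMk h2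

theorem polePhi_tr (x y : ℂ) (hx : x ≠ 0) (hy : y - x ≠ 0) : tr 2 (polePhi x y) = (x, y) := by
  refine Prod.ext ?_ ?_
  · change x ^ 2 / (y - x) * ((y - x) / x) = x
    field_simp
  · change x ^ 2 / (y - x) * ((y - x) / x) ^ 2 + x ^ 2 / (y - x) * ((y - x) / x) = y
    field_simp
    ring

theorem pole_key (x y : ℂ) (hx : x ≠ 0) (hy : y - x ≠ 0) :
    (polePhi x y).1 * (polePhi x y).2 ^ 2 = y - x := by
  change x ^ 2 / (y - x) * ((y - x) / x) ^ 2 = y - x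
  field_simp

theorem pole_Lam (x : ℂ) (hx : x ≠ 0) (h : ‖x‖ < 1) : x ∉ Lam := by
  rintro ⟨m, n, hmn⟩
  have h1 : |x.re| < 1 := lt_of_le_of_lt (Complex.abs_re_le_norm x) h
  have h2 : |x.im| < 1 := lt_of_le_of_lt (Complex.abs_im_le_norm x) h
  rw [hmn] at h1 h2
  simp at h1 h2
  have hm : m = 0 := by
    have : (|m| : ℤ) < 1 := by exact_mod_cast h1
    exact Int.abs_lt_one_iff.1 this
  have hn : n = 0 := by
    have : (|n| : ℤ) < 1 := by exact_mod_cast h2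
    exact Int.abs_lt_one_iff.1 this
  apply hx
  rw [hmn, hm, hn]
  simp

theorem pole_val (C : Coord) {H A : ℂ → ℝ} {e : ℝ} (h : HF H A e) {U : Fin 4 → E → ℝ}
    (hU : IsFun U) (x : ℂ) (hx : x ≠ 0) (hx8 : ‖x‖ < 1 / 8) :
    x * dy (fun t => Th H A e 0 t + U 0 t) (x, 0) =
      -2 - x * ((fderiv ℝ (fun t => Th H A e 2 t + U 2 t) (-x, -1) (1, 0) : ℂ) -
          Complex.I * (fderiv ℝ (fun t => Th H A e 2 t + U 2 t) (-x, -1) (Complex.I, 0) : ℂ)) +
        dy (fun t => Th H A e 2 t + U 2 t) (-x, -1) := by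
  set f : E → ℝ := fun t => Th H A e 0 t + U 0 t with hf
  set g : E → ℝ := fun t => Th H A e 2 t + U 2 t with hg
  have hxL : x ∉ Lam := pole_Lam x hx (by linarith)
  have hV0 : ((x, 0) : E) ∈ V 0 := by
    have : V 0 = Lam2ᶜ := by unfold V; rw [if_pos rfl]
    rw [this]
    intro hh
    exact hxL hh.1
  have hV2 : ((-x, -1) : E) ∈ V 2 := by
    rw [pole_V2]
    constructor
    · simpa using hx8
    · simpa using hx8
  have hfd : DifferentiableAt ℝ f (x, 0) := by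
    have a1 : ContDiffAt ℝ ∞ (Th H A e 0) (x, 0) := by
      refine pole_Th0 h (x, 0) hxL ?_
      change 0 ≤ H (0 - x)
      rw [zero_sub, h.H_even]
      exact (h.H_pos x hxL).le
    exact (a1.add (hU.smooth 0 _ hV0)).differentiableAt (by simp)
  have hgd : DifferentiableAt ℝ g (-x, -1) :=
    ((pole_Th2 h _ hV2).add (hU.smooth 2 _ hV2)).differentiableAt (by simp)
  -- the line
  have hline : HasFDerivAt (fun y : ℂ => ((x, y) : E)) (ContinuousLinearMap.inr ℝ ℂ ℂ) 0 :=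
    hasFDerivAt_prodMk_right x 0
  have hf1 : HasFDerivAt (fun y : ℂ => f (x, y))
      ((fderiv ℝ f (x, 0)).comp (ContinuousLinearMap.inr ℝ ℂ ℂ)) 0 :=
    HasFDerivAt.comp (g := f) (f := fun y : ℂ => ((x, y) : E)) 0 hfd.hasFDerivAt hline
  -- the map `φ`
  have hphi : HasFDerivAt (polePhi x)
      (((1 : ℂ →L[ℂ] ℂ).smulRight ((-1 : ℂ), 1 / x)).restrictScalars ℝ) 0 :=
    (polePhi_deriv x hx).hasFDerivAt.restrictScalars ℝ
  have hg0 : HasFDerivAt g (fderiv ℝ g (-x, -1)) (polePhi x 0) := by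
    rw [polePhi_zero x hx]; exact hgd.hasFDerivAt
  have hg1 := hg0.comp 0 hphi
  have hs := hg1.add (pole_log x hx)
  -- eventual equality
  have hev : (fun y : ℂ => f (x, y)) =ᶠ[𝓝 0]
      fun y => (g ∘ polePhi x) y + Real.log (‖y - x‖ ^ 2) := by
    have hc : ContinuousAt (polePhi x) 0 := (polePhi_deriv x hx).continuousAt
    have ev1 : ∀ᶠ y in 𝓝 (0 : ℂ), polePhi x y ∈ V 2 := by
      apply hc.eventually
      rw [polePhi_zero x hx]
      exact (C.open_V 2).mem_nhds hV2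
    have ev2 : ∀ᶠ y in 𝓝 (0 : ℂ), y - x ≠ 0 := by
      have : ContinuousAt (fun y : ℂ => y - x) 0 := by fun_prop
      exact this.eventually_ne (by simpa using hx)
    filter_upwards [ev1, ev2] with y hy1 hy2
    have hrel := pole_rel C h hU (polePhi x y) hy1
      (by
        change x ^ 2 / (y - x) ≠ 0
        exact div_ne_zero (pow_ne_zero 2 hx) hy2)
      (by
        change (y - x) / x ≠ 0
        exact div_ne_zero hy2 hx)
    rw [polePhi_tr x y hx hy2, pole_key x y hx hy2] at hrel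
    exact hrel
  have huniq := hf1.unique (hs.congr_of_eventuallyEq hev)
  have hval : ∀ u : ℂ, fderiv ℝ f (x, 0) (0, u) =
      fderiv ℝ g (-x, -1) (-u, u / x) + -2 * (x.re * u.re + x.im * u.im) / ‖x‖ ^ 2 := by
    intro u
    have := congrArg (fun l : ℂ →L[ℝ] ℝ => l u) huniq
    rw [add_apply] at this
    rw [pole_log_val] at this
    simpa [div_eq_mul_inv] using this
  have hlin : ∀ u : ℂ, fderiv ℝ g (-x, -1) (-u, u / x) =
      -(fderiv ℝ g (-x, -1) (u, 0)) + fderiv ℝ g (-x, -1) (0, u / x) := by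
    intro u
    have : ((-u, u / x) : E) = -(u, 0) + (0, u / x) := by simp
    rw [this, map_add, map_neg]
  have hcl := pole_clin ((fderiv ℝ g (-x, -1)).comp (ContinuousLinearMap.inr ℝ ℂ ℂ)) (1 / x)
  simp only [ContinuousLinearMap.comp_apply, ContinuousLinearMap.inr_apply] at hcl
  have hxn : ((‖x‖ : ℝ) : ℂ) ^ 2 = x * (starRingEnd ℂ) x := by
    rw [Complex.mul_conj, Complex.normSq_eq_norm_sq]; push_cast; rfl
  have hxx : x = x.re + x.im * Complex.I := (Complex.re_add_im x).symm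
  have hcc : (starRingEnd ℂ) x = x.re - x.im * Complex.I := by
    apply Complex.ext <;> simp
  have hcx : (starRingEnd ℂ) x ≠ 0 := by simpa using hx
  have hfin : x * (((-2 * (x.re * (1 : ℂ).re + x.im * (1 : ℂ).im) / ‖x‖ ^ 2 : ℝ) : ℂ) -
      Complex.I * ((-2 * (x.re * Complex.I.re + x.im * Complex.I.im) / ‖x‖ ^ 2 : ℝ) : ℂ)) = -2 := by
    push_cast
    rw [hxn]
    simp only [Complex.one_re, Complex.one_im, Complex.I_re, Complex.I_im, Complex.ofReal_one,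
      Complex.ofReal_zero]
    field_simp
    rw [hcc]
    ring
  unfold dy
  rw [hval 1, hval Complex.I, hlin 1, hlin Complex.I]
  have e3 : Complex.I * (1 / x) = Complex.I / x := by ring
  rw [e3] at hcl
  rw [Complex.ofReal_add, Complex.ofReal_add, Complex.ofReal_add, Complex.ofReal_add,
    Complex.ofReal_neg, Complex.ofReal_neg]
  have hcl' : x * ((fderiv ℝ g (-x, -1) (0, 1 / x) : ℂ) -
      Complex.I * (fderiv ℝ g (-x, -1) (0, Complex.I / x) : ℂ)) =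
      (fderiv ℝ g (-x, -1) (0, 1) : ℂ) - Complex.I * (fderiv ℝ g (-x, -1) (0, Complex.I) : ℂ) := by
    rw [hcl]; field_simp
  linear_combination hfin + hcl'


theorem pole_zero {H A : ℂ → ℝ} {e : ℝ} (h : HF H A e) {U : Fin 4 → E → ℝ}
    (hU : IsFun U) (hc : ∀ η : ℂ, U 2 (0, η) = U 2 (0, 0)) :
    dy (fun t => Th H A e 2 t + U 2 t) (0, -1) = 0 := by
  set g : E → ℝ := fun t => Th H A e 2 t + U 2 t with hg
  have hV2 : ((0, -1) : E) ∈ V 2 := by
    rw [pole_V2]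
    constructor <;> norm_num
  have hgd : DifferentiableAt ℝ g (0, -1) :=
    ((pole_Th2 h _ hV2).add (hU.smooth 2 _ hV2)).differentiableAt (by simp)
  have hline : HasFDerivAt (fun y : ℂ => ((0, y) : E)) (ContinuousLinearMap.inr ℝ ℂ ℂ) (-1) :=
    hasFDerivAt_prodMk_right 0 (-1)
  have hf1 : HasFDerivAt (fun y : ℂ => g (0, y))
      ((fderiv ℝ g (0, -1)).comp (ContinuousLinearMap.inr ℝ ℂ ℂ)) (-1) :=
    HasFDerivAt.comp (g := g) (f := fun y : ℂ => ((0, y) : E)) (-1) hgd.hasFDerivAt hline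
  have hconst : (fun y : ℂ => g (0, y)) = fun _ => g (0, 0) := by
    funext y
    have e1 : tr 2 ((0, y) : E) = 0 := by
      refine Prod.ext ?_ ?_
      · change (0 : ℂ) * y = 0
        ring
      · change (0 : ℂ) * y ^ 2 + 0 * y = 0
        ring
    have e2 : tr 2 ((0, 0) : E) = 0 := by
      refine Prod.ext ?_ ?_
      · change (0 : ℂ) * 0 = 0
        ring
      · change (0 : ℂ) * 0 ^ 2 + 0 * 0 = 0
        ring
    have e3 : ca H A 2 ((0, y) : E) = A 0 := by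
      change A (0 * y ^ 2) = A 0
      rw [zero_mul]
    have e4 : ca H A 2 ((0, 0) : E) = A 0 := by
      change A (0 * 0 ^ 2) = A 0
      rw [zero_mul]
    have e5 : cb H A 2 ((0, y) : E) = 0 := by
      change ‖(0 : ℂ)‖ ^ 2 * A (0 * y) ^ 2 = 0
      simp
    have e6 : cb H A 2 ((0, 0) : E) = 0 := by
      change ‖(0 : ℂ)‖ ^ 2 * A (0 * 0) ^ 2 = 0
      simp
    change Th H A e 2 (0, y) + U 2 (0, y) = Th H A e 2 (0, 0) + U 2 (0, 0)
    unfold Th
    rw [e1, e2, e3, e4, e5, e6, hc y]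
  have h2 : HasFDerivAt (fun y : ℂ => g (0, y)) (0 : ℂ →L[ℝ] ℝ) (-1) := by
    rw [hconst]; exact hasFDerivAt_const _ _
  have huniq := hf1.unique h2
  have hval : ∀ u : ℂ, fderiv ℝ g (0, -1) (0, u) = 0 := by
    intro u
    have := congrArg (fun l : ℂ →L[ℝ] ℝ => l u) huniq
    simpa using this
  unfold dy
  rw [hval 1, hval Complex.I]
  simp

/-- TARGET. Proof in words:
Put f = Th 0 + U 0 and g = Th 2 + U 2 (functions on E). At z ∈ V 2 with ξη ≠ 0 (z = (ξ, η)): U 2 = U 0 ∘ tr 2, and ca 2, cb 2 satisfy H w = |m|² ca 2, (H x)² = |m|² cb 2, m = ξη² (H t = |t|² A t,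
x = ξη, w = ξη²), so `f (tr 2 t) = g t + log |t.1 * t.2²|²` for t ∈ V 2 with t.1 t.2 ≠ 0. For small x ≠ 0 and y near 0 let ξ = x²/(y - x), η = (y - x)/x; then
tr 2 (ξ, η) = (x, y). So near (x, 0): `f (x, y) = g (ξ, η) + log |ξ η²|²` with ξ η² = y - x: `f (x, y) = g (x²/(y - x), (y - x)/x) + log |y - x|²`.
Apply dy (= 2∂/∂y) at y = 0. dy of log |y - x|² is 2/(y - x) = -2/x. For the holomorphic map y ↦ (ξ, η): ∂η/∂y = 1/x, ∂ξ/∂y = - x²/(y-x)² = -1 at y = 0; at y = 0: ξ = -x, η = -1.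
Chain rule: dy (g∘(ξ,η)) = g_ξ(-x,-1) · (-1) + g_η(-x,-1) · (1/x) where g_ξ = Dg(1,0) - I Dg(I,0), g_η = Dg(0,1) - I Dg(0,I) (for a real linear form ℓ on ℂ and
c ∈ ℂ: ℓ(c) - I ℓ(I c) = c (ℓ(1) - I ℓ(I))). So `x dy f (x,0) = -2 - x g_ξ(-x,-1) + g_η(-x,-1)`. As x → 0: g is C¹ near (0,-1), so this tends to
-2 + g_η(0,-1), and g_η(0, -1) = 0 as η ↦ g (0, η) = log (A 0) + U 2 (0, η) is constant by the hypothesis (tr 2 (0,η) = 0, ca 2 = A 0, cb 2 = 0).
(V 2 contains (0, -1) and a neighbourhood of it, C.open_V.)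
-/
theorem stPole (L : LevBasics) (C : Coord) : StPole := by
  intro H A e h U hU hc
  set g : E → ℝ := fun t => Th H A e 2 t + U 2 t with hg
  have hV2 : ((0, -1) : E) ∈ V 2 := by
    rw [pole_V2]
    constructor <;> norm_num
  have hgs : ContDiffAt ℝ ∞ g (0, -1) := (pole_Th2 h _ hV2).add (hU.smooth 2 _ hV2)
  have hfc : ContinuousAt (fderiv ℝ g) (0, -1) :=
    (hgs.fderiv_right (m := 0) (by simp)).continuousAt
  have hpt : Tendsto (fun x : ℂ => ((-x, -1) : E)) (𝓝[≠] 0) (𝓝 (0, -1)) := by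
    have : ContinuousAt (fun x : ℂ => ((-x, -1) : E)) 0 := by fun_prop
    have h2 := this.tendsto
    simp only [neg_zero] at h2
    exact h2.mono_left nhdsWithin_le_nhds
  have hF : Tendsto (fun x : ℂ => fderiv ℝ g (-x, -1)) (𝓝[≠] 0) (𝓝 (fderiv ℝ g (0, -1))) :=
    hfc.tendsto.comp hpt
  have hap : ∀ v : E, Tendsto (fun x : ℂ => ((fderiv ℝ g (-x, -1) v : ℝ) : ℂ)) (𝓝[≠] 0)
      (𝓝 ((fderiv ℝ g (0, -1) v : ℝ) : ℂ)) := by
    intro v
    have h1 : Tendsto (fun x : ℂ => fderiv ℝ g (-x, -1) v) (𝓝[≠] 0)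
        (𝓝 (fderiv ℝ g (0, -1) v)) :=
      ((ContinuousLinearMap.apply ℝ ℝ v).continuous.tendsto _).comp hF
    exact (Complex.continuous_ofReal.tendsto _).comp h1
  have hx0 : Tendsto (fun x : ℂ => x) (𝓝[≠] 0) (𝓝 0) := tendsto_id.mono_left nhdsWithin_le_nhds
  have hlim : Tendsto (fun x : ℂ => -2 - x * ((fderiv ℝ g (-x, -1) (1, 0) : ℂ) -
      Complex.I * (fderiv ℝ g (-x, -1) (Complex.I, 0) : ℂ)) + dy g (-x, -1)) (𝓝[≠] 0)
      (𝓝 (-2 - 0 * ((fderiv ℝ g (0, -1) (1, 0) : ℂ) -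
      Complex.I * (fderiv ℝ g (0, -1) (Complex.I, 0) : ℂ)) + dy g (0, -1))) := by
    refine Tendsto.add (Tendsto.sub tendsto_const_nhds (hx0.mul ?_)) ?_
    · exact (hap _).sub (tendsto_const_nhds.mul (hap _))
    · unfold dy
      exact (hap _).sub (tendsto_const_nhds.mul (hap _))
  rw [pole_zero h hU hc] at hlim
  simp only [zero_mul, sub_zero, add_zero] at hlim
  refine hlim.congr' ?_
  have ev1 : ∀ᶠ x in 𝓝[≠] (0 : ℂ), x ≠ 0 := eventually_mem_nhdsWithin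
  have ev2 : ∀ᶠ x in 𝓝[≠] (0 : ℂ), ‖x‖ < 1 / 8 := by
    apply eventually_nhdsWithin_of_eventually_nhds
    have := Metric.ball_mem_nhds (0 : ℂ) (show (0 : ℝ) < 1 / 8 by norm_num)
    filter_upwards [this] with x hx
    simpa using hx
  filter_upwards [ev1, ev2] with x hx1 hx2
  exact (pole_val C h hU x hx1 hx2).symm


end JstPole

end Pool.Agent.Y810.SP
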