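import Pool.Agent.Y810.SP.Base
import Pool.Agent.H171R3.FV.Lame

set_option autoImplicit false

open Set Topology Filter
open scoped ContDiff Manifold

namespace Pool.Agent.Y810.SP

namespace JstRes



theorem stRes_mem (x : ℂ) : x ∈ Lam ↔ x ∈ Wg.Lam := by
  constructor
  · rintro ⟨m, n, h⟩; exact ⟨m, n, h⟩
  · rintro ⟨m, n, h⟩; exact ⟨m, n, h⟩

theorem stRes_zt_lim : Tendsto (fun x : ℂ => x * H171FV.zt x) (𝓝[≠] 0) (𝓝 1) := by
  have h1 : Tendsto (fun x : ℂ => x * (H171FV.zt x - 1 / x)) (𝓝 0) (𝓝 (0 * (H171FV.zt 0 - 1 / 0))) :=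
    (continuous_id.tendsto 0).mul H171FV.zt_an.continuousAt.tendsto
  rw [zero_mul] at h1
  have h2 : Tendsto (fun x : ℂ => x * (H171FV.zt x - 1 / x) + 1) (𝓝[≠] 0) (𝓝 (0 + 1)) :=
    (h1.mono_left nhdsWithin_le_nhds).add tendsto_const_nhds
  rw [zero_add] at h2
  refine h2.congr' ?_
  filter_upwards [self_mem_nhdsWithin] with x hx
  have hx' : x ≠ 0 := hx
  field_simp
  ring

theorem stRes_aux (h : ℂ → ℂ) (hd : ∀ x, x ∉ Wg.Lam → DifferentiableAt ℂ h x)
    (hq : ∀ l ∈ Wg.Lam, ∃ c : ℂ, ∀ x, x ∉ Wg.Lam → h (x + l) = h x + c)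
    (h0 : Tendsto (fun x => x * h x) (𝓝[≠] 0) (𝓝 0)) :
    ∃ k : ℂ → ℂ, Differentiable ℂ k ∧ ∀ x, x ∉ Wg.Lam → k x = h x := by
  have hl : ∀ l ∈ Wg.Lam, Tendsto (fun x => (x - l) * h x) (𝓝[≠] l) (𝓝 0) := by
    intro l hlm
    obtain ⟨c, hc⟩ := hq l hlm
    have ht : Tendsto (fun x : ℂ => x - l) (𝓝[≠] l) (𝓝[≠] 0) := by
      refine tendsto_nhdsWithin_of_tendsto_nhds_of_eventually_within _ ?_ ?_
      · have : Tendsto (fun x : ℂ => x - l) (𝓝 l) (𝓝 (l - l)) :=
          (continuous_id.sub continuous_const).tendsto l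
        rw [sub_self] at this
        exact this.mono_left nhdsWithin_le_nhds
      · filter_upwards [self_mem_nhdsWithin] with z hz h'
        exact hz (by simpa [sub_eq_zero] using h')
    have h2 : Tendsto (fun x : ℂ => (x - l) * h (x - l) + (x - l) * c) (𝓝[≠] l) (𝓝 (0 + 0 * c)) := by
      refine (h0.comp ht).add (Tendsto.mul_const c ?_)
      exact tendsto_nhds_of_tendsto_nhdsWithin ht
    rw [zero_mul, zero_add] at h2
    refine h2.congr' ?_
    filter_upwards [H171FV.Lam_near l] with x hx
    have hx' : x - l ∉ Wg.Lam := fun h' => hx (by simpa using Wg.Lam.add_mem h' hlm)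
    have := hc (x - l) hx'
    rw [sub_add_cancel] at this
    rw [this]; ring
  have hk1 : ∀ x, x ∉ Wg.Lam → limUnder (𝓝[≠] x) h = h x := by
    intro x hx
    exact ((hd x hx).continuousAt.tendsto.mono_left nhdsWithin_le_nhds).limUnder_eq
  refine ⟨fun x => limUnder (𝓝[≠] x) h, ?_, hk1⟩
  intro c
  have hnear := H171FV.Lam_near c
  rw [eventually_nhdsWithin_iff] at hnear
  obtain ⟨s, hs, hsc⟩ : ∃ s ∈ 𝓝 c, ∀ x ∈ s, x ∈ ({c} : Set ℂ)ᶜ → x ∉ Wg.Lam := ⟨_, hnear, fun x hx => hx⟩
  have hdo : DifferentiableOn ℂ h (s \ {c}) := by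
    intro x hx
    exact (hd x (hsc x hx.1 hx.2)).differentiableWithinAt
  have ho : (fun z => h z - h c) =o[𝓝[≠] c] fun z => (z - c)⁻¹ := by
    have hlim : Tendsto (fun x => (x - c) * h x) (𝓝[≠] c) (𝓝 0) := by
      by_cases hc : c ∈ Wg.Lam
      · exact hl c hc
      · have h1 : Tendsto (fun x => (x - c) * h x) (𝓝 c) (𝓝 ((c - c) * h c)) :=
          ((continuous_id.sub continuous_const).tendsto c).mul (hd c hc).continuousAt.tendsto
        rw [sub_self, zero_mul] at h1
        exact h1.mono_left nhdsWithin_le_nhds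
    rw [Asymptotics.isLittleO_iff_tendsto']
    · have h3 : Tendsto (fun x : ℂ => (x - c) * h c) (𝓝[≠] c) (𝓝 0) := by
        have h1 : Tendsto (fun x : ℂ => (x - c) * h c) (𝓝 c) (𝓝 ((c - c) * h c)) :=
          ((continuous_id.sub continuous_const).tendsto c).mul tendsto_const_nhds
        rw [sub_self, zero_mul] at h1
        exact h1.mono_left nhdsWithin_le_nhds
      have h4 := hlim.sub h3
      rw [sub_zero] at h4
      refine h4.congr' ?_
      filter_upwards [self_mem_nhdsWithin] with x hx
      have hx' : x - c ≠ 0 := sub_ne_zero.mpr hx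
      field_simp
    · filter_upwards [self_mem_nhdsWithin] with x hx h'
      have hx' : x - c ≠ 0 := sub_ne_zero.mpr hx
      exact absurd h' (inv_ne_zero hx')
  have hmain := Complex.differentiableOn_update_limUnder_of_isLittleO hs hdo ho
  have hat := hmain.differentiableAt hs
  refine hat.congr_of_eventuallyEq ?_
  filter_upwards [hs] with x hx
  by_cases hxc : x = c
  · subst hxc; simp
  · rw [Function.update_of_ne hxc]
    exact hk1 x (hsc x hx hxc)

theorem stRes_aux2 (k : ℂ → ℂ) (hk : Differentiable ℂ k) (η : ℂ) (h1 : ∀ x, k (x + 1) = k x + η)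
    (h2 : ∀ x, k (x + Complex.I) = k x - Complex.I * η) : η = 0 := by
  have hk' : Differentiable ℂ (deriv k) := by
    intro x
    exact (hk.analyticAt x).deriv.differentiableAt
  have p1 : Function.Periodic (deriv k) 1 := by
    intro x
    have : (fun x => k (x + 1)) = fun x => k x + η := funext h1
    have e := congrArg (fun f => deriv f x) this
    simp only [deriv_comp_add_const, deriv_add_const] at e
    exact e
  have p2 : Function.Periodic (deriv k) Complex.I := by
    intro x
    have : (fun x => k (x + Complex.I)) = fun x => k x - Complex.I * η := funext h2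
    have e := congrArg (fun f => deriv f x) this
    simp only [deriv_comp_add_const, deriv_sub_const] at e
    exact e
  have hb : Bornology.IsBounded (range (deriv k)) := by
    have hc : Bornology.IsBounded (deriv k '' Metric.closedBall 0 2) :=
      ((isCompact_closedBall (0 : ℂ) 2).image hk'.continuous).isBounded
    refine hc.subset ?_
    rintro _ ⟨x, rfl⟩
    refine ⟨x - (⌊x.re⌋ : ℂ) - (⌊x.im⌋ : ℂ) * Complex.I, ?_, ?_⟩
    · rw [mem_closedBall_zero_iff]
      refine (Complex.norm_le_abs_re_add_abs_im _).trans ?_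
      have e1 : (x - (⌊x.re⌋ : ℂ) - (⌊x.im⌋ : ℂ) * Complex.I).re = Int.fract x.re := by
        simp
      have e2 : (x - (⌊x.re⌋ : ℂ) - (⌊x.im⌋ : ℂ) * Complex.I).im = Int.fract x.im := by
        simp
      rw [e1, e2, abs_of_nonneg (Int.fract_nonneg _), abs_of_nonneg (Int.fract_nonneg _)]
      linarith [Int.fract_lt_one x.re, Int.fract_lt_one x.im]
    · have q1 := p1.sub_zsmul_eq (x := x - (⌊x.im⌋ : ℂ) * Complex.I) ⌊x.re⌋
      have q2 := p2.sub_zsmul_eq (x := x) ⌊x.im⌋
      simp only [zsmul_eq_mul, mul_one] at q1 q2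
      rw [← q2, ← q1]
      congr 1
      ring
  have hconst : ∀ x, deriv k x = deriv k 0 := fun x =>
    hk'.apply_eq_apply_of_bounded hb x 0
  have hlin : ∀ x, k x - deriv k 0 * x = k 0 - deriv k 0 * 0 := by
    intro x
    refine is_const_of_deriv_eq_zero (f := fun x => k x - deriv k 0 * x) ?_ ?_ x 0
    · exact hk.sub ((differentiable_const _).mul differentiable_id)
    · intro x
      have hd1 : HasDerivAt (fun x => k x - deriv k 0 * x) (deriv k x - deriv k 0 * 1) x :=
        (hk x).hasDerivAt.sub ((hasDerivAt_id x).const_mul _)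
      rw [hd1.deriv, hconst x]; ring
  have e1 := h1 0
  have e2 := h2 0
  have f1 := hlin 1
  have f2 := hlin Complex.I
  rw [zero_add] at e1 e2
  have g1 : deriv k 0 = η := by
    rw [e1] at f1
    linear_combination -f1
  have g2 : deriv k 0 * Complex.I = - Complex.I * η := by
    rw [e2] at f2
    linear_combination -f2
  rw [g1] at g2
  have g3 : 2 * Complex.I * η = 0 := by linear_combination g2
  simpa using g3

/-- TARGET. Proof in words:
The library has the Weierstrass zeta function of ℤ[i]: `H171FV.zt` (modules Pool.Agent.H171R3.FV.Sig, .Lame), with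
`H171FV.zt_one : z ∉ Lam → zt (z + 1) = zt z + eta`, `H171FV.zt_addI : z ∉ Lam → zt (z + I) = zt z - I * eta`,
`H171FV.eta_ne : eta ≠ 0`, `H171FV.zt_an : AnalyticAt ℂ (fun z => zt z - 1 / z) 0`, `H171FV.zt_deriv` (holomorphic off the
lattice). (`Wg.Lam` there is the same lattice as `Lam` here; prove the membership equivalence.)
Suppose `g` is holomorphic off Λ, periodic, and `x g x → -1` at 0. Put `h = g + zt` off Λ. Then `x h x → 0` at 0, so `h` has a
removable singularity at 0; by `h (x + 1) = h x + η`, `h (x + I) = h x - I η` (so `h (x + l) = h x + const` for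
l in Λ) also at all points of Λ, so `h` extends to an entire function `k` with `k (x+1) = k x + η`, `k (x+I) = k x - I η`
(by continuity everywhere). Then `deriv k` is entire and doubly periodic, hence bounded, hence constant (Liouville,
`Differentiable.apply_eq_apply_of_bounded`): `k x = a x + b`. So `a = η` and `a I = - I η`, so `η = -η`, `η = 0`,
a contradiction. (You may use any other proof, e.g. Cauchy's theorem for the boundary of a period square shifted off the
lattice, if the library offers it.)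
-/
theorem stRes : StRes := by
  intro g hg1 hg2 hlim
  have hg1' : ∀ x, x ∉ Wg.Lam → DifferentiableAt ℂ g x := fun x hx =>
    hg1 x (fun h => hx ((stRes_mem x).1 h))
  have hg2' : ∀ x l, x ∉ Wg.Lam → l ∈ Wg.Lam → g (x + l) = g x := fun x l hx hl =>
    hg2 x l (fun h => hx ((stRes_mem x).1 h)) ((stRes_mem l).2 hl)
  obtain ⟨k, hk, hkh⟩ := stRes_aux (fun x => g x + H171FV.zt x)
    (fun x hx => (hg1' x hx).add (H171FV.zt_deriv hx).differentiableAt)
    (fun l hl => by
      obtain ⟨c, hc⟩ := H171FV.zt_lat hl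
      refine ⟨c, fun x hx => ?_⟩
      rw [hg2' x l hx hl, hc x hx]; ring)
    (by
      have := hlim.add stRes_zt_lim
      rw [show (-1 : ℂ) + 1 = 0 by ring] at this
      refine this.congr (fun x => ?_)
      ring)
  have hdense : Dense ((Wg.Lam : Set ℂ)ᶜ) := Wg.zeta_quasi_countable.dense_compl ℝ
  have e1 : (fun x => k (x + 1)) = fun x => k x + H171FV.eta := by
    refine Continuous.ext_on hdense (hk.continuous.comp (continuous_id.add continuous_const))
      (hk.continuous.add continuous_const) ?_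
    intro x hx
    have hx' : x ∉ Wg.Lam := hx
    have hx1 : x + 1 ∉ Wg.Lam := fun h => hx' ((H171FV.add_mem_Lam H171FV.one_mem x).1 h)
    simp only
    rw [hkh _ hx', hkh _ hx1, hg2' x 1 hx' H171FV.one_mem, H171FV.zt_one hx']
    ring
  have e2 : (fun x => k (x + Complex.I)) = fun x => k x - Complex.I * H171FV.eta := by
    refine Continuous.ext_on hdense (hk.continuous.comp (continuous_id.add continuous_const))
      (hk.continuous.sub continuous_const) ?_
    intro x hx
    have hx' : x ∉ Wg.Lam := hx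
    have hx1 : x + Complex.I ∉ Wg.Lam := fun h => hx' ((H171FV.add_mem_Lam H171FV.I_mem x).1 h)
    simp only
    rw [hkh _ hx', hkh _ hx1, hg2' x _ hx' H171FV.I_mem, H171FV.zt_addI hx']
    ring
  exact H171FV.eta_ne (stRes_aux2 k hk H171FV.eta (fun x => congrFun e1 x) (fun x => congrFun e2 x))


end JstRes

end Pool.Agent.Y810.SP
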