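import Pool.Agent.Y810.SP.Base

set_option autoImplicit false

open Set Topology Filter
open scoped ContDiff Manifold

namespace Pool.Agent.Y810.SP

namespace JstSum


theorem sum_log (P : E → ℝ) (z w : E) (hP : ContDiffAt ℝ 2 P z) (hpos : 0 < P z) :
    fderiv ℝ (fderiv ℝ (fun t => Real.log (P t))) z w w =
      (P z)⁻¹ * fderiv ℝ (fderiv ℝ P) z w w - ((P z)⁻¹) ^ 2 * (fderiv ℝ P z w) ^ 2 := by
  have hd : DifferentiableAt ℝ P z := hP.differentiableAt (by norm_num)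
  have hd2 : DifferentiableAt ℝ (fderiv ℝ P) z := by
    have : ContDiffAt ℝ 1 (fderiv ℝ P) z := hP.fderiv_right (by norm_num)
    exact this.differentiableAt (by norm_num)
  have hev1 : ∀ᶠ t in 𝓝 z, DifferentiableAt ℝ P t := by
    have h1 : ∀ᶠ t in 𝓝 z, ContDiffAt ℝ 1 P t := (hP.of_le (by norm_num)).eventually (by simp)
    exact h1.mono fun t ht => ht.differentiableAt (by norm_num)
  have hev2 : ∀ᶠ t in 𝓝 z, 0 < P t := hP.continuousAt.eventually (lt_mem_nhds hpos)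
  have heq : fderiv ℝ (fun t => Real.log (P t)) =ᶠ[𝓝 z] fun t => (P t)⁻¹ • fderiv ℝ P t := by
    filter_upwards [hev1, hev2] with t h1 h2
    exact (h1.hasFDerivAt.log h2.ne').fderiv
  rw [heq.fderiv_eq]
  have h1 : HasFDerivAt (fun t => (P t)⁻¹) (-((P z) ^ 2)⁻¹ • fderiv ℝ P z) z :=
    (hasDerivAt_inv hpos.ne').comp_hasFDerivAt z hd.hasFDerivAt
  have h2 := h1.smul hd2.hasFDerivAt
  have h3 : fderiv ℝ (fun t => (P t)⁻¹ • fderiv ℝ P t) z = (P z)⁻¹ • fderiv ℝ (fderiv ℝ P) z +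
      (-((P z) ^ 2)⁻¹ • fderiv ℝ P z).smulRight (fderiv ℝ P z) := h2.fderiv
  rw [h3]
  simp only [_root_.add_apply, _root_.smul_apply, ContinuousLinearMap.smulRight_apply, smul_eq_mul,
    neg_mul, inv_pow]
  ring

theorem sum_add (P Q : E → ℝ) (z w : E) (hP : ContDiffAt ℝ 2 P z) (hQ : ContDiffAt ℝ 2 Q z) :
    fderiv ℝ (fun t => P t + Q t) z w = fderiv ℝ P z w + fderiv ℝ Q z w ∧
    fderiv ℝ (fderiv ℝ (fun t => P t + Q t)) z w w =
      fderiv ℝ (fderiv ℝ P) z w w + fderiv ℝ (fderiv ℝ Q) z w w := by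
  have hev : ∀ R : E → ℝ, ContDiffAt ℝ 2 R z → ∀ᶠ t in 𝓝 z, DifferentiableAt ℝ R t := by
    intro R hR
    have h1 : ∀ᶠ t in 𝓝 z, ContDiffAt ℝ 1 R t := (hR.of_le (by norm_num)).eventually (by simp)
    exact h1.mono fun t ht => ht.differentiableAt (by norm_num)
  have hd2 : ∀ R : E → ℝ, ContDiffAt ℝ 2 R z → DifferentiableAt ℝ (fderiv ℝ R) z := by
    intro R hR
    have : ContDiffAt ℝ 1 (fderiv ℝ R) z := hR.fderiv_right (by norm_num)
    exact this.differentiableAt (by norm_num)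
  have heq : fderiv ℝ (fun t => P t + Q t) =ᶠ[𝓝 z] fun t => fderiv ℝ P t + fderiv ℝ Q t := by
    filter_upwards [hev P hP, hev Q hQ] with t h1 h2
    exact (h1.hasFDerivAt.add h2.hasFDerivAt).fderiv
  constructor
  · rw [heq.self_of_nhds]
    rfl
  · rw [heq.fderiv_eq]
    have h1 := (hd2 P hP).hasFDerivAt.add (hd2 Q hQ).hasFDerivAt
    have h2 : fderiv ℝ (fun t => fderiv ℝ P t + fderiv ℝ Q t) z =
        fderiv ℝ (fderiv ℝ P) z + fderiv ℝ (fderiv ℝ Q) z := h1.fderiv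
    rw [h2]
    rfl

/-- TARGET. Proof in words:
Restrict to the complex line: with `p ζ = P (z + ζ v)`, `q ζ = Q (z + ζ v)` (C² near 0, positive at 0) one needs, for the
Laplacian at 0,  `p/(p+q) Δ log p + q/(p+q) Δ log q ≤ Δ log (p+q)`.
Compute: `Δ log p = Δp / p - |∇p|²/p²` and so on. So the left side is `(Δp + Δq)/(p+q) - (|∇p|²/p + |∇q|²/q)/(p+q)` and the
right side is `(Δp+Δq)/(p+q) - |∇p+∇q|²/(p+q)²`. The inequality is `|∇p+∇q|² ≤ (p+q)(|∇p|²/p + |∇q|²/q)` which is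
Cauchy–Schwarz (separately for the two partial derivatives: `(a+b)² ≤ (p+q)(a²/p+b²/q)`, difference is `(q a - p b)²/(pq)`).
Convenient: the Laplacian on ℂ is the sum of the second derivatives in the directions 1 and I, see
`InnerProductSpace.laplacian_eq_iteratedFDeriv_complexPlane` (or use `L.eq`, second derivative along `v` and `I • v`);
for a C² function f of one real variable (t ↦ P (z + t v)) `(log f)'' = f''/f - (f'/f)²`.
-/
theorem stSum (L : LevBasics) : StSum := by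
  intro P Q z v hP hQ hp hq
  have hlP : ContDiffAt ℝ 2 (fun t => Real.log (P t)) z := hP.log hp.ne'
  have hlQ : ContDiffAt ℝ 2 (fun t => Real.log (Q t)) z := hQ.log hq.ne'
  have hS : ContDiffAt ℝ 2 (fun t => P t + Q t) z := hP.add hQ
  have hs : 0 < P z + Q z := add_pos hp hq
  have hlS : ContDiffAt ℝ 2 (fun t => Real.log (P t + Q t)) z := hS.log hs.ne'
  rw [L.eq _ z v hlP, L.eq _ z v hlQ, L.eq _ z v hlS]
  rw [sum_log P z v hP hp, sum_log P z (Complex.I • v) hP hp, sum_log Q z v hQ hq,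
    sum_log Q z (Complex.I • v) hQ hq, sum_log (fun t => P t + Q t) z v hS hs,
    sum_log (fun t => P t + Q t) z (Complex.I • v) hS hs,
    (sum_add P Q z v hP hQ).1, (sum_add P Q z v hP hQ).2,
    (sum_add P Q z (Complex.I • v) hP hQ).1, (sum_add P Q z (Complex.I • v) hP hQ).2]
  generalize fderiv ℝ P z v = p1
  generalize fderiv ℝ P z (Complex.I • v) = p2
  generalize fderiv ℝ Q z v = q1
  generalize fderiv ℝ Q z (Complex.I • v) = q2
  generalize fderiv ℝ (fderiv ℝ P) z v v = a1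
  generalize fderiv ℝ (fderiv ℝ P) z (Complex.I • v) (Complex.I • v) = a2
  generalize fderiv ℝ (fderiv ℝ Q) z v v = b1
  generalize fderiv ℝ (fderiv ℝ Q) z (Complex.I • v) (Complex.I • v) = b2
  generalize P z = p at *
  generalize Q z = q at *
  have key : (p + q)⁻¹ * (a1 + b1) - (p + q)⁻¹ ^ 2 * (p1 + q1) ^ 2 +
      ((p + q)⁻¹ * (a2 + b2) - (p + q)⁻¹ ^ 2 * (p2 + q2) ^ 2) -
      (p / (p + q) * (p⁻¹ * a1 - p⁻¹ ^ 2 * p1 ^ 2 + (p⁻¹ * a2 - p⁻¹ ^ 2 * p2 ^ 2)) +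
      q / (p + q) * (q⁻¹ * b1 - q⁻¹ ^ 2 * q1 ^ 2 + (q⁻¹ * b2 - q⁻¹ ^ 2 * q2 ^ 2))) =
      ((q * p1 - p * q1) ^ 2 + (q * p2 - p * q2) ^ 2) / (p * q * (p + q) ^ 2) := by
    field_simp
    ring
  have hnn : 0 ≤ ((q * p1 - p * q1) ^ 2 + (q * p2 - p * q2) ^ 2) / (p * q * (p + q) ^ 2) := by
    positivity
  linarith


end JstSum

end Pool.Agent.Y810.SP
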