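import Pool.Agent.Y810.SP.Base

set_option autoImplicit false

open Set Topology Filter
open scoped ContDiff Manifold

namespace Pool.Agent.Y810.SP

namespace JstT2


theorem hs_closed : IsClosed (Lam : Set ℂ) := by
  have h : (Lam : Set ℂ) = Complex.re ⁻¹' (Set.range ((↑) : ℤ → ℝ)) ∩
      Complex.im ⁻¹' (Set.range ((↑) : ℤ → ℝ)) := by
    ext x
    constructor
    · rintro ⟨m, n, rfl⟩
      exact ⟨⟨m, by simp⟩, ⟨n, by simp⟩⟩
    · rintro ⟨⟨m, hm⟩, ⟨n, hn⟩⟩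
      exact ⟨m, n, by apply Complex.ext <;> simp [hm, hn]⟩
  rw [h]
  have hc : IsClosed (Set.range ((↑) : ℤ → ℝ)) := Int.isClosedEmbedding_coe_real.isClosed_range
  exact (hc.preimage Complex.continuous_re).inter (hc.preimage Complex.continuous_im)

theorem hs_small {x : ℂ} (hx : x ∈ Lam) (h : ‖x‖ < 1) : x = 0 := by
  obtain ⟨m, n, rfl⟩ := hx
  have h1 := (Complex.abs_re_le_norm (m + n * Complex.I : ℂ)).trans_lt h
  have h2 := (Complex.abs_im_le_norm (m + n * Complex.I : ℂ)).trans_lt h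
  have e1 : (m + n * Complex.I : ℂ).re = m := by simp
  have e2 : (m + n * Complex.I : ℂ).im = n := by simp
  rw [e1] at h1
  rw [e2] at h2
  have h3 : m = 0 := by
    have : |m| < 1 := by exact_mod_cast h1
    exact Int.abs_lt_one_iff.1 this
  have h4 : n = 0 := by
    have : |n| < 1 := by exact_mod_cast h2
    exact Int.abs_lt_one_iff.1 this
  subst h3
  subst h4
  simp

/-- the map onto the torus -/
noncomputable def hsπ (p : S0) : (ℂ ⧸ Lam) × (ℂ ⧸ Lam) :=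
  Sum.elim (fun t : (ℂ ⧸ Lam) × (ℂ ⧸ Lam) => t) (fun _ : ℂ ⊕ ℂ => 0) p

theorem hs_tor (z : E) : hsπ (tor z) = ((z.1 : ℂ ⧸ Lam), (z.2 : ℂ ⧸ Lam)) := rfl
theorem hs_ea (a : ℂ) : hsπ (ea a) = 0 := rfl
theorem hs_eb (a : ℂ) : hsπ (eb a) = 0 := rfl

theorem hs_pi (j : Fin 4) (z : E) :
    hsπ (κ0 j z) = (((tr j z).1 : ℂ ⧸ Lam), ((tr j z).2 : ℂ ⧸ Lam)) := by
  have h0 : (0 : (ℂ ⧸ Lam) × (ℂ ⧸ Lam)) = (((0 : ℂ) : ℂ ⧸ Lam), ((0 : ℂ) : ℂ ⧸ Lam)) := rfl
  fin_cases j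
  · change hsπ (tor z) = _
    rw [hs_tor]
    have : (tr 0 z) = z := by
      change (z.1, z.2 - z.1 + z.1) = z
      rw [sub_add_cancel]
    change _ = (((tr 0 z).1 : ℂ ⧸ Lam), ((tr 0 z).2 : ℂ ⧸ Lam))
    rw [this]
  · change hsπ (κ0 1 z) = (((tr 1 z).1 : ℂ ⧸ Lam), ((tr 1 z).2 : ℂ ⧸ Lam))
    simp only [κ0]
    split_ifs with h1 h2
    · have : tr 1 z = 0 := by
        change (z.1 * z.2, z.2 + z.1 * z.2) = 0
        rw [h1]
        simp
      rw [this]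
      rfl
    · have : tr 1 z = 0 := by
        change (z.1 * z.2, z.2 + z.1 * z.2) = 0
        rw [h1]
        simp
      rw [this]
      rfl
    · rfl
  · change hsπ (κ0 2 z) = (((tr 2 z).1 : ℂ ⧸ Lam), ((tr 2 z).2 : ℂ ⧸ Lam))
    simp only [κ0]
    split_ifs with h1 h2
    · have : tr 2 z = 0 := by
        change (z.1 * z.2, z.1 * z.2 ^ 2 + z.1 * z.2) = 0
        rw [h1]
        simp
      rw [this]
      rfl
    · have : tr 2 z = 0 := by
        change (z.1 * z.2, z.1 * z.2 ^ 2 + z.1 * z.2) = 0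
        rw [h2]
        simp
      rw [this]
      rfl
    · rfl
  · change hsπ (κ0 3 z) = (((tr 3 z).1 : ℂ ⧸ Lam), ((tr 3 z).2 : ℂ ⧸ Lam))
    simp only [κ0]
    split_ifs with h1
    · have : tr 3 z = 0 := by
        change (z.1, z.1 ^ 2 * z.2 + z.1) = 0
        rw [h1]
        simp
      rw [this]
      rfl
    · rfl

theorem hs_mk {x y : ℂ} (h : (x : ℂ ⧸ Lam) = (y : ℂ ⧸ Lam)) (hn : ‖y - x‖ < 1) : x = y := by
  rw [QuotientAddGroup.eq, neg_add_eq_sub] at h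
  have := hs_small h hn
  rw [sub_eq_zero] at this
  exact this.symm

theorem hs_V {i : Fin 4} (hi : i ≠ 0) {t : E} (ht : t ∈ V i) :
    ‖xx i t‖ < 1 / 8 ∧ ‖ww i t‖ < 1 / 8 := by
  unfold V at ht
  rw [if_neg hi] at ht
  exact ht

theorem hs_key {i j : Fin 4} (hi : i ≠ 0) (hj : j ≠ 0) {t t' : E} (ht : t ∈ V i) (ht' : t' ∈ V j)
    (h : κ0 i t = κ0 j t') : xx i t = xx j t' ∧ ww i t = ww j t' := by
  have h1 := congrArg hsπ h
  rw [hs_pi, hs_pi] at h1
  obtain ⟨a1, a2⟩ := hs_V hi ht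
  obtain ⟨b1, b2⟩ := hs_V hj ht'
  have h2 : ((xx i t : ℂ) : ℂ ⧸ Lam) = ((xx j t' : ℂ) : ℂ ⧸ Lam) := (Prod.ext_iff.1 h1).1
  have h3 : ((ww i t + xx i t : ℂ) : ℂ ⧸ Lam) = ((ww j t' + xx j t' : ℂ) : ℂ ⧸ Lam) :=
    (Prod.ext_iff.1 h1).2
  have e1 : xx i t = xx j t' := by
    apply hs_mk h2
    calc ‖xx j t' - xx i t‖ ≤ ‖xx j t'‖ + ‖xx i t‖ := norm_sub_le _ _
      _ < 1 := by linarith
  have e2 : ww i t + xx i t = ww j t' + xx j t' := by
    apply hs_mk h3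
    calc ‖ww j t' + xx j t' - (ww i t + xx i t)‖ ≤ ‖ww j t' + xx j t'‖ + ‖ww i t + xx i t‖ :=
        norm_sub_le _ _
      _ ≤ (‖ww j t'‖ + ‖xx j t'‖) + (‖ww i t‖ + ‖xx i t‖) :=
        add_le_add (norm_add_le _ _) (norm_add_le _ _)
      _ < 1 := by linarith
  refine ⟨e1, ?_⟩
  rw [e1] at e2
  exact add_right_cancel e2

theorem hs_te (z : E) (a : ℂ) : tor z ≠ ea a := by
  intro h
  unfold tor ea at h
  cases h

theorem hs_tb (z : E) (a : ℂ) : tor z ≠ eb a := by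
  intro h
  unfold tor eb at h
  cases h

theorem hs_ab (a b : ℂ) : ea a ≠ eb b := by
  intro h
  unfold ea eb at h
  cases h

theorem hs_aa {a b : ℂ} (h : ea a = ea b) : a = b := by
  unfold ea at h
  exact Sum.inl.inj (Sum.inr.inj h)

theorem hs_bb {a b : ℂ} (h : eb a = eb b) : a = b := by
  unfold eb at h
  exact Sum.inr.inj (Sum.inr.inj h)

theorem hs12 {t t' : E} (ht : t ∈ V 1) (ht' : t' ∈ V 2) (h : κ0 1 t = κ0 2 t') :
    t.1 * t'.2 = 1 := by
  obtain ⟨hx, hw⟩ := hs_key (by decide) (by decide) ht ht' h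
  change t.1 * t.2 = t'.1 * t'.2 at hx
  change t.2 = t'.1 * t'.2 ^ 2 at hw
  simp only [κ0] at h
  by_cases h1 : t.2 = 0
  · rw [if_pos h1] at h
    have h2 : t'.1 * t'.2 = 0 := by rw [← hx, h1, mul_zero]
    by_cases h3 : t'.1 = 0
    · rw [if_pos h3] at h
      by_cases h4 : t.1 = 0
      · rw [if_pos h4] at h
        exact absurd h (hs_te _ _)
      · rw [if_neg h4] at h
        rw [← hs_aa h, mul_inv_cancel₀ h4]
    · have h4 : t'.2 = 0 := (mul_eq_zero.1 h2).resolve_left h3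
      rw [if_neg h3, if_pos h4] at h
      by_cases h5 : t.1 = 0
      · rw [if_pos h5] at h
        exact absurd h (hs_tb _ _)
      · rw [if_neg h5] at h
        exact absurd h (hs_ab _ _)
  · have h2 : t'.1 * t'.2 ^ 2 ≠ 0 := by rwa [← hw]
    have h3 : t'.1 ≠ 0 := left_ne_zero_of_mul h2
    have h4 : t'.2 ≠ 0 := by
      intro h5
      rw [h5] at h2
      simp at h2
    rw [hw] at hx
    have h5 : (t'.1 * t'.2) * (t.1 * t'.2) = (t'.1 * t'.2) * 1 := by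
      rw [mul_one]
      linear_combination hx
    exact mul_left_cancel₀ (mul_ne_zero h3 h4) h5

theorem hs13 {t t' : E} (ht : t ∈ V 1) (ht' : t' ∈ V 3) (h : κ0 1 t = κ0 3 t') :
    t.1 * (t'.1 * t'.2) = 1 := by
  obtain ⟨hx, hw⟩ := hs_key (by decide) (by decide) ht ht' h
  change t.1 * t.2 = t'.1 at hx
  change t.2 = t'.1 ^ 2 * t'.2 at hw
  simp only [κ0] at h
  by_cases h1 : t.2 = 0
  · have h2 : t'.1 = 0 := by rw [← hx, h1, mul_zero]
    rw [if_pos h1, if_pos h2] at h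
    by_cases h5 : t.1 = 0
    · rw [if_pos h5] at h
      exact absurd h (hs_tb _ _)
    · rw [if_neg h5] at h
      exact absurd h (hs_ab _ _)
  · have h3 : t'.1 ≠ 0 := by
      intro h4
      apply h1
      rw [hw, h4]
      simp
    have h5 : t'.1 * (t.1 * (t'.1 * t'.2)) = t'.1 * 1 := by
      rw [hw] at hx
      linear_combination hx
    exact mul_left_cancel₀ h3 h5

theorem hs23 {t t' : E} (ht : t ∈ V 2) (ht' : t' ∈ V 3) (h : κ0 2 t = κ0 3 t') :
    t.1 * t'.2 = 1 := by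
  obtain ⟨hx, hw⟩ := hs_key (by decide) (by decide) ht ht' h
  change t.1 * t.2 = t'.1 at hx
  change t.1 * t.2 ^ 2 = t'.1 ^ 2 * t'.2 at hw
  simp only [κ0] at h
  by_cases h1 : t'.1 = 0
  · rw [if_pos h1] at h
    have h2 : t.1 * t.2 = 0 := by rw [hx, h1]
    by_cases h3 : t.1 = 0
    · rw [if_pos h3] at h
      exact absurd h (hs_ab _ _)
    · have h4 : t.2 = 0 := (mul_eq_zero.1 h2).resolve_left h3
      rw [if_neg h3, if_pos h4] at h
      rw [← hs_bb h, mul_inv_cancel₀ h3]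
  · have h2 : t.1 * t.2 ≠ 0 := by rwa [hx]
    have h3 : t.1 ≠ 0 := left_ne_zero_of_mul h2
    have h4 : t.2 ≠ 0 := right_ne_zero_of_mul h2
    rw [← hx] at hw
    have h5 : (t.1 * t.2 ^ 2) * (t.1 * t'.2) = (t.1 * t.2 ^ 2) * 1 := by
      linear_combination -hw
    exact mul_left_cancel₀ (mul_ne_zero h3 (pow_ne_zero 2 h4)) h5

theorem hs22 {t t' : E} (ht : t ∈ V 2) (ht' : t' ∈ V 2) (h : κ0 2 t = κ0 2 t') :
    t.2 = t'.2 := by
  obtain ⟨hx, hw⟩ := hs_key (by decide) (by decide) ht ht' h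
  change t.1 * t.2 = t'.1 * t'.2 at hx
  change t.1 * t.2 ^ 2 = t'.1 * t'.2 ^ 2 at hw
  simp only [κ0] at h
  by_cases h1 : t.1 = 0
  · rw [if_pos h1] at h
    by_cases h2 : t'.1 = 0
    · rw [if_pos h2] at h
      exact hs_aa h
    · rw [if_neg h2] at h
      by_cases h3 : t'.2 = 0
      · rw [if_pos h3] at h
        exact absurd h (hs_ab _ _)
      · rw [if_neg h3] at h
        exact absurd h.symm (hs_te _ _)
  · rw [if_neg h1] at h
    by_cases h2 : t'.1 = 0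
    · rw [if_pos h2] at h
      by_cases h3 : t.2 = 0
      · rw [if_pos h3] at h
        exact absurd h.symm (hs_ab _ _)
      · rw [if_neg h3] at h
        exact absurd h (hs_te _ _)
    · by_cases h3 : t.2 = 0
      · have h4 : t'.1 * t'.2 = 0 := by rw [← hx, h3, mul_zero]
        rw [h3, (mul_eq_zero.1 h4).resolve_left h2]
      · have h5 : (t.1 * t.2) * t.2 = (t.1 * t.2) * t'.2 := by
          rw [hx]
          linear_combination hw - t.2 * hx
        exact mul_left_cancel₀ (mul_ne_zero h1 h3) h5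

theorem hs33 {t t' : E} (ht : t ∈ V 3) (ht' : t' ∈ V 3) (h : κ0 3 t = κ0 3 t') :
    t.2 = t'.2 := by
  obtain ⟨hx, hw⟩ := hs_key (by decide) (by decide) ht ht' h
  change t.1 = t'.1 at hx
  change t.1 ^ 2 * t.2 = t'.1 ^ 2 * t'.2 at hw
  simp only [κ0] at h
  by_cases h1 : t.1 = 0
  · have h2 : t'.1 = 0 := by rw [← hx, h1]
    rw [if_pos h1, if_pos h2] at h
    exact hs_bb h
  · rw [← hx] at hw
    exact mul_left_cancel₀ (pow_ne_zero 2 h1) hw

theorem hs_sep [TopologicalSpace S0] (hN : Nhds) {i j : Fin 4} {z z' : E} (hz : z ∈ V i)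
    (hz' : z' ∈ V j) (h : ∀ᶠ p in 𝓝 (z, z'), κ0 i p.1 ≠ κ0 j p.2) :
    Disjoint (𝓝 (κ0 i z)) (𝓝 (κ0 j z')) := by
  rw [nhds_prod_eq, eventually_prod_iff] at h
  obtain ⟨pa, ha, pb, hb, hab⟩ := h
  rw [← hN i z hz, ← hN j z' hz', Filter.disjoint_iff]
  refine ⟨κ0 i '' {x | pa x}, image_mem_map ha, κ0 j '' {y | pb y}, image_mem_map hb, ?_⟩
  rw [Set.disjoint_left]
  rintro _ ⟨x, hx, rfl⟩ ⟨y, hy, hxy⟩
  exact hab hx hy hxy.symm

/-- a relation separates points -/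
theorem hs_sep2 [TopologicalSpace S0] (C : Coord) (hN : Nhds) {i j : Fin 4} {z z' : E}
    (hz : z ∈ V i) (hz' : z' ∈ V j) (f g : E × E → ℂ) (hf : Continuous f) (hg : Continuous g)
    (h : ∀ t t', t ∈ V i → t' ∈ V j → κ0 i t = κ0 j t' → f (t, t') = g (t, t'))
    (hne : f (z, z') ≠ g (z, z')) : Disjoint (𝓝 (κ0 i z)) (𝓝 (κ0 j z')) := by
  apply hs_sep hN hz hz'
  have h1 : ∀ᶠ p in 𝓝 (z, z'), f p ≠ g p :=
    (hf.continuousAt.ne_iff_eventually_ne hg.continuousAt).1 hne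
  have h2 : ∀ᶠ p : E × E in 𝓝 (z, z'), p.1 ∈ V i :=
    continuous_fst.continuousAt.eventually ((C.open_V i).mem_nhds hz)
  have h3 : ∀ᶠ p : E × E in 𝓝 (z, z'), p.2 ∈ V j :=
    continuous_snd.continuousAt.eventually ((C.open_V j).mem_nhds hz')
  filter_upwards [h1, h2, h3] with p a1 a2 a3
  intro a4
  exact a1 (h p.1 p.2 a2 a3 a4)

theorem hs_m1 : (0 : E) ∈ V 1 := by
  unfold V
  rw [if_neg (by decide)]
  simp [xx, ww]

theorem hs_m2 (a : ℂ) : ((0, a) : E) ∈ V 2 := by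
  unfold V
  rw [if_neg (by decide)]
  simp [xx, ww]

theorem hs_m3 (a : ℂ) : ((0, a) : E) ∈ V 3 := by
  unfold V
  rw [if_neg (by decide)]
  simp [xx, ww]

theorem hs_k1 : κ0 1 (0 : E) = tor 0 := by
  simp [κ0]

theorem hs_k2 (a : ℂ) : κ0 2 ((0, a) : E) = ea a := by
  simp [κ0]

theorem hs_k3 (a : ℂ) : κ0 3 ((0, a) : E) = eb a := by
  simp [κ0]

theorem hs_cases (p : S0) : (∃ z : E, z ∈ V 0 ∧ p = κ0 0 z) ∨ p = tor 0 ∨ (∃ a, p = ea a) ∨
    ∃ a, p = eb a := by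
  rcases p with ⟨a, b⟩ | a | a
  · obtain ⟨x, rfl⟩ := QuotientAddGroup.mk_surjective a
    obtain ⟨y, rfl⟩ := QuotientAddGroup.mk_surjective b
    by_cases h : (x, y) ∈ Lam2
    · right
      left
      change tor (x, y) = tor 0
      have h1 : (x : ℂ ⧸ Lam) = ((0 : ℂ) : ℂ ⧸ Lam) := by
        rw [QuotientAddGroup.eq]
        simpa using h.1
      have h2 : (y : ℂ ⧸ Lam) = ((0 : ℂ) : ℂ ⧸ Lam) := by
        rw [QuotientAddGroup.eq]
        simpa using h.2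
      change (Sum.inl ((x : ℂ ⧸ Lam), (y : ℂ ⧸ Lam)) : S0) =
        Sum.inl (((0 : ℂ) : ℂ ⧸ Lam), ((0 : ℂ) : ℂ ⧸ Lam))
      rw [h1, h2]
    · left
      refine ⟨(x, y), ?_, rfl⟩
      unfold V
      rw [if_pos rfl]
      exact h
  · exact Or.inr (Or.inr (Or.inl ⟨a, rfl⟩))
  · exact Or.inr (Or.inr (Or.inr ⟨a, rfl⟩))

theorem hs_cont [TopologicalSpace S0] (C : Coord) (hN : Nhds) (p : S0) :
    Tendsto hsπ (𝓝 p) (𝓝 (hsπ p)) := by
  have key : ∀ j z, z ∈ V j → Tendsto hsπ (𝓝 (κ0 j z)) (𝓝 (hsπ (κ0 j z))) := by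
    intro j z hz
    rw [← hN j z hz, tendsto_map'_iff]
    have h1 : hsπ ∘ κ0 j = fun z => (((tr j z).1 : ℂ ⧸ Lam), ((tr j z).2 : ℂ ⧸ Lam)) :=
      funext fun z => hs_pi j z
    have h2 : ContinuousAt (tr j) z := (C.tr_an j z).continuousAt
    have h3 : ContinuousAt (fun z => (((tr j z).1 : ℂ ⧸ Lam), ((tr j z).2 : ℂ ⧸ Lam))) z := by
      apply ContinuousAt.prodMk
      · exact QuotientAddGroup.continuous_mk.continuousAt.comp
          (continuous_fst.continuousAt.comp h2)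
      · exact QuotientAddGroup.continuous_mk.continuousAt.comp
          (continuous_snd.continuousAt.comp h2)
    rw [h1, hs_pi]
    exact h3
  rcases hs_cases p with ⟨z, hz, rfl⟩ | rfl | ⟨a, rfl⟩ | ⟨a, rfl⟩
  · exact key 0 z hz
  · have := key 1 0 hs_m1
    rwa [hs_k1] at this
  · have := key 2 (0, a) (hs_m2 a)
    rwa [hs_k2] at this
  · have := key 3 (0, a) (hs_m3 a)
    rwa [hs_k3] at this

/-- TARGET -/
theorem stT2 (C : Coord) : StT2 := by
  intro _ hN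
  have hcl : IsClosed (Lam : Set ℂ) := hs_closed
  have hT : T2Space (ℂ ⧸ Lam) := inferInstance
  have hT' : T2Space ((ℂ ⧸ Lam) × (ℂ ⧸ Lam)) := inferInstance
  rw [t2Space_iff_disjoint_nhds]
  intro p q hpq
  by_cases hπ : hsπ p = hsπ q
  swap
  · exact (hs_cont C hN p).disjoint (disjoint_nhds_nhds.2 hπ) (hs_cont C hN q)
  -- separation of exceptional points
  have h12 : ∀ a, Disjoint (𝓝 (tor 0)) (𝓝 (ea a)) := by
    intro a
    rw [← hs_k1, ← hs_k2]
    apply hs_sep2 C hN hs_m1 (hs_m2 a) (fun p => p.1.1 * p.2.2) (fun _ => 1) (by fun_prop)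
      (by fun_prop)
    · intro t t' ht ht' h
      exact hs12 ht ht' h
    · simp
  have h13 : ∀ a, Disjoint (𝓝 (tor 0)) (𝓝 (eb a)) := by
    intro a
    rw [← hs_k1, ← hs_k3]
    apply hs_sep2 C hN hs_m1 (hs_m3 a) (fun p => p.1.1 * (p.2.1 * p.2.2)) (fun _ => 1)
      (by fun_prop) (by fun_prop)
    · intro t t' ht ht' h
      exact hs13 ht ht' h
    · simp
  have h23 : ∀ a b, Disjoint (𝓝 (ea a)) (𝓝 (eb b)) := by
    intro a b
    rw [← hs_k2, ← hs_k3]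
    apply hs_sep2 C hN (hs_m2 a) (hs_m3 b) (fun p => p.1.1 * p.2.2) (fun _ => 1) (by fun_prop)
      (by fun_prop)
    · intro t t' ht ht' h
      exact hs23 ht ht' h
    · simp
  have h22 : ∀ a b, a ≠ b → Disjoint (𝓝 (ea a)) (𝓝 (ea b)) := by
    intro a b hab
    rw [← hs_k2, ← hs_k2]
    apply hs_sep2 C hN (hs_m2 a) (hs_m2 b) (fun p => p.1.2) (fun p => p.2.2) (by fun_prop)
      (by fun_prop)
    · intro t t' ht ht' h
      exact hs22 ht ht' h
    · exact hab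
  have h33 : ∀ a b, a ≠ b → Disjoint (𝓝 (eb a)) (𝓝 (eb b)) := by
    intro a b hab
    rw [← hs_k3, ← hs_k3]
    apply hs_sep2 C hN (hs_m3 a) (hs_m3 b) (fun p => p.1.2) (fun p => p.2.2) (by fun_prop)
      (by fun_prop)
    · intro t t' ht ht' h
      exact hs33 ht ht' h
    · exact hab
  -- the points of the torus
  have htor : ∀ t : (ℂ ⧸ Lam) × (ℂ ⧸ Lam), t = 0 → (Sum.inl t : S0) = tor 0 := by
    intro t ht
    rw [ht]
    rfl
  rcases p with p | a | a <;> rcases q with q | b | b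
  · exact absurd (congrArg Sum.inl (show p = q from hπ)) hpq
  · have h1 := h12 b
    rw [← htor p hπ] at h1
    exact h1
  · have h1 := h13 b
    rw [← htor p hπ] at h1
    exact h1
  · have h1 := (h12 a).symm
    rw [← htor q hπ.symm] at h1
    exact h1
  · exact h22 a b fun h => hpq (by rw [h])
  · exact h23 a b
  · have h1 := (h13 a).symm
    rw [← htor q hπ.symm] at h1
    exact h1
  · exact (h23 b a).symm
  · exact h33 a b fun h => hpq (by rw [h])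


end JstT2

end Pool.Agent.Y810.SP
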