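import Pool.Agent.Y810.SP.Base

set_option autoImplicit false

open Set Topology Filter
open scoped ContDiff Manifold

namespace Pool.Agent.Y810.SP

namespace JstTrans


theorem tx_small {x : ℂ} (hx : x ∈ Lam) (h : ‖x‖ < 1) : x = 0 := by
  obtain ⟨m, n, rfl⟩ := hx
  have h1 := lt_of_le_of_lt (Complex.abs_re_le_norm _) h
  have h2 := lt_of_le_of_lt (Complex.abs_im_le_norm _) h
  have h3 : |(m : ℝ)| < 1 := by simpa using h1
  have h4 : |(n : ℝ)| < 1 := by simpa using h2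
  have h5 : m = 0 := by
    have : |m| < 1 := by exact_mod_cast h3
    exact Int.abs_lt_one_iff.1 this
  have h6 : n = 0 := by
    have : |n| < 1 := by exact_mod_cast h4
    exact Int.abs_lt_one_iff.1 this
  simp [h5, h6]

/-- the denominators -/
def tD : Fin 4 → E → ℂ
  | 0 => fun _ => 1
  | 1 => fun z => z.2
  | 2 => fun z => z.1 * z.2
  | 3 => fun z => z.1

theorem tx_tr0 (z : E) : tr 0 z = z := by
  simp [tr, xx, ww]

theorem tx_tr1 (z : E) : tr 1 z = (z.1 * z.2, z.2 + z.1 * z.2) := rfl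
theorem tx_tr2 (z : E) : tr 2 z = (z.1 * z.2, z.1 * z.2 ^ 2 + z.1 * z.2) := rfl
theorem tx_tr3 (z : E) : tr 3 z = (z.1, z.1 ^ 2 * z.2 + z.1) := rfl

theorem tx_k0 (z : E) : κ0 0 z = tor z := rfl
theorem tx_k1 (z : E) :
    κ0 1 z = if z.2 = 0 then (if z.1 = 0 then tor 0 else ea z.1⁻¹) else tor (tr 1 z) := rfl
theorem tx_k2 (z : E) :
    κ0 2 z = if z.1 = 0 then ea z.2 else if z.2 = 0 then eb z.1⁻¹ else tor (tr 2 z) := rfl
theorem tx_k3 (z : E) : κ0 3 z = if z.1 = 0 then eb z.2 else tor (tr 3 z) := rfl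

theorem tx_reg : ∀ (j : Fin 4) (z : E), tD j z ≠ 0 → κ0 j z = tor (tr j z)
  | 0, z, _ => by rw [tx_k0, tx_tr0]
  | 1, z, h => by
    have h' : z.2 ≠ 0 := h
    rw [tx_k1, if_neg h']
  | 2, z, h => by
    have h' : z.1 * z.2 ≠ 0 := h
    rw [tx_k2, if_neg (left_ne_zero_of_mul h'), if_neg (right_ne_zero_of_mul h')]
  | 3, z, h => by
    have h' : z.1 ≠ 0 := h
    rw [tx_k3, if_neg h']

theorem tx_V {j : Fin 4} (hj : j ≠ 0) {z : E} (hz : z ∈ V j) :
    ‖xx j z‖ < 1 / 8 ∧ ‖ww j z‖ < 1 / 8 := by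
  simpa [V, hj] using hz

theorem tx_zero {j : Fin 4} (hj : j ≠ 0) {z : E} (hz : z ∈ V j) (h : tr j z ∈ Lam2) :
    xx j z = 0 ∧ ww j z = 0 := by
  obtain ⟨h1, h2⟩ := tx_V hj hz
  have hx : xx j z = 0 := tx_small h.1 (by linarith)
  have hw : ww j z + xx j z = 0 := by
    refine tx_small h.2 (lt_of_le_of_lt (norm_add_le _ _) (by linarith))
  rw [hx, add_zero] at hw
  exact ⟨hx, hw⟩

theorem tx_notmem : ∀ (j : Fin 4) (z : E), z ∈ V j → tD j z ≠ 0 → tr j z ∉ Lam2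
  | 0, z, hz, _ => by
    rw [tx_tr0]
    simpa [V] using hz
  | 1, z, hz, h => fun h' => h (tx_zero (by decide) hz h').2
  | 2, z, hz, h => fun h' => h (tx_zero (by decide) hz h').1
  | 3, z, hz, h => fun h' => h (tx_zero (by decide) hz h').1

theorem tx_tor (z z' : E) : tor z = tor z' ↔ z' - z ∈ Lam2 := by
  unfold tor Lam2
  constructor
  · intro h
    have h1 := Sum.inl.inj h
    have h2 := Prod.mk.inj h1
    have h3 := QuotientAddGroup.eq.1 h2.1
    have h4 := QuotientAddGroup.eq.1 h2.2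
    refine ⟨?_, ?_⟩
    · have : (z' - z).1 = -z.1 + z'.1 := by simp [sub_eq_neg_add]
      rw [this]; exact h3
    · have : (z' - z).2 = -z.2 + z'.2 := by simp [sub_eq_neg_add]
      rw [this]; exact h4
  · rintro ⟨h1, h2⟩
    have h3 : (z.1 : ℂ ⧸ Lam) = z'.1 := by
      refine QuotientAddGroup.eq.2 ?_
      have : (z' - z).1 = -z.1 + z'.1 := by simp [sub_eq_neg_add]
      rw [← this]; exact h1
    have h4 : (z.2 : ℂ ⧸ Lam) = z'.2 := by
      refine QuotientAddGroup.eq.2 ?_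
      have : (z' - z).2 = -z.2 + z'.2 := by simp [sub_eq_neg_add]
      rw [← this]; exact h2
    rw [h3, h4]

theorem tx_lam0 : (0 : E) ∈ Lam2 := ⟨Lam.zero_mem, Lam.zero_mem⟩

theorem tx_lamneg {z : E} (h : z ∈ Lam2) : -z ∈ Lam2 := ⟨Lam.neg_mem h.1, Lam.neg_mem h.2⟩

theorem tx_tor_ea (z : E) (a : ℂ) : tor z ≠ ea a := by
  intro h; cases h

theorem tx_tor_eb (z : E) (a : ℂ) : tor z ≠ eb a := by
  intro h; cases h

theorem tx_ea_eb (a b : ℂ) : ea a ≠ eb b := by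
  intro h; cases h

theorem tx_ea_inj {a b : ℂ} (h : ea a = ea b) : a = b := by
  exact Sum.inl.inj (Sum.inr.inj h)

theorem tx_eb_inj {a b : ℂ} (h : eb a = eb b) : a = b := by
  exact Sum.inr.inj (Sum.inr.inj h)

/-- the values at the exceptional points -/
theorem tx_exc : ∀ (j : Fin 4) (z : E), tD j z = 0 → ∀ p : E, p ∉ Lam2 → κ0 j z ≠ tor p
  | 0, z, h, _, _ => absurd h one_ne_zero
  | 1, z, h, p, hp => by
    have h' : z.2 = 0 := h
    rw [tx_k1, if_pos h']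
    split_ifs
    · intro h1
      have := (tx_tor _ _).1 h1
      rw [sub_zero] at this
      exact hp this
    · exact (tx_tor_ea _ _).symm
  | 2, z, h, p, hp => by
    have h' : z.1 * z.2 = 0 := h
    rw [tx_k2]
    split_ifs with h1 h2
    · exact (tx_tor_ea _ _).symm
    · exact (tx_tor_eb _ _).symm
    · exact absurd h' (mul_ne_zero h1 h2)
  | 3, z, h, p, hp => by
    have h' : z.1 = 0 := h
    rw [tx_k3, if_pos h']
    exact (tx_tor_eb _ _).symm

/-- the local inverses -/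
noncomputable def tσ : Fin 4 → E → E
  | 0 => fun p => p
  | 1 => fun p => (p.1 / (p.2 - p.1), p.2 - p.1)
  | 2 => fun p => (p.1 ^ 2 / (p.2 - p.1), (p.2 - p.1) / p.1)
  | 3 => fun p => (p.1, (p.2 - p.1) / p.1 ^ 2)

/-- the points where the local inverses are defined -/
def tR : Fin 4 → E → Prop
  | 0 => fun _ => True
  | 1 => fun p => p.2 - p.1 ≠ 0
  | 2 => fun p => p.1 ≠ 0 ∧ p.2 - p.1 ≠ 0
  | 3 => fun p => p.1 ≠ 0

theorem tx_R : ∀ (j : Fin 4) (z : E), tD j z ≠ 0 → tR j (tr j z)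
  | 0, _, _ => trivial
  | 1, z, h => by
    have h' : z.2 ≠ 0 := h
    rw [tx_tr1]
    simpa [tR] using h'
  | 2, z, h => by
    have h' : z.1 * z.2 ≠ 0 := h
    have h1 := left_ne_zero_of_mul h'
    have h2 := right_ne_zero_of_mul h'
    rw [tx_tr2]
    simp [tR, h1, h2]
  | 3, z, h => by
    have h' : z.1 ≠ 0 := h
    rw [tx_tr3]
    simpa [tR] using h'

theorem tx_R_open : ∀ (j : Fin 4) (p : E), tR j p → ∀ᶠ q in 𝓝 p, tR j q
  | 0, _, _ => by simp [tR]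
  | 1, p, h => by
    have h1 : ContinuousAt (fun q : E => q.2 - q.1) p := by fun_prop
    exact h1.eventually_ne h
  | 2, p, h => by
    have h1 : ContinuousAt (fun q : E => q.2 - q.1) p := by fun_prop
    have h2 : ContinuousAt (fun q : E => q.1) p := by fun_prop
    exact (h2.eventually_ne h.1).and (h1.eventually_ne h.2)
  | 3, p, h => by
    have h2 : ContinuousAt (fun q : E => q.1) p := by fun_prop
    exact h2.eventually_ne h

theorem tx_σ_tr : ∀ (j : Fin 4) (z : E), tD j z ≠ 0 → tσ j (tr j z) = z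
  | 0, z, _ => by
    change tr 0 z = z
    exact tx_tr0 z
  | 1, z, h => by
    have h' : z.2 ≠ 0 := h
    rw [tx_tr1]
    ext
    · simp [tσ, h']
    · simp [tσ]
  | 2, z, h => by
    have h' : z.1 * z.2 ≠ 0 := h
    have h1 := left_ne_zero_of_mul h'
    have h2 := right_ne_zero_of_mul h'
    rw [tx_tr2]
    ext
    · simp only [tσ, add_sub_cancel_right]
      field_simp
    · simp only [tσ, add_sub_cancel_right]
      field_simp
  | 3, z, h => by
    have h' : z.1 ≠ 0 := h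
    rw [tx_tr3]
    ext
    · simp [tσ]
    · simp only [tσ, add_sub_cancel_right]
      field_simp

theorem tx_tr_σ : ∀ (j : Fin 4) (p : E), tR j p → tr j (tσ j p) = p ∧ tD j (tσ j p) ≠ 0
  | 0, p, _ => ⟨tx_tr0 _, one_ne_zero⟩
  | 1, p, h => by
    have h' : p.2 - p.1 ≠ 0 := h
    refine ⟨?_, h'⟩
    rw [tx_tr1]
    ext
    · simp [tσ, h']
    · simp [tσ, h']
  | 2, p, h => by
    obtain ⟨h1, h2⟩ := h
    have h3 : p.1 ^ 2 / (p.2 - p.1) * ((p.2 - p.1) / p.1) = p.1 := by field_simp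
    have h4 : p.1 ^ 2 / (p.2 - p.1) * ((p.2 - p.1) / p.1) ^ 2 = p.2 - p.1 := by field_simp
    constructor
    · rw [tx_tr2]
      ext
      · simp only [tσ]
        rw [h3]
      · simp only [tσ]
        rw [h3, h4]
        ring
    · change p.1 ^ 2 / (p.2 - p.1) * ((p.2 - p.1) / p.1) ≠ 0
      rw [h3]; exact h1
  | 3, p, h => by
    have h' : p.1 ≠ 0 := h
    refine ⟨?_, h'⟩
    rw [tx_tr3]
    ext
    · simp [tσ]
    · simp only [tσ]
      field_simp
      ring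

theorem tx_σ_an : ∀ (j : Fin 4) (p : E), tR j p → ContDiffAt ℂ ω (tσ j) p
  | 0, p, _ => contDiffAt_id
  | 1, p, h => by
    have h' : p.2 - p.1 ≠ 0 := h
    exact (contDiffAt_fst.div (contDiffAt_snd.sub contDiffAt_fst) h').prodMk
      (contDiffAt_snd.sub contDiffAt_fst)
  | 2, p, h => by
    obtain ⟨h1, h2⟩ := h
    exact ((contDiffAt_fst.pow 2).div (contDiffAt_snd.sub contDiffAt_fst) h2).prodMk
      ((contDiffAt_snd.sub contDiffAt_fst).div contDiffAt_fst h1)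
  | 3, p, h => by
    have h' : p.1 ≠ 0 := h
    exact contDiffAt_fst.prodMk
      ((contDiffAt_snd.sub contDiffAt_fst).div (contDiffAt_fst.pow 2) (pow_ne_zero 2 h'))

theorem tx_tr_an : ∀ (j : Fin 4) (z : E), ContDiffAt ℂ ω (tr j) z
  | 0, z => by
    have : tr 0 = fun z => z := funext tx_tr0
    rw [this]
    exact contDiffAt_id
  | 1, z => (contDiffAt_fst.mul contDiffAt_snd).prodMk
      (contDiffAt_snd.add (contDiffAt_fst.mul contDiffAt_snd))
  | 2, z => (contDiffAt_fst.mul contDiffAt_snd).prodMk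
      ((contDiffAt_fst.mul (contDiffAt_snd.pow 2)).add (contDiffAt_fst.mul contDiffAt_snd))
  | 3, z => contDiffAt_fst.prodMk
      (((contDiffAt_fst.pow 2).mul contDiffAt_snd).add contDiffAt_fst)

theorem tx_D_open : ∀ (j : Fin 4) (z : E), tD j z ≠ 0 → ∀ᶠ t in 𝓝 z, tD j t ≠ 0
  | 0, _, _ => Filter.Eventually.of_forall fun _ => one_ne_zero
  | 1, z, h => by
    have h1 : ContinuousAt (fun q : E => q.2) z := by fun_prop
    exact h1.eventually_ne h
  | 2, z, h => by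
    have h1 : ContinuousAt (fun q : E => q.1 * q.2) z := by fun_prop
    exact h1.eventually_ne h
  | 3, z, h => by
    have h1 : ContinuousAt (fun q : E => q.1) z := by fun_prop
    exact h1.eventually_ne h

/-- case (a) -/
theorem tx_a (i j : Fin 4) (z z' : E) (hz : z ∈ V i) (hz' : z' ∈ V j) (h : κ0 i z = κ0 j z')
    (hi : tD i z ≠ 0) :
    ∃ τ : E → E, ContDiffAt ℂ ω τ z ∧ τ z = z' ∧ ∀ᶠ t in 𝓝 z, κ0 j (τ t) = κ0 i t := by
  have hn := tx_notmem i z hz hi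
  have hk := tx_reg i z hi
  have hj : tD j z' ≠ 0 := by
    intro hj
    exact tx_exc j z' hj _ hn (h.symm.trans hk)
  have hk' := tx_reg j z' hj
  have hl : tr j z' - tr i z ∈ Lam2 := (tx_tor _ _).1 (hk.symm.trans (h.trans hk'))
  have e0 : tr i z + (tr j z' - tr i z) = tr j z' := by abel
  have hR : tR j (tr i z + (tr j z' - tr i z)) := by rw [e0]; exact tx_R j z' hj
  have han : ContDiffAt ℂ ω (fun t => tr i t + (tr j z' - tr i z)) z :=
    (tx_tr_an i z).add contDiffAt_const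
  refine ⟨fun t => tσ j (tr i t + (tr j z' - tr i z)), ?_, ?_, ?_⟩
  · exact ContDiffAt.comp z (tx_σ_an j _ hR) han
  · change tσ j (tr i z + (tr j z' - tr i z)) = z'
    rw [e0]
    exact tx_σ_tr j z' hj
  · have h1 := (han.continuousAt).eventually (tx_R_open j _ hR)
    filter_upwards [h1, tx_D_open i z hi] with t ht1 ht2
    obtain ⟨h3, h4⟩ := tx_tr_σ j _ ht1
    rw [tx_reg j _ h4, h3, tx_reg i t ht2]
    refine (tx_tor _ _).2 ?_
    have : tr i t - (tr i t + (tr j z' - tr i z)) = -(tr j z' - tr i z) := by abel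
    rw [this]
    exact tx_lamneg hl

theorem tx_id (i : Fin 4) (z z' : E) (h : z = z') :
    ∃ τ : E → E, ContDiffAt ℂ ω τ z ∧ τ z = z' ∧ ∀ᶠ t in 𝓝 z, κ0 i (τ t) = κ0 i t :=
  ⟨fun t => t, contDiffAt_id, h, Filter.Eventually.of_forall fun _ => rfl⟩

theorem tx_11 (z z' : E) (h : κ0 1 z = κ0 1 z') (hi : z.2 = 0) (hj : z'.2 = 0) : z = z' := by
  rw [tx_k1, tx_k1, if_pos hi, if_pos hj] at h
  refine Prod.ext ?_ (hi.trans hj.symm)
  split_ifs at h with h1 h2 h2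
  · exact h1.trans h2.symm
  · exact absurd h (tx_tor_ea _ _)
  · exact absurd h.symm (tx_tor_ea _ _)
  · exact inv_injective (tx_ea_inj h)

theorem tx_22 (z z' : E) (h : κ0 2 z = κ0 2 z') (hi : z.1 * z.2 = 0) (hj : z'.1 * z'.2 = 0) :
    z = z' := by
  rw [tx_k2, tx_k2] at h
  split_ifs at h with h1 h2 h2 h3 h3 h4 h4 h5 h5
  · exact Prod.ext (h1.trans h2.symm) (tx_ea_inj h)
  all_goals first
    | exact absurd h (tx_ea_eb _ _)
    | exact absurd h.symm (tx_ea_eb _ _)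
    | exact absurd h.symm (tx_tor_ea _ _)
    | exact absurd h (tx_tor_ea _ _)
    | exact absurd h.symm (tx_tor_eb _ _)
    | exact absurd h (tx_tor_eb _ _)
    | (refine Prod.ext (inv_injective (tx_eb_inj h)) ?_; simp_all)
    | (exfalso; simp_all; done)

theorem tx_33 (z z' : E) (h : κ0 3 z = κ0 3 z') (hi : z.1 = 0) (hj : z'.1 = 0) : z = z' := by
  rw [tx_k3, tx_k3, if_pos hi, if_pos hj] at h
  exact Prod.ext (hi.trans hj.symm) (tx_eb_inj h)

theorem tx_12 (z z' : E) (h : κ0 1 z = κ0 2 z') (hi : z.2 = 0) (hj : z'.1 * z'.2 = 0) :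
    ∃ τ : E → E, ContDiffAt ℂ ω τ z ∧ τ z = z' ∧ ∀ᶠ t in 𝓝 z, κ0 2 (τ t) = κ0 1 t := by
  have key : z.1 ≠ 0 ∧ z'.1 = 0 ∧ z'.2 = z.1⁻¹ := by
    rw [tx_k1, if_pos hi, tx_k2] at h
    by_cases h1 : z'.1 = 0
    · rw [if_pos h1] at h
      by_cases h2 : z.1 = 0
      · rw [if_pos h2] at h
        exact absurd h (tx_tor_ea _ _)
      · rw [if_neg h2] at h
        exact ⟨h2, h1, (tx_ea_inj h).symm⟩
    · have h3 : z'.2 = 0 := (mul_eq_zero.1 hj).resolve_left h1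
      rw [if_neg h1, if_pos h3] at h
      by_cases h2 : z.1 = 0
      · rw [if_pos h2] at h
        exact absurd h (tx_tor_eb _ _)
      · rw [if_neg h2] at h
        exact absurd h (tx_ea_eb _ _)
  obtain ⟨k1, k2, k3⟩ := key
  refine ⟨fun t => (t.1 ^ 2 * t.2, t.1⁻¹), ?_, ?_, ?_⟩
  · exact ((contDiffAt_fst.pow 2).mul contDiffAt_snd).prodMk (contDiffAt_fst.inv k1)
  · ext
    · simp [hi, k2]
    · simp [k3]
  · have h1 : ContinuousAt (fun q : E => q.1) z := by fun_prop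
    filter_upwards [h1.eventually_ne k1] with t ht
    by_cases h2 : t.2 = 0
    · rw [tx_k2, tx_k1, if_pos h2, if_neg ht, if_pos (by simp [h2])]
    · have h3 : t.1 ^ 2 * t.2 * t.1⁻¹ = t.1 * t.2 := by field_simp
      have h4 : t.1 ^ 2 * t.2 * t.1⁻¹ ^ 2 = t.2 := by field_simp
      rw [tx_reg 2 (t.1 ^ 2 * t.2, t.1⁻¹) (show t.1 ^ 2 * t.2 * t.1⁻¹ ≠ 0 by rw [h3]; exact mul_ne_zero ht h2),
        tx_reg 1 t h2, tx_tr2, tx_tr1]
      dsimp only
      rw [h3, h4]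

theorem tx_21 (z z' : E) (h : κ0 2 z = κ0 1 z') (hi : z.1 * z.2 = 0) (hj : z'.2 = 0) :
    ∃ τ : E → E, ContDiffAt ℂ ω τ z ∧ τ z = z' ∧ ∀ᶠ t in 𝓝 z, κ0 1 (τ t) = κ0 2 t := by
  have key : z'.1 ≠ 0 ∧ z.1 = 0 ∧ z.2 = z'.1⁻¹ := by
    rw [tx_k1, if_pos hj, tx_k2] at h
    by_cases h1 : z.1 = 0
    · rw [if_pos h1] at h
      by_cases h2 : z'.1 = 0
      · rw [if_pos h2] at h
        exact absurd h.symm (tx_tor_ea _ _)
      · rw [if_neg h2] at h
        exact ⟨h2, h1, tx_ea_inj h⟩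
    · have h3 : z.2 = 0 := (mul_eq_zero.1 hi).resolve_left h1
      rw [if_neg h1, if_pos h3] at h
      by_cases h2 : z'.1 = 0
      · rw [if_pos h2] at h
        exact absurd h.symm (tx_tor_eb _ _)
      · rw [if_neg h2] at h
        exact absurd h.symm (tx_ea_eb _ _)
  obtain ⟨k1, k2, k3⟩ := key
  have k4 : z.2 ≠ 0 := by rw [k3]; exact inv_ne_zero k1
  refine ⟨fun t => (t.2⁻¹, t.1 * t.2 ^ 2), ?_, ?_, ?_⟩
  · exact (contDiffAt_snd.inv k4).prodMk (contDiffAt_fst.mul (contDiffAt_snd.pow 2))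
  · ext
    · simp [k3]
    · simp [hj, k2]
  · have h1 : ContinuousAt (fun q : E => q.2) z := by fun_prop
    filter_upwards [h1.eventually_ne k4] with t ht
    by_cases h2 : t.1 = 0
    · rw [tx_k2, tx_k1, if_pos h2, if_pos (by simp [h2]), if_neg (by simpa using ht), inv_inv]
    · have h3 : t.2⁻¹ * (t.1 * t.2 ^ 2) = t.1 * t.2 := by field_simp
      rw [tx_reg 1 (t.2⁻¹, t.1 * t.2 ^ 2) (show t.1 * t.2 ^ 2 ≠ 0 from mul_ne_zero h2 (pow_ne_zero 2 ht)),
        tx_reg 2 t (mul_ne_zero h2 ht), tx_tr2, tx_tr1]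
      dsimp only
      rw [h3]

theorem tx_23 (z z' : E) (h : κ0 2 z = κ0 3 z') (hi : z.1 * z.2 = 0) (hj : z'.1 = 0) :
    ∃ τ : E → E, ContDiffAt ℂ ω τ z ∧ τ z = z' ∧ ∀ᶠ t in 𝓝 z, κ0 3 (τ t) = κ0 2 t := by
  have key : z.1 ≠ 0 ∧ z.2 = 0 ∧ z'.2 = z.1⁻¹ := by
    rw [tx_k3, if_pos hj, tx_k2] at h
    by_cases h1 : z.1 = 0
    · rw [if_pos h1] at h
      exact absurd h (tx_ea_eb _ _)
    · have h3 : z.2 = 0 := (mul_eq_zero.1 hi).resolve_left h1
      rw [if_neg h1, if_pos h3] at h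
      exact ⟨h1, h3, (tx_eb_inj h).symm⟩
  obtain ⟨k1, k2, k3⟩ := key
  refine ⟨fun t => (t.1 * t.2, t.1⁻¹), ?_, ?_, ?_⟩
  · exact (contDiffAt_fst.mul contDiffAt_snd).prodMk (contDiffAt_fst.inv k1)
  · ext
    · simp [hj, k2]
    · simp [k3]
  · have h1 : ContinuousAt (fun q : E => q.1) z := by fun_prop
    filter_upwards [h1.eventually_ne k1] with t ht
    by_cases h2 : t.2 = 0
    · rw [tx_k3, tx_k2, if_neg ht, if_pos h2, if_pos (by simp [h2])]
    · have h3 : (t.1 * t.2) ^ 2 * t.1⁻¹ = t.1 * t.2 ^ 2 := by field_simp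
      rw [tx_reg 3 (t.1 * t.2, t.1⁻¹) (show t.1 * t.2 ≠ 0 from mul_ne_zero ht h2),
        tx_reg 2 t (mul_ne_zero ht h2), tx_tr2, tx_tr3]
      dsimp only
      rw [h3]

theorem tx_32 (z z' : E) (h : κ0 3 z = κ0 2 z') (hi : z.1 = 0) (hj : z'.1 * z'.2 = 0) :
    ∃ τ : E → E, ContDiffAt ℂ ω τ z ∧ τ z = z' ∧ ∀ᶠ t in 𝓝 z, κ0 2 (τ t) = κ0 3 t := by
  have key : z'.1 ≠ 0 ∧ z'.2 = 0 ∧ z.2 = z'.1⁻¹ := by
    rw [tx_k3, if_pos hi, tx_k2] at h
    by_cases h1 : z'.1 = 0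
    · rw [if_pos h1] at h
      exact absurd h.symm (tx_ea_eb _ _)
    · have h3 : z'.2 = 0 := (mul_eq_zero.1 hj).resolve_left h1
      rw [if_neg h1, if_pos h3] at h
      exact ⟨h1, h3, tx_eb_inj h⟩
  obtain ⟨k1, k2, k3⟩ := key
  have k4 : z.2 ≠ 0 := by rw [k3]; exact inv_ne_zero k1
  refine ⟨fun t => (t.2⁻¹, t.1 * t.2), ?_, ?_, ?_⟩
  · exact (contDiffAt_snd.inv k4).prodMk (contDiffAt_fst.mul contDiffAt_snd)
  · ext
    · simp [k3]
    · simp [hi, k2]
  · have h1 : ContinuousAt (fun q : E => q.2) z := by fun_prop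
    filter_upwards [h1.eventually_ne k4] with t ht
    by_cases h2 : t.1 = 0
    · rw [tx_k2, tx_k3, if_pos h2, if_neg (by simpa using ht), if_pos (by simp [h2]), inv_inv]
    · have h3 : t.2⁻¹ * (t.1 * t.2) = t.1 := by field_simp
      have h4 : t.2⁻¹ * (t.1 * t.2) ^ 2 = t.1 ^ 2 * t.2 := by field_simp
      rw [tx_reg 2 (t.2⁻¹, t.1 * t.2) (show t.2⁻¹ * (t.1 * t.2) ≠ 0 by rw [h3]; exact h2),
        tx_reg 3 t h2, tx_tr2, tx_tr3]
      dsimp only
      rw [h3, h4]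

theorem tx_13 (z z' : E) (h : κ0 1 z = κ0 3 z') (hi : z.2 = 0) (hj : z'.1 = 0) : False := by
  rw [tx_k1, tx_k3, if_pos hi, if_pos hj] at h
  split_ifs at h
  · exact tx_tor_eb _ _ h
  · exact tx_ea_eb _ _ h

/-- TARGET. Proof in words:
tor z = tor z' iff z' - z ∈ Lam2. For |t| < 1: t ∈ Lam iff t = 0. For z ∈ V j, j ≠ 0: |x| < 1/8, |w| < 1/8, |w + x| < 1/4, so tr j z ∈ Lam2 iff tr j z = 0; j=1: iff η = 0; j=2: iff ξη = 0; j=3: iff ξ = 0 (exceptional). 
Points: κ0 i z = κ0 j z' with z ∈ V i, z' ∈ V j.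
(a) κ0 i z nonexceptional (equal to tor (tr i z), tr i z ∉ Lam2; then also z' is nonexceptional since ea, eb, tor 0 are different from tor of a point ∉ Lam2), so l = tr j z' - tr i z ∈ Lam2. Put τ t = σ_j (tr i t + l) where
 σ_0 = id, and σ_j the local inverse of tr j near tr j z' (with w = y - x): σ_1 (x,y) = (x/w, w), σ_2 (x,y) = (x²/w, w/x), σ_3 (x,y) = (x, w/x²), analytic near tr j z' (the denominators do not vanish as z' is nonexceptional),
 σ_j (tr j z') = z' and tr j (σ_j p) = p for p near tr j z'. Then κ0 j (τ t) = tor (tr i t + l) = tor (tr i t) = κ0 i t for t near z (nonexceptional is an open condition).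
(b) exceptional: both i, j ≠ 0. i = j: κ0 i is injective on exceptional points of V i so z = z', τ = id. i ≠ j: use the rational maps:
 1→2: τ(ξ,η) = (ξ²η, 1/ξ), at z = (ξ,0), ξ ≠ 0 (value ea ξ⁻¹ = κ0 2 (0, ξ⁻¹)); 2→1: (1/η, ξη²) at z = (0,η), η ≠ 0 (value ea η; z' = (η⁻¹, 0));
 2→3: (ξη, 1/ξ) at z = (ξ,0), ξ ≠ 0 (value eb ξ⁻¹); 3→2: (1/η, ξη) at z = (0,η), η ≠ 0 (value eb η; z' = (η⁻¹,0));
 1 and 3 have no common exceptional point (values tor 0, ea versus eb). Note ea 0 = κ0 2 (0,0) is not a value of κ0 1 (ξ⁻¹ ≠ 0), tor 0 only of κ0 1, eb 0 only of κ0 3.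
 For each check: tr j (τ t) = tr i t for t near z, and κ0 j (τ t) = κ0 i t also at the exceptional t near z (case distinction; e.g. 1→2: t = (s, u) with s ≠ 0 near ξ: if u = 0: κ0 2 (0, 1/s) = ea s⁻¹ = κ0 1 (s, 0); if
 u ≠ 0: τ t = (s²u, 1/s) has both coordinates ≠ 0, κ0 2 (τ t) = tor (tr 2 (τ t)) = tor (tr 1 t)).
It may help to use inverses from one general lemma: if tr j ∘ τ = tr i near z etc.
-/
theorem stTrans : StTrans := by
  intro i j z z' hz hz' h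
  by_cases hi : tD i z = 0
  swap
  · exact tx_a i j z z' hz hz' h hi
  have hj : tD j z' = 0 := by
    by_contra hj
    exact tx_exc i z hi _ (tx_notmem j z' hz' hj) (h.trans (tx_reg j z' hj))
  clear hz hz'
  match i, j, h, hi, hj with
  | 0, _, _, hi, _ => exact absurd hi one_ne_zero
  | 1, 0, _, _, hj => exact absurd hj one_ne_zero
  | 2, 0, _, _, hj => exact absurd hj one_ne_zero
  | 3, 0, _, _, hj => exact absurd hj one_ne_zero
  | 1, 1, h, hi, hj => exact tx_id 1 z z' (tx_11 z z' h hi hj)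
  | 2, 2, h, hi, hj => exact tx_id 2 z z' (tx_22 z z' h hi hj)
  | 3, 3, h, hi, hj => exact tx_id 3 z z' (tx_33 z z' h hi hj)
  | 1, 2, h, hi, hj => exact tx_12 z z' h hi hj
  | 2, 1, h, hi, hj => exact tx_21 z z' h hi hj
  | 2, 3, h, hi, hj => exact tx_23 z z' h hi hj
  | 3, 2, h, hi, hj => exact tx_32 z z' h hi hj
  | 1, 3, h, hi, hj => exact (tx_13 z z' h hi hj).elim
  | 3, 1, h, hi, hj => exact (tx_13 z' z h.symm hj hi).elim


end JstTrans

end Pool.Agent.Y810.SP
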