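import Pool.Agent.Y810.SP.Base

set_option autoImplicit false

open Set Topology Filter
open scoped ContDiff Manifold

namespace Pool.Agent.Y810.SP

namespace JstTransfer


/-- TARGET. Proof in words:
Let z ∈ V j. First for z' ∈ V j with tr j z' ∈ Wd (so tr j z' ∈ V 0): by `IsPot.compat`, `lev (F j) z' v = lev (fun t => F 0 (tr j t)) z' v` (L.sub;
F j and F 0 ∘ tr j are smooth near z'; C.tr_an, ContDiffAt.restrict_scalars), and by L.comp
`= lev (F 0) (tr j z') (D v)` with D = fderiv ℂ (tr j) z'. The same for G. So the inequality holds at z'. The points z' are dense near z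
(C.dense) and both sides are continuous in z' at z (L.cont, with fixed v), so the inequality holds at z
(e.g. `ge_of_tendsto` along 𝓝[V j ∩ tr j ⁻¹' Wd] z, which is NeBot by mem_closure_iff_nhdsWithin_neBot).
-/
theorem stTransfer (L : LevBasics) (C : Coord) : StTransfer := by
  intro F G c hF hG h j z hz v
  have h2 : (2 : WithTop ℕ∞) ≤ ∞ := WithTop.coe_le_coe.mpr le_top
  -- the Levi form at the good points
  have key : ∀ (F : Fin 4 → E → ℝ), IsPot F → ∀ z' ∈ V j ∩ tr j ⁻¹' Wd,
      lev (F j) z' v = lev (F 0) (tr j z') (fderiv ℂ (tr j) z' v) := by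
    intro F hF z' hz'
    have hWd : tr j z' ∈ V 0 := C.Wd_sub hz'.2
    have h1 := hF.compat j z' hz'.1 hWd v
    have hs1 : ContDiffAt ℝ 2 (F j) z' := (hF.smooth j z' hz'.1).of_le h2
    have hs0 : ContDiffAt ℝ 2 (F 0) (tr j z') := (hF.smooth 0 (tr j z') hWd).of_le h2
    have htr : ContDiffAt ℝ 2 (tr j) z' := ((C.tr_an j z').restrict_scalars ℝ).of_le le_top
    have hs2 : ContDiffAt ℝ 2 (fun t => F 0 (tr j t)) z' := hs0.comp z' htr
    rw [L.sub _ _ _ _ hs1 hs2, sub_eq_zero] at h1
    rw [h1, L.comp _ _ _ _ (C.tr_an j z') hs0]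
  have hne : (𝓝[V j ∩ tr j ⁻¹' Wd] z).NeBot :=
    mem_closure_iff_nhdsWithin_neBot.mp (C.dense j z hz)
  have ct : ∀ (F : Fin 4 → E → ℝ), IsPot F →
      Tendsto (fun z' => lev (F j) z' v) (𝓝[V j ∩ tr j ⁻¹' Wd] z) (𝓝 (lev (F j) z v)) := by
    intro F hF
    have hs : ContDiffAt ℝ 2 (F j) z := (hF.smooth j z hz).of_le h2
    have hc := L.cont (F j) z v hs
    have h3 : ContinuousAt (fun z' : E => (z', v)) z := by fun_prop
    have h4 : ContinuousAt (fun z' : E => lev (F j) z' v) z :=
      ContinuousAt.comp (g := fun p : E × E => lev (F j) p.1 p.2) (f := fun z' : E => (z', v))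
        hc h3
    exact h4.tendsto.mono_left nhdsWithin_le_nhds
  refine le_of_tendsto_of_tendsto ((ct G hG).const_mul c) (ct F hF) ?_
  filter_upwards [self_mem_nhdsWithin] with z' hz'
  rw [key F hF z' hz', key G hG z' hz']
  exact h _ hz'.2 _


end JstTransfer

end Pool.Agent.Y810.SP
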