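import Pool.Agent.Y810.SP.Base

set_option autoImplicit false

open Set Topology Filter
open scoped ContDiff Manifold

namespace Pool.Agent.Y810.SP

/-- the flat form -/
noncomputable def Fl (e : ℝ) : Fin 4 → E → ℝ := fun j z =>
  4 * e * ‖(tr j z).1‖ ^ 2 + 4 * e * ‖(tr j z).2‖ ^ 2

theorem nsq_contDiff : ContDiff ℝ ∞ (fun x : ℂ => ‖x‖ ^ 2) := contDiff_norm_sq ℝ

theorem fl_aux (e : ℝ) : ContDiff ℝ ∞ (fun z : E => 4 * e * ‖z.1‖ ^ 2 + 4 * e * ‖z.2‖ ^ 2) := by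
  have h1 : ContDiff ℝ ∞ (fun z : E => ‖z.1‖ ^ 2) := nsq_contDiff.comp contDiff_fst
  have h2 : ContDiff ℝ ∞ (fun z : E => ‖z.2‖ ^ 2) := nsq_contDiff.comp contDiff_snd
  exact (contDiff_const.mul h1).add (contDiff_const.mul h2)

theorem fl_lev (L : LevBasics) (e : ℝ) (z v : E) :
    lev (fun z : E => 4 * e * ‖z.1‖ ^ 2 + 4 * e * ‖z.2‖ ^ 2) z v = 16 * e * nm v := by
  have h1 : ContDiff ℝ ∞ (fun z : E => ‖z.1‖ ^ 2) := nsq_contDiff.comp contDiff_fst
  have h2 : ContDiff ℝ ∞ (fun z : E => ‖z.2‖ ^ 2) := nsq_contDiff.comp contDiff_snd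
  have g1 : ContDiffAt ℝ 2 (fun z : E => ‖z.1‖ ^ 2) z := (h1.contDiffAt).of_le (by norm_cast)
  have g2 : ContDiffAt ℝ 2 (fun z : E => ‖z.2‖ ^ 2) z := (h2.contDiffAt).of_le (by norm_cast)
  have hn : ∀ x : ℂ, ContDiffAt ℝ 2 (fun x : ℂ => ‖x‖ ^ 2) x := fun x =>
    (nsq_contDiff.contDiffAt).of_le (by norm_cast)
  rw [L.add _ _ _ _ (contDiffAt_const.mul g1) (contDiffAt_const.mul g2), L.smul _ _ _ _ g1,
    L.smul _ _ _ _ g2, L.fst (fun x : ℂ => ‖x‖ ^ 2) z v (hn _), L.snd (fun x : ℂ => ‖x‖ ^ 2) z v (hn _),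
    L.sq, L.sq]
  unfold nm
  ring

theorem fl_pot (L : LevBasics) (C : Coord) (e : ℝ) : IsPot (Fl e) where
  smooth := by
    intro j z _
    have h := (C.tr_an j z).restrict_scalars ℝ
    have h' : ContDiffAt ℝ ∞ (tr j) z := h.of_le (by norm_cast)
    exact ((fl_aux e).contDiffAt).comp z h'
  per := by
    intro z l _ _ v
    have e1 : (fun t => Fl e 0 (t + l) - Fl e 0 t) =
        fun t => (fun z : E => 4 * e * ‖z.1‖ ^ 2 + 4 * e * ‖z.2‖ ^ 2) (t + l) -
          (fun z : E => 4 * e * ‖z.1‖ ^ 2 + 4 * e * ‖z.2‖ ^ 2) t := by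
      funext t
      simp only [Fl, C.tr0]
    rw [e1]
    have hc : ∀ z : E, ContDiffAt ℝ 2 (fun z : E => 4 * e * ‖z.1‖ ^ 2 + 4 * e * ‖z.2‖ ^ 2) z :=
      fun z => ((fl_aux e).contDiffAt).of_le (by norm_cast)
    have ht : ContDiffAt ℂ ω (fun t : E => t + l) z := contDiffAt_id.add contDiffAt_const
    have ht' : ContDiffAt ℝ 2 (fun t : E => (fun z : E => 4 * e * ‖z.1‖ ^ 2 + 4 * e * ‖z.2‖ ^ 2) (t + l)) z :=
      (hc (z + l)).comp z (contDiffAt_id.add contDiffAt_const)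
    rw [L.sub _ _ _ _ ht' (hc z), L.comp _ _ _ _ ht (hc _), fl_lev L, fl_lev L]
    have : fderiv ℂ (fun t : E => t + l) z = ContinuousLinearMap.id ℂ E := by
      rw [fderiv_add_const]; exact fderiv_fun_id
    rw [this]
    simp
  compat := by
    intro j z _ _ v
    have e1 : (fun t => Fl e j t - Fl e 0 (tr j t)) = fun _ => (0 : ℝ) := by
      funext t
      simp only [Fl, C.tr0, sub_self]
    rw [e1, L.const]

theorem stKahler (L : LevBasics) (C : Coord) (hP : StPot) (hT : StTransfer) (h1 : StK1) (h2 : StK2) :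
    StKahler := by
  intro H A e hH j z hz v hv
  have h := hT (Om H A e) (Fl e) 1 (hP H A e hH).2 (fl_pot L C e) (by
    intro z hz v
    have e1 : Fl e 0 = fun z : E => 4 * e * ‖z.1‖ ^ 2 + 4 * e * ‖z.2‖ ^ 2 := by
      funext t
      simp only [Fl, C.tr0]
    rw [one_mul, e1, fl_lev L]
    exact h1 H A e hH z hz v) j z hz v
  have e2 : lev (Fl e j) z v = 16 * e * nm (fderiv ℂ (tr j) z v) := by
    have := L.comp (fun z : E => 4 * e * ‖z.1‖ ^ 2 + 4 * e * ‖z.2‖ ^ 2) (tr j) z v (C.tr_an j z)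
      (((fl_aux e).contDiffAt).of_le (by norm_cast))
    rw [fl_lev L] at this
    exact this
  rw [one_mul, e2] at h
  by_cases hD : fderiv ℂ (tr j) z v = 0
  · by_cases h0 : tr j z ∈ V 0
    · exact absurd (C.loc j z hz h0 (hD.trans (map_zero _).symm)) hv
    · have hj : j ≠ 0 := by
        rintro rfl
        rw [C.tr0] at h0
        exact h0 hz
      exact h2 H A e hH j hj z hz h0 v hv hD
  · refine lt_of_lt_of_le ?_ h
    have : 0 < nm (fderiv ℂ (tr j) z v) := by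
      unfold nm
      rcases not_and_or.mp (fun hh : (fderiv ℂ (tr j) z v).1 = 0 ∧ (fderiv ℂ (tr j) z v).2 = 0 =>
        hD (Prod.ext hh.1 hh.2)) with h3 | h3
      · have := norm_pos_iff.mpr h3
        positivity
      · have := norm_pos_iff.mpr h3
        positivity
    have := hH.e_pos
    positivity

end Pool.Agent.Y810.SP
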