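import Pool.Agent.Y810.SP.Base

set_option autoImplicit false

open Set Topology Filter
open scoped ContDiff Manifold

namespace Pool.Agent.Y810.SP

/-- the gluing data of the surface -/
noncomputable def G0 (C : Coord) (hI : StInj) (hC : StCover) (hT : StTrans) : GData (Fin 4 × E) S0 where
  V := fun i => V i.1 ∩ Metric.ball i.2 (1 / 2)
  κ := fun i => κ0 i.1
  isOpen_V := fun i => (C.open_V i.1).inter Metric.isOpen_ball
  inj := fun i => hI i.1 i.2
  cover := fun s => by
    obtain ⟨j, z, hz, h⟩ := hC s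
    exact ⟨(j, z), z, ⟨hz, Metric.mem_ball_self (by norm_num)⟩, h⟩
  trans := by
    rintro ⟨i, c⟩ ⟨j, c'⟩ z z' hz hz' h
    obtain ⟨τ, h1, h2, h3⟩ := hT i j z z' hz.1 hz'.1 h
    refine ⟨τ, h1, ?_⟩
    have hc : ContinuousAt τ z := h1.continuousAt
    have ho : IsOpen (V j ∩ Metric.ball c' (1 / 2)) := (C.open_V j).inter Metric.isOpen_ball
    have hm : V j ∩ Metric.ball c' (1 / 2) ∈ 𝓝 (τ z) := ho.mem_nhds (by rw [h2]; exact hz')
    filter_upwards [h3, hc.preimage_mem_nhds hm] with t ht1 ht2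
    exact ⟨ht2, ht1⟩

theorem stSurf (C : Coord) (hI : StInj) (hC : StCover) (hE : StEq) (hT : StTrans) (hA : StGlueA)
    (hB : StGlueB) (hT2 : StT2) (hCo : StCompact) (hCn : StConn) : StSurf := by
  obtain ⟨tS, cS, hG⟩ := hA _ _ (G0 C hI hC hT)
  obtain ⟨b1, b2, b3, b4⟩ := hB _ _ (G0 C hI hC hT) hG
  have self : ∀ j, ∀ z ∈ V j, z ∈ (G0 C hI hC hT).V (j, z) := fun j z hz =>
    ⟨hz, Metric.mem_ball_self (by norm_num)⟩
  have hN : Nhds := fun j z hz => b1 (j, z) z (self j z hz)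
  refine ⟨S0, tS, cS, κ0, ?_⟩
  exact {
    man := hG.man
    t2 := hT2 hN
    compact := hCo hN
    conn := hCn hN
    cover := hC
    eq0 := hE.1
    eqj := hE.2.1
    ne := hE.2.2
    inj := fun j z hz => ⟨V j ∩ Metric.ball z (1 / 2),
      ((C.open_V j).inter Metric.isOpen_ball).mem_nhds (self j z hz), hI j z⟩
    nhds := hN
    trans := hT
    smooth := fun u j z hz => b2 u (j, z) z (self j z hz)
    disc1 := fun j γ h1 h2 => b3 (j, γ 0) γ (self j _ h1) h2
    disc2 := fun f hf j z hz h => b4 f hf (j, z) z (self j z hz) h }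

end Pool.Agent.Y810.SP
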