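import Pool.Agent.Y810.SP.Max
import Pool.Agent.Y810.SP.Surf
import Pool.Agent.Y810.SP.Kah
import Pool.Agent.Y810.SP.Fin
import Pool.Agent.Y810.SP.J_stBig
import Pool.Agent.Y810.SP.J_stComp
import Pool.Agent.Y810.SP.J_stCompact
import Pool.Agent.Y810.SP.J_stConn
import Pool.Agent.Y810.SP.J_stCoord
import Pool.Agent.Y810.SP.J_stFar
import Pool.Agent.Y810.SP.J_stForm
import Pool.Agent.Y810.SP.J_stFun
import Pool.Agent.Y810.SP.J_stGlueA
import Pool.Agent.Y810.SP.J_stGlueB
import Pool.Agent.Y810.SP.J_stH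
import Pool.Agent.Y810.SP.J_stHB
import Pool.Agent.Y810.SP.J_stHol
import Pool.Agent.Y810.SP.J_stInj
import Pool.Agent.Y810.SP.J_stK1
import Pool.Agent.Y810.SP.J_stK2
import Pool.Agent.Y810.SP.J_stLev
import Pool.Agent.Y810.SP.J_stLiou
import Pool.Agent.Y810.SP.J_stN1
import Pool.Agent.Y810.SP.J_stN2
import Pool.Agent.Y810.SP.J_stNear
import Pool.Agent.Y810.SP.J_stNearFun
import Pool.Agent.Y810.SP.J_stNef
import Pool.Agent.Y810.SP.J_stNot
import Pool.Agent.Y810.SP.J_stPole
import Pool.Agent.Y810.SP.J_stPot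
import Pool.Agent.Y810.SP.J_stRes
import Pool.Agent.Y810.SP.J_stSum
import Pool.Agent.Y810.SP.J_stT2
import Pool.Agent.Y810.SP.J_stTrans
import Pool.Agent.Y810.SP.J_stTransfer

set_option autoImplicit false

namespace Pool.Agent.Y810.SP

theorem all : StMain := by
  have L : LevBasics := JstLev.stLev
  have C0 : Coord := JstCoord.stCoord
  have hPole : StPole := JstPole.stPole L C0
  have C : Coord := JstCoord.stCoord
  have hSum := JstSum.stSum L
  have hLi := JstLiou.stLiou
  have hRes := JstRes.stRes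
  have hH := JstH.stH
  have hHB := JstHB.stHB
  have hPot := JstPot.stPot L C
  have hNF := JstNearFun.stNearFun C
  have hT := JstTransfer.stTransfer L C
  have hK1 := JstK1.stK1 L hSum
  have hK2 := JstK2.stK2 L C
  have hKah := stKahler L C hPot hT hK1 hK2
  have hNear := JstNear.stNear L hSum
  have hFar := JstFar.stFar L
  have hComp := JstComp.stComp
  have hNef := JstNef.stNef L C stMax hHB hNF hNear hFar hComp
  have hBig := stBig L C hSum hHB
  have hN1 := JstN1.stN1 L C hLi
  have hN2 := JstN2.stN2 L C hLi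
  have hHol := JstHol.stHol L
  have hNot := JstNot.stNot L C hN1 hN2 hHol hPole hRes
  have hA := JstGlueA.stGlueA
  have hB := JstGlueB.stGlueB
  obtain ⟨hI, hCov, hEq⟩ := JstInj.stInj
  have hTr := JstTrans.stTrans
  have hT2 : StT2 := fun hN => JstT2.stT2 C hN
  have hCo : StCompact := fun hN => JstCompact.stCompact C hN
  have hCn : StConn := fun hN => JstConn.stConn C hN
  have hSurf := stSurf C hI hCov hEq hTr hA hB hT2 hCo hCn
  have hFun := JstFun.stFun C
  have hForm := JstForm.stForm L C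
  exact stMain L C hSurf hFun hForm hPot hKah hT hK1 hNef hBig hNot hH

end Pool.Agent.Y810.SP
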