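import Pool.Agent.Y810.SP.Defs

/-!
# A nef and big class on a compact Kähler surface without semipositive representatives

Definitions. `T = ℂ / ℤ[i]`, and `X` is the blow-up of `T × T` (coordinates `x`, `y`) at `(0, 0)` and
at the point of the exceptional curve which is the direction of `y = x`. Coordinates on `X`:
`(x, y)` outside `(0, 0)`, and near the exceptional curves, with `w = y - x`, the pairs
`(x / w, w)`, `(x² / w, w / x)` and `(x, w / x²)`.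
-/

set_option autoImplicit false

open Set Topology Filter
open scoped ContDiff Manifold

namespace Pool.Agent.Y810.SP

/-! ### The four coordinate systems -/

/-- the lattice `ℤ[i]` -/
def Lam : AddSubgroup ℂ where
  carrier := {x | ∃ m n : ℤ, x = m + n * Complex.I}
  zero_mem' := ⟨0, 0, by simp⟩
  add_mem' := by
    rintro _ _ ⟨a, b, rfl⟩ ⟨c, d, rfl⟩
    exact ⟨a + c, b + d, by push_cast; ring⟩
  neg_mem' := by
    rintro _ ⟨a, b, rfl⟩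
    exact ⟨-a, -b, by push_cast; ring⟩

/-- the lattice `ℤ[i]²` -/
def Lam2 : Set E := {z | z.1 ∈ Lam ∧ z.2 ∈ Lam}

/-- the function `x` in the coordinate systems -/
noncomputable def xx : Fin 4 → E → ℂ
  | 0 => fun z => z.1
  | 1 => fun z => z.1 * z.2
  | 2 => fun z => z.1 * z.2
  | 3 => fun z => z.1

/-- the function `w = y - x` in the coordinate systems -/
noncomputable def ww : Fin 4 → E → ℂ
  | 0 => fun z => z.2 - z.1
  | 1 => fun z => z.2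
  | 2 => fun z => z.1 * z.2 ^ 2
  | 3 => fun z => z.1 ^ 2 * z.2

/-- the functions `(x, y)` -/
noncomputable def tr : Fin 4 → E → E := fun j z => (xx j z, ww j z + xx j z)

/-- the domains of the coordinate systems -/
def V : Fin 4 → Set E := fun j => if j = 0 then Lam2ᶜ else {z | ‖xx j z‖ < 1 / 8 ∧ ‖ww j z‖ < 1 / 8}

/-- the dense open set of the points with `x, y, w ∉ Λ` -/
def Wd : Set E := {z | z.1 ∉ Lam ∧ z.2 ∉ Lam ∧ z.2 - z.1 ∉ Lam}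

/-- the Levi form of `ρ` at `z` in the direction `v` (the Laplacian along the complex line) -/
noncomputable def lev (ρ : E → ℝ) (z v : E) : ℝ :=
  Laplacian.laplacian (fun ζ : ℂ => ρ (z + ζ • v)) 0

/-- the square of the length of `v` -/
noncomputable def nm (v : E) : ℝ := ‖v.1‖ ^ 2 + ‖v.2‖ ^ 2

/-- a family of functions, one for each coordinate system, smooth on its domain -/
def Sm (F : Fin 4 → E → ℝ) : Prop := ∀ j, ∀ z ∈ V j, ContDiffAt ℝ ∞ (F j) z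

/-- the family of functions is one function on the surface -/
structure IsFun (F : Fin 4 → E → ℝ) : Prop where
  smooth : Sm F
  per : ∀ z l : E, z ∈ V 0 → l ∈ Lam2 → F 0 (z + l) = F 0 z
  compat : ∀ j, ∀ z ∈ V j, tr j z ∈ V 0 → F j z = F 0 (tr j z)

/-- the family of functions is a family of potentials of a form on the surface -/
structure IsPot (F : Fin 4 → E → ℝ) : Prop where
  smooth : Sm F
  per : ∀ z l : E, z ∈ V 0 → l ∈ Lam2 → ∀ v, lev (fun t => F 0 (t + l) - F 0 t) z v = 0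
  compat : ∀ j, ∀ z ∈ V j, tr j z ∈ V 0 → ∀ v, lev (fun t => F j t - F 0 (tr j t)) z v = 0

/-! ### The function `H` -/

/-- The properties of `H x = |σ x|² exp (- e |x|²)`. -/
structure HF (H A : ℂ → ℝ) (e : ℝ) : Prop where
  e_pos : 0 < e
  A_smooth : ContDiff ℝ ∞ A
  A_pos : ∀ x : ℂ, ‖x‖ < 1 → 0 < A x
  H_eq : ∀ x, H x = ‖x‖ ^ 2 * A x
  H_per : ∀ x l, l ∈ Lam → H (x + l) = H x
  H_even : ∀ x, H (-x) = H x
  H_pos : ∀ x, x ∉ Lam → 0 < H x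
  lap_A : ∀ x : ℂ, ‖x‖ < 1 → Laplacian.laplacian (fun t => Real.log (A t)) x = -(4 * e)
  lap_H : ∀ x, x ∉ Lam → Laplacian.laplacian (fun t => Real.log (H t)) x = -(4 * e)

/-- Bounds for `H`. -/
structure HB (H : ℂ → ℝ) (r c K D : ℝ) : Prop where
  r_pos : 0 < r
  c_pos : 0 < c
  K_pos : 0 < K
  D_pos : 0 < D
  near : ∀ x, H x < r → c ≤ Laplacian.laplacian H x
  bdd : ∀ x, H x ≤ D
  lap_bdd : ∀ x, |Laplacian.laplacian H x| ≤ D
  tri : ∀ a b, H (a + b) ≤ K * (H a + H b)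

section

variable (H A : ℂ → ℝ) (e : ℝ)

/-- `H w` without the factor `|m|²`, where `m` is `1`, `η`, `ξ η²`, `ξ²` in the coordinate systems -/
noncomputable def ca : Fin 4 → E → ℝ
  | 0 => fun z => H (z.2 - z.1)
  | 1 => fun z => A (ww 1 z)
  | 2 => fun z => A (ww 2 z)
  | 3 => fun z => ‖z.2‖ ^ 2 * A (ww 3 z)

/-- `(H x)²` without the factor `|m|²` -/
noncomputable def cb : Fin 4 → E → ℝ
  | 0 => fun z => H z.1 ^ 2
  | 1 => fun z => ‖z.1‖ ^ 4 * ‖z.2‖ ^ 2 * A (xx 1 z) ^ 2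
  | 2 => fun z => ‖z.1‖ ^ 2 * A (xx 2 z) ^ 2
  | 3 => fun z => A (xx 3 z) ^ 2

/-- `H w` without the factor `|n|²`, where `n` is `1`, `η`, `ξ η`, `ξ` in the coordinate systems -/
noncomputable def ca1 : Fin 4 → E → ℝ
  | 0 => fun z => H (z.2 - z.1)
  | 1 => fun z => A (ww 1 z)
  | 2 => fun z => ‖z.2‖ ^ 2 * A (ww 2 z)
  | 3 => fun z => ‖z.1‖ ^ 2 * ‖z.2‖ ^ 2 * A (ww 3 z)

/-- `H x` without the factor `|n|²` -/
noncomputable def cb1 : Fin 4 → E → ℝ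
  | 0 => fun z => H z.1
  | 1 => fun z => ‖z.1‖ ^ 2 * A (xx 1 z)
  | 2 => fun z => A (xx 2 z)
  | 3 => fun z => A (xx 3 z)

/-- the potentials of the form `θ` -/
noncomputable def Th : Fin 4 → E → ℝ := fun j z =>
  e * ‖(tr j z).1‖ ^ 2 + 3 * e * ‖(tr j z).2‖ ^ 2 + Real.log (ca H A j z + cb H A j z)

/-- the potentials of the Kähler form `Ω` -/
noncomputable def Om : Fin 4 → E → ℝ := fun j z =>
  8 * e * ‖(tr j z).1‖ ^ 2 + 8 * e * ‖(tr j z).2‖ ^ 2 + Real.log (ca H A j z + cb H A j z) +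
    Real.log (ca1 H A j z + cb1 H A j z)

/-- the functions near the curve `y = 0` -/
noncomputable def near (k M C : ℝ) : Fin 4 → E → ℝ := fun j z =>
  Real.log (ca H A j z + k * cb H A j z * Real.exp (M * H (xx j z))) -
    Real.log (ca H A j z + cb H A j z) + C * H (tr j z).2

/-- the function far from the curve `y = 0` -/
noncomputable def far (z : E) : ℝ :=
  5 / 2 * Real.log (H z.2) - Real.log (H (z.2 - z.1) + H z.1 ^ 2)

end

/-! ### The gluing -/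

/-- The data of a complex surface: the charts are the inverses of the injective maps `κ i` on the
open sets `V i`. -/
structure GData (ι S : Type) where
  V : ι → Set E
  κ : ι → E → S
  isOpen_V : ∀ i, IsOpen (V i)
  inj : ∀ i, InjOn (κ i) (V i)
  cover : ∀ s, ∃ i, ∃ z ∈ V i, κ i z = s
  trans : ∀ i j z z', z ∈ V i → z' ∈ V j → κ i z = κ j z' →
    ∃ τ : E → E, ContDiffAt ℂ ω τ z ∧ ∀ᶠ t in 𝓝 z, τ t ∈ V j ∧ κ j (τ t) = κ i t

/-! ### The parts of the proof -/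

/-- elementary properties of the Levi form -/
structure LevBasics : Prop where
  congr : ∀ (f g : E → ℝ) (z v : E), (∀ᶠ t in 𝓝 z, f t = g t) → lev f z v = lev g z v
  add : ∀ (f g : E → ℝ) (z v : E), ContDiffAt ℝ 2 f z → ContDiffAt ℝ 2 g z →
    lev (fun t => f t + g t) z v = lev f z v + lev g z v
  sub : ∀ (f g : E → ℝ) (z v : E), ContDiffAt ℝ 2 f z → ContDiffAt ℝ 2 g z →
    lev (fun t => f t - g t) z v = lev f z v - lev g z v
  smul : ∀ (c : ℝ) (f : E → ℝ) (z v : E), ContDiffAt ℝ 2 f z →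
    lev (fun t => c * f t) z v = c * lev f z v
  const : ∀ (c : ℝ) (z v : E), lev (fun _ => c) z v = 0
  /-- the formula with the second derivative -/
  eq : ∀ (f : E → ℝ) (z v : E), ContDiffAt ℝ 2 f z → lev f z v =
    fderiv ℝ (fderiv ℝ f) z v v + fderiv ℝ (fderiv ℝ f) z (Complex.I • v) (Complex.I • v)
  cont : ∀ (f : E → ℝ) (z v : E), ContDiffAt ℝ 2 f z →
    ContinuousAt (fun p : E × E => lev f p.1 p.2) (z, v)
  /-- chain rule for holomorphic discs -/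
  disc : ∀ (f : E → ℝ) (γ : ℂ → E), AnalyticAt ℂ γ 0 → ContDiffAt ℝ 2 f (γ 0) →
    Laplacian.laplacian (fun ζ => f (γ ζ)) 0 = lev f (γ 0) (deriv γ 0)
  /-- chain rule for holomorphic maps -/
  comp : ∀ (f : E → ℝ) (τ : E → E) (z v : E), ContDiffAt ℂ ω τ z → ContDiffAt ℝ 2 f (τ z) →
    lev (fun t => f (τ t)) z v = lev f (τ z) (fderiv ℂ τ z v)
  /-- chain rule for holomorphic functions -/
  one : ∀ (f : ℂ → ℝ) (τ : E → ℂ) (z v : E), ContDiffAt ℂ ω τ z → ContDiffAt ℝ 2 f (τ z) →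
    lev (fun t => f (τ t)) z v = ‖fderiv ℂ τ z v‖ ^ 2 * Laplacian.laplacian f (τ z)
  fst : ∀ (f : ℂ → ℝ) (z v : E), ContDiffAt ℝ 2 f z.1 →
    lev (fun t => f t.1) z v = ‖v.1‖ ^ 2 * Laplacian.laplacian f z.1
  snd : ∀ (f : ℂ → ℝ) (z v : E), ContDiffAt ℝ 2 f z.2 →
    lev (fun t => f t.2) z v = ‖v.2‖ ^ 2 * Laplacian.laplacian f z.2
  dif : ∀ (f : ℂ → ℝ) (z v : E), ContDiffAt ℝ 2 f (z.2 - z.1) →
    lev (fun t => f (t.2 - t.1)) z v = ‖v.2 - v.1‖ ^ 2 * Laplacian.laplacian f (z.2 - z.1)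
  sq : ∀ x : ℂ, Laplacian.laplacian (fun t : ℂ => ‖t‖ ^ 2) x = 4
  /-- the logarithm of the modulus of a nonvanishing holomorphic function is pluriharmonic -/
  log : ∀ (τ : E → ℂ) (z v : E), ContDiffAt ℂ ω τ z → τ z ≠ 0 →
    lev (fun t => Real.log (‖τ t‖ ^ 2)) z v = 0

def StLev : Prop := LevBasics

/-- the logarithm of a sum -/
def StSum : Prop := ∀ (P Q : E → ℝ) (z v : E), ContDiffAt ℝ 2 P z → ContDiffAt ℝ 2 Q z →
  0 < P z → 0 < Q z →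
  P z / (P z + Q z) * lev (fun t => Real.log (P t)) z v +
    Q z / (P z + Q z) * lev (fun t => Real.log (Q t)) z v ≤
    lev (fun t => Real.log (P t + Q t)) z v

/-- bounded subharmonic functions on the plane are constant -/
def StLiou : Prop := ∀ v : ℂ → ℝ, ContDiff ℝ 2 v → (∃ K, ∀ x, |v x| ≤ K) →
  (∀ x, 0 ≤ Laplacian.laplacian v x) → ∀ x y, v x = v y

/-- there is no elliptic function with one simple pole -/
def StRes : Prop := ∀ g : ℂ → ℂ, (∀ x, x ∉ Lam → DifferentiableAt ℂ g x) →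
  (∀ x l, x ∉ Lam → l ∈ Lam → g (x + l) = g x) → ¬ Tendsto (fun x => x * g x) (𝓝[≠] 0) (𝓝 (-1))

/-- the regularised maximum -/
def StMax : Prop := ∃ m : ℝ → ℝ, ContDiff ℝ ∞ m ∧ (∀ r, r ≤ -1 → m r = 0) ∧
  (∀ r, 1 ≤ r → m r = r) ∧ ∀ (f g : E → ℝ) (z v : E) (t : ℝ), ContDiffAt ℝ 2 f z →
  ContDiffAt ℝ 2 g z → t ≤ lev f z v → t ≤ lev g z v →
  t ≤ lev (fun z' => g z' + m (f z' - g z')) z v

/-- the function `H` -/
def StH : Prop := ∃ (H A : ℂ → ℝ) (e : ℝ), HF H A e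

def StHB : Prop := ∀ (H A : ℂ → ℝ) (e : ℝ), HF H A e → ∃ r c K D : ℝ, HB H r c K D

/-- elementary properties of the coordinate systems -/
structure Coord : Prop where
  open_V : ∀ j, IsOpen (V j)
  open_Wd : IsOpen Wd
  Wd_sub : Wd ⊆ V 0
  dense : ∀ j, ∀ z ∈ V j, z ∈ closure (V j ∩ tr j ⁻¹' Wd)
  tr_an : ∀ j z, ContDiffAt ℂ ω (tr j) z
  tr0 : ∀ z, tr 0 z = z
  /-- in the domains of the last three systems the exceptional points are the points over `0` -/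
  exc : ∀ j, j ≠ 0 → ∀ z ∈ V j, (tr j z ∈ V 0 ↔ tr j z ≠ 0)
  /-- the functions `tr j` are local homeomorphisms outside the exceptional points -/
  loc : ∀ j, ∀ z ∈ V j, tr j z ∈ V 0 → Function.Injective (fderiv ℂ (tr j) z)

def StCoord : Prop := Coord

/-- the potentials are families of potentials -/
def StPot : Prop := ∀ (H A : ℂ → ℝ) (e : ℝ), HF H A e → IsPot (Th H A e) ∧ IsPot (Om H A e)

/-- the function `near` is a function on the surface -/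
def StNearFun : Prop := ∀ (H A : ℂ → ℝ) (e : ℝ), HF H A e → ∀ k M C : ℝ, 0 < k →
  IsFun (near H A k M C)

/-- inequalities extend from the dense set -/
def StTransfer : Prop := ∀ (F G : Fin 4 → E → ℝ) (c : ℝ), IsPot F → IsPot G →
  (∀ z ∈ Wd, ∀ v, c * lev (G 0) z v ≤ lev (F 0) z v) →
  ∀ j, ∀ z ∈ V j, ∀ v, c * lev (G j) z v ≤ lev (F j) z v

/-- lower bound for the Kähler form -/
def StK1 : Prop := ∀ (H A : ℂ → ℝ) (e : ℝ), HF H A e → ∀ z ∈ Wd, ∀ v,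
  16 * e * nm v ≤ lev (Om H A e 0) z v

/-- positivity at the exceptional points in the directions of the kernel of the derivative -/
def StK2 : Prop := ∀ (H A : ℂ → ℝ) (e : ℝ), HF H A e → ∀ j, j ≠ 0 → ∀ z ∈ V j, tr j z ∉ V 0 →
  ∀ v, v ≠ 0 → fderiv ℂ (tr j) z v = 0 → 0 < lev (Om H A e j) z v

def StKahler : Prop := ∀ (H A : ℂ → ℝ) (e : ℝ), HF H A e → ∀ j, ∀ z ∈ V j, ∀ v, v ≠ 0 →
  0 < lev (Om H A e j) z v

/-- the lower bound near the curve `y = 0` -/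
def StNear : Prop := ∀ (H A : ℂ → ℝ) (e r c K D : ℝ), HF H A e → HB H r c K D →
  ∀ ε : ℝ, 0 < ε → ∃ k M C h : ℝ, 0 < k ∧ k ≤ 1 ∧ 0 ≤ M ∧ 0 ≤ C ∧ 0 < h ∧
  ∀ z ∈ Wd, H z.2 < h → ∀ v, -(ε * nm v) ≤ lev (fun t => Th H A e 0 t + near H A k M C 0 t) z v

/-- the lower bound for the function `far` -/
def StFar : Prop := ∀ (H A : ℂ → ℝ) (e : ℝ), HF H A e → ∀ z ∈ Wd, ∀ v,
  0 ≤ lev (fun t => Th H A e 0 t + far H t) z v

/-- comparison of the two functions -/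
def StComp : Prop := ∀ (H A : ℂ → ℝ) (e r c K D : ℝ), HF H A e → HB H r c K D →
  ∀ k M C h : ℝ, 0 < k → k ≤ 1 → 0 ≤ M → 0 ≤ C → 0 < h → ∃ a h0 : ℝ, 0 < h0 ∧ h0 < h ∧
  (∀ z : E, z.2 ∉ Lam → H z.2 < h0 → far H z + 1 ≤ near H A k M C 0 z - a) ∧
  ∀ z : E, h / 2 ≤ H z.2 → near H A k M C 0 z - a + 1 ≤ far H z

/-- the class of `θ` is nef -/
def StNef : Prop := ∀ (H A : ℂ → ℝ) (e : ℝ), HF H A e → ∀ ε : ℝ, 0 < ε →
  ∃ U : Fin 4 → E → ℝ, IsFun U ∧ ∀ z ∈ Wd, ∀ v,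
    -(ε * nm v) ≤ lev (fun t => Th H A e 0 t + U 0 t) z v

/-- the class of `θ` is big -/
def StBig : Prop := ∀ (H A : ℂ → ℝ) (e : ℝ), HF H A e → ∃ (δ : ℝ) (ψ : E → ℝ), 0 < δ ∧
  (∀ z : E, z.2 ∉ Lam → ContDiffAt ℝ ∞ ψ z) ∧
  (∀ z l : E, z.2 ∉ Lam → l ∈ Lam2 → ψ (z + l) = ψ z) ∧
  (∀ z : E, z.2 ∉ Lam → ∀ v, δ * lev (Om H A e 0) z v ≤ lev (fun t => Th H A e 0 t + ψ t) z v) ∧
  ∀ j, ∀ z ∈ V j, (tr j z).2 ∈ Lam →
    Tendsto (fun t => ψ (tr j t)) (𝓝[{t | (tr j t).2 ∉ Lam}] z) atBot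

/-- the first step for the non-existence: the function is constant on the first exceptional curve -/
def StN1 : Prop := ∀ (H A : ℂ → ℝ) (e : ℝ), HF H A e → ∀ U : Fin 4 → E → ℝ, IsFun U →
  (∀ j, ∀ z ∈ V j, ∀ v, 0 ≤ lev (fun t => Th H A e j t + U j t) z v) →
  ∀ η : ℂ, U 2 (0, η) = U 2 (0, 0)

/-- the second step: the form vanishes in the direction of the curve `y = 0` -/
def StN2 : Prop := ∀ (H A : ℂ → ℝ) (e : ℝ), HF H A e → ∀ U : Fin 4 → E → ℝ, IsFun U →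
  (∀ j, ∀ z ∈ V j, ∀ v, 0 ≤ lev (fun t => Th H A e j t + U j t) z v) →
  ∀ x : ℂ, x ∉ Lam → lev (fun t => Th H A e 0 t + U 0 t) (x, 0) (1, 0) = 0

/-- the derivative `2 ∂/∂y` of the function `f` -/
noncomputable def dy (f : E → ℝ) (z : E) : ℂ :=
  (fderiv ℝ f z (0, 1) : ℂ) - Complex.I * (fderiv ℝ f z (0, Complex.I) : ℂ)

/-- semipositive form that vanishes in the direction of a curve -/
def StHol : Prop := ∀ (f : E → ℝ) (x : ℂ), ContDiffAt ℝ ∞ f (x, 0) →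
  (∀ᶠ t in 𝓝 (x, (0 : ℂ)), ∀ v, 0 ≤ lev f t v) → lev f (x, 0) (1, 0) = 0 →
  DifferentiableAt ℂ (fun x' => dy f (x', 0)) x

/-- the pole of the derivative -/
def StPole : Prop := ∀ (H A : ℂ → ℝ) (e : ℝ), HF H A e → ∀ U : Fin 4 → E → ℝ, IsFun U →
  (∀ η : ℂ, U 2 (0, η) = U 2 (0, 0)) →
  Tendsto (fun x : ℂ => x * dy (fun t => Th H A e 0 t + U 0 t) (x, 0)) (𝓝[≠] 0) (𝓝 (-2))

/-- there is no semipositive representative -/
def StNot : Prop := ∀ (H A : ℂ → ℝ) (e : ℝ), HF H A e → ∀ U : Fin 4 → E → ℝ, IsFun U →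
  (∀ j, ∀ z ∈ V j, ∀ v, 0 ≤ lev (fun t => Th H A e j t + U j t) z v) → False

/-! ### The surface -/

/-- `X` is the compact complex surface with the given coordinate systems; `κ j z` is the point with
the coordinates `z` in the system `j`. -/
structure IsSurf {X : Type} [TopologicalSpace X] [ChartedSpace E X] (κ : Fin 4 → E → X) : Prop where
  man : IsManifold 𝓘(ℂ, E) ω X
  t2 : T2Space X
  compact : CompactSpace X
  conn : ConnectedSpace X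
  cover : ∀ p, ∃ j, ∃ z ∈ V j, κ j z = p
  eq0 : ∀ z z', z ∈ V 0 → z' ∈ V 0 → (κ 0 z = κ 0 z' ↔ z' - z ∈ Lam2)
  eqj : ∀ j, ∀ z ∈ V j, tr j z ∈ V 0 → κ j z = κ 0 (tr j z)
  ne : ∀ j, ∀ z ∈ V j, tr j z ∉ V 0 → ∀ z' ∈ V 0, κ j z ≠ κ 0 z'
  inj : ∀ j, ∀ z ∈ V j, ∃ N ∈ 𝓝 z, InjOn (κ j) N
  nhds : ∀ j, ∀ z ∈ V j, map (κ j) (𝓝 z) = 𝓝 (κ j z)
  trans : ∀ i j z z', z ∈ V i → z' ∈ V j → κ i z = κ j z' →
    ∃ τ : E → E, ContDiffAt ℂ ω τ z ∧ τ z = z' ∧ ∀ᶠ t in 𝓝 z, κ j (τ t) = κ i t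
  smooth : ∀ (u : X → ℝ) (j : Fin 4), ∀ z ∈ V j,
    (ContMDiffAt 𝓘(ℝ, E) 𝓘(ℝ, ℝ) ∞ u (κ j z) ↔ ContDiffAt ℝ ∞ (fun t => u (κ j t)) z)
  disc1 : ∀ (j : Fin 4) (γ : ℂ → E), γ 0 ∈ V j → AnalyticAt ℂ γ 0 → IsDisc (fun ζ => κ j (γ ζ))
  disc2 : ∀ f : ℂ → X, IsDisc f → ∀ (j : Fin 4), ∀ z ∈ V j, κ j z = f 0 →
    ∃ γ : ℂ → E, AnalyticAt ℂ γ 0 ∧ γ 0 = z ∧ (∀ᶠ ζ in 𝓝 0, f ζ = κ j (γ ζ)) ∧
      (deriv γ 0 = 0 → mfderiv 𝓘(ℂ, ℂ) 𝓘(ℂ, E) f 0 = 0)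

def StSurf : Prop := ∃ (X : Type) (_ : TopologicalSpace X) (_ : ChartedSpace E X)
  (κ : Fin 4 → E → X), IsSurf κ

/-! ### Construction of the surface -/

/-- The charts of the manifold `S` are the inverses of the maps `G.κ i`. -/
structure IsGlue {ι S : Type} (G : GData ι S) [TopologicalSpace S] [ChartedSpace E S] : Prop where
  man : IsManifold 𝓘(ℂ, E) ω S
  manR : IsManifold 𝓘(ℝ, E) ∞ S
  chart : ∀ i, ∃ e : OpenPartialHomeomorph S E, e ∈ IsManifold.maximalAtlas 𝓘(ℂ, E) ω S ∧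
    e ∈ IsManifold.maximalAtlas 𝓘(ℝ, E) ∞ S ∧ e.target = G.V i ∧ ∀ z ∈ G.V i, e.symm z = G.κ i z

/-- the topology and the charts -/
def StGlueA : Prop := ∀ (ι S : Type) (G : GData ι S), ∃ (_ : TopologicalSpace S)
  (_ : ChartedSpace E S), IsGlue G

/-- consequences -/
def StGlueB : Prop := ∀ (ι S : Type) (G : GData ι S) [TopologicalSpace S] [ChartedSpace E S],
  IsGlue G →
  (∀ i, ∀ z ∈ G.V i, map (G.κ i) (𝓝 z) = 𝓝 (G.κ i z)) ∧
  (∀ (u : S → ℝ) (i : ι), ∀ z ∈ G.V i,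
    (ContMDiffAt 𝓘(ℝ, E) 𝓘(ℝ, ℝ) ∞ u (G.κ i z) ↔ ContDiffAt ℝ ∞ (fun t => u (G.κ i t)) z)) ∧
  (∀ (i : ι) (γ : ℂ → E), γ 0 ∈ G.V i → AnalyticAt ℂ γ 0 → IsDisc (fun ζ => G.κ i (γ ζ))) ∧
  ∀ f : ℂ → S, IsDisc f → ∀ (i : ι), ∀ z ∈ G.V i, G.κ i z = f 0 →
    ∃ γ : ℂ → E, AnalyticAt ℂ γ 0 ∧ γ 0 = z ∧ (∀ᶠ ζ in 𝓝 0, f ζ = G.κ i (γ ζ)) ∧
      (deriv γ 0 = 0 → mfderiv 𝓘(ℂ, ℂ) 𝓘(ℂ, E) f 0 = 0)

/-- The points of the surface: the points of the torus `T × T` (where `0` stands for the point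
`(0, 0)` of the coordinate system `1`), the other points of the first exceptional curve, and the
other points of the second exceptional curve. -/
def S0 : Type := ((ℂ ⧸ Lam) × (ℂ ⧸ Lam)) ⊕ (ℂ ⊕ ℂ)

/-- the point of the torus -/
noncomputable def tor (z : E) : S0 := Sum.inl ((z.1 : ℂ ⧸ Lam), (z.2 : ℂ ⧸ Lam))

/-- the point of the first exceptional curve with the direction `w / x = a` -/
def ea (a : ℂ) : S0 := Sum.inr (Sum.inl a)

/-- the point of the second exceptional curve with `w / x² = b` -/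
def eb (b : ℂ) : S0 := Sum.inr (Sum.inr b)

open Classical in
/-- the points with given coordinates -/
noncomputable def κ0 : Fin 4 → E → S0
  | 0 => tor
  | 1 => fun z => if z.2 = 0 then (if z.1 = 0 then tor 0 else ea z.1⁻¹) else tor (tr 1 z)
  | 2 => fun z => if z.1 = 0 then ea z.2 else if z.2 = 0 then eb z.1⁻¹ else tor (tr 2 z)
  | 3 => fun z => if z.1 = 0 then eb z.2 else tor (tr 3 z)

def StInj : Prop := ∀ j c, InjOn (κ0 j) (V j ∩ Metric.ball c (1 / 2))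

def StCover : Prop := ∀ s : S0, ∃ j, ∃ z ∈ V j, κ0 j z = s

def StTrans : Prop := ∀ i j z z', z ∈ V i → z' ∈ V j → κ0 i z = κ0 j z' →
  ∃ τ : E → E, ContDiffAt ℂ ω τ z ∧ τ z = z' ∧ ∀ᶠ t in 𝓝 z, κ0 j (τ t) = κ0 i t

/-- further properties of the maps `κ0` -/
def StEq : Prop := (∀ z z', z ∈ V 0 → z' ∈ V 0 → (κ0 0 z = κ0 0 z' ↔ z' - z ∈ Lam2)) ∧
  (∀ j, ∀ z ∈ V j, tr j z ∈ V 0 → κ0 j z = κ0 0 (tr j z)) ∧
  (∀ j, ∀ z ∈ V j, tr j z ∉ V 0 → ∀ z' ∈ V 0, κ0 j z ≠ κ0 0 z')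

/-- the topology of the surface -/
def Nhds [TopologicalSpace S0] : Prop := ∀ j, ∀ z ∈ V j, map (κ0 j) (𝓝 z) = 𝓝 (κ0 j z)

def StT2 : Prop := ∀ [TopologicalSpace S0], Nhds → T2Space S0

def StCompact : Prop := ∀ [TopologicalSpace S0], Nhds → CompactSpace S0

def StConn : Prop := ∀ [TopologicalSpace S0], Nhds → ConnectedSpace S0

/-- functions on the surface -/
def StFun : Prop := ∀ (X : Type) [TopologicalSpace X] [ChartedSpace E X] (κ : Fin 4 → E → X),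
  IsSurf κ → ∀ F : Fin 4 → E → ℝ, IsFun F → ∃ u : X → ℝ, ∀ j, ∀ z ∈ V j, u (κ j z) = F j z

/-- forms on the surface -/
def StForm : Prop := ∀ (X : Type) [TopologicalSpace X] [ChartedSpace E X] (κ : Fin 4 → E → X),
  IsSurf κ → ∀ F : Fin 4 → E → ℝ, IsPot F → ∃ θ : Form X, ∀ (f : ℂ → X) (j : Fin 4) (γ : ℂ → E),
  AnalyticAt ℂ γ 0 → γ 0 ∈ V j → (∀ᶠ ζ in 𝓝 0, f ζ = κ j (γ ζ)) →
  θ.val f = lev (F j) (γ 0) (deriv γ 0)

/-- The main theorem. -/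
def StMain : Prop := ∃ (X : Type) (_ : TopologicalSpace X) (_ : ChartedSpace E X),
  IsManifold 𝓘(ℂ, E) ω X ∧ T2Space X ∧ CompactSpace X ∧ ConnectedSpace X ∧
  ∃ Ω θ : Form X, Ω.IsKahler ∧ Nef Ω θ ∧ Big Ω θ ∧ ¬ ∃ u : X → ℝ, SmoothGe Ω θ 0 u

end Pool.Agent.Y810.SP
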