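import Mathlib

/-!
# Smooth closed real `(1,1)`-forms, Kähler forms, nef and big classes on complex surfaces

A complex surface is a complex manifold with the model `E = ℂ × ℂ`. Forms are given by local
potentials and they are evaluated on holomorphic discs: for a smooth function `ρ` near `q` the value
of `dd^c ρ` on the tangent vector of a holomorphic disc `f` with `f 0 = q` is, up to a constant positive
factor, the Laplacian at `0` of `ρ ∘ f`.
-/

set_option autoImplicit false

open Set Topology Filter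
open scoped ContDiff Manifold

namespace Pool.Agent.Y810.SP

/-- the model of a complex surface -/
abbrev E : Type := ℂ × ℂ

/-! ### Forms on complex surfaces -/

/-- `f` is (near `0`) a holomorphic disc in the complex surface `Y` -/
def IsDisc {Y : Type} [TopologicalSpace Y] [ChartedSpace E Y] (f : ℂ → Y) : Prop :=
  ContMDiffAt 𝓘(ℂ, ℂ) 𝓘(ℂ, E) ω f 0

/-- A smooth closed real `(1,1)`-form on the complex surface `Y`, given by its local potentials: it
is `dd^c (pot p)` near `p`, where the function `pot p` is smooth near `p`. For `q` near `p` the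
functions `pot p` and `pot q` have the same Laplacian at `q` along all discs through `q`. -/
structure Form (Y : Type) [TopologicalSpace Y] [ChartedSpace E Y] where
  pot : Y → Y → ℝ
  smooth : ∀ p, ∀ᶠ q in 𝓝 p, ContMDiffAt 𝓘(ℝ, E) 𝓘(ℝ, ℝ) ∞ (pot p) q
  compat : ∀ p, ∀ᶠ q in 𝓝 p, ∀ f : ℂ → Y, IsDisc f → f 0 = q →
    Laplacian.laplacian (fun ζ : ℂ => pot p (f ζ) - pot q (f ζ)) 0 = 0

/-- the Laplacian at `0` of the function `u` along the disc `f` -/
noncomputable def dl {Y : Type} (u : Y → ℝ) (f : ℂ → Y) : ℝ :=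
  Laplacian.laplacian (fun ζ : ℂ => u (f ζ)) 0

section

variable {Y : Type} [TopologicalSpace Y] [ChartedSpace E Y]

/-- The value of the form on the tangent vector of the disc `f` at `f 0` (up to a constant factor,
`θ (v, J v)` for the tangent vector `v` of `f` at `0`). -/
noncomputable def Form.val (θ : Form Y) (f : ℂ → Y) : ℝ := dl (θ.pot (f 0)) f

/-- The form is positive (a Kähler form). -/
def Form.IsKahler (Ω : Form Y) : Prop :=
  ∀ f : ℂ → Y, IsDisc f → mfderiv 𝓘(ℂ, ℂ) 𝓘(ℂ, E) f 0 ≠ 0 → 0 < Ω.val f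

/-- The function `u` is smooth and `θ + dd^c u ≥ c Ω`. -/
def SmoothGe (Ω θ : Form Y) (c : ℝ) (u : Y → ℝ) : Prop :=
  ContMDiff 𝓘(ℝ, E) 𝓘(ℝ, ℝ) ∞ u ∧ ∀ f : ℂ → Y, IsDisc f → c * Ω.val f ≤ θ.val f + dl u f

/-- The class of `θ` is nef: for all `ε > 0` it contains a smooth form `θ + dd^c u ≥ - ε Ω`. -/
def Nef (Ω θ : Form Y) : Prop := ∀ ε : ℝ, 0 < ε → ∃ u : Y → ℝ, SmoothGe Ω θ (-ε) u

/-- The class of `θ` is big, with a Kähler current which is smooth outside a closed nowhere dense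
set `A`: the function `ψ` is smooth outside `A` and has the limit `-∞` at the points of `A`, and
`θ + dd^c ψ ≥ δ Ω` outside `A`. -/
def Big (Ω θ : Form Y) : Prop :=
  ∃ (A : Set Y) (δ : ℝ) (ψ : Y → ℝ), IsClosed A ∧ Dense Aᶜ ∧ 0 < δ ∧
    (∀ p, p ∉ A → ContMDiffAt 𝓘(ℝ, E) 𝓘(ℝ, ℝ) ∞ ψ p) ∧
    (∀ p ∈ A, Tendsto ψ (𝓝[Aᶜ] p) atBot) ∧
    ∀ f : ℂ → Y, IsDisc f → f 0 ∉ A → δ * Ω.val f ≤ θ.val f + dl ψ f

end

end Pool.Agent.Y810.SP
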