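import Pool.Agent.Y810.SP.Base
import Pool.Agent.H171R3.FV.Lame

set_option autoImplicit false

open Set Topology Filter
open scoped ContDiff Manifold

namespace Pool.Agent.Y810.SP

namespace JstH



namespace HSig

open H171FV

theorem mem_iff (z : ℂ) : z ∈ Lam ↔ z ∈ Wg.Lam := Iff.rfl

theorem one_mem' : (1 : ℂ) ∈ Lam := ⟨1, 0, by simp⟩

theorem I_mem' : Complex.I ∈ Lam := ⟨0, 1, by simp⟩

theorem norm_ge_one {z : ℂ} (hz : z ∈ Lam) (h0 : z ≠ 0) : 1 ≤ ‖z‖ := by
  obtain ⟨m, n, rfl⟩ := hz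
  have h1 : Complex.normSq ((m : ℂ) + n * Complex.I) = (m : ℝ) ^ 2 + (n : ℝ) ^ 2 := by
    simp [Complex.normSq_apply]; ring
  have h2 : (1 : ℤ) ≤ m ^ 2 + n ^ 2 := by
    by_contra hc
    push Not at hc
    have h3 : m ^ 2 + n ^ 2 = 0 := le_antisymm (by omega) (by positivity)
    have hm : m = 0 := by nlinarith [sq_nonneg m, sq_nonneg n]
    have hn : n = 0 := by nlinarith [sq_nonneg m, sq_nonneg n]
    apply h0
    simp [hm, hn]
  have h3 : (1 : ℝ) ≤ (m : ℝ) ^ 2 + (n : ℝ) ^ 2 := by exact_mod_cast h2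
  have h4 : 1 ≤ ‖(m : ℂ) + n * Complex.I‖ ^ 2 := by
    rw [← Complex.normSq_eq_norm_sq, h1]
    exact h3
  nlinarith [norm_nonneg ((m : ℂ) + n * Complex.I)]

theorem not_mem_of_lt {z : ℂ} (h0 : z ≠ 0) (h : ‖z‖ < 1) : z ∉ Lam :=
  fun hz => absurd (norm_ge_one hz h0) (not_le.2 h)

theorem half_notMem : (1 / 2 : ℂ) ∉ Lam := not_mem_of_lt (by norm_num) (by norm_num)

theorem halfI_notMem : (Complex.I / 2 : ℂ) ∉ Lam :=
  not_mem_of_lt (by simp) (by simp; norm_num)

theorem exists_eta_real : ∃ e : ℝ, e ≠ 0 ∧ eta = (e : ℂ) := by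
  have h := exp_two_eta
  rw [Complex.exp_eq_one_iff] at h
  obtain ⟨k, hk⟩ := h
  have h2 : eta = ((Real.pi * k : ℝ) : ℂ) := by
    have hI : (2 * Complex.I : ℂ) ≠ 0 := by simp
    apply mul_left_cancel₀ hI
    rw [hk]
    push_cast
    ring
  refine ⟨Real.pi * k, ?_, h2⟩
  intro h0
  apply eta_ne
  rw [h2, h0]
  simp

theorem tendsto_zt : Tendsto (fun z => z * zt z) (𝓝[≠] 0) (𝓝 1) := by
  have h1 : ContinuousAt (fun z => zt z - 1 / z) 0 := zt_an.continuousAt
  have h2 : Tendsto (fun z : ℂ => z * (zt z - 1 / z) + 1) (𝓝[≠] 0) (𝓝 (0 * (zt 0 - 1 / 0) + 1)) := by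
    have h3 : Tendsto (fun z : ℂ => z * (zt z - 1 / z) + 1) (𝓝 0) (𝓝 (0 * (zt 0 - 1 / 0) + 1)) :=
      (tendsto_id.mul h1.tendsto).add_const 1
    exact h3.mono_left nhdsWithin_le_nhds
  rw [zero_mul, zero_add] at h2
  refine h2.congr' ?_
  filter_upwards [self_mem_nhdsWithin] with z hz
  have hz' : z ≠ 0 := hz
  field_simp
  ring

theorem evt : ∀ᶠ z in 𝓝[≠] (0 : ℂ), z ∉ Lam := Lam_near 0

theorem sg_zero : sg 0 = 0 := by
  have hd : Continuous (deriv sg) := (sg_diff.contDiff (n := 1)).continuous_deriv le_rfl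
  have h1 : Tendsto (fun z => z * deriv sg z) (𝓝[≠] 0) (𝓝 (0 * deriv sg 0)) :=
    ((continuous_id.mul hd).tendsto 0).mono_left nhdsWithin_le_nhds
  have h2 : Tendsto (fun z => (z * zt z) * sg z) (𝓝[≠] 0) (𝓝 (1 * sg 0)) :=
    tendsto_zt.mul ((sg_diff.continuous.tendsto 0).mono_left nhdsWithin_le_nhds)
  have h3 : (fun z => (z * zt z) * sg z) =ᶠ[𝓝[≠] 0] fun z => z * deriv sg z := by
    filter_upwards [evt] with z hz
    rw [sg_deriv hz]
    ring
  have h4 := tendsto_nhds_unique (h2.congr' h3) h1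
  simpa using h4

theorem deriv_sg_zero : deriv sg 0 ≠ 0 := by
  have han : AnalyticAt ℂ sg 0 := sg_diff.analyticAt 0
  have hne : ¬ ∀ᶠ z in 𝓝 (0 : ℂ), sg z = 0 := by
    intro h
    have h1 : ∀ᶠ z in 𝓝[≠] (0 : ℂ), sg z = 0 := h.filter_mono nhdsWithin_le_nhds
    obtain ⟨z, hz1, hz2⟩ := (h1.and evt).exists
    exact sg_ne hz2 hz1
  obtain ⟨n, g, hg, hg0, hgz⟩ := (han.exists_eventuallyEq_pow_smul_nonzero_iff).2 hne
  have hd : ∀ᶠ z in 𝓝 (0 : ℂ), DifferentiableAt ℂ g z :=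
    hg.eventually_analyticAt.mono fun z hz => hz.differentiableAt
  have hgz' : sg =ᶠ[𝓝 0] fun z => z ^ n * g z := by
    filter_upwards [hgz] with z hz
    simpa using hz
  have key : ∀ᶠ z in 𝓝[≠] (0 : ℂ), (n : ℂ) * g z + z * deriv g z = (z * zt z) * g z := by
    have h1 : ∀ᶠ z in 𝓝[≠] (0 : ℂ), sg =ᶠ[𝓝 z] fun z => z ^ n * g z :=
      (eventually_eventually_nhds.2 hgz').filter_mono nhdsWithin_le_nhds
    filter_upwards [h1, evt, hd.filter_mono nhdsWithin_le_nhds, self_mem_nhdsWithin]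
      with z h1 h2 h3 h4
    have hz : z ≠ 0 := h4
    have h5 : deriv sg z = (n : ℂ) * z ^ (n - 1) * g z + z ^ n * deriv g z := by
      rw [h1.deriv_eq]
      have := ((hasDerivAt_pow n z).mul h3.hasDerivAt).deriv
      exact this
    have h6 : z * deriv sg z = z ^ n * ((n : ℂ) * g z + z * deriv g z) := by
      rw [h5]
      rcases Nat.eq_zero_or_pos n with hn | hn
      · subst hn
        simp
      · have : z * z ^ (n - 1) = z ^ n := by
          rw [← pow_succ', Nat.sub_add_cancel hn]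
        linear_combination (n : ℂ) * g z * this
    have h7 : z * deriv sg z = z ^ n * ((z * zt z) * g z) := by
      rw [sg_deriv h2, h1.self_of_nhds]
      ring
    exact mul_left_cancel₀ (pow_ne_zero n hz) (h6.symm.trans h7)
  have hcd : ContinuousAt (deriv g) 0 := hg.deriv.continuousAt
  have t1 : Tendsto (fun z => (n : ℂ) * g z + z * deriv g z) (𝓝[≠] 0)
      (𝓝 ((n : ℂ) * g 0 + 0 * deriv g 0)) :=
    ((hg.continuousAt.tendsto.const_mul _).add
      (tendsto_id.mul hcd.tendsto)).mono_left nhdsWithin_le_nhds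
  have t2 : Tendsto (fun z => (z * zt z) * g z) (𝓝[≠] 0) (𝓝 (1 * g 0)) :=
    tendsto_zt.mul (hg.continuousAt.tendsto.mono_left nhdsWithin_le_nhds)
  have h8 := tendsto_nhds_unique (t1.congr' key) t2
  have h9 : (n : ℂ) = 1 := by
    apply mul_right_cancel₀ hg0
    simpa using h8
  have hn1 : n = 1 := by exact_mod_cast h9
  subst hn1
  have h10 : deriv sg 0 = g 0 := by
    rw [hgz'.deriv_eq]
    have := ((hasDerivAt_pow 1 (0 : ℂ)).mul hg.differentiableAt.hasDerivAt).deriv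
    have h11 : deriv (fun z : ℂ => z ^ 1 * g z) 0 = _ := this
    rw [h11]
    simp
  rw [h10]
  exact hg0

/-- `sg z = z * s1 z` -/
noncomputable def s1 : ℂ → ℂ := dslope sg 0

theorem s1_diff : Differentiable ℂ s1 := by
  have h : DifferentiableOn ℂ (dslope sg 0) univ :=
    (Complex.differentiableOn_dslope univ_mem).2 sg_diff.differentiableOn
  exact fun z => (h z (mem_univ z)).differentiableAt univ_mem

theorem sg_eq (z : ℂ) : sg z = z * s1 z := by
  have h := sub_smul_dslope sg 0 z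
  rw [sg_zero] at h
  simpa [s1] using h.symm

theorem s1_ne {z : ℂ} (hz : ‖z‖ < 1) : s1 z ≠ 0 := by
  by_cases h0 : z = 0
  · subst h0
    unfold s1
    rw [dslope_same]
    exact deriv_sg_zero
  · intro h
    apply sg_ne (not_mem_of_lt h0 hz)
    rw [sg_eq, h, mul_zero]

theorem sg_abs_neg (z : ℂ) (hz : z ∉ Lam) : ‖sg (-z)‖ = ‖sg z‖ := by
  have hneg : ∀ z : ℂ, z ∉ Lam → -z ∉ Lam := fun z hz h => hz (by simpa using Lam.neg_mem h)
  have A : ∀ z ∉ Wg.Lam, HasDerivAt (fun z => sg (-z) / sg z) 0 z := by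
    intro z hz
    have d1 : HasDerivAt (fun z => sg (-z)) (zt z * sg (-z)) z := by
      have h1 := (sg_diff (-z)).hasDerivAt
      rw [sg_deriv (hneg z hz)] at h1
      have h2 := HasDerivAt.comp z h1 (hasDerivAt_neg z)
      refine h2.congr_deriv ?_
      rw [zt_neg]
      ring
    have d3 : HasDerivAt sg (zt z * sg z) z := by
      have := (sg_diff z).hasDerivAt
      rwa [sg_deriv hz] at this
    refine (d1.div d3 (sg_ne hz)).congr_deriv ?_
    have hs := sg_ne hz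
    field_simp
    ring
  obtain ⟨C, hC⟩ := Wg.zeta_quasi_open.exists_is_const_of_deriv_eq_zero Wg.zeta_quasi_preconn
    (fun z hz => (A z hz).differentiableAt.differentiableWithinAt) (fun z hz => (A z hz).deriv)
  have h1 : ∀ z ∉ Lam, sg (-z) = C * sg z := by
    intro z hz
    have := hC z hz
    rwa [div_eq_iff (sg_ne hz)] at this
  have h2 := h1 z hz
  have h3 := h1 (-z) (hneg z hz)
  rw [neg_neg, h2, ← mul_assoc] at h3
  have h4 : C * C = 1 := by
    apply mul_right_cancel₀ (sg_ne hz)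
    rw [one_mul]
    exact h3.symm
  have h5 : ‖C‖ = 1 := by
    have h6 : ‖C‖ * ‖C‖ = 1 := by rw [← norm_mul, h4, norm_one]
    nlinarith [norm_nonneg C]
  rw [h2, norm_mul, h5, one_mul]

/-- the function `A` -/
noncomputable def AA (e : ℝ) (x : ℂ) : ℝ := ‖s1 x‖ ^ 2 * Real.exp (-(e * ‖x‖ ^ 2))

/-- the function `H` -/
noncomputable def HH (e : ℝ) (x : ℂ) : ℝ := ‖sg x‖ ^ 2 * Real.exp (-(e * ‖x‖ ^ 2))

theorem HH_eq (e : ℝ) (x : ℂ) : HH e x = ‖x‖ ^ 2 * AA e x := by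
  unfold HH AA
  rw [sg_eq, norm_mul]
  ring

theorem AA_smooth (e : ℝ) : ContDiff ℝ ∞ (AA e) := by
  have h1 : ContDiff ℝ ∞ s1 := by
    have : ContDiff ℂ ∞ s1 := s1_diff.contDiff
    exact this.restrict_scalars ℝ
  have h2 : ContDiff ℝ ∞ fun x : ℂ => ‖s1 x‖ ^ 2 := h1.norm_sq ℝ
  have h3 : ContDiff ℝ ∞ fun x : ℂ => ‖x‖ ^ 2 := contDiff_id.norm_sq ℝ
  exact h2.mul (Real.contDiff_exp.comp (contDiff_const.mul h3).neg)

theorem AA_pos (e : ℝ) {x : ℂ} (hx : ‖x‖ < 1) : 0 < AA e x := by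
  unfold AA
  have := s1_ne hx
  positivity

theorem HH_pos (e : ℝ) {x : ℂ} (hx : x ∉ Lam) : 0 < HH e x := by
  unfold HH
  have : sg x ≠ 0 := sg_ne hx
  positivity

theorem HH_neg (e : ℝ) {x : ℂ} (hx : x ∉ Lam) : HH e (-x) = HH e x := by
  unfold HH
  rw [sg_abs_neg x hx, norm_neg]

theorem HH_zero (e : ℝ) : HH e 0 = 0 := by
  unfold HH
  rw [sg_zero]
  simp

theorem HH_shift {e : ℝ} {l : ℂ} (hl : l ∈ Lam)
    (hc : ∀ z ∉ Wg.Lam, zt (z + l) = zt z + e * (starRingEnd ℂ) l) :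
    ∃ K : ℝ, ∀ x, HH e (x + l) = K * HH e x := by
  obtain ⟨C, -, hC⟩ := sg_quasi hl hc
  refine ⟨‖C‖ ^ 2 * Real.exp (-(e * ‖l‖ ^ 2)), fun x => ?_⟩
  unfold HH
  rw [hC x, norm_mul, norm_mul, Complex.norm_exp]
  have h1 : ‖x + l‖ ^ 2 = ‖x‖ ^ 2 + 2 * (x * (starRingEnd ℂ) l).re + ‖l‖ ^ 2 := by
    rw [← Complex.normSq_eq_norm_sq, ← Complex.normSq_eq_norm_sq, ← Complex.normSq_eq_norm_sq,
      Complex.normSq_add]
    ring
  have h2 : ((e : ℂ) * (starRingEnd ℂ) l * x).re = e * (x * (starRingEnd ℂ) l).re := by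
    rw [mul_assoc, Complex.re_ofReal_mul, mul_comm x]
  rw [h1, h2]
  have h3 : Real.exp (-(e * (‖x‖ ^ 2 + 2 * (x * (starRingEnd ℂ) l).re + ‖l‖ ^ 2)))
      = Real.exp (-(e * ‖x‖ ^ 2)) * Real.exp (-(e * ‖l‖ ^ 2)) *
        (Real.exp (e * (x * (starRingEnd ℂ) l).re))⁻¹ ^ 2 := by
    rw [← Real.exp_neg, ← Real.exp_nat_mul, ← Real.exp_add, ← Real.exp_add]
    congr 1
    push_cast
    ring
  rw [h3]
  have h4 := (Real.exp_pos (e * (x * (starRingEnd ℂ) l).re)).ne'
  field_simp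

theorem HH_one {e : ℝ} (he : eta = (e : ℂ)) (x : ℂ) : HH e (x + 1) = HH e x := by
  obtain ⟨K, hK⟩ := HH_shift (e := e) one_mem' (fun z hz => by rw [zt_one hz, he]; simp)
  have h1 := hK (-(1 / 2))
  rw [HH_neg e half_notMem, show (-(1 / 2 : ℂ) + 1) = 1 / 2 by ring] at h1
  have h2 : K = 1 := by
    apply mul_right_cancel₀ (HH_pos e half_notMem).ne'
    rw [one_mul]
    exact h1.symm
  rw [hK, h2, one_mul]

theorem HH_I {e : ℝ} (he : eta = (e : ℂ)) (x : ℂ) : HH e (x + Complex.I) = HH e x := by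
  obtain ⟨K, hK⟩ := HH_shift (e := e) I_mem' (fun z hz => by
    rw [zt_addI hz, he, Complex.conj_I]; ring)
  have h1 := hK (-(Complex.I / 2))
  rw [HH_neg e halfI_notMem, show (-(Complex.I / 2 : ℂ) + Complex.I) = Complex.I / 2 by ring] at h1
  have h2 : K = 1 := by
    apply mul_right_cancel₀ (HH_pos e halfI_notMem).ne'
    rw [one_mul]
    exact h1.symm
  rw [hK, h2, one_mul]

theorem HH_per {e : ℝ} (he : eta = (e : ℂ)) (x l : ℂ) (hl : l ∈ Lam) :
    HH e (x + l) = HH e x := by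
  let P : AddSubgroup ℂ :=
    { carrier := {l | ∀ x, HH e (x + l) = HH e x}
      zero_mem' := fun x => by rw [add_zero]
      add_mem' := fun {a b} ha hb x => by rw [← add_assoc, hb, ha]
      neg_mem' := fun {a} ha x => by
        have := ha (x + -a)
        rw [neg_add_cancel_right] at this
        exact this.symm }
  have h1 : (1 : ℂ) ∈ P := HH_one he
  have h2 : Complex.I ∈ P := HH_I he
  obtain ⟨m, n, rfl⟩ := hl
  have h3 : (m : ℂ) + n * Complex.I ∈ P := by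
    have h4 := P.add_mem (P.zsmul_mem h1 m) (P.zsmul_mem h2 n)
    simpa using h4
  exact h3 x

theorem exists_near (x : ℂ) : ∃ l ∈ Lam, ‖x - l‖ ≤ 1 := by
  refine ⟨(round x.re : ℂ) + (round x.im : ℂ) * Complex.I, ⟨round x.re, round x.im, rfl⟩, ?_⟩
  have h1 := abs_sub_round x.re
  have h2 := abs_sub_round x.im
  refine (Complex.norm_le_abs_re_add_abs_im _).trans ?_
  simp only [Complex.sub_re, Complex.add_re, Complex.intCast_re, Complex.mul_re, Complex.I_re,
    mul_zero, Complex.intCast_im, Complex.I_im, mul_one, sub_self, add_zero, Complex.sub_im,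
    Complex.add_im, Complex.mul_im, zero_add]
  linarith

theorem e_pos {e : ℝ} (he0 : e ≠ 0) (he : eta = (e : ℂ)) : 0 < e := by
  by_contra hneg
  have hlt : e < 0 := lt_of_le_of_ne (not_lt.1 hneg) he0
  have hcont : Continuous (HH e) := by
    unfold HH
    have := sg_diff.continuous
    fun_prop
  obtain ⟨x0, -, hx0⟩ := (isCompact_closedBall (0 : ℂ) 1).exists_isMaxOn
    ⟨0, by simp⟩ hcont.continuousOn
  have hmax : ∀ x, HH e x ≤ HH e x0 := by
    intro x
    obtain ⟨l, hl, hxl⟩ := exists_near x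
    have h1 : HH e (x - l) ≤ HH e x0 := hx0 (by simpa using hxl)
    have h2 := HH_per he (x - l) l hl
    rw [sub_add_cancel] at h2
    rw [h2]
    exact h1
  have hpos : 0 < HH e x0 := (HH_pos e half_notMem).trans_le (hmax _)
  have hsx0 : sg x0 ≠ 0 := by
    intro h
    unfold HH at hpos
    rw [h] at hpos
    simp at hpos
  -- the function `g`
  let g : ℂ → ℂ := fun t => sg t * Complex.exp (-(e * (starRingEnd ℂ) x0 * (t - x0)))
  have hg : Differentiable ℂ g := by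
    have := sg_diff
    fun_prop
  have hgx0 : ‖g x0‖ = ‖sg x0‖ := by simp [g]
  have key : ∀ t, ‖g t‖ ^ 2 ≤ ‖sg x0‖ ^ 2 * Real.exp (e * ‖t - x0‖ ^ 2) := by
    intro t
    have h1 := hmax t
    unfold HH at h1
    have h2 : ‖g t‖ ^ 2 = ‖sg t‖ ^ 2 * Real.exp (-(2 * e * ((starRingEnd ℂ) x0 * (t - x0)).re)) := by
      simp only [g]
      rw [norm_mul, Complex.norm_exp, mul_pow, ← Real.exp_nat_mul]
      congr 2
      rw [mul_assoc, Complex.neg_re, Complex.re_ofReal_mul]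
      push_cast
      ring
    have h3 : ‖t‖ ^ 2 = ‖x0‖ ^ 2 + 2 * ((starRingEnd ℂ) x0 * (t - x0)).re + ‖t - x0‖ ^ 2 := by
      have h4 : t = (t - x0) + x0 := by ring
      have h5 : ‖(t - x0) + x0‖ ^ 2 = ‖t - x0‖ ^ 2 + 2 * ((t - x0) * (starRingEnd ℂ) x0).re + ‖x0‖ ^ 2 := by
        rw [← Complex.normSq_eq_norm_sq, ← Complex.normSq_eq_norm_sq, ← Complex.normSq_eq_norm_sq,
          Complex.normSq_add]
        ring
      rw [← h4, mul_comm (t - x0)] at h5
      linarith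
    rw [h2]
    have h6 : Real.exp (-(e * ‖t‖ ^ 2)) = Real.exp (-(e * ‖x0‖ ^ 2)) *
        Real.exp (-(2 * e * ((starRingEnd ℂ) x0 * (t - x0)).re)) *
        Real.exp (-(e * ‖t - x0‖ ^ 2)) := by
      rw [h3, ← Real.exp_add, ← Real.exp_add]
      congr 1
      ring
    rw [h6] at h1
    have h7 := Real.exp_pos (-(e * ‖x0‖ ^ 2))
    have h8 : ‖sg t‖ ^ 2 * (Real.exp (-(2 * e * ((starRingEnd ℂ) x0 * (t - x0)).re)) *
        Real.exp (-(e * ‖t - x0‖ ^ 2))) ≤ ‖sg x0‖ ^ 2 := by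
      have h9 : (‖sg t‖ ^ 2 * (Real.exp (-(2 * e * ((starRingEnd ℂ) x0 * (t - x0)).re)) *
        Real.exp (-(e * ‖t - x0‖ ^ 2)))) * Real.exp (-(e * ‖x0‖ ^ 2)) ≤
          ‖sg x0‖ ^ 2 * Real.exp (-(e * ‖x0‖ ^ 2)) := by
        calc _ = ‖sg t‖ ^ 2 * (Real.exp (-(e * ‖x0‖ ^ 2)) *
            Real.exp (-(2 * e * ((starRingEnd ℂ) x0 * (t - x0)).re)) *
            Real.exp (-(e * ‖t - x0‖ ^ 2))) := by ring
          _ ≤ _ := h1
      exact le_of_mul_le_mul_right h9 h7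
    have h10 : Real.exp (-(e * ‖t - x0‖ ^ 2)) * Real.exp (e * ‖t - x0‖ ^ 2) = 1 := by
      rw [← Real.exp_add]
      simp
    calc ‖sg t‖ ^ 2 * Real.exp (-(2 * e * ((starRingEnd ℂ) x0 * (t - x0)).re))
        = ‖sg t‖ ^ 2 * (Real.exp (-(2 * e * ((starRingEnd ℂ) x0 * (t - x0)).re)) *
        Real.exp (-(e * ‖t - x0‖ ^ 2))) * Real.exp (e * ‖t - x0‖ ^ 2) := by
          linear_combination -(‖sg t‖ ^ 2 *
            Real.exp (-(2 * e * ((starRingEnd ℂ) x0 * (t - x0)).re))) * h10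
      _ ≤ _ := mul_le_mul_of_nonneg_right h8 (Real.exp_pos _).le
  have hle : ∀ t, ‖g t‖ ≤ ‖g x0‖ := by
    intro t
    have h1 := key t
    have h2 : Real.exp (e * ‖t - x0‖ ^ 2) ≤ 1 := by
      rw [Real.exp_le_one_iff]
      exact mul_nonpos_of_nonpos_of_nonneg hlt.le (by positivity)
    rw [hgx0]
    have h3 : ‖g t‖ ^ 2 ≤ ‖sg x0‖ ^ 2 :=
      h1.trans (mul_le_of_le_one_right (by positivity) h2)
    exact le_of_sq_le_sq h3 (norm_nonneg _)
  have hloc : IsLocalMax (norm ∘ g) x0 := Filter.Eventually.of_forall hle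
  have hconst := Complex.eventually_eq_of_isLocalMax_norm
    (Filter.Eventually.of_forall fun t => hg t) hloc
  have h1 : ∀ᶠ t in 𝓝[≠] x0, g t = g x0 := hconst.filter_mono nhdsWithin_le_nhds
  obtain ⟨t, ht, hne⟩ := (h1.and self_mem_nhdsWithin).exists
  have hne' : t ≠ x0 := hne
  have h2 := key t
  rw [ht, hgx0] at h2
  have h3 : Real.exp (e * ‖t - x0‖ ^ 2) < 1 := by
    rw [Real.exp_lt_one_iff]
    have : 0 < ‖t - x0‖ := norm_pos_iff.2 (sub_ne_zero.2 hne')
    exact mul_neg_of_neg_of_pos hlt (by positivity)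
  have h4 : 0 < ‖sg x0‖ ^ 2 := by positivity
  nlinarith

theorem lap_sq (x : ℂ) : Laplacian.laplacian (fun t : ℂ => ‖t‖ ^ 2) x = 4 := by
  rw [InnerProductSpace.laplacian_eq_iteratedFDeriv_complexPlane]
  simp only [iteratedFDeriv_two_apply]
  have h : fderiv ℝ (fun t : ℂ => ‖t‖ ^ 2) = fun t => (2 • (innerSL ℝ (E := ℂ))) t := by
    rw [fderiv_norm_sq]
    rfl
  rw [h, ContinuousLinearMap.fderiv]
  have h1 : ((innerSL ℝ) (1 : ℂ)) (1 : ℂ) = 1 := by
    rw [innerSL_apply_apply, real_inner_self_eq_norm_sq]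
    simp
  have h2 : ((innerSL ℝ) Complex.I) Complex.I = 1 := by
    rw [innerSL_apply_apply, real_inner_self_eq_norm_sq]
    simp
  have h3 : ((2 • (innerSL ℝ (E := ℂ))) 1) 1 = 2 * ((innerSL ℝ) (1 : ℂ)) (1 : ℂ) := by
    simp
  have h4 : ((2 • (innerSL ℝ (E := ℂ))) Complex.I) Complex.I
      = 2 * ((innerSL ℝ) Complex.I) Complex.I := by
    simp
  simp only [Matrix.cons_val_zero, Matrix.cons_val_one]
  rw [h3, h4, h1, h2]
  norm_num

theorem lap_log {f : ℂ → ℂ} (hf : Differentiable ℂ f) {x : ℂ} (hx : f x ≠ 0) (e : ℝ) :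
    Laplacian.laplacian (fun t => Real.log (‖f t‖ ^ 2 * Real.exp (-(e * ‖t‖ ^ 2)))) x
      = -(4 * e) := by
  have h1 : (fun t => Real.log (‖f t‖ ^ 2 * Real.exp (-(e * ‖t‖ ^ 2)))) =ᶠ[𝓝 x]
      ((2 : ℝ) • fun t => Real.log ‖f t‖) - (e • fun t => ‖t‖ ^ 2) := by
    filter_upwards [hf.continuous.continuousAt.eventually_ne hx] with t ht
    simp only [Pi.sub_apply, Pi.smul_apply, smul_eq_mul]
    rw [Real.log_mul (by positivity) (Real.exp_pos _).ne', Real.log_exp, Real.log_pow]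
    push_cast
    ring
  have hh := (hf.analyticAt x).harmonicAt_log_norm hx
  have hc1 : ContDiffAt ℝ 2 (fun t => Real.log ‖f t‖) x := hh.1
  have hc2 : ContDiffAt ℝ 2 (fun t : ℂ => ‖t‖ ^ 2) x := (contDiff_id.norm_sq ℝ).contDiffAt
  have hz : Laplacian.laplacian (fun t => Real.log ‖f t‖) x = 0 := hh.2.self_of_nhds
  rw [(InnerProductSpace.laplacian_congr_nhds h1).self_of_nhds,
    ContDiffAt.laplacian_sub (f₁ := (2 : ℝ) • fun t => Real.log ‖f t‖)
      (f₂ := e • fun t : ℂ => ‖t‖ ^ 2) (hc1.const_smul (2 : ℝ)) (hc2.const_smul e),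
    InnerProductSpace.laplacian_smul (2 : ℝ) hc1, InnerProductSpace.laplacian_smul e hc2, hz, lap_sq]
  simp
  ring

end HSig

/-- TARGET. Proof in words:
The library has the Weierstrass sigma and zeta functions of ℤ[i] (`Wg.Lam`, the same lattice as `Lam` here; prove the
membership equivalence): `H171FV.sg`, `sg_diff : Differentiable ℂ sg`, `sg_ne : z ∉ Lam → sg z ≠ 0`,
`sg_deriv : z ∉ Lam → deriv sg z = zt z * sg z`, `zt_neg`, `zt_an : AnalyticAt ℂ (fun z => zt z - 1 / z) 0`,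
`zt_one : zt (z + 1) = zt z + eta`, `zt_addI : zt (z + I) = zt z - I * eta`, `eta_ne`, `exp_two_eta : exp (2 * I * eta) = 1`,
`zt_deriv`, `sg_quasi` (modules Pool.Agent.H171R3.FV.Sig, Add, Lame).
(1) `exp (2 I eta) = 1` gives `eta = π k` with k an integer, so eta is real, nonzero. Call it `e`.
(2) `sg` has a simple zero at 0: `sg z = z σ₁ z` with σ₁ entire (`dslope sg 0` if `sg 0 = 0`), `σ₁ 0 ≠ 0`, because `sg'/sg = zt = 1/z +
analytic` near 0 (if σ vanished to order k then z σ'/σ → k, and here it tends to 1). Also `σ₁ z ≠ 0` for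
0 < |z| < 1 since then z ∉ Λ.
(3) Put `A x = |σ₁ x|² exp (- e |x|²)`, `H x = |x|² A x = |sg x|² exp (- e |x|²)`. A is smooth (norm squared of an entire
function is smooth over ℝ).
(4) Periodicity: `sg (x + 1) = c₁ exp (eta x) sg x` off Λ and everywhere by continuity (the logarithmic derivatives agree;
`sg_quasi` of the library may be exactly this); the constant: use that `H(x + 1)/H(x)` has modulus constant: put
x = -1/2: `|sg (1/2)| = |sg (-1/2)|` by evenness of |sg|, giving |c₁|² = exp(eta), so H (x + 1) = H x. Same with I (x = -I/2):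
`|x + I|² - |x|² = 2 Im x + 1`, `|exp (- I eta x)|² = exp (2 eta Im x)`. Then for all l in Λ by induction.
(5) Evenness: `sg (-z) = c sg z` (equal logarithmic derivatives as zt is odd, ℂ minus Λ is connected; or use that
`sg (-z) / sg z` extends to an entire function with derivative 0), and c² = 1, so `H (-x) = H x`.
(6) Laplacians: `log A = 2 log|σ₁| - e |x|²` where σ₁ ≠ 0, and `log |σ₁|` is harmonic (`AnalyticAt.harmonicAt_log_norm`), the
Laplacian of |x|² is 4. The same for `log H` off Λ.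
(7) `e > 0`: H is continuous and periodic, so it has a maximum, at a point x₀ ∉ Λ (as H > 0 off Λ and H = 0 on Λ). Then
`log H` has a local maximum at x₀, so its Laplacian at x₀ is ≤ 0: `-4 e ≤ 0`. With e ≠ 0: e > 0.
-/
theorem stH : StH := by
  obtain ⟨e, he0, he⟩ := HSig.exists_eta_real
  refine ⟨HSig.HH e, HSig.AA e, e, ?_⟩
  exact
    { e_pos := HSig.e_pos he0 he
      A_smooth := HSig.AA_smooth e
      A_pos := fun x hx => HSig.AA_pos e hx
      H_eq := HSig.HH_eq e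
      H_per := HSig.HH_per he
      H_even := fun x => by
        by_cases hx : x ∈ Lam
        · have h1 := HSig.HH_per he 0 x hx
          have h2 := HSig.HH_per he 0 (-x) (Lam.neg_mem hx)
          rw [zero_add] at h1 h2
          rw [h1, h2]
        · exact HSig.HH_neg e hx
      H_pos := fun x hx => HSig.HH_pos e hx
      lap_A := fun x hx => HSig.lap_log HSig.s1_diff (HSig.s1_ne hx) e
      lap_H := fun x hx => HSig.lap_log H171FV.sg_diff (H171FV.sg_ne hx) e }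


end JstH

end Pool.Agent.Y810.SP
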