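import Pool.Agent.Y810.SP.Base

set_option autoImplicit false

open Set Topology Filter
open scoped ContDiff Manifold

namespace Pool.Agent.Y810.SP

namespace JstPot


section JobPot

variable {H A : ℂ → ℝ} {e : ℝ}

theorem jp_zero_mem : (0 : ℂ) ∈ Lam := Lam.zero_mem

theorem jp_H_lam (h : HF H A e) {x : ℂ} (hx : x ∈ Lam) : H x = 0 := by
  have h1 := h.H_per 0 x hx
  rw [zero_add] at h1
  rw [h1, h.H_eq]
  simp

theorem jp_H_nonneg (h : HF H A e) (x : ℂ) : 0 ≤ H x := by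
  by_cases hx : x ∈ Lam
  · rw [jp_H_lam h hx]
  · exact (h.H_pos x hx).le

theorem jp_H_zero (h : HF H A e) {x : ℂ} (hx : H x = 0) : x ∈ Lam := by
  by_contra hn
  exact (h.H_pos x hn).ne' hx

theorem jp_H_smooth (h : HF H A e) : ContDiff ℝ ∞ H := by
  have e1 : H = fun x => ‖x‖ ^ 2 * A x := funext h.H_eq
  rw [e1]
  exact (contDiff_norm_sq ℝ).mul h.A_smooth

theorem jp_xx_smooth (j : Fin 4) : ContDiff ℝ ∞ (xx j) := by
  fin_cases j
  · show ContDiff ℝ ∞ (fun z : E => z.1)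
    fun_prop
  · show ContDiff ℝ ∞ (fun z : E => z.1 * z.2)
    fun_prop
  · show ContDiff ℝ ∞ (fun z : E => z.1 * z.2)
    fun_prop
  · show ContDiff ℝ ∞ (fun z : E => z.1)
    fun_prop

theorem jp_ww_smooth (j : Fin 4) : ContDiff ℝ ∞ (ww j) := by
  fin_cases j
  · show ContDiff ℝ ∞ (fun z : E => z.2 - z.1)
    fun_prop
  · show ContDiff ℝ ∞ (fun z : E => z.2)
    fun_prop
  · show ContDiff ℝ ∞ (fun z : E => z.1 * z.2 ^ 2)
    fun_prop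
  · show ContDiff ℝ ∞ (fun z : E => z.1 ^ 2 * z.2)
    fun_prop

theorem jp_A_xx (h : HF H A e) (j : Fin 4) : ContDiff ℝ ∞ (fun z => A (xx j z)) :=
  h.A_smooth.comp (jp_xx_smooth j)

theorem jp_A_ww (h : HF H A e) (j : Fin 4) : ContDiff ℝ ∞ (fun z => A (ww j z)) :=
  h.A_smooth.comp (jp_ww_smooth j)

theorem jp_n1 : ContDiff ℝ ∞ (fun z : E => ‖z.1‖ ^ 2) := contDiff_fst.norm_sq ℝ

theorem jp_n2 : ContDiff ℝ ∞ (fun z : E => ‖z.2‖ ^ 2) := contDiff_snd.norm_sq ℝ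

theorem jp_n14 : ContDiff ℝ ∞ (fun z : E => ‖z.1‖ ^ 4) := by
  have : (fun z : E => ‖z.1‖ ^ 4) = fun z => (‖z.1‖ ^ 2) ^ 2 := by
    ext z; ring
  rw [this]
  exact jp_n1.pow 2

theorem jp_ca (h : HF H A e) (j : Fin 4) : ContDiff ℝ ∞ (ca H A j) := by
  fin_cases j
  · exact (jp_H_smooth h).comp (jp_ww_smooth 0)
  · exact jp_A_ww h 1
  · exact jp_A_ww h 2
  · exact jp_n2.mul (jp_A_ww h 3)

theorem jp_cb (h : HF H A e) (j : Fin 4) : ContDiff ℝ ∞ (cb H A j) := by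
  fin_cases j
  · exact ((jp_H_smooth h).comp (jp_xx_smooth 0)).pow 2
  · exact (jp_n14.mul jp_n2).mul ((jp_A_xx h 1).pow 2)
  · exact jp_n1.mul ((jp_A_xx h 2).pow 2)
  · exact (jp_A_xx h 3).pow 2

theorem jp_ca1 (h : HF H A e) (j : Fin 4) : ContDiff ℝ ∞ (ca1 H A j) := by
  fin_cases j
  · exact (jp_H_smooth h).comp (jp_ww_smooth 0)
  · exact jp_A_ww h 1
  · exact jp_n2.mul (jp_A_ww h 2)
  · exact (jp_n1.mul jp_n2).mul (jp_A_ww h 3)

theorem jp_cb1 (h : HF H A e) (j : Fin 4) : ContDiff ℝ ∞ (cb1 H A j) := by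
  fin_cases j
  · exact (jp_H_smooth h).comp (jp_xx_smooth 0)
  · exact jp_n1.mul (jp_A_xx h 1)
  · exact jp_A_xx h 2
  · exact jp_A_xx h 3

theorem jp_V0 {z : E} (hz : z ∈ V 0) : ¬ (z.1 ∈ Lam ∧ z.2 ∈ Lam) := by
  have : z ∈ Lam2ᶜ := by simpa [V] using hz
  exact this

theorem jp_Vj {j : Fin 4} (hj : j ≠ 0) {z : E} (hz : z ∈ V j) :
    ‖xx j z‖ < 1 ∧ ‖ww j z‖ < 1 := by
  have : z ∈ {z : E | ‖xx j z‖ < 1 / 8 ∧ ‖ww j z‖ < 1 / 8} := by simpa [V, hj] using hz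
  exact ⟨by linarith [this.1], by linarith [this.2]⟩

theorem jp_pos (h : HF H A e) (j : Fin 4) {z : E} (hz : z ∈ V j) :
    0 < ca H A j z + cb H A j z := by
  by_cases hj : j = 0
  · subst hj
    have h1 : 0 ≤ H (z.2 - z.1) := jp_H_nonneg h _
    have h2 : 0 ≤ H z.1 ^ 2 := sq_nonneg _
    show 0 < H (z.2 - z.1) + H z.1 ^ 2
    by_contra hn
    have h3 : H (z.2 - z.1) = 0 := by linarith
    have h4 : H z.1 ^ 2 = 0 := by linarith
    have h5 : H z.1 = 0 := by simpa using h4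
    have h6 := jp_H_zero h h3
    have h7 := jp_H_zero h h5
    refine jp_V0 hz ⟨h7, ?_⟩
    have := Lam.add_mem h6 h7
    simpa using this
  · obtain ⟨hx, hw⟩ := jp_Vj hj hz
    have ax := h.A_pos _ hx
    have aw := h.A_pos _ hw
    fin_cases j
    · exact absurd rfl hj
    · show 0 < A (ww 1 z) + ‖z.1‖ ^ 4 * ‖z.2‖ ^ 2 * A (xx 1 z) ^ 2
      have : 0 < A (ww 1 z) := aw
      positivity
    · show 0 < A (ww 2 z) + ‖z.1‖ ^ 2 * A (xx 2 z) ^ 2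
      have : 0 < A (ww 2 z) := aw
      positivity
    · show 0 < ‖z.2‖ ^ 2 * A (ww 3 z) + A (xx 3 z) ^ 2
      have : 0 < A (ww 3 z) := aw
      have : 0 < A (xx 3 z) := ax
      positivity

theorem jp_pos1 (h : HF H A e) (j : Fin 4) {z : E} (hz : z ∈ V j) :
    0 < ca1 H A j z + cb1 H A j z := by
  by_cases hj : j = 0
  · subst hj
    have h1 : 0 ≤ H (z.2 - z.1) := jp_H_nonneg h _
    have h2 : 0 ≤ H z.1 := jp_H_nonneg h _
    show 0 < H (z.2 - z.1) + H z.1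
    by_contra hn
    have h3 : H (z.2 - z.1) = 0 := by linarith
    have h5 : H z.1 = 0 := by linarith
    have h6 := jp_H_zero h h3
    have h7 := jp_H_zero h h5
    refine jp_V0 hz ⟨h7, ?_⟩
    have := Lam.add_mem h6 h7
    simpa using this
  · obtain ⟨hx, hw⟩ := jp_Vj hj hz
    have ax := h.A_pos _ hx
    have aw := h.A_pos _ hw
    fin_cases j
    · exact absurd rfl hj
    · show 0 < A (ww 1 z) + ‖z.1‖ ^ 2 * A (xx 1 z)
      have : 0 < A (ww 1 z) := aw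
      have : 0 < A (xx 1 z) := ax
      positivity
    · show 0 < ‖z.2‖ ^ 2 * A (ww 2 z) + A (xx 2 z)
      have : 0 < A (ww 2 z) := aw
      have : 0 < A (xx 2 z) := ax
      positivity
    · show 0 < ‖z.1‖ ^ 2 * ‖z.2‖ ^ 2 * A (ww 3 z) + A (xx 3 z)
      have : 0 < A (ww 3 z) := aw
      have : 0 < A (xx 3 z) := ax
      positivity

theorem jp_tr1 (j : Fin 4) : ContDiff ℝ ∞ (fun z => ‖(tr j z).1‖ ^ 2) :=
  (jp_xx_smooth j).norm_sq ℝ

theorem jp_tr2 (j : Fin 4) : ContDiff ℝ ∞ (fun z => ‖(tr j z).2‖ ^ 2) :=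
  ((jp_ww_smooth j).add (jp_xx_smooth j)).norm_sq ℝ

theorem jp_log (h : HF H A e) (j : Fin 4) {z : E} (hz : z ∈ V j) :
    ContDiffAt ℝ ∞ (fun z => Real.log (ca H A j z + cb H A j z)) z :=
  ((jp_ca h j).add (jp_cb h j)).contDiffAt.log (jp_pos h j hz).ne'

theorem jp_log1 (h : HF H A e) (j : Fin 4) {z : E} (hz : z ∈ V j) :
    ContDiffAt ℝ ∞ (fun z => Real.log (ca1 H A j z + cb1 H A j z)) z :=
  ((jp_ca1 h j).add (jp_cb1 h j)).contDiffAt.log (jp_pos1 h j hz).ne'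

theorem jp_Th_smooth (h : HF H A e) : Sm (Th H A e) := by
  intro j z hz
  exact ((contDiff_const.mul (jp_tr1 j)).contDiffAt.add
    (contDiff_const.mul (jp_tr2 j)).contDiffAt).add (jp_log h j hz)

theorem jp_Om_smooth (h : HF H A e) : Sm (Om H A e) := by
  intro j z hz
  exact (((contDiff_const.mul (jp_tr1 j)).contDiffAt.add
    (contDiff_const.mul (jp_tr2 j)).contDiffAt).add (jp_log h j hz)).add (jp_log1 h j hz)

/-- the factor `m` -/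
noncomputable def jpm : Fin 4 → E → ℂ
  | 0 => fun _ => 1
  | 1 => fun z => z.2
  | 2 => fun z => z.1 * z.2 ^ 2
  | 3 => fun z => z.1 ^ 2

/-- the factor `n` -/
noncomputable def jpn : Fin 4 → E → ℂ
  | 0 => fun _ => 1
  | 1 => fun z => z.2
  | 2 => fun z => z.1 * z.2
  | 3 => fun z => z.1

theorem jp_m_an (j : Fin 4) : ContDiff ℂ ω (jpm j) := by
  fin_cases j
  · show ContDiff ℂ ω (fun _ : E => (1 : ℂ))
    fun_prop
  · show ContDiff ℂ ω (fun z : E => z.2)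
    fun_prop
  · show ContDiff ℂ ω (fun z : E => z.1 * z.2 ^ 2)
    fun_prop
  · show ContDiff ℂ ω (fun z : E => z.1 ^ 2)
    fun_prop

theorem jp_n_an (j : Fin 4) : ContDiff ℂ ω (jpn j) := by
  fin_cases j
  · show ContDiff ℂ ω (fun _ : E => (1 : ℂ))
    fun_prop
  · show ContDiff ℂ ω (fun z : E => z.2)
    fun_prop
  · show ContDiff ℂ ω (fun z : E => z.1 * z.2)
    fun_prop
  · show ContDiff ℂ ω (fun z : E => z.1)
    fun_prop

theorem jp_ma (h : HF H A e) (j : Fin 4) (z : E) : H (ww j z) = ‖jpm j z‖ ^ 2 * ca H A j z := by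
  fin_cases j
  · show H (z.2 - z.1) = ‖(1 : ℂ)‖ ^ 2 * H (z.2 - z.1)
    simp
  · show H z.2 = ‖z.2‖ ^ 2 * A z.2
    exact h.H_eq _
  · show H (z.1 * z.2 ^ 2) = ‖z.1 * z.2 ^ 2‖ ^ 2 * A (z.1 * z.2 ^ 2)
    exact h.H_eq _
  · show H (z.1 ^ 2 * z.2) = ‖z.1 ^ 2‖ ^ 2 * (‖z.2‖ ^ 2 * A (z.1 ^ 2 * z.2))
    rw [h.H_eq, norm_mul, norm_pow]
    ring

theorem jp_mb (h : HF H A e) (j : Fin 4) (z : E) :
    H (xx j z) ^ 2 = ‖jpm j z‖ ^ 2 * cb H A j z := by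
  fin_cases j
  · show H z.1 ^ 2 = ‖(1 : ℂ)‖ ^ 2 * H z.1 ^ 2
    simp
  · show H (z.1 * z.2) ^ 2 = ‖z.2‖ ^ 2 * (‖z.1‖ ^ 4 * ‖z.2‖ ^ 2 * A (z.1 * z.2) ^ 2)
    rw [h.H_eq, norm_mul]
    ring
  · show H (z.1 * z.2) ^ 2 = ‖z.1 * z.2 ^ 2‖ ^ 2 * (‖z.1‖ ^ 2 * A (z.1 * z.2) ^ 2)
    rw [h.H_eq, norm_mul, norm_mul, norm_pow]
    ring
  · show H z.1 ^ 2 = ‖z.1 ^ 2‖ ^ 2 * A z.1 ^ 2
    rw [h.H_eq, norm_pow]
    ring

theorem jp_na (h : HF H A e) (j : Fin 4) (z : E) : H (ww j z) = ‖jpn j z‖ ^ 2 * ca1 H A j z := by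
  fin_cases j
  · show H (z.2 - z.1) = ‖(1 : ℂ)‖ ^ 2 * H (z.2 - z.1)
    simp
  · show H z.2 = ‖z.2‖ ^ 2 * A z.2
    exact h.H_eq _
  · show H (z.1 * z.2 ^ 2) = ‖z.1 * z.2‖ ^ 2 * (‖z.2‖ ^ 2 * A (z.1 * z.2 ^ 2))
    rw [h.H_eq, norm_mul, norm_mul, norm_pow]
    ring
  · show H (z.1 ^ 2 * z.2) = ‖z.1‖ ^ 2 * (‖z.1‖ ^ 2 * ‖z.2‖ ^ 2 * A (z.1 ^ 2 * z.2))
    rw [h.H_eq, norm_mul, norm_pow]
    ring

theorem jp_nb (h : HF H A e) (j : Fin 4) (z : E) : H (xx j z) = ‖jpn j z‖ ^ 2 * cb1 H A j z := by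
  fin_cases j
  · show H z.1 = ‖(1 : ℂ)‖ ^ 2 * H z.1
    simp
  · show H (z.1 * z.2) = ‖z.2‖ ^ 2 * (‖z.1‖ ^ 2 * A (z.1 * z.2))
    rw [h.H_eq, norm_mul]
    ring
  · show H (z.1 * z.2) = ‖z.1 * z.2‖ ^ 2 * A (z.1 * z.2)
    exact h.H_eq _
  · show H z.1 = ‖z.1‖ ^ 2 * A z.1
    exact h.H_eq _

theorem jp_mn_ne (C : Coord) (j : Fin 4) {z : E} (hz : z ∈ V j) (ht : tr j z ∈ V 0) :
    jpm j z ≠ 0 ∧ jpn j z ≠ 0 := by
  by_cases hj : j = 0
  · subst hj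
    exact ⟨one_ne_zero, one_ne_zero⟩
  · have hne := (C.exc j hj z hz).mp ht
    have key : ∀ a : E, (xx j a = 0 ∧ ww j a = 0) → tr j a = 0 := by
      rintro a ⟨h1, h2⟩
      simp only [tr, h1, h2, add_zero]
      rfl
    fin_cases j
    · exact absurd rfl hj
    · have h0 : z.2 ≠ 0 := by
        intro h0
        apply hne
        apply key
        exact ⟨by show z.1 * z.2 = 0; rw [h0, mul_zero], h0⟩
      exact ⟨h0, h0⟩
    · have h1 : z.1 ≠ 0 := by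
        intro h0
        apply hne
        apply key
        exact ⟨by show z.1 * z.2 = 0; rw [h0, zero_mul], by show z.1 * z.2 ^ 2 = 0; rw [h0, zero_mul]⟩
      have h2 : z.2 ≠ 0 := by
        intro h0
        apply hne
        apply key
        exact ⟨by show z.1 * z.2 = 0; rw [h0, mul_zero], by show z.1 * z.2 ^ 2 = 0; rw [h0]; ring⟩
      exact ⟨mul_ne_zero h1 (pow_ne_zero 2 h2), mul_ne_zero h1 h2⟩
    · have h1 : z.1 ≠ 0 := by
        intro h0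
        apply hne
        apply key
        exact ⟨h0, by show z.1 ^ 2 * z.2 = 0; rw [h0]; ring⟩
      exact ⟨pow_ne_zero 2 h1, h1⟩

theorem jp_lev_log (L : LevBasics) (τ : E → ℂ) (z v : E) (hτ : ContDiffAt ℂ ω τ z)
    (h0 : τ z ≠ 0) : lev (fun t => (-1) * Real.log (‖τ t‖ ^ 2)) z v = 0 := by
  have hs : ContDiffAt ℝ 2 (fun t => Real.log (‖τ t‖ ^ 2)) z := by
    have h1 : ContDiffAt ℝ 2 τ z := (hτ.restrict_scalars ℝ).of_le le_top
    exact (h1.norm_sq ℝ).log (by positivity)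
  rw [L.smul (-1) _ z v hs, L.log τ z v hτ h0, mul_zero]

theorem jp_log_smooth (τ : E → ℂ) (z : E) (hτ : ContDiffAt ℂ ω τ z)
    (h0 : τ z ≠ 0) : ContDiffAt ℝ 2 (fun t => (-1) * Real.log (‖τ t‖ ^ 2)) z := by
  have h1 : ContDiffAt ℝ 2 τ z := (hτ.restrict_scalars ℝ).of_le le_top
  exact contDiffAt_const.mul ((h1.norm_sq ℝ).log (by positivity))

theorem jp_lev_sq1 (L : LevBasics) (c : ℝ) (a : ℂ) (z v : E) :
    lev (fun t => c * ‖t.1 + a‖ ^ 2) z v = c * (‖v.1‖ ^ 2 * 4) := by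
  have h2 : ContDiffAt ℝ 2 (fun t : E => ‖t.1 + a‖ ^ 2) z :=
    (contDiff_fst.add contDiff_const).contDiffAt.norm_sq ℝ
  rw [L.smul c _ z v h2]
  have h3 := L.one (fun x : ℂ => ‖x‖ ^ 2) (fun t : E => t.1 + a) z v
    (by fun_prop) (contDiff_norm_sq ℝ).contDiffAt
  rw [h3, L.sq]
  have h4 : fderiv ℂ (fun t : E => t.1 + a) z v = v.1 := by
    rw [fderiv_add_const, fderiv_fst]
    rfl
  rw [h4]

theorem jp_lev_sq2 (L : LevBasics) (c : ℝ) (a : ℂ) (z v : E) :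
    lev (fun t => c * ‖t.2 + a‖ ^ 2) z v = c * (‖v.2‖ ^ 2 * 4) := by
  have h2 : ContDiffAt ℝ 2 (fun t : E => ‖t.2 + a‖ ^ 2) z :=
    (contDiff_snd.add contDiff_const).contDiffAt.norm_sq ℝ
  rw [L.smul c _ z v h2]
  have h3 := L.one (fun x : ℂ => ‖x‖ ^ 2) (fun t : E => t.2 + a) z v
    (by fun_prop) (contDiff_norm_sq ℝ).contDiffAt
  rw [h3, L.sq]
  have h4 : fderiv ℂ (fun t : E => t.2 + a) z v = v.2 := by
    rw [fderiv_add_const, fderiv_snd]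
    rfl
  rw [h4]

theorem jp_quad (L : LevBasics) (c d : ℝ) (a b : ℂ) (z v : E) :
    lev (fun t => (c * ‖t.1 + a‖ ^ 2 + d * ‖t.2 + b‖ ^ 2) -
      (c * ‖t.1 + 0‖ ^ 2 + d * ‖t.2 + 0‖ ^ 2)) z v = 0 := by
  have s1 : ∀ (c : ℝ) (a : ℂ), ContDiffAt ℝ 2 (fun t : E => c * ‖t.1 + a‖ ^ 2) z := fun c a =>
    contDiffAt_const.mul ((contDiff_fst.add contDiff_const).contDiffAt.norm_sq ℝ)
  have s2 : ∀ (c : ℝ) (a : ℂ), ContDiffAt ℝ 2 (fun t : E => c * ‖t.2 + a‖ ^ 2) z := fun c a =>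
    contDiffAt_const.mul ((contDiff_snd.add contDiff_const).contDiffAt.norm_sq ℝ)
  rw [L.sub _ _ z v ((s1 c a).add (s2 d b)) ((s1 c 0).add (s2 d 0)),
    L.add _ _ z v (s1 c a) (s2 d b), L.add _ _ z v (s1 c 0) (s2 d 0)]
  rw [jp_lev_sq1 L, jp_lev_sq2 L, jp_lev_sq1 L, jp_lev_sq2 L, sub_self]

theorem jp_ca0_per (h : HF H A e) {l : E} (hl : l ∈ Lam2) (t : E) :
    ca H A 0 (t + l) = ca H A 0 t := by
  show H ((t + l).2 - (t + l).1) = H (t.2 - t.1)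
  have : (t + l).2 - (t + l).1 = (t.2 - t.1) + (l.2 - l.1) := by
    simp only [Prod.snd_add, Prod.fst_add]; ring
  rw [this, h.H_per _ _ (Lam.sub_mem hl.2 hl.1)]

theorem jp_cb0_per (h : HF H A e) {l : E} (hl : l ∈ Lam2) (t : E) :
    cb H A 0 (t + l) = cb H A 0 t := by
  show H (t + l).1 ^ 2 = H t.1 ^ 2
  rw [Prod.fst_add, h.H_per _ _ hl.1]

theorem jp_cb10_per (h : HF H A e) {l : E} (hl : l ∈ Lam2) (t : E) :
    cb1 H A 0 (t + l) = cb1 H A 0 t := by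
  show H (t + l).1 = H t.1
  rw [Prod.fst_add, h.H_per _ _ hl.1]

theorem jp_ca10_per (h : HF H A e) {l : E} (hl : l ∈ Lam2) (t : E) :
    ca1 H A 0 (t + l) = ca1 H A 0 t := jp_ca0_per h hl t

theorem jp_Th0 (t : E) : Th H A e 0 t =
    e * ‖t.1‖ ^ 2 + 3 * e * ‖t.2‖ ^ 2 + Real.log (ca H A 0 t + cb H A 0 t) := by
  have h1 : (tr 0 t).1 = t.1 := rfl
  have h2 : (tr 0 t).2 = t.2 := by show t.2 - t.1 + t.1 = t.2; ring
  simp only [Th, h1, h2]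

theorem jp_Om0 (t : E) : Om H A e 0 t =
    8 * e * ‖t.1‖ ^ 2 + 8 * e * ‖t.2‖ ^ 2 + Real.log (ca H A 0 t + cb H A 0 t) +
      Real.log (ca1 H A 0 t + cb1 H A 0 t) := by
  have h1 : (tr 0 t).1 = t.1 := rfl
  have h2 : (tr 0 t).2 = t.2 := by show t.2 - t.1 + t.1 = t.2; ring
  simp only [Om, h1, h2]

theorem jp_tr_ca (h : HF H A e) (j : Fin 4) (t : E) :
    ca H A 0 (tr j t) = ‖jpm j t‖ ^ 2 * ca H A j t := by
  rw [← jp_ma h j t]
  show H ((ww j t + xx j t) - xx j t) = H (ww j t)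
  rw [add_sub_cancel_right]

theorem jp_tr_cb (h : HF H A e) (j : Fin 4) (t : E) :
    cb H A 0 (tr j t) = ‖jpm j t‖ ^ 2 * cb H A j t := by
  rw [← jp_mb h j t]
  rfl

theorem jp_tr_ca1 (h : HF H A e) (j : Fin 4) (t : E) :
    ca1 H A 0 (tr j t) = ‖jpn j t‖ ^ 2 * ca1 H A j t := by
  rw [← jp_na h j t]
  show H ((ww j t + xx j t) - xx j t) = H (ww j t)
  rw [add_sub_cancel_right]

theorem jp_tr_cb1 (h : HF H A e) (j : Fin 4) (t : E) :
    cb1 H A 0 (tr j t) = ‖jpn j t‖ ^ 2 * cb1 H A j t := by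
  rw [← jp_nb h j t]
  rfl

theorem jp_ev (C : Coord) (j : Fin 4) {z : E} (hz : z ∈ V j) (ht : tr j z ∈ V 0) :
    ∀ᶠ t in 𝓝 z, t ∈ V j ∧ jpm j t ≠ 0 ∧ jpn j t ≠ 0 := by
  have h1 : ∀ᶠ t in 𝓝 z, t ∈ V j := (C.open_V j).mem_nhds hz
  have h2 : ∀ᶠ t in 𝓝 z, jpm j t ≠ 0 :=
    (jp_m_an j).continuous.continuousAt.eventually_ne (jp_mn_ne C j hz ht).1
  have h3 : ∀ᶠ t in 𝓝 z, jpn j t ≠ 0 :=
    (jp_n_an j).continuous.continuousAt.eventually_ne (jp_mn_ne C j hz ht).2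
  filter_upwards [h1, h2, h3] with t a b c
  exact ⟨a, b, c⟩

theorem jp_log_split {a b p : ℝ} (hp : p ≠ 0) (hab : 0 < a + b) :
    Real.log (p ^ 2 * a + p ^ 2 * b) = Real.log (p ^ 2) + Real.log (a + b) := by
  rw [← mul_add, Real.log_mul (pow_ne_zero 2 hp) hab.ne']

end JobPot

/-- TARGET. Proof in words:
Smoothness: the arguments of the logarithms are positive and smooth on V j. j = 0: z ∉ Lam2; H ≥ 0 with H = 0 exactly on
Lam (from H_pos and H = |x|²A, H_per: H l = H 0 = 0); if H x = 0 and H w = 0 then x, w ∈ Lam, so y = w + x ∈ Lam, impossible;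
so `ca + cb = H w + (H x)² > 0`, `ca1 + cb1 = H w + H x > 0`. j ≥ 1: |x|, |w| < 1/8 so A x, A w > 0; `ca > 0` for j = 1,2 and `cb > 0` for j = 3;
`ca1 > 0` for j = 1 and `cb1 > 0` for j = 2, 3; the others are ≥ 0. H is smooth because H = |x|² A x (`HF.H_eq`, A_smooth).
per: for l ∈ Lam2 the logarithms are periodic, so near z `F 0 (t + l) - F 0 t = c₁ (|t₁ + l₁|² - |t₁|²) + c₂ (|t₂ + l₂|² - |t₂|²)`, and
`|x + l|² - |x|² = 2 Re (conj l * x) + |l|²` has Levi form 0 (use `L.one`/`L.fst`/`L.eq` and the Laplacian of |x + l|² = 4 = that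
of |x|²).
compat: j = 0: tr 0 = id, the difference is 0. j ≥ 1: near z with tr j z ∈ V 0 (so tr j z ≠ 0) one has with m = η, ξη², ξ² (j = 1,2,3),
n = η, ξη, ξ (m, n ≠ 0 near z): `H w = |m|² ca j`, `(H x)² = |m|² cb j`, `H w = |n|² ca1 j`, `H x = |n|² cb1 j` (w = η, ξη², ξ²η; x = ξη, ξη, ξ; H t = |t|² A t), so
`F j t - F 0 (tr j t) = - log |m|²` (resp. `- log|m|² - log|n|²` for Om), whose Levi form vanishes (`L.log`).
-/
theorem stPot (L : LevBasics) (C : Coord) : StPot := by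
  intro H A e h
  refine ⟨⟨jp_Th_smooth h, ?_, ?_⟩, ⟨jp_Om_smooth h, ?_, ?_⟩⟩
  · intro z l _ hl v
    have e1 : (fun t => Th H A e 0 (t + l) - Th H A e 0 t) =
        fun t => (e * ‖t.1 + l.1‖ ^ 2 + (3 * e) * ‖t.2 + l.2‖ ^ 2) -
          (e * ‖t.1 + 0‖ ^ 2 + (3 * e) * ‖t.2 + 0‖ ^ 2) := by
      ext t
      rw [jp_Th0, jp_Th0, jp_ca0_per h hl, jp_cb0_per h hl]
      simp only [Prod.fst_add, Prod.snd_add, add_zero]
      ring
    rw [e1, jp_quad L]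
  · intro j z hz ht v
    have e1 : ∀ᶠ t in 𝓝 z, Th H A e j t - Th H A e 0 (tr j t) =
        (-1) * Real.log (‖jpm j t‖ ^ 2) := by
      filter_upwards [jp_ev C j hz ht] with t hh
      obtain ⟨h1, h2, h3⟩ := hh
      have h4 : Real.log (ca H A 0 (tr j t) + cb H A 0 (tr j t)) =
          Real.log (‖jpm j t‖ ^ 2) + Real.log (ca H A j t + cb H A j t) := by
        rw [jp_tr_ca h, jp_tr_cb h, jp_log_split (norm_ne_zero_iff.mpr h2) (jp_pos h j h1)]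
      rw [jp_Th0, h4]
      simp only [Th]
      ring
    rw [L.congr _ _ z v e1, jp_lev_log L _ z v (jp_m_an j).contDiffAt (jp_mn_ne C j hz ht).1]
  · intro z l _ hl v
    have e1 : (fun t => Om H A e 0 (t + l) - Om H A e 0 t) =
        fun t => ((8 * e) * ‖t.1 + l.1‖ ^ 2 + (8 * e) * ‖t.2 + l.2‖ ^ 2) -
          ((8 * e) * ‖t.1 + 0‖ ^ 2 + (8 * e) * ‖t.2 + 0‖ ^ 2) := by
      ext t
      rw [jp_Om0, jp_Om0, jp_ca0_per h hl, jp_cb0_per h hl, jp_ca10_per h hl, jp_cb10_per h hl]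
      simp only [Prod.fst_add, Prod.snd_add, add_zero]
      ring
    rw [e1, jp_quad L]
  · intro j z hz ht v
    have e1 : ∀ᶠ t in 𝓝 z, Om H A e j t - Om H A e 0 (tr j t) =
        (-1) * Real.log (‖jpm j t‖ ^ 2) + (-1) * Real.log (‖jpn j t‖ ^ 2) := by
      filter_upwards [jp_ev C j hz ht] with t hh
      obtain ⟨h1, h2, h3⟩ := hh
      have h4 : Real.log (ca H A 0 (tr j t) + cb H A 0 (tr j t)) =
          Real.log (‖jpm j t‖ ^ 2) + Real.log (ca H A j t + cb H A j t) := by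
        rw [jp_tr_ca h, jp_tr_cb h, jp_log_split (norm_ne_zero_iff.mpr h2) (jp_pos h j h1)]
      have h5 : Real.log (ca1 H A 0 (tr j t) + cb1 H A 0 (tr j t)) =
          Real.log (‖jpn j t‖ ^ 2) + Real.log (ca1 H A j t + cb1 H A j t) := by
        rw [jp_tr_ca1 h, jp_tr_cb1 h, jp_log_split (norm_ne_zero_iff.mpr h3) (jp_pos1 h j h1)]
      rw [jp_Om0, h4, h5]
      simp only [Om]
      ring
    rw [L.congr _ _ z v e1, L.add _ _ z v
      (jp_log_smooth _ z (jp_m_an j).contDiffAt (jp_mn_ne C j hz ht).1)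
      (jp_log_smooth _ z (jp_n_an j).contDiffAt (jp_mn_ne C j hz ht).2),
      jp_lev_log L _ z v (jp_m_an j).contDiffAt (jp_mn_ne C j hz ht).1,
      jp_lev_log L _ z v (jp_n_an j).contDiffAt (jp_mn_ne C j hz ht).2, add_zero]


end JstPot

end Pool.Agent.Y810.SP
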