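import Pool.Agent.Y810.SP.Base
import Pool.Agent.Y625.SP.Max

set_option autoImplicit false

open Set Topology Filter
open scoped ContDiff

namespace Pool.Agent.Y810.SP

theorem stMax : StMax := Pool.Agent.Y625.SP.max_thm

end Pool.Agent.Y810.SP
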